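import Pool.Agent.Run7.h757.MW.Stm

set_option autoImplicit false

open Finset MeasureTheory Filter

namespace Pool.Agent.Run7.h937.MW
open Pool.Agent.Run7.h757.MW

lemma one_add_pow_le (s : ℝ) (h0 : 0 ≤ s) (h1 : s ≤ 1) (k : ℕ) :
    (1 + s) ^ k ≤ 1 + (2 ^ k - 1) * s := by
  induction k with
  | zero => simp
  | succ k ih =>
    have hk : (1:ℝ) ≤ 2 ^ k := one_le_pow₀ (by norm_num)
    calc (1 + s) ^ (k+1) = (1+s)^k * (1+s) := pow_succ _ _
      _ ≤ (1 + (2^k - 1) * s) * (1+s) := by gcongr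
      _ ≤ _ := by
        rw [pow_succ]
        nlinarith [mul_nonneg (sub_nonneg.2 hk) (mul_nonneg h0 (sub_nonneg.2 h1))]

open Classical in
/-- card of a filtered block as an `ncard` -/
lemma ncard_eq (W : Set ℕ) (a b : ℕ) (x y : ℝ) (h1 : (a : ℝ) ≤ x) (h2 : x + y ≤ b) :
    ((W ∩ {n : ℕ | x < n ∧ (n : ℝ) ≤ x + y}).ncard : ℝ) =
      (((Ioc a b).filter (fun n => n ∈ W ∧ x < n ∧ (n : ℝ) ≤ x + y)).card : ℝ) := by
  rw [← Set.ncard_coe_finset]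
  congr 2
  ext n
  simp only [Set.mem_inter_iff, Set.mem_ofPred_eq, coe_filter, mem_Ioc]
  constructor
  · rintro ⟨h3, h4, h5⟩
    refine ⟨⟨?_, ?_⟩, h3, h4, h5⟩
    · exact_mod_cast lt_of_le_of_lt h1 h4
    · exact_mod_cast h5.trans h2
  · rintro ⟨_, h3, h4, h5⟩
    exact ⟨h3, h4, h5⟩

lemma log_two_pow (j : ℕ) : Real.log ((2:ℝ) ^ j) ≤ (j : ℝ) + 1 := by
  rw [Real.log_pow]
  have h : Real.log 2 ≤ 1 := by
    have := Real.log_two_lt_d9; linarith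
  have hj : (0:ℝ) ≤ j := Nat.cast_nonneg j
  nlinarith

lemma aux1 (η A J L : ℝ) (hA : A ≠ 0) : η / A * (A * J * L) = η * L * J := by
  field_simp

lemma aux2 (c η T N A J : ℝ) (hA : A ≠ 0) (hT : T ≠ 0) (hJ : J ≠ 0) :
    c * η / T * N / (A * J) = c * (η / A * N) / (T * J) := by
  field_simp

open Classical in
lemma other (c t : ℝ) (W : Set ℕ) (hc : 0 < c) (ht : 0 ≤ t) (hW : Reg c t W) :
    ∀ᶠ j : ℕ in atTop, c * (2:ℝ) ^ j / ((j:ℝ) + 1) ^ t ≤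
      (((Ioc (2 ^ j) (2 * 2 ^ j)).filter (· ∈ W)).card : ℝ) := by
  obtain ⟨x₀, hx₀⟩ := hW 0
  have hlim : Tendsto (fun j : ℕ => (2:ℝ) ^ j) atTop atTop :=
    tendsto_pow_atTop_atTop_of_one_lt (by norm_num)
  filter_upwards [hlim.eventually_ge_atTop x₀, eventually_ge_atTop 1] with j hj hj1
  have h1 := hx₀ ((2:ℝ)^j) ((2:ℝ)^j) hj (by rw [Real.rpow_zero, div_one]) le_rfl
  rw [ncard_eq W (2^j) (2 * 2^j) _ _ (by push_cast; exact le_rfl) (by push_cast; linarith)] at h1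
  have h2 : (((Ioc (2 ^ j) (2 * 2 ^ j)).filter
      (fun n => n ∈ W ∧ (2:ℝ)^j < n ∧ (n : ℝ) ≤ (2:ℝ)^j + (2:ℝ)^j)).card : ℝ) ≤
      (((Ioc (2 ^ j) (2 * 2 ^ j)).filter (· ∈ W)).card : ℝ) := by
    gcongr with n hn
    rintro ⟨h, _⟩
    exact h
  refine le_trans ?_ (h1.trans h2)
  have hlog : 0 < Real.log ((2:ℝ)^j) := Real.log_pos (one_lt_pow₀ (by norm_num) (by omega))
  apply div_le_div_of_nonneg_left (by positivity) (Real.rpow_pos_of_pos hlog t)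
  exact Real.rpow_le_rpow hlog.le (log_two_pow j) ht

open Classical in
lemma special (c t : ℝ) (W : Set ℕ) (hc : 0 < c) (ht : 0 ≤ t) (hW : Reg c t W) (k : ℕ)
    (hk : 1 ≤ k) (lam : ℝ) (hlam : 0 < lam) (C : ℝ) (hC : 0 < C) (K : ℕ) (hK : 2 ≤ K)
    (hCK : C ≤ lam * ((K:ℝ) / 2) ^ k) (B : ℕ) :
    ∃ c₄ : ℝ, 0 < c₄ ∧ ∀ᶠ j : ℕ in atTop, ∀ z : ℕ,
      lam * 2 ^ k * (2 : ℝ) ^ (j * k) ≤ z → (z : ℝ) ≤ C * (2 : ℝ) ^ (j * k) →
      c₄ * (2 : ℝ) ^ j / ((j : ℝ) + 1) ^ (B + t) ≤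
        (((blk W K (2 ^ j)).filter fun n => z ≤ fl lam (n ^ k) ∧
          2 * (fl lam (n ^ k) - z) ≤ ⌊(2 : ℝ) ^ (j * k) / ((j : ℝ) + 1) ^ B⌋₊).card : ℝ) := by
  -- choice of η
  obtain ⟨η, hη0, hη1, hη2⟩ : ∃ η : ℝ, 0 < η ∧ η ≤ 1 ∧ 2 * (C * 2 ^ k * η) ≤ 1 / 2 := by
    refine ⟨min 1 (1 / (4 * (C * 2 ^ k))), by positivity, min_le_left _ _, ?_⟩
    have h1 : min 1 (1 / (4 * (C * 2 ^ k))) ≤ 1 / (4 * (C * 2 ^ k)) := min_le_right _ _
    have h2 : 0 < C * 2 ^ k := by positivity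
    calc 2 * (C * 2 ^ k * min 1 (1 / (4 * (C * 2 ^ k))))
        ≤ 2 * (C * 2 ^ k * (1 / (4 * (C * 2 ^ k)))) := by gcongr
      _ = 1 / 2 := by field_simp; norm_num
  obtain ⟨x₀, hx₀⟩ := hW ((B:ℝ) + 1)
  refine ⟨c * η / 2 ^ t, by positivity, ?_⟩
  have hlim : Tendsto (fun j : ℕ => (2:ℝ) ^ j) atTop atTop :=
    tendsto_pow_atTop_atTop_of_one_lt (by norm_num)
  have hl2 : 0 < Real.log 2 := Real.log_pos (by norm_num)
  have hjlim : Tendsto (fun j : ℕ => (j:ℝ)) atTop atTop := tendsto_natCast_atTop_atTop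
  have hE3 : ∀ᶠ j : ℕ in atTop, 1 / η / (Real.log 2) ^ (B+1) ≤ (j:ℝ) :=
    hjlim.eventually_ge_atTop _
  have hE4 : ∀ᶠ j : ℕ in atTop, Real.log K ≤ (j:ℝ) := hjlim.eventually_ge_atTop _
  have hE5 : ∀ᶠ j : ℕ in atTop, 2 * ((j:ℝ) + 1) ^ B ≤ (2:ℝ) ^ j := by
    have h := tendsto_pow_const_div_const_pow_of_one_lt B (r := (2:ℝ)) (by norm_num)
    have h1 : ∀ᶠ n : ℕ in atTop, ((n:ℝ)) ^ B / 2 ^ n < 1 / 4 :=
      h.eventually_lt_const (by norm_num)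
    have h2 := (tendsto_add_atTop_nat 1).eventually h1
    filter_upwards [h2] with j hj
    have h3 : (0:ℝ) < 2 ^ (j+1) := by positivity
    rw [div_lt_iff₀ h3, pow_succ] at hj
    push_cast at hj
    linarith
  filter_upwards [hlim.eventually_ge_atTop x₀, eventually_ge_atTop 1, hE3, hE4, hE5] with
    j hj hj1 hj3 hj4 hj5
  intro z hz1 hz2
  set N : ℝ := (2:ℝ) ^ j with hN
  have hNpos : 0 < N := by positivity
  have hN1 : 1 < N := one_lt_pow₀ (by norm_num) (by omega)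
  have hNk : (2:ℝ) ^ (j * k) = N ^ k := by rw [hN, pow_mul]
  rw [hNk] at hz1 hz2
  have hj0 : (0:ℝ) ≤ j := Nat.cast_nonneg j
  have hjp : (1:ℝ) ≤ (j:ℝ) + 1 := by linarith
  -- x
  set w : ℝ := (z:ℝ) / lam with hw
  have hw0 : 0 ≤ w := by positivity
  set x : ℝ := w ^ ((k:ℝ)⁻¹) with hx
  have hx0 : 0 ≤ x := Real.rpow_nonneg hw0 _
  have hxk : x ^ k = w := Real.rpow_inv_natCast_pow hw0 (by omega)
  have hw1 : (2 * N) ^ k ≤ w := by
    rw [hw, le_div_iff₀ hlam, mul_pow]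
    calc 2 ^ k * N ^ k * lam = lam * 2 ^ k * N ^ k := by ring
      _ ≤ z := hz1
  have hw2 : w ≤ ((K:ℝ) / 2 * N) ^ k := by
    rw [hw, div_le_iff₀ hlam, mul_pow]
    calc (z:ℝ) ≤ C * N ^ k := hz2
      _ ≤ (lam * ((K:ℝ) / 2) ^ k) * N ^ k := by gcongr
      _ = _ := by ring
  have hx1 : 2 * N ≤ x := by
    rw [← hxk] at hw1
    exact le_of_pow_le_pow_left₀ (by omega) hx0 hw1
  have hx2 : x ≤ (K:ℝ) / 2 * N := by
    rw [← hxk] at hw2
    exact le_of_pow_le_pow_left₀ (by omega) (by positivity) hw2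
  have hx1' : 1 < x := by linarith
  have hlogx : 0 < Real.log x := Real.log_pos hx1'
  set s : ℝ := η / ((j:ℝ) + 1) ^ B with hs
  have hs0 : 0 < s := by positivity
  have hs1 : s ≤ 1 := by
    rw [hs, div_le_one (by positivity)]
    exact hη1.trans (one_le_pow₀ hjp)
  -- Reg
  have hlog1 : ((j:ℝ) + 1) * Real.log 2 ≤ Real.log x := by
    have h1 : Real.log (2 * N) ≤ Real.log x := Real.log_le_log (by positivity) hx1
    have h2 : Real.log (2 * N) = ((j:ℝ) + 1) * Real.log 2 := by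
      rw [Real.log_mul (by norm_num) hNpos.ne', hN, Real.log_pow]; ring
    rw [← h2]; exact h1
  have hlog2 : Real.log x ≤ 2 * ((j:ℝ) + 1) := by
    have h1 : Real.log x ≤ Real.log ((K:ℝ) / 2 * N) := Real.log_le_log (by linarith) hx2
    have hK0 : (0:ℝ) < K := by positivity
    have h2 : Real.log ((K:ℝ) / 2 * N) ≤ Real.log ((K:ℝ) * N) := by
      apply Real.log_le_log (by positivity)
      nlinarith
    rw [Real.log_mul hK0.ne' hNpos.ne'] at h2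
    have h3 := log_two_pow j
    rw [← hN] at h3
    linarith
  have hcond : x / (Real.log x) ^ ((B:ℝ) + 1) ≤ s * x := by
    rw [div_le_iff₀ (Real.rpow_pos_of_pos hlogx _)]
    have h1 : (Real.log x) ^ ((B:ℝ) + 1) = (Real.log x) ^ (B + 1) := by
      rw [← Real.rpow_natCast]; push_cast; rfl
    rw [h1]
    have h2 : (((j:ℝ) + 1) * Real.log 2) ^ (B + 1) ≤ (Real.log x) ^ (B + 1) := by
      gcongr
    have h3 : 1 ≤ s * (((j:ℝ) + 1) * Real.log 2) ^ (B + 1) := by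
      rw [hs, mul_pow, pow_succ ((j:ℝ)+1) B]
      have h4 : 1 ≤ η * (Real.log 2) ^ (B+1) * ((j:ℝ) + 1) := by
        rw [div_div, div_le_iff₀ (by positivity)] at hj3
        have h5 : 0 < η * Real.log 2 ^ (B+1) := by positivity
        nlinarith
      rw [aux1 _ _ _ _ (by positivity : ((j:ℝ) + 1) ^ B ≠ 0)]; exact h4
    have h6 : 1 ≤ s * (Real.log x) ^ (B + 1) := h3.trans (by gcongr)
    nlinarith
  have hreg := hx₀ x (s * x) (by linarith) hcond (by nlinarith)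
  have hsx : s * x ≤ x := by nlinarith
  have hub : x + s * x ≤ ((K * 2 ^ j : ℕ) : ℝ) := by
    push_cast
    rw [← hN]
    linarith
  rw [ncard_eq W (2 ^ j) (K * 2 ^ j) x (s * x) (by push_cast; rw [← hN]; linarith) hub] at hreg
  -- comparison of counts
  have hcount : (((Ioc (2 ^ j) (K * 2 ^ j)).filter
      (fun n => n ∈ W ∧ x < n ∧ (n : ℝ) ≤ x + s * x)).card : ℝ) ≤
      (((blk W K (2 ^ j)).filter fun n => z ≤ fl lam (n ^ k) ∧
          2 * (fl lam (n ^ k) - z) ≤ ⌊(2 : ℝ) ^ (j * k) / ((j : ℝ) + 1) ^ B⌋₊).card : ℝ) := by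
    have hsub : (Ioc (2 ^ j) (K * 2 ^ j)).filter
        (fun n => n ∈ W ∧ x < n ∧ (n : ℝ) ≤ x + s * x) ⊆
        (blk W K (2 ^ j)).filter fun n => z ≤ fl lam (n ^ k) ∧
          2 * (fl lam (n ^ k) - z) ≤ ⌊(2 : ℝ) ^ (j * k) / ((j : ℝ) + 1) ^ B⌋₊ := by
      intro n hn
      rw [mem_filter] at hn
      obtain ⟨hn1, hn2, hn3, hn4⟩ := hn
      rw [mem_filter, blk, mem_filter]
      refine ⟨⟨hn1, hn2⟩, ?_⟩
      have h1 : (z:ℝ) ≤ lam * ((n ^ k : ℕ) : ℝ) := by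
        push_cast
        have : w ≤ (n:ℝ) ^ k := by
          rw [← hxk]; gcongr
        rw [hw, div_le_iff₀ hlam] at this
        linarith
      have h2 : z ≤ fl lam (n ^ k) := Nat.le_floor h1
      refine ⟨h2, ?_⟩
      have h3 : ((fl lam (n ^ k) : ℕ) : ℝ) ≤ lam * ((n ^ k : ℕ) : ℝ) :=
        Nat.floor_le (by positivity)
      have h4 : lam * ((n ^ k : ℕ) : ℝ) ≤ z + z * (2 ^ k * s) := by
        push_cast
        have h5 : (n:ℝ) ^ k ≤ (x * (1 + s)) ^ k := by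
          gcongr
          linarith
        rw [mul_pow, hxk] at h5
        have h6 := one_add_pow_le s hs0.le hs1 k
        have h7 : (1 + s) ^ k ≤ 1 + 2 ^ k * s := h6.trans (by nlinarith)
        calc lam * (n:ℝ) ^ k ≤ lam * (w * (1 + s) ^ k) := by gcongr
          _ ≤ lam * (w * (1 + 2 ^ k * s)) := by gcongr
          _ = (lam * w) * (1 + 2 ^ k * s) := by ring
          _ = z * (1 + 2 ^ k * s) := by rw [hw, mul_div_cancel₀ _ hlam.ne']
          _ = _ := by ring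
      have h8 : (z:ℝ) * (2 ^ k * s) ≤ C * 2 ^ k * η * (N ^ k / ((j:ℝ) + 1) ^ B) := by
        calc (z:ℝ) * (2 ^ k * s) ≤ (C * N ^ k) * (2 ^ k * s) := by gcongr
          _ = _ := by rw [hs]; ring
      have hX : 2 ≤ N ^ k / ((j:ℝ) + 1) ^ B := by
        rw [le_div_iff₀ (by positivity)]
        calc 2 * ((j:ℝ) + 1) ^ B ≤ N := hj5
          _ = N ^ 1 := (pow_one N).symm
          _ ≤ N ^ k := pow_le_pow_right₀ hN1.le hk
      have h9 : (2 * (fl lam (n ^ k) - z) : ℕ) ≤ N ^ k / ((j:ℝ) + 1) ^ B := by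
        push_cast [Nat.cast_sub h2]
        have h10 : 0 < N ^ k / ((j:ℝ) + 1) ^ B := by positivity
        nlinarith
      rw [hNk]
      exact Nat.le_floor h9
    exact_mod_cast card_le_card hsub
  refine le_trans ?_ (hreg.trans hcount)
  -- final inequality
  have hjp0 : (0:ℝ) < (j:ℝ) + 1 := by linarith
  have h1 : (Real.log x) ^ t ≤ 2 ^ t * ((j:ℝ) + 1) ^ t := by
    rw [← Real.mul_rpow (by norm_num) hjp0.le]
    exact Real.rpow_le_rpow hlogx.le hlog2 ht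
  have h2 : 0 < (Real.log x) ^ t := Real.rpow_pos_of_pos hlogx t
  have h3 : 0 < ((j:ℝ) + 1) ^ t := Real.rpow_pos_of_pos hjp0 t
  rw [Real.rpow_add hjp0, Real.rpow_natCast]
  calc c * η / 2 ^ t * N / (((j:ℝ) + 1) ^ B * ((j:ℝ) + 1) ^ t)
      = c * (η / ((j:ℝ) + 1) ^ B * N) / (2 ^ t * ((j:ℝ) + 1) ^ t) :=
        aux2 _ _ _ _ _ _ (by positivity) (by positivity) h3.ne'
    _ ≤ c * (s * x) / (2 ^ t * ((j:ℝ) + 1) ^ t) := by
        rw [← hs]
        gcongr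
        linarith
    _ ≤ c * (s * x) / (Real.log x) ^ t := by
        apply div_le_div_of_nonneg_left (by positivity) h2 h1

lemma aux3 (c c4 M J t : ℝ) (B v : ℕ) (hJ : 0 < J) :
    c ^ v * c4 * M ^ (v + 1) / J ^ ((B:ℝ) + t * ((v + 1 : ℕ) : ℝ)) =
      (c * M / J ^ t) ^ v * (c4 * M / J ^ ((B:ℝ) + t)) := by
  have h : J ^ ((B:ℝ) + t * ((v + 1 : ℕ) : ℝ)) = (J ^ t) ^ v * J ^ ((B:ℝ) + t) := by
    rw [← Real.rpow_natCast (J ^ t) v, ← Real.rpow_mul hJ.le, ← Real.rpow_add hJ]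
    congr 1
    push_cast
    ring
  have h1 : (J ^ t) ≠ 0 := (Real.rpow_pos_of_pos hJ t).ne'
  have h2 : J ^ ((B:ℝ) + t) ≠ 0 := (Real.rpow_pos_of_pos hJ _).ne'
  rw [h, div_pow, mul_pow, pow_succ]
  field_simp

open Classical in
theorem t_LBC : S_LBC := by
  intro u k lam W c t hu hk hlam hc ht hW
  obtain ⟨v, rfl⟩ : ∃ v, u = v + 1 := ⟨u - 1, by omega⟩
  have hsum0 : 0 ≤ ∑ i, lam i := Finset.sum_nonneg fun i _ => (hlam i).le
  have hk2 : (0:ℝ) < 2 ^ k := by positivity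
  refine ⟨2 ^ k * (1 + ∑ i, lam i), by positivity, ?_⟩
  intro c₂
  set C : ℝ := max c₂ 1 with hC
  have hC1 : 1 ≤ C := le_max_right _ _
  have hC0 : 0 < C := by linarith
  obtain ⟨K₁, hK₁⟩ := exists_nat_ge (2 * (C / lam 0))
  refine ⟨max 2 K₁, ?_⟩
  intro K hK B
  have hK2 : 2 ≤ K := (le_max_left _ _).trans hK
  have hKK : K₁ ≤ K := (le_max_right _ _).trans hK
  have hCK : C ≤ lam 0 * ((K:ℝ) / 2) ^ k := by
    have h1 : (1:ℝ) ≤ (K:ℝ) / 2 := by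
      have : (2:ℝ) ≤ K := by exact_mod_cast hK2
      linarith
    have h2 : (K:ℝ) / 2 ≤ ((K:ℝ) / 2) ^ k := le_self_pow₀ h1 (by omega)
    have h3 : C / lam 0 ≤ (K:ℝ) / 2 := by
      have : (K₁:ℝ) ≤ K := by exact_mod_cast hKK
      linarith
    have h4 : C / lam 0 ≤ ((K:ℝ) / 2) ^ k := h3.trans h2
    rw [div_le_iff₀ (hlam 0)] at h4
    linarith
  obtain ⟨c4, hc4, hsp⟩ := special c t (W 0) hc ht (hW 0) k hk (lam 0) (hlam 0) C hC0 K hK2 hCK B
  refine ⟨c ^ v * c4, by positivity, ?_⟩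
  have hoth : ∀ᶠ j : ℕ in atTop, ∀ i : Fin v, c * (2:ℝ) ^ j / ((j:ℝ) + 1) ^ t ≤
      (((Ioc (2 ^ j) (2 * 2 ^ j)).filter (· ∈ W i.succ)).card : ℝ) :=
    eventually_all.2 fun i => other c t (W i.succ) hc ht (hW i.succ)
  filter_upwards [hsp, hoth] with j hj1 hj2
  intro y hy1 hy2
  have hjp0 : (0:ℝ) < (j:ℝ) + 1 := by positivity
  set A : Finset (Fin v → ℕ) :=
    Fintype.piFinset fun i : Fin v => (Ioc (2 ^ j) (2 * 2 ^ j)).filter (· ∈ W i.succ) with hA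
  set G : (Fin v → ℕ) → ℕ := fun m => ∑ i, fl (lam i.succ) (m i ^ k) with hG
  set V : (Fin v → ℕ) → Finset ℕ := fun m => (blk (W 0) K (2 ^ j)).filter fun n =>
    (y - G m) ≤ fl (lam 0) (n ^ k) ∧ 2 * (fl (lam 0) (n ^ k) - (y - G m)) ≤
      ⌊(2 : ℝ) ^ (j * k) / ((j : ℝ) + 1) ^ B⌋₊ with hV
  have hNk : (2:ℝ) ^ (j * k) = ((2:ℝ) ^ j) ^ k := by rw [pow_mul]
  -- bound on G
  have hGle : ∀ m ∈ A, (G m : ℝ) ≤ 2 ^ k * (∑ i : Fin v, lam i.succ) * (2:ℝ) ^ (j * k) := by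
    intro m hm
    rw [hA, Fintype.mem_piFinset] at hm
    simp only [hG]
    push_cast
    calc ∑ i, ((fl (lam i.succ) (m i ^ k) : ℕ) : ℝ)
        ≤ ∑ i : Fin v, lam i.succ * (2 * 2 ^ j) ^ k := by
          apply Finset.sum_le_sum
          intro i _
          have h1 := hm i
          rw [mem_filter, mem_Ioc] at h1
          have h2 : ((fl (lam i.succ) (m i ^ k) : ℕ) : ℝ) ≤ lam i.succ * ((m i ^ k : ℕ) : ℝ) :=
            Nat.floor_le (by have := (hlam i.succ).le; positivity)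
          refine h2.trans ?_
          have h3 : (m i : ℝ) ≤ 2 * 2 ^ j := by exact_mod_cast h1.1.2
          have h4 := (hlam i.succ).le
          push_cast
          gcongr
      _ = 2 ^ k * (∑ i : Fin v, lam i.succ) * (2:ℝ) ^ (j * k) := by
          rw [← Finset.sum_mul, mul_pow, hNk]; ring
  have hyG : ∀ m ∈ A, G m ≤ y ∧ lam 0 * 2 ^ k * (2 : ℝ) ^ (j * k) ≤ ((y - G m : ℕ) : ℝ) ∧
      ((y - G m : ℕ) : ℝ) ≤ C * (2 : ℝ) ^ (j * k) := by
    intro m hm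
    have h1 := hGle m hm
    have h0 : (0:ℝ) < (2:ℝ) ^ (j * k) := by positivity
    rw [Fin.sum_univ_succ] at hy1
    have h2 : lam 0 * 2 ^ k * (2 : ℝ) ^ (j * k) ≤ (y:ℝ) - G m := by
      have h3 : 0 ≤ 2 ^ k * (2:ℝ) ^ (j * k) := by positivity
      nlinarith
    have h4 : (G m : ℝ) ≤ y := by
      have : 0 ≤ lam 0 * 2 ^ k * (2 : ℝ) ^ (j * k) := by have := (hlam 0).le; positivity
      linarith
    have h5 : G m ≤ y := by exact_mod_cast h4
    refine ⟨h5, ?_, ?_⟩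
    · rw [Nat.cast_sub h5]; exact h2
    · rw [Nat.cast_sub h5]
      have h6 : (0:ℝ) ≤ G m := Nat.cast_nonneg _
      have h7 : c₂ * (2:ℝ) ^ (j * k) ≤ C * (2:ℝ) ^ (j * k) := by
        gcongr
        exact le_max_left _ _
      linarith
  -- the injection
  have hcard : (∑ m ∈ A, (V m).card) ≤
      ((Fintype.piFinset fun i => blk (W i) K (2 ^ j)).filter fun n =>
          2 * |((∑ i, fl (lam i) (n i ^ k) : ℕ) : ℤ) - y| ≤
            (⌊(2 : ℝ) ^ (j * k) / ((j : ℝ) + 1) ^ B⌋₊ : ℤ)).card := by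
    rw [← Finset.card_sigma]
    apply Finset.card_le_card_of_injOn (fun p => (Fin.cons p.2 p.1 : Fin (v+1) → ℕ))
    · rintro ⟨m, n⟩ hp
      rw [Finset.mem_coe, Finset.mem_sigma] at hp
      obtain ⟨hm, hn⟩ := hp
      have hm' := hm
      rw [hA, Fintype.mem_piFinset] at hm'
      simp only [hV, mem_filter] at hn
      obtain ⟨hn1, hn2, hn3⟩ := hn
      obtain ⟨hy, _, _⟩ := hyG m hm
      rw [Finset.mem_coe, mem_filter, Fintype.mem_piFinset]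
      refine ⟨?_, ?_⟩
      · intro i
        refine Fin.cases ?_ (fun i => ?_) i
        · change n ∈ blk (W 0) K (2 ^ j); exact hn1
        · change m i ∈ blk (W i.succ) K (2 ^ j)
          have h1 := hm' i
          rw [mem_filter, mem_Ioc] at h1
          rw [blk, mem_filter, mem_Ioc]
          refine ⟨⟨h1.1.1, h1.1.2.trans ?_⟩, h1.2⟩
          exact Nat.mul_le_mul_right _ hK2
      · rw [Fin.sum_univ_succ]
        simp only [Fin.cons_zero, Fin.cons_succ]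
        have h1 : (∑ i : Fin v, fl (lam i.succ) (m i ^ k)) = G m := rfl
        rw [h1]
        have h2 : (((fl (lam 0) (n ^ k) + G m : ℕ)) : ℤ) - y =
            ((fl (lam 0) (n ^ k) - (y - G m) : ℕ) : ℤ) := by
          rw [Nat.cast_sub hn2, Nat.cast_sub hy]; push_cast; ring
        rw [h2, abs_of_nonneg (by positivity)]
        exact_mod_cast hn3
    · rintro ⟨m, n⟩ _ ⟨m', n'⟩ _ h
      simp only at h
      have h1 := congrFun h 0
      rw [Fin.cons_zero, Fin.cons_zero] at h1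
      have h2 : m = m' := by
        funext i
        have := congrFun h i.succ
        rwa [Fin.cons_succ, Fin.cons_succ] at this
      subst h1; subst h2; rfl
  have hAcard : (c * (2:ℝ) ^ j / ((j:ℝ) + 1) ^ t) ^ v ≤ (A.card : ℝ) := by
    rw [hA, Fintype.card_piFinset]
    push_cast
    calc (c * (2:ℝ) ^ j / ((j:ℝ) + 1) ^ t) ^ v
        = ∏ _i : Fin v, (c * (2:ℝ) ^ j / ((j:ℝ) + 1) ^ t) := by
          rw [Finset.prod_const, Finset.card_univ, Fintype.card_fin]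
      _ ≤ _ := by
        apply Finset.prod_le_prod
        · intro i _; positivity
        · intro i _; exact hj2 i
  have hfin : (c * (2:ℝ) ^ j / ((j:ℝ) + 1) ^ t) ^ v *
      (c4 * (2:ℝ) ^ j / ((j:ℝ) + 1) ^ ((B:ℝ) + t)) ≤ ((∑ m ∈ A, (V m).card : ℕ) : ℝ) := by
    have h0 : 0 ≤ c4 * (2:ℝ) ^ j / ((j:ℝ) + 1) ^ ((B:ℝ) + t) := by positivity
    calc (c * (2:ℝ) ^ j / ((j:ℝ) + 1) ^ t) ^ v *
          (c4 * (2:ℝ) ^ j / ((j:ℝ) + 1) ^ ((B:ℝ) + t))
        ≤ (A.card : ℝ) * (c4 * (2:ℝ) ^ j / ((j:ℝ) + 1) ^ ((B:ℝ) + t)) := by gcongr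
      _ = ∑ m ∈ A, (c4 * (2:ℝ) ^ j / ((j:ℝ) + 1) ^ ((B:ℝ) + t)) := by
          rw [Finset.sum_const, nsmul_eq_mul]
      _ ≤ ∑ m ∈ A, ((V m).card : ℝ) := by
          apply Finset.sum_le_sum
          intro m hm
          obtain ⟨_, h1, h2⟩ := hyG m hm
          exact hj1 (y - G m) h1 h2
      _ = _ := by push_cast; rfl
  have h3 : (2:ℝ) ^ (j * (v + 1)) = ((2:ℝ) ^ j) ^ (v + 1) := pow_mul _ _ _
  rw [h3, aux3 c c4 _ _ t B v hjp0]
  refine hfin.trans ?_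
  exact_mod_cast hcard

end Pool.Agent.Run7.h937.MW
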