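import Pool.Agent.Run7.h937.Detect

set_option autoImplicit false
set_option linter.unusedSectionVars false

/-! Assembly: systems in which every unknown is algebraic are equivalent to finite subsystems. -/

namespace Run7.h937

open NPS Finset Filter Topology

section series

variable {X ι : Type} [DecidableEq X] [Fintype X] [Fintype ι]

theorem GLike.map {R S : Type} [CommRing R] [CommRing S] (φ : R →+* S) {f : NPS X R}
    (hf : GLike f) : GLike (NPS.map φ f) := by
  refine ⟨by rw [map_apply, hf.1, map_one], fun u v => ?_⟩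
  rw [map_apply, map_apply, ← map_mul, hf.2, map_list_sum, List.map_map]
  rfl

theorem map_evn {R S : Type} [CommRing R] [CommRing S] (φ : R →+* S) (g : ι → NPS X R)
    (κ : NPS (X ⊕ ι) R) :
    NPS.map φ (evn g κ) = evn (fun l => NPS.map φ (g l)) (NPS.map φ κ) := by
  unfold evn
  rw [sub_map]
  congr 1
  funext o
  cases o with
  | inl x => exact map_X _ _
  | inr l =>
    change NPS.map φ (g l - 1) = NPS.map φ (g l) - 1
    rw [map_sub, map_one]

variable [DecidableEq ι]

theorem ev_emb {R : Type} [CommRing R] (ξ f : NPS X R) : ev ξ (emb f) = f := by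
  unfold ev emb
  rw [sub_comp]
  have h1 : (fun x : X => sub (fun o : Option X => o.elim ξ NPS.X)
      (NPS.X (some x) : NPS (Option X) R)) = fun x => NPS.X x := by
    funext x
    rw [sub_X (fun o : Option X => o.elim ξ NPS.X) (some x) rfl]
    rfl
  rw [h1, sub_id]

theorem ev_evr {R : Type} [CommRing R] (r : ι → ℕ) (l : ι) (g : ι → NPS X R) (y : NPS X R)
    (hy : y [] = 1) (κ : NPS (X ⊕ ι) R) :
    ev (y - 1) (evr r l g κ) =
      evn (fun j => if j = l then y else if r j < r l then g j else 1) κ := by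
  unfold evr evn
  conv_lhs => unfold ev
  rw [sub_comp]
  congr 1
  funext o
  cases o with
  | inl x =>
    change sub (fun o : Option X => o.elim (y - 1) NPS.X) (NPS.X (some x) : NPS (Option X) R) =
      NPS.X x
    rw [sub_X (fun o : Option X => o.elim (y - 1) NPS.X) (some x) rfl]
    rfl
  | inr j =>
    change sub (fun o : Option X => o.elim (y - 1) NPS.X)
      (if j = l then NPS.X none else if r j < r l then emb (g j - 1) else 0) =
      (if j = l then y else if r j < r l then g j else 1) - 1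
    by_cases h1 : j = l
    · rw [if_pos h1, if_pos h1, sub_X (fun o : Option X => o.elim (y - 1) NPS.X) none (by
        change (y - 1) [] = 0
        rw [NPS.sub_apply, hy]; simp)]
      rfl
    · rw [if_neg h1, if_neg h1]
      by_cases h2 : r j < r l
      · rw [if_pos h2, if_pos h2]
        exact ev_emb _ _
      · rw [if_neg h2, if_neg h2, sub_self]
        exact sub_zero' _

theorem evn_sub {R : Type} [CommRing R] (g : ι → NPS X R) (κ κ' : NPS (X ⊕ ι) R) :
    evn g (κ - κ') = evn g κ - evn g κ' := sub_sub' _ _ _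

end series

section

variable {p : ℕ} [hp : Fact p.Prime] {X F : Type} [Group F] [TopologicalSpace F]
  [IsTopologicalGroup F] [CompactSpace F] [T2Space F] [TotallyDisconnectedSpace F] {ι : X → F}

theorem word_continuous {n : ℕ} {w : (Fin n → F) → F}
    (hw : w ∈ Subgroup.closure
      (Set.range (fun c : F => fun _ : Fin n → F => c) ∪
        Set.range (fun i : Fin n => fun g : Fin n → F => g i))) : Continuous w := by
  induction hw using Subgroup.closure_induction with
  | mem w hw =>
    rcases hw with ⟨c, rfl⟩ | ⟨i, rfl⟩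
    · exact continuous_const
    · exact continuous_apply i
  | one => exact continuous_const
  | mul w w' _ _ ih ih' => exact ih.mul ih'
  | inv w _ ih => exact ih.inv

theorem Eqn.continuous {n : ℕ} {e : (Fin n → F) → F} (he : Eqn e) : Continuous e := by
  rw [continuous_iff_continuousAt]
  intro g₀ V hV
  rw [Filter.mem_map]
  have hV1 : (fun b => e g₀ * b) ⁻¹' V ∈ 𝓝 (1 : F) := by
    refine (continuous_const_mul (e g₀)).continuousAt ?_
    rwa [mul_one]
  obtain ⟨V', hV', hVo, h1V⟩ := mem_nhds_iff.mp hV1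
  obtain ⟨N, hN⟩ := ProfiniteGrp.exist_openNormalSubgroup_sub_open_nhds_of_one hVo h1V
  obtain ⟨w, hw, hwe⟩ := he N (N.isOpen'.mem_nhds N.one_mem')
  have hwc : Continuous fun g => (w g₀)⁻¹ * w g := (continuous_const).mul (word_continuous hw)
  have h2 : (fun g => (w g₀)⁻¹ * w g) ⁻¹' (N : Set F) ∈ 𝓝 g₀ := by
    refine (N.isOpen'.preimage hwc).mem_nhds ?_
    change (w g₀)⁻¹ * w g₀ ∈ N.toSubgroup
    rw [inv_mul_cancel]
    exact N.one_mem'
  refine Filter.mem_of_superset h2 fun g hg => ?_
  have h3 : (w g₀)⁻¹ * w g ∈ N.toSubgroup := hg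
  have h4 : (w g)⁻¹ * e g ∈ N.toSubgroup := hwe g
  have h5 : (w g₀)⁻¹ * e g₀ ∈ N.toSubgroup := hwe g₀
  have h6 : (e g₀)⁻¹ * e g ∈ N.toSubgroup := by
    have h7 := N.toSubgroup.mul_mem (N.toSubgroup.mul_mem (N.toSubgroup.inv_mem h5) h3) h4
    convert h7 using 1
    group
  have h8 := hV' (hN h6)
  change e g₀ * ((e g₀)⁻¹ * e g) ∈ V at h8
  rwa [mul_inv_cancel_left] at h8

/-- `e` depends only on the coordinate `l` and the coordinates of smaller rank -/
def DepOn {n : ℕ} (r : Fin n → ℕ) (l : Fin n) (e : (Fin n → F) → F) : Prop :=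
  ∀ a b : Fin n → F, a l = b l → (∀ j, r j < r l → a j = b j) → e a = e b

/-- **The contradiction.** -/
theorem core (h : FP p X F ι) {n : ℕ} {𝒰 : Ultrafilter ℕ} {E : ℕ → (Fin n → F) → F}
    {G : ℕ → Fin n → F} {g₀ : Fin n → F} (hES : ∀ i, Eqn (E i))
    (hEG : ∀ᶠ i in (𝒰 : Filter ℕ), E i (G i) ≠ 1)
    (hlt : ∀ i, ∀ᶠ j in (𝒰 : Filter ℕ), E i (G j) = 1)
    (hg₀' : Tendsto G 𝒰 (𝓝 g₀)) {r : Fin n → ℕ} {e : Fin n → (Fin n → F) → F}
    (he : ∀ l, Eqn (e l)) (heG : ∀ l, ∀ᶠ i in (𝒰 : Filter ℕ), e l (G i) = 1)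
    (hdep : ∀ l, DepOn r l (e l)) {y : Fin n → F}
    (hga' : ∀ l, e l (Function.update g₀ l (y l)) ≠ 1) : False := by
  classical
  -- detection
  obtain ⟨μ, hμ, hμG, hμH⟩ := h.detect
    ({b | b ≠ 1 ∧ b ∈ Set.range fun i => E i (G i)} ∪
      Set.range fun l => e l (Function.update g₀ l (y l)))
    (((Set.countable_range _).mono fun b hb => hb.2).union (Set.countable_range _)) (by
      rintro (⟨hi, -⟩ | ⟨l, hl⟩)
      · exact hi rfl
      · exact hga' l hl)
  choose κ' hκ' using fun l => rep_eqn hμ (he l)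
  let φ : ℤ_[p] →+* ℚ_[p] := PadicInt.Coe.ringHom
  have hφ : Function.Injective φ := fun a b hab => Subtype.ext hab
  have hφmap : ∀ {Y : Type} (f : NPS Y ℤ_[p]), NPS.map φ f = 0 → f = 0 := by
    intro Y f hf
    refine NPS.ext fun w => hφ ?_
    rw [NPS.zero_apply, map_zero]
    exact congrFun hf w
  -- the value of the triangular equations
  have hstar : ∀ (l : Fin n) (i : ℕ) (b : F),
      ev ((μ b).1 - 1) (evr r l (fun j => (μ (G i j)).1) (κ' l)) =
        (μ (e l (Function.update (G i) l b))).1 := by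
    intro l i b
    rw [ev_evr _ _ _ _ (μ b).2]
    have h1 : e l (Function.update (G i) l b) =
        e l (fun j => if j = l then b else if r j < r l then G i j else 1) := by
      refine hdep l _ _ ?_ fun j hj => ?_
      · rw [Function.update_self, if_pos rfl]
      · have hjl : j ≠ l := by rintro rfl; exact lt_irrefl _ hj
        rw [Function.update_of_ne hjl, if_neg hjl, if_pos hj]
    rw [h1, hκ']
    congr 1
    funext j
    by_cases h2 : j = l
    · simp only [if_pos h2]
    · simp only [if_neg h2]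
      by_cases h3 : r j < r l
      · simp only [if_pos h3]
      · simp only [if_neg h3, map_one]
        rfl
  have hsubone : ∀ (l : Fin n) (i : ℕ) (b : F),
      ev ((μ b).1 - 1) (evr r l (fun j => (μ (G i j)).1) (κ' l - 1)) =
        (μ (e l (Function.update (G i) l b))).1 - 1 := by
    intro l i b
    have h1 : evr r l (fun j => (μ (G i j)).1) (κ' l - 1) =
        evr r l (fun j => (μ (G i j)).1) (κ' l) - 1 := by
      unfold evr
      rw [sub_sub', sub_one']
    have h2 : ∀ (ξ : NPS (Fin 2) ℤ_[p]) (f : NPS (Option (Fin 2)) ℤ_[p]),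
        ev ξ (f - 1) = ev ξ f - 1 := by
      intro ξ f
      unfold ev
      rw [sub_sub', sub_one']
    rw [h1, h2, hstar]
  have hmapev : ∀ (ξ : NPS (Fin 2) ℤ_[p]) (f : NPS (Option (Fin 2)) ℤ_[p]),
      ev (NPS.map φ ξ) (NPS.map φ f) = NPS.map φ (ev ξ f) := by
    intro ξ f
    unfold ev
    rw [sub_map]
    congr 1
    funext o
    cases o with
    | none => rfl
    | some x => exact (map_X φ x).symm
  have hspec := specialisation (𝒰 := 𝒰) (k := ℚ_[p])
    (fun i l => NPS.map φ (μ (G i l)).1) (fun i l => GLike.map φ (hμG _)) r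
    (fun l => NPS.map φ (κ' l - 1)) (fun l => ?_) (fun l => ?_)
  · obtain ⟨i, hi, hEGi⟩ := (hspec.and hEG).exists
    obtain ⟨κ, hκ⟩ := rep_eqn hμ (hES i)
    have hev : ∀ j, evn (fun l => NPS.map φ (μ (G j l)).1) (NPS.map φ (κ - 1)) =
        NPS.map φ ((μ (E i (G j))).1 - 1) := by
      intro j
      rw [← map_evn, evn_sub, evn_one, ← hκ]
    have h1 := hi (NPS.map φ (κ - 1)) (by
      refine (hlt i).mono fun j hj => ?_
      rw [hev, hj, map_one, UU.val_one, sub_self, map_zero])
    rw [hev] at h1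
    have h2 := hφmap _ h1
    exact hμH _ (Or.inl ⟨hEGi, i, rfl⟩) (Subtype.ext (sub_eq_zero.mp h2))
  · -- nonvanishing
    have hne : ∃ w, (μ (e l (Function.update g₀ l (y l)))).1 w ≠ (1 : NPS (Fin 2) ℤ_[p]) w := by
      by_contra h1
      push Not at h1
      exact hμH _ (Or.inr ⟨l, rfl⟩) (Subtype.ext (NPS.ext h1))
    obtain ⟨w, hw⟩ := hne
    have hcont : Continuous fun g' : Fin n → F =>
        (μ (e l (Function.update g' l (y l)))).1 w :=
      (mu_continuous hμ w).comp
        ((he l).continuous.comp (continuous_id.update l continuous_const))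
    have hev1 : ∀ᶠ i in (𝒰 : Filter ℕ),
        (μ (e l (Function.update (G i) l (y l)))).1 w ≠ (1 : NPS (Fin 2) ℤ_[p]) w := by
      have h1 := (hcont.tendsto g₀).comp hg₀'
      exact h1.eventually_ne hw
    by_contra hcon2
    push Not at hcon2
    have hall : ∀ᶠ i in (𝒰 : Filter ℕ), ∀ u ∈ {u : List (Option (Fin 2)) | u.length ≤ w.length},
        evr r l (fun l => NPS.map φ (μ (G i l)).1) (NPS.map φ (κ' l - 1)) u = 0 := by
      rw [Filter.eventually_all_finite (List.finite_length_le _ _)]
      intro u _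
      exact hcon2 u
    obtain ⟨i, hi1, hi2⟩ := (hev1.and hall).exists
    apply hi1
    have h1 : ev (NPS.map φ ((μ (y l)).1 - 1)) (evr r l (fun l => NPS.map φ (μ (G i l)).1)
        (NPS.map φ (κ' l - 1))) w = ev (NPS.map φ ((μ (y l)).1 - 1)) 0 w := by
      unfold ev
      exact sub_congr _ _ _ _ w.length (fun _ _ _ => rfl) (fun u hu => hi2 u hu) w le_rfl
    rw [← map_evr, hmapev, hsubone] at h1
    have h2 : ev (NPS.map φ ((μ (y l)).1 - 1)) 0 w = 0 := by
      unfold ev
      rw [sub_zero']
      rfl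
    rw [h2, map_apply, NPS.sub_apply] at h1
    have h3 := hφ (h1.trans (map_zero φ).symm)
    exact sub_eq_zero.mp h3
  · -- vanishing
    refine (heG l).mono fun i hi => ?_
    have h1 : NPS.map φ (μ (G i l)).1 - 1 = NPS.map φ ((μ (G i l)).1 - 1) := by
      rw [map_sub, map_one]
    rw [← map_evr, h1, hmapev, hsubone, Function.update_eq_self, hi, map_one, UU.val_one,
      sub_self, map_zero]

end

end Run7.h937
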