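import Pool.Agent.Run7.h937.Glk

set_option autoImplicit false
set_option linter.unusedSectionVars false

/-! Nilpotent augmentation ideals, and detection of elements by series in countably many letters. -/

namespace Run7.h937

open NPS Finset

section aug

variable {p : ℕ} [hp : Fact p.Prime] {A : Type} [Ring A] {G : Type} [Group G] (τ : G →* A)

/-- the ascending chain of submodules -/
def chainV : ℕ → AddSubgroup A
  | 0 => ⊥
  | i + 1 =>
    { carrier := {v | ∀ g, τ g * v - v ∈ chainV i}
      zero_mem' := by
        intro g
        rw [mul_zero, sub_zero]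
        exact (chainV i).zero_mem
      add_mem' := by
        intro a b ha hb g
        have := (chainV i).add_mem (ha g) (hb g)
        rwa [show τ g * a - a + (τ g * b - b) = τ g * (a + b) - (a + b) by rw [mul_add]; abel]
          at this
      neg_mem' := by
        intro a ha g
        have := (chainV i).neg_mem (ha g)
        rwa [show -(τ g * a - a) = τ g * (-a) - (-a) by rw [mul_neg]; abel] at this }

theorem mem_chainV {i : ℕ} {v : A} : v ∈ chainV τ (i + 1) ↔ ∀ g, τ g * v - v ∈ chainV τ i := Iff.rfl

theorem tau_inv_mul (g : G) (v : A) : τ g⁻¹ * (τ g * v) = v := by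
  rw [← mul_assoc, ← map_mul, inv_mul_cancel, map_one, one_mul]

theorem chainV_stable (i : ℕ) : ∀ v ∈ chainV τ i, ∀ g, τ g * v ∈ chainV τ i := by
  induction i with
  | zero =>
    intro v hv g
    have : v = 0 := hv
    subst this
    rw [mul_zero]
    exact (chainV τ 0).zero_mem
  | succ i ih =>
    intro v hv g h
    have h1 := ih _ (hv (g⁻¹ * h * g)) g
    have h2 : τ g * (τ (g⁻¹ * h * g) * v - v) = τ h * (τ g * v) - τ g * v := by
      have h3 : τ g * τ (g⁻¹ * h * g) = τ h * τ g := by
        rw [← map_mul, ← map_mul]
        congr 1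
        group
      rw [mul_sub, ← mul_assoc, h3, mul_assoc]
    rwa [h2] at h1

theorem chainV_le (i : ℕ) : chainV τ i ≤ chainV τ (i + 1) := by
  intro v hv g
  exact (chainV τ i).sub_mem (chainV_stable τ i v hv g) hv

theorem chainV_lt [Finite A] (hA : ∀ v : A, p • v = 0) (hG : IsPGroup p G) {i : ℕ}
    (hi : chainV τ i ≠ ⊤) : chainV τ i ≠ chainV τ (i + 1) := by
  intro hcon
  set V := chainV τ i with hV
  have hmap : ∀ g : G, V ≤ AddSubgroup.comap (AddMonoidHom.mulLeft (τ g)) V := by
    intro g v hv
    exact chainV_stable τ i v hv g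
  let act : MulAction G (A ⧸ V) :=
    { smul := fun g => QuotientAddGroup.map V V (AddMonoidHom.mulLeft (τ g)) (hmap g)
      one_smul := by
        intro x
        induction x using QuotientAddGroup.induction_on with
        | H v =>
          change ((τ 1 * v : A) : A ⧸ V) = v
          rw [map_one, one_mul]
      mul_smul := by
        intro g h x
        induction x using QuotientAddGroup.induction_on with
        | H v =>
          change ((τ (g * h) * v : A) : A ⧸ V) = ((τ g * (τ h * v) : A) : A ⧸ V)
          rw [map_mul, mul_assoc] }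
  have hne : ∃ v : A, v ∉ V := by
    by_contra h
    push Not at h
    exact hi (eq_top_iff.mpr fun v _ => h v)
  obtain ⟨v₀, hv₀⟩ := hne
  have hdvd : p ∣ Nat.card (A ⧸ V) := by
    have h1 : addOrderOf ((v₀ : A) : A ⧸ V) = p := by
      refine addOrderOf_eq_prime ?_ ?_
      · rw [← QuotientAddGroup.mk_nsmul, hA]
        rfl
      · intro h
        exact hv₀ ((QuotientAddGroup.eq_zero_iff v₀).mp h)
    have h2 := addOrderOf_dvd_natCard ((v₀ : A) : A ⧸ V)
    rwa [h1] at h2
  have hfix0 : (0 : A ⧸ V) ∈ MulAction.fixedPoints G (A ⧸ V) := by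
    intro g
    change ((τ g * 0 : A) : A ⧸ V) = ((0 : A) : A ⧸ V)
    rw [mul_zero]
  obtain ⟨b, hb, hb0⟩ := hG.exists_fixed_point_of_prime_dvd_card_of_fixed_point (A ⧸ V) hdvd hfix0
  induction b using QuotientAddGroup.induction_on with
  | H v =>
    have hv : v ∈ chainV τ (i + 1) := by
      intro g
      have h1 : ((τ g * v : A) : A ⧸ V) = v := hb g
      have h2 := (QuotientAddGroup.eq).mp h1.symm
      rwa [neg_add_eq_sub] at h2
    rw [← hcon] at hv
    exact hb0 ((QuotientAddGroup.eq_zero_iff v).mpr hv).symm

theorem chainV_top [Finite A] (hA : ∀ v : A, p • v = 0) (hG : IsPGroup p G) :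
    ∃ L, chainV τ L = ⊤ := by
  by_contra h
  push Not at h
  have hmono : StrictMono (chainV τ) := by
    refine strictMono_nat_of_lt_succ fun i => lt_of_le_of_ne (chainV_le τ i) ?_
    exact chainV_lt τ hA hG (h i)
  have : Finite (AddSubgroup A) := inferInstance
  exact not_injective_infinite_finite _ hmono.injective

theorem aug_nilp [Finite A] (hA : ∀ v : A, p • v = 0) (hG : IsPGroup p G) :
    ∃ L, ∀ l : List G, L ≤ l.length → (l.map (fun g => τ g - 1)).prod = 0 := by
  obtain ⟨L, hL⟩ := chainV_top τ hA hG
  have h1 : ∀ (l : List G) (i : ℕ) (v : A), v ∈ chainV τ (i + l.length) →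
      (l.map (fun g => τ g - 1)).prod * v ∈ chainV τ i := by
    intro l
    induction l with
    | nil => intro i v hv; simpa using hv
    | cons g l ih =>
      intro i v hv
      rw [List.map_cons, List.prod_cons, mul_assoc, sub_mul, one_mul]
      have h2 : (l.map (fun g => τ g - 1)).prod * v ∈ chainV τ (i + 1) := by
        refine ih (i + 1) v ?_
        rw [List.length_cons] at hv
        rwa [show i + 1 + l.length = i + (l.length + 1) by ring]
      exact h2 g
  have hmono : Monotone (chainV τ) := monotone_nat_of_le_succ (chainV_le τ)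
  refine ⟨L, fun l hl => ?_⟩
  have h2 : (1 : A) ∈ chainV τ (0 + l.length) := by
    refine hmono (show L ≤ 0 + l.length by omega) ?_
    rw [hL]
    exact AddSubgroup.mem_top _
  have h3 := h1 l 0 1 h2
  rw [mul_one] at h3
  exact h3

end aug

section theta

variable {Y A R : Type} [CommRing R] [Ring A] [Algebra R A] (s : Finset Y) (r : Y → A)

/-- evaluation of the part of degree less than `n` -/
def theta : ℕ → NPS Y R → A
  | 0, _ => 0
  | n + 1, f => algebraMap R A (f []) + ∑ y ∈ s, r y * theta n (D y f)

theorem theta_add (n : ℕ) : ∀ f g : NPS Y R, theta s r n (f + g) = theta s r n f + theta s r n g := by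
  induction n with
  | zero => intro f g; simp [theta]
  | succ n ih =>
    intro f g
    simp only [theta, D_add, ih, NPS.add_apply, map_add, mul_add, Finset.sum_add_distrib]
    abel

theorem theta_smul (n : ℕ) : ∀ (c : R) (f : NPS Y R), theta s r n (c • f) = c • theta s r n f := by
  induction n with
  | zero => intro c f; simp [theta]
  | succ n ih =>
    intro c f
    change algebraMap R A (c * f []) + ∑ y ∈ s, r y * theta s r n (c • D y f) =
      c • (algebraMap R A (f []) + ∑ y ∈ s, r y * theta s r n (D y f))
    rw [smul_add, Finset.smul_sum, map_mul, ← Algebra.smul_def]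
    congr 1
    refine Finset.sum_congr rfl fun y _ => ?_
    rw [ih, mul_smul_comm]

theorem theta_zero (n : ℕ) : theta s r n (0 : NPS Y R) = 0 := by
  induction n with
  | zero => rfl
  | succ n ih => simp [theta, ih]

theorem theta_one (n : ℕ) : theta s r (n + 1) (1 : NPS Y R) = 1 := by
  simp [theta, theta_zero]

variable {L : ℕ} (hr : ∀ w : List Y, L ≤ w.length → (w.map r).prod = 0)

include hr

theorem theta_stab (n : ℕ) : ∀ (v : List Y) (f : NPS Y R), L ≤ v.length + n →
    (v.map r).prod * theta s r (n + 1) f = (v.map r).prod * theta s r n f := by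
  induction n with
  | zero =>
    intro v f hv
    rw [hr v (by omega), zero_mul, zero_mul]
  | succ n ih =>
    intro v f hv
    have h1 : ∀ (m : ℕ), (v.map r).prod * theta s r (m + 1) f =
        (v.map r).prod * algebraMap R A (f []) +
          ∑ y ∈ s, ((v ++ [y]).map r).prod * theta s r m (D y f) := by
      intro m
      simp only [theta, mul_add, Finset.mul_sum, List.map_append, List.prod_append, List.map_cons,
        List.map_nil, List.prod_cons, List.prod_nil, mul_one, mul_assoc]
    rw [h1, h1]
    congr 1
    refine Finset.sum_congr rfl fun y _ => ih _ _ ?_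
    rw [List.length_append, List.length_singleton]
    omega

theorem theta_stab' (k n : ℕ) (v : List Y) (f : NPS Y R) (h : L ≤ v.length + n) :
    (v.map r).prod * theta s r (n + k) f = (v.map r).prod * theta s r n f := by
  induction k with
  | zero => rfl
  | succ k ih =>
    rw [← add_assoc, theta_stab s r hr _ _ _ (by omega), ih]

theorem theta_stab'' (n : ℕ) (v : List Y) (f : NPS Y R) (h : L ≤ v.length + n) :
    (v.map r).prod * theta s r n f = (v.map r).prod * theta s r L f := by
  rcases le_total n L with h1 | h1
  · obtain ⟨k, rfl⟩ := Nat.exists_eq_add_of_le h1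
    exact (theta_stab' s r hr k n v f h).symm
  · obtain ⟨k, rfl⟩ := Nat.exists_eq_add_of_le h1
    exact theta_stab' s r hr k L v f (by omega)

theorem theta_mul_aux (n : ℕ) : ∀ (v : List Y) (f g : NPS Y R), L ≤ v.length + n →
    (v.map r).prod * theta s r n (f * g) =
      (v.map r).prod * theta s r n f * theta s r L g := by
  induction n with
  | zero =>
    intro v f g hv
    rw [hr v (by omega), zero_mul, zero_mul, zero_mul]
  | succ n ih =>
    intro v f g hv
    have h1 : ∀ (f : NPS Y R), (v.map r).prod * theta s r (n + 1) f =
        f [] • (v.map r).prod +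
          ∑ y ∈ s, ((v ++ [y]).map r).prod * theta s r n (D y f) := by
      intro f
      simp only [theta, mul_add, Finset.mul_sum, List.map_append, List.prod_append, List.map_cons,
        List.map_nil, List.prod_cons, List.prod_nil, mul_one, mul_assoc]
      congr 1
      rw [Algebra.smul_def, Algebra.commutes]
    have h2 : ∀ y, ((v ++ [y]).map r).prod * theta s r n (D y (f * g)) =
        f [] • (((v ++ [y]).map r).prod * theta s r n (D y g)) +
          ((v ++ [y]).map r).prod * theta s r n (D y f) * theta s r L g := by
      intro y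
      rw [D_mul, theta_add, theta_smul, mul_add, mul_smul_comm, ih _ _ _ (by
        rw [List.length_append, List.length_singleton]; omega)]
    rw [h1, h1 f, NPS.mul_nil]
    simp only [h2, Finset.sum_add_distrib]
    rw [← Finset.smul_sum, add_mul, Finset.sum_mul, ← add_assoc, mul_smul, ← smul_add]
    congr 1
    rw [← h1 g, theta_stab'' s r hr _ _ _ hv, smul_mul_assoc]

theorem theta_mul (f g : NPS Y R) : theta s r L (f * g) = theta s r L f * theta s r L g := by
  have := theta_mul_aux s r hr L [] f g (by simp)
  simpa using this

end theta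

end Run7.h937
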