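import Pool.Agent.Run7.h937.Det

set_option autoImplicit false
set_option linter.unusedSectionVars false

/-! The specialisation principle for sequences of group-like series. -/

namespace Run7.h937

open NPS Finset Filter

section

variable {X : Type*} [DecidableEq X] [Fintype X] [LinearOrder X]

theorem sub_one_nil {R : Type*} [CommRing R] {x : NPS X R} (hx : x [] = 1) :
    (x - 1) [] = 0 := by rw [NPS.sub_apply, hx]; simp

/-- the minimal number of `T`s and the minimal degree -/
theorem exists_lead {R : Type*} [CommRing R] {κ : NPS (Option X) R} (hκ : κ ≠ 0) :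
    ∃ J m : ℕ, (∀ u, tc u < J → κ u = 0) ∧ (∀ u, tc u = J → xd u < m → κ u = 0) ∧
      ∃ u, tc u = J ∧ xd u = m ∧ κ u ≠ 0 := by
  classical
  have h1 : ∃ J : ℕ, ∃ u, tc u = J ∧ κ u ≠ 0 := by
    by_contra h
    push Not at h
    exact hκ (NPS.ext fun u => h _ u rfl)
  have h2 : ∃ m : ℕ, ∃ u, tc u = Nat.find h1 ∧ xd u = m ∧ κ u ≠ 0 := by
    obtain ⟨u, hu, hu0⟩ := Nat.find_spec h1
    exact ⟨xd u, u, hu, rfl, hu0⟩
  refine ⟨Nat.find h1, Nat.find h2, fun u hu => ?_, fun u hu hu' => ?_, ?_⟩
  · by_contra h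
    exact Nat.find_min h1 hu ⟨u, rfl, h⟩
  · by_contra h
    exact Nat.find_min h2 hu' ⟨u, hu, rfl, h⟩
  · exact Nat.find_spec h2

/-- **finite determinacy**, packaged -/
theorem det_finset {K : Type*} [Field K] [CharZero K] {x : NPS X K} (hx : GLike x)
    {κ : NPS (Option X) K} (hκ : κ ≠ 0) (h0 : ev (x - 1) κ = 0) :
    ∃ s : Set K, s.Finite ∧ ∀ B : Subring K, (∀ n : ℕ, ((n : K))⁻¹ ∈ B) → (∀ u, κ u ∈ B) →
      s ⊆ B → ∀ w, x w ∈ B := by
  have : Finite X := inferInstance
  have hx1 : (x - 1) [] = 0 := sub_one_nil hx.1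
  obtain ⟨J, m, h1, h2, h3⟩ := exists_lead (shift_ne_zero hx1 hκ)
  have hJ : 1 ≤ J := by
    by_contra h
    obtain ⟨u, hu1, _, hu3⟩ := h3
    obtain ⟨a, rfl⟩ := eq_map_some (show tc u = 0 by omega)
    rw [shift_apply_some, h0] at hu3
    exact hu3 rfl
  refine ⟨(fun w => x w) '' {w : List X | w.length ≤ m} ∪
    (fun u => (shift (x - 1) κ u)⁻¹) '' {u : List (Option X) | u.length = J + m}, ?_, ?_⟩
  · exact ((List.finite_length_le X m).image _).union
      ((List.finite_length_eq (Option X) (J + m)).image _)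
  · intro B hB hκB hs
    refine det_mem B hB hx hκB hJ h1 h2 h3 (fun w hw => hs (Or.inl ⟨w, hw, rfl⟩))
      (fun u hu1 hu2 => hs (Or.inr ⟨u, ?_, rfl⟩))
    change u.length = J + m
    rw [← tc_add_xd, hu1, hu2]

end

/-- data for specialisation: `K` is an ultrapower of `k` -/
structure UP {I : Type*} (𝒰 : Ultrafilter I) (k K : Type*) [Field k] [Field K] where
  q : (I → k) →+* K
  surj : Function.Surjective q
  zero : ∀ f : I → k, q f = 0 ↔ ∀ᶠ i in (𝒰 : Filter I), f i = 0

/-- the ultrapower -/
noncomputable def upGerm {I : Type*} (𝒰 : Ultrafilter I) (k : Type*) [Field k] :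
    UP 𝒰 k (Germ (𝒰 : Filter I) k) where
  q := Germ.coeRingHom (𝒰 : Filter I)
  surj := by
    intro z
    induction z using Germ.inductionOn with
    | h f => exact ⟨f, rfl⟩
  zero := by
    intro f
    change ((f : Germ (𝒰 : Filter I) k) = ((fun _ => 0 : I → k) : Germ (𝒰 : Filter I) k)) ↔ _
    rw [Germ.coe_eq]
    rfl

namespace UP

variable {I : Type*} {𝒰 : Ultrafilter I} {k K : Type*} [Field k] [Field K] (U : UP 𝒰 k K)

/-- constants -/
def c : k →+* K := U.q.comp (Pi.constRingHom I k)

theorem eq_iff (f g : I → k) : U.q f = U.q g ↔ ∀ᶠ i in (𝒰 : Filter I), f i = g i := by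
  rw [← sub_eq_zero, ← map_sub, U.zero]
  refine eventually_congr (Eventually.of_forall fun i => ?_)
  rw [Pi.sub_apply, sub_eq_zero]

theorem charZero [CharZero k] (U : UP 𝒰 k K) : CharZero K := by
  refine ⟨fun m n h => ?_⟩
  have h1 : U.q (m : I → k) = U.q (n : I → k) := by rw [map_natCast, map_natCast, h]
  rw [U.eq_iff] at h1
  obtain ⟨i, hi⟩ := h1.exists
  rw [Pi.natCast_apply, Pi.natCast_apply] at hi
  exact Nat.cast_injective hi

/-- **Specialisations**: for a finite subset `s` of the ultrapower there are a commutative ring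
`P`, a homomorphism `π : P → K` whose range contains `k` and `s`, and homomorphisms
`ρ i : P → k` such that `π p` is the class of `i ↦ ρ i p`, and for almost all `i` the homomorphism
`ρ i` kills the kernel of `π`. -/
theorem exists_spec {k K : Type} [Field k] [Field K] (U : UP 𝒰 k K) (s : Set K)
    (hs : s.Finite) : ∃ (P : Type) (_ : CommRing P) (C : k →+* P) (π : P →+* K)
      (ρ : I → P →+* k), (∀ i, (ρ i).comp C = RingHom.id k) ∧ (π.comp C = U.c) ∧
      (∀ p, π p = U.q (fun i => ρ i p)) ∧
      (∀ᶠ i in (𝒰 : Filter I), ∀ p, π p = 0 → ρ i p = 0) ∧ (∀ z ∈ s, ∃ p, π p = z) := by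
  classical
  have : Finite s := hs
  choose r hr using U.surj
  let π : MvPolynomial s k →+* K := MvPolynomial.eval₂Hom U.c (fun a => (a : K))
  let ρ : I → MvPolynomial s k →+* k := fun i =>
    MvPolynomial.eval₂Hom (RingHom.id k) (fun a => r a i)
  have hπρ : ∀ p, π p = U.q (fun i => ρ i p) := by
    intro p
    have h1 : π = U.q.comp (RingHom.pi fun i => ρ i) := by
      apply MvPolynomial.ringHom_ext
      · intro a
        simp only [π, MvPolynomial.coe_eval₂Hom, MvPolynomial.eval₂_C, RingHom.comp_apply]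
        change U.q _ = U.q _
        congr 1
        funext i
        simp [ρ]
      · intro a
        simp only [π, MvPolynomial.coe_eval₂Hom, MvPolynomial.eval₂_X, RingHom.comp_apply]
        rw [← hr (a : K)]
        congr 1
        funext i
        simp [ρ]
    rw [h1]
    rfl
  refine ⟨MvPolynomial s k, inferInstance, MvPolynomial.C, π, ρ, ?_, ?_, hπρ, ?_, ?_⟩
  · intro i
    ext a
    simp [ρ]
  · ext a
    simp [π]
  · obtain ⟨t, ht⟩ := (inferInstance : IsNoetherianRing (MvPolynomial s k)).noetherian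
      (RingHom.ker π)
    have h1 : ∀ᶠ i in (𝒰 : Filter I), ∀ p ∈ t, ρ i p = 0 := by
      rw [Filter.eventually_all_finset]
      intro p hp
      have h2 : π p = 0 := by
        have : p ∈ RingHom.ker π := by rw [← ht]; exact Submodule.subset_span hp
        exact this
      rw [hπρ, U.zero] at h2
      exact h2
    refine h1.mono fun i hi p hp => ?_
    have h3 : RingHom.ker π ≤ RingHom.ker (ρ i) := by
      rw [← ht]
      refine Submodule.span_le.mpr fun p hp => ?_
      exact hi p hp
    exact h3 hp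
  · intro z hz
    refine ⟨MvPolynomial.X ⟨z, hz⟩, ?_⟩
    simp [π]

end UP

section

variable {I X : Type} [DecidableEq X] [Fintype X] [LinearOrder X]
variable {𝒰 : Ultrafilter I} {k K : Type} [Field k] [Field K] [CharZero k]

/-- the class of a family of series -/
def cls {Y : Type} (U : UP 𝒰 k K) (g : I → NPS Y k) : NPS Y K := fun w => U.q (fun i => g i w)

theorem cls_GLike (U : UP 𝒰 k K) {g : I → NPS X k} (hg : ∀ i, GLike (g i)) :
    GLike (cls U g) := by
  refine ⟨?_, fun u v => ?_⟩
  · have : (fun i => g i []) = (1 : I → k) := by funext i; exact (hg i).1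
    change U.q _ = 1
    rw [this, map_one]
  · change U.q _ * U.q _ = _
    rw [← map_mul]
    have h1 : ((fun i => g i u) * fun i => g i v) = fun i => ((inf u v).map (g i)).sum := by
      funext i; exact (hg i).2 u v
    rw [h1]
    generalize inf u v = L
    induction L with
    | nil =>
      simp only [List.map_nil, List.sum_nil]
      exact map_zero U.q
    | cons w L ih =>
      simp only [List.map_cons, List.sum_cons]
      rw [← ih]
      change _ = U.q _ + _
      rw [← map_add]
      rfl

/-- naturality of substitution for classes of families -/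
theorem cls_sub {Z Z' : Type} [Fintype Z] (U : UP 𝒰 k K) (η : I → Z → NPS Z' k)
    (κ : I → NPS Z k) : cls U (fun i => sub (η i) (κ i)) =
      sub (fun z => cls U (fun i => η i z)) (cls U κ) := by
  let η' : Z → NPS Z' (I → k) := fun z w i => η i z w
  let κ' : NPS Z (I → k) := fun w i => κ i w
  have h1 : sub (fun z => cls U (fun i => η i z)) (cls U κ) =
      NPS.map U.q (sub η' κ') := by
    rw [sub_map]
    rfl
  have h2 : sub η' κ' = fun w i => sub (η i) (κ i) w := by
    funext w i
    have h3 : NPS.map (Pi.evalRingHom (fun _ => k) i) (sub η' κ') w =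
        sub (η i) (κ i) w := by
      rw [sub_map]
      rfl
    exact h3
  rw [h1, h2]
  rfl

theorem cls_const {Y : Type} (U : UP 𝒰 k K) (f : NPS Y k) :
    cls U (fun _ => f) = NPS.map U.c f := rfl

theorem cls_X {Y : Type} [DecidableEq Y] (U : UP 𝒰 k K) (y : Y) :
    cls U (fun _ => (NPS.X y : NPS Y k)) = NPS.X y := by
  rw [cls_const, map_X]

theorem cls_sub_one {Y : Type} (U : UP 𝒰 k K) (g : I → NPS Y k) :
    cls U (fun i => g i - 1) = cls U g - 1 := by
  refine NPS.ext fun w => ?_
  change U.q (fun i => g i w - (1 : NPS Y k) w) = U.q (fun i => g i w) - (1 : NPS Y K) w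
  have h1 : (fun i => g i w - (1 : NPS Y k) w) = (fun i => g i w) -
    fun _ => (1 : NPS Y k) w := rfl
  rw [h1, map_sub]
  congr 1
  cases w with
  | nil => exact map_one U.q
  | cons a w => exact map_zero U.q

theorem cls_ev (U : UP 𝒰 k K) (g : I → NPS X k) (κ : I → NPS (Option X) k) :
    cls U (fun i => ev (g i - 1) (κ i)) = ev (cls U g - 1) (cls U κ) := by
  unfold ev
  rw [cls_sub]
  congr 1
  funext o
  cases o with
  | none => exact cls_sub_one U g
  | some x => exact cls_X U x

theorem map_emb {R S : Type} [CommRing R] [CommRing S] (φ : R →+* S) (f : NPS X R) :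
    NPS.map φ (emb f) = emb (NPS.map φ f) := by
  unfold emb
  rw [sub_map]
  congr 1
  funext y
  rw [map_X]

theorem map_shift {R S : Type} [CommRing R] [CommRing S] (φ : R →+* S) (ξ : NPS X R)
    (κ : NPS (Option X) R) : NPS.map φ (shift ξ κ) = shift (NPS.map φ ξ) (NPS.map φ κ) := by
  unfold shift
  rw [sub_map]
  congr 1
  funext o
  cases o with
  | none =>
    change NPS.map φ (emb ξ + NPS.X none) = emb (NPS.map φ ξ) + NPS.X none
    rw [map_add, map_emb, map_X]
  | some y =>
    change NPS.map φ (NPS.X (some y)) = NPS.X (some y)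
    rw [map_X]

/-- **Exactness**: the specialised series are the given ones. -/
theorem spec_exact (U : UP 𝒰 k K) {g : I → NPS X k} (hg : ∀ i, GLike (g i))
    {P : Type} [CommRing P] {π : P →+* K} {ρ : I → P →+* k}
    (hπρ : ∀ p, π p = U.q (fun i => ρ i p))
    (hker : ∀ᶠ i in (𝒰 : Filter I), ∀ p, π p = 0 → ρ i p = 0)
    {κ : NPS (Option X) P} (hκ : NPS.map π κ ≠ 0)
    (h0 : ∀ᶠ i in (𝒰 : Filter I), ev (g i - 1) (NPS.map (ρ i) κ) = 0)
    {x : NPS X P} (hx : ∀ w, π (x w) = cls U g w) :
    ∀ᶠ i in (𝒰 : Filter I), NPS.map (ρ i) x = g i := by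
  have hmx : NPS.map π x = cls U g := NPS.ext hx
  have hGcls := cls_GLike U hg
  -- the shifted series
  set κx : NPS (Option X) P := shift (x - 1) κ with hκx
  have hπκ : NPS.map π κx = shift (cls U g - 1) (NPS.map π κ) := by
    rw [hκx, map_shift, map_sub, map_one, hmx]
  have hρκ : ∀ i, NPS.map (ρ i) κx = shift (NPS.map (ρ i) x - 1) (NPS.map (ρ i) κ) := by
    intro i
    rw [hκx, map_shift, map_sub, map_one]
  obtain ⟨J, m, h1, h2, u0, hu1, hu2, hu3⟩ := exists_lead
    (shift_ne_zero (sub_one_nil hGcls.1) hκ)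
  rw [← hπκ] at h1 h2 hu3
  -- the eventual properties
  have hev1 : ∀ᶠ i in (𝒰 : Filter I), ρ i (κx u0) ≠ 0 := by
    refine Ultrafilter.eventually_not.mpr fun h => ?_
    apply hu3
    change π (κx u0) = 0
    rw [hπρ, U.zero]
    exact h
  have hev2 : ∀ᶠ i in (𝒰 : Filter I), ∀ w ∈ {w : List X | w.length ≤ m},
      ρ i (x w) = g i w := by
    have : Finite X := inferInstance
    rw [Filter.eventually_all_finite (List.finite_length_le X m)]
    intro w _
    have h3 := hx w
    rw [hπρ] at h3
    exact (U.eq_iff _ _).mp h3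
  by_contra hcon
  have hcon' : ∀ᶠ i in (𝒰 : Filter I), ¬ NPS.map (ρ i) x = g i :=
    Ultrafilter.eventually_not.mpr hcon
  obtain ⟨i, hne, hker_i, hθ, hlow, hev0⟩ :=
    (hcon'.and (hker.and (hev1.and (hev2.and h0)))).exists
  set x' := NPS.map (ρ i) x with hx'
  have hx'G : GLike x' := by
    refine ⟨?_, fun u v => ?_⟩
    · have h3 : π (x [] - 1) = 0 := by
        rw [map_sub, map_one, hx, hGcls.1, sub_self]
      have h4 := hker_i _ h3
      rw [map_sub, map_one, sub_eq_zero] at h4
      exact h4
    · have h3 : π (x u * x v - ((inf u v).map x).sum) = 0 := by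
        rw [map_sub, map_mul, hx, hx, hGcls.2 u v, map_list_sum, List.map_map, sub_eq_zero]
        congr 1
        refine List.map_congr_left fun w _ => ?_
        exact (hx w).symm
      have h4 := hker_i _ h3
      rw [map_sub, map_mul, sub_eq_zero, map_list_sum, List.map_map] at h4
      exact h4
  -- the deviation
  set ξ := g i - x' with hξ
  have hξ0 : ∃ e : ℕ, ∃ w : List X, w.length = e ∧ ξ w ≠ 0 := by
    by_contra h
    push Not at h
    apply hne
    have h5 : ξ = 0 := NPS.ext fun w => h _ w rfl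
    exact (sub_eq_zero.mp h5).symm
  classical
  obtain ⟨w0, hw0, hw0'⟩ := Nat.find_spec hξ0
  have hord : Ord (Nat.find hξ0) ξ := by
    intro w hw
    by_contra h
    exact Nat.find_min hξ0 hw ⟨w, rfl, h⟩
  have hme : m < Nat.find hξ0 := by
    by_contra h
    rw [not_lt] at h
    apply hw0'
    rw [hξ, NPS.sub_apply, hx', map_apply, hlow w0 (by change w0.length ≤ m; omega), sub_self]
  have hprim : Prim (Nat.find hξ0) ξ := prim_of_diff (hg i) hx'G hord
  have hnz := ev_ne_zero hme hord hprim ⟨w0, hw0, hw0'⟩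
    (κ := shift (x' - 1) (NPS.map (ρ i) κ)) (J := J) ?_ ?_ ⟨u0, hu1, hu2, ?_⟩
  · apply hnz
    rw [ev_shift ξ (x' - 1) (hord [] (by simp only [List.length_nil]; omega))]
    have h6 : ξ + (x' - 1) = g i - 1 := by rw [hξ]; abel
    rw [h6]
    exact hev0
  · intro u hu
    rw [← hρκ]
    exact hker_i _ (h1 u hu)
  · intro u hu hu'
    rw [← hρκ]
    exact hker_i _ (h2 u hu hu')
  · rw [← hρκ]
    exact hθ

end

/-- evaluation of a series in the letters `X` and `ι` at `ι`-tuples -/
def evn {X ι R : Type*} [DecidableEq X] [Fintype X] [Fintype ι] [CommRing R]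
    (g : ι → NPS X R) : NPS (X ⊕ ι) R → NPS X R :=
  sub (Sum.elim NPS.X (fun l => g l - 1))

/-- evaluation at the coordinates of smaller rank, coordinate `l` becoming the variable and the
other ones `1` -/
def evr {X ι R : Type*} [DecidableEq X] [Fintype X] [Fintype ι] [DecidableEq ι] [CommRing R]
    (r : ι → ℕ) (l : ι) (g : ι → NPS X R) : NPS (X ⊕ ι) R → NPS (Option X) R :=
  sub (Sum.elim (fun x => NPS.X (some x))
    (fun i => if i = l then NPS.X none else if r i < r l then emb (g i - 1) else 0))

section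

variable {I X ι : Type} [DecidableEq X] [Fintype X] [LinearOrder X] [Fintype ι] [DecidableEq ι]
variable {𝒰 : Ultrafilter I} {k : Type} [Field k] [CharZero k]

theorem cls_evn {K : Type} [Field K] (U : UP 𝒰 k K) (g : I → ι → NPS X k)
    (κ : NPS (X ⊕ ι) k) : cls U (fun i => evn (g i) κ) =
      evn (fun l => cls U (fun i => g i l)) (NPS.map U.c κ) := by
  unfold evn
  rw [cls_sub, cls_const]
  congr 1
  funext o
  cases o with
  | inl x => exact cls_X U x
  | inr l => exact cls_sub_one U (fun i => g i l)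

theorem cls_emb {K : Type} [Field K] (U : UP 𝒰 k K) (g : I → NPS X k) :
    cls U (fun i => emb (g i)) = emb (cls U g) := by
  unfold emb
  rw [cls_sub]
  congr 1
  funext x
  exact cls_X U _

theorem cls_evr {K : Type} [Field K] (U : UP 𝒰 k K) (r : ι → ℕ) (l : ι) (g : I → ι → NPS X k)
    (κ : NPS (X ⊕ ι) k) : cls U (fun i => evr r l (g i) κ) =
      evr r l (fun l => cls U (fun i => g i l)) (NPS.map U.c κ) := by
  unfold evr
  rw [cls_sub, cls_const]
  congr 1
  funext o
  cases o with
  | inl x => exact cls_X U _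
  | inr j =>
    by_cases h1 : j = l
    · simp only [Sum.elim_inr, if_pos h1]
      exact cls_X U _
    · simp only [Sum.elim_inr, if_neg h1]
      by_cases h2 : r j < r l
      · simp only [if_pos h2]
        rw [cls_emb, cls_sub_one]
      · simp only [if_neg h2]
        refine NPS.ext fun w => ?_
        exact map_zero U.q

theorem map_evr {R S : Type} [CommRing R] [CommRing S] (φ : R →+* S) (r : ι → ℕ) (l : ι)
    (g : ι → NPS X R) (κ : NPS (X ⊕ ι) R) :
    NPS.map φ (evr r l g κ) = evr r l (fun i => NPS.map φ (g i)) (NPS.map φ κ) := by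
  unfold evr
  rw [sub_map]
  congr 1
  funext o
  cases o with
  | inl x => exact map_X _ _
  | inr j =>
    by_cases h1 : j = l
    · simp only [Sum.elim_inr, if_pos h1]
      exact map_X _ _
    · simp only [Sum.elim_inr, if_neg h1]
      by_cases h2 : r j < r l
      · simp only [if_pos h2]
        rw [map_emb, map_sub, map_one]
      · simp only [if_neg h2]
        exact map_zero _

theorem evr_mem_of {R : Type} [CommRing R] (B : Subring R) (r : ι → ℕ) (l : ι)
    {g : ι → NPS X R} {κ : NPS (X ⊕ ι) R} (hg : ∀ i, r i < r l → ∀ w, g i w ∈ B)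
    (hκ : ∀ u, κ u ∈ B) (u : List (Option X)) : evr r l g κ u ∈ B := by
  unfold evr
  refine sub_mem_of B _ (fun o => ?_) _ κ hκ u le_rfl
  cases o with
  | inl x => exact fun w => X_mem_of B _ w
  | inr j =>
    by_cases h1 : j = l
    · simp only [Sum.elim_inr, if_pos h1]
      exact fun w => X_mem_of B _ w
    · simp only [Sum.elim_inr, if_neg h1]
      by_cases h2 : r j < r l
      · simp only [if_pos h2]
        refine fun w => emb_mem_of B (fun w => ?_) w
        rw [NPS.sub_apply]
        refine B.sub_mem (hg j h2 w) ?_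
        cases w with
        | nil => exact B.one_mem
        | cons a w => exact B.zero_mem
      · simp only [if_neg h2]
        exact fun w => B.zero_mem

theorem evr_congr {R : Type} [CommRing R] (r : ι → ℕ) (l : ι) {g g' : ι → NPS X R}
    (h : ∀ i, r i < r l → g i = g' i) (κ : NPS (X ⊕ ι) R) : evr r l g κ = evr r l g' κ := by
  unfold evr
  congr 1
  funext o
  cases o with
  | inl x => rfl
  | inr j =>
    by_cases h1 : j = l
    · simp only [Sum.elim_inr, if_pos h1]
    · simp only [Sum.elim_inr, if_neg h1]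
      by_cases h2 : r j < r l
      · simp only [if_pos h2, h j h2]
      · simp only [if_neg h2]

/-- **The specialisation principle.** -/
theorem specialisation (g : I → ι → NPS X k) (hg : ∀ i l, GLike (g i l)) (r : ι → ℕ)
    (κ : ι → NPS (X ⊕ ι) k)
    (hκ : ∀ l, ∃ u, ∀ᶠ i in (𝒰 : Filter I), evr r l (g i) (κ l) u ≠ 0)
    (h0 : ∀ l, ∀ᶠ i in (𝒰 : Filter I), ev (g i l - 1) (evr r l (g i) (κ l)) = 0) :
    ∀ᶠ i in (𝒰 : Filter I), ∀ Φ : NPS (X ⊕ ι) k,
      (∀ᶠ j in (𝒰 : Filter I), evn (g j) Φ = 0) → evn (g i) Φ = 0 := by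
  classical
  set K := Germ (𝒰 : Filter I) k
  let U : UP 𝒰 k K := upGerm 𝒰 k
  have : CharZero K := U.charZero
  set xK : ι → NPS X K := fun l => cls U (fun i => g i l) with hxK
  have hcκ : ∀ l, evr r l xK (NPS.map U.c (κ l)) ≠ 0 := by
    intro l h
    obtain ⟨u, hu⟩ := hκ l
    rw [← cls_evr] at h
    have h1 : U.q (fun i => evr r l (g i) (κ l) u) = 0 := congrFun h u
    rw [U.zero] at h1
    obtain ⟨i, hi, hi'⟩ := (hu.and h1).exists
    exact hi hi'
  have hx : ∀ l, GLike (xK l) := fun l => cls_GLike U fun i => hg i l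
  have hev : ∀ l, ev (xK l - 1) (evr r l xK (NPS.map U.c (κ l))) = 0 := by
    intro l
    rw [← cls_evr, ← cls_ev]
    refine NPS.ext fun w => ?_
    change U.q _ = 0
    rw [U.zero]
    refine (h0 l).mono fun i hi => ?_
    change ev (g i l - 1) (evr r l (g i) (κ l)) w = 0
    rw [hi]
    rfl
  choose s hs hsB using fun l => det_finset (hx l) (hcκ l) (hev l)
  obtain ⟨P, _, C, π, ρ, hρC, hπC, hπρ, hker, hsP⟩ := U.exists_spec (⋃ l, s l)
    (Set.finite_iUnion hs)
  have hcB : ∀ c, U.c c ∈ π.range := by
    intro c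
    rw [← hπC]
    exact ⟨C c, rfl⟩
  have hmem : ∀ (N : ℕ) (l : ι), r l < N → ∀ w, xK l w ∈ π.range := by
    intro N
    induction N with
    | zero => intro l hl; omega
    | succ N ih =>
      intro l hl
      refine hsB l π.range (fun n => ?_) (fun u => ?_) (fun z hz => ?_)
      · have : ((n : K))⁻¹ = U.c ((n : k)⁻¹) := by rw [map_inv₀, map_natCast]
        rw [this]
        exact hcB _
      · exact evr_mem_of _ r l (fun i hi => ih i (by omega)) (fun u => hcB _) u
      · obtain ⟨p, hp⟩ := hsP z (Set.mem_iUnion.mpr ⟨l, hz⟩)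
        exact ⟨p, hp⟩
  have hmem' : ∀ l w, ∃ p, π p = xK l w := fun l w => hmem (r l + 1) l (by omega) w
  choose x0 hxp using hmem'
  let x : ι → NPS X P := x0
  have hπx : ∀ l, NPS.map π (x l) = xK l := fun l => NPS.ext (hxp l)
  have hρC' : ∀ (i : I) {Y : Type} (f : NPS Y k), NPS.map (ρ i) (NPS.map C f) = f := by
    intro i Y f
    refine NPS.ext fun w => ?_
    change ((ρ i).comp C) (f w) = f w
    rw [hρC]
    rfl
  have hπC' : ∀ {Y : Type} (f : NPS Y k), NPS.map π (NPS.map C f) = NPS.map U.c f := by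
    intro Y f
    rw [← hπC]
    rfl
  have hexact : ∀ (N : ℕ) (l : ι), r l < N →
      ∀ᶠ i in (𝒰 : Filter I), NPS.map (ρ i) (x l) = g i l := by
    intro N
    induction N with
    | zero => intro l hl; omega
    | succ N ih =>
      intro l hl
      have hlow : ∀ᶠ i in (𝒰 : Filter I), ∀ l', r l' < r l → NPS.map (ρ i) (x l') = g i l' := by
        rw [Filter.eventually_all]
        intro l'
        by_cases h : r l' < r l
        · exact (ih l' (by omega)).mono fun i hi _ => hi
        · exact Eventually.of_forall fun i h' => absurd h' h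
      refine spec_exact U (fun i => hg i l) hπρ hker
        (κ := evr r l x (NPS.map C (κ l))) ?_ ?_ (hxp l)
      · rw [map_evr, hπC']
        have : (fun i => NPS.map π (x i)) = xK := by funext i; exact hπx i
        rw [this]
        exact hcκ l
      · refine (hlow.and (h0 l)).mono fun i hi => ?_
        rw [map_evr, hρC', evr_congr r l hi.1]
        exact hi.2
  have hexact' : ∀ᶠ i in (𝒰 : Filter I), ∀ l, NPS.map (ρ i) (x l) = g i l := by
    rw [Filter.eventually_all]
    intro l
    exact hexact (r l + 1) l (by omega)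
  refine (hexact'.and hker).mono fun i hi Φ hΦ => ?_
  obtain ⟨hi1, hi2⟩ := hi
  have hπΦ : NPS.map π (evn x (NPS.map C Φ)) = 0 := by
    have h1 : NPS.map π (evn x (NPS.map C Φ)) = cls U (fun i => evn (g i) Φ) := by
      rw [cls_evn]
      unfold evn
      rw [sub_map, hπC']
      congr 1
      funext o
      cases o with
      | inl y =>
        change NPS.map π (NPS.X y) = NPS.X y
        rw [map_X]
      | inr l =>
        change NPS.map π (x l - 1) = xK l - 1
        rw [map_sub, map_one, hπx]
    rw [h1]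
    refine NPS.ext fun w => ?_
    change U.q _ = 0
    rw [U.zero]
    refine hΦ.mono fun i hi => ?_
    change evn (g i) Φ w = 0
    rw [hi]
    rfl
  have hρΦ : NPS.map (ρ i) (evn x (NPS.map C Φ)) = evn (g i) Φ := by
    unfold evn
    rw [sub_map, hρC']
    congr 1
    funext o
    cases o with
    | inl y =>
      change NPS.map (ρ i) (NPS.X y) = NPS.X y
      rw [map_X]
    | inr l =>
      change NPS.map (ρ i) (x l - 1) = g i l - 1
      rw [map_sub, map_one, hi1 l]
  rw [← hρΦ]
  refine NPS.ext fun w => ?_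
  exact hi2 _ (congrFun hπΦ w)

end

end Run7.h937
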