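import Pool.Agent.Run7.h937.Shift

set_option autoImplicit false
set_option linter.unusedSectionVars false

/-! Finite determinacy of solutions. -/

namespace Run7.h937

open NPS Finset

section key

variable {X : Type*}

/-- words over `X ∪ {T}` as words over a linearly ordered set -/
def kk (u : List (Option X)) : List (WithBot X) := u.map (fun o => (o : WithBot X))

theorem kk_injective : Function.Injective (kk (X := X)) := by
  intro u v h
  exact List.map_injective_iff.mpr (fun a b hab => hab) h

theorem kk_length (u : List (Option X)) : (kk u).length = u.length := List.length_map _

theorem kk_append (u v : List (Option X)) : kk (u ++ v) = kk u ++ kk v := List.map_append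

theorem kk_some_le [LinearOrder X] {w w' : List X} (h : w ≤ w') :
    kk (w.map some) ≤ kk (w'.map some) := by
  induction w generalizing w' with
  | nil => exact nil_le' _
  | cons x w ih =>
    cases w' with
    | nil => exact absurd h (by rw [not_le]; exact List.nil_lt_cons _ _)
    | cons y w' =>
      change (x : WithBot X) :: kk (w.map some) ≤ (y : WithBot X) :: kk (w'.map some)
      rw [cle]
      rcases cle.mp h with h1 | ⟨h1, h2⟩
      · exact Or.inl (WithBot.coe_lt_coe.mpr h1)
      · exact Or.inr ⟨by rw [h1], ih h2⟩

/-- replace the first `T` by `w` -/
def fill1 (w : List X) : List (Option X) → List (Option X)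
  | [] => []
  | none :: b => w.map some ++ b
  | some x :: b => some x :: fill1 w b

theorem fill1_eq (w a : List X) (b : List (Option X)) :
    fill1 w (a.map some ++ none :: b) = a.map some ++ (w.map some ++ b) := by
  induction a with
  | nil => rfl
  | cons x a ih => rw [List.map_cons, List.cons_append, List.cons_append, fill1, ih]

theorem bord_map {A B : Type*} {f : A → B} (hf : Function.Injective f) {w : List A}
    (h : Bord (w.map f)) : Bord w := by
  obtain ⟨b, hb0, hbw, hbp, hbs⟩ := h
  have h1 : b = (w.take b.length).map f := by
    rw [List.map_take]
    exact List.prefix_iff_eq_take.mp hbp
  have h2 : b = (w.drop (w.length - b.length)).map f := by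
    rw [List.map_drop]
    have := List.suffix_iff_eq_drop.mp hbs
    rwa [List.length_map] at this
  have h3 : w.take b.length = w.drop (w.length - b.length) := by
    apply List.map_injective_iff.mpr hf
    exact h1.symm.trans h2
  refine ⟨w.take b.length, ?_, ?_, List.take_prefix _ _, ?_⟩
  · intro h; rw [h] at h1; exact hb0 (by simpa using h1)
  · intro h; rw [h] at h1; exact hbw h1
  · rw [h3]; exact List.drop_suffix _ _

theorem take_map_some_append {a : List X} {b : List (Option X)} {j : ℕ} (h : j ≤ a.length) :
    (a.map some ++ b).take j = (a.take j).map some := by
  rw [List.take_append_of_le_length (by rwa [List.length_map]), List.map_take]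

end key

section

variable {X : Type*} [DecidableEq X] [Fintype X] [LinearOrder X] {K : Type*} [Field K]
  [CharZero K]

theorem sum_split {A : Type*} (B : Subring K) (L : List A) (f : A → K) (ℓ : A)
    (h : ∀ w ∈ L, w ≠ ℓ → f w ∈ B) :
    ∃ (c : ℕ) (r : K), (ℓ ∈ L → c ≠ 0) ∧ r ∈ B ∧ (L.map f).sum = c * f ℓ + r := by
  classical
  induction L with
  | nil => exact ⟨0, 0, by simp, B.zero_mem, by simp⟩
  | cons w L ih =>
    obtain ⟨c, r, hc, hr, hs⟩ := ih fun w' hw' => h w' (List.mem_cons_of_mem _ hw')
    by_cases hw : w = ℓ
    · subst hw
      refine ⟨c + 1, r, fun _ => Nat.succ_ne_zero c, hr, ?_⟩
      rw [List.map_cons, List.sum_cons, hs]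
      push_cast
      ring
    · refine ⟨c, f w + r, fun hl => hc ?_, add_mem (h w List.mem_cons_self hw) hr, ?_⟩
      · rcases List.mem_cons.mp hl with h1 | h1
        · exact absurd h1.symm hw
        · exact h1
      · rw [List.map_cons, List.sum_cons, hs]
        ring

/-- **Finite determinacy.** -/
theorem det_mem (B : Subring K) (hB : ∀ n : ℕ, ((n : K))⁻¹ ∈ B) {x : NPS X K} (hx : GLike x)
    {κ : NPS (Option X) K} (hκ : ∀ u, κ u ∈ B) {J m : ℕ} (hJ : 1 ≤ J)
    (h0 : ∀ u, tc u < J → shift (x - 1) κ u = 0)
    (h1 : ∀ u, tc u = J → xd u < m → shift (x - 1) κ u = 0)
    (h2 : ∃ u, tc u = J ∧ xd u = m ∧ shift (x - 1) κ u ≠ 0)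
    (hxm : ∀ w : List X, w.length ≤ m → x w ∈ B)
    (hθ : ∀ u, tc u = J → xd u = m → (shift (x - 1) κ u)⁻¹ ∈ B) : ∀ w : List X, x w ∈ B := by
  have : Finite X := inferInstance
  have main : ∀ (N : ℕ) (w : List X), w.length = N → x w ∈ B := by
    intro N
    induction N using Nat.strong_induction_on with
    | _ N IH =>
    by_cases hNm : N ≤ m
    · exact fun w hw => hxm w (hw ▸ hNm)
    rw [not_le] at hNm
    by_contra hbad
    push Not at hbad
    obtain ⟨w, ⟨hw, hwB⟩, hmin⟩ := Set.exists_min_image {w : List X | w.length = N ∧ x w ∉ B} id
      ((List.finite_length_eq X N).subset fun w hw => hw.1) hbad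
    have hlow : ∀ v : List X, v.length < N → x v ∈ B := fun v hv => IH _ hv v rfl
    have hsm : ∀ v : List X, v.length = N → v < w → x v ∈ B := by
      intro v hv hvw
      by_contra hvB
      exact absurd (hmin v ⟨hv, hvB⟩) (not_le.mpr hvw)
    apply hwB
    by_cases hb : Bord w
    · -- bordered words: the shuffle relations
      obtain ⟨u, v, hu, hv, huv, hle⟩ := bord_factor hb
      have hu1 : 0 < u.length := List.length_pos_iff.mpr hu
      have hv1 : 0 < v.length := List.length_pos_iff.mpr hv
      have hlen : N = u.length + v.length := by rw [← hw, huv, List.length_append]
      obtain ⟨c, r, hc, hr, hs⟩ := sum_split B (inf u v) x w (by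
        intro w' hw' hne
        rcases inf_spec _ u v w' le_rfl hw' with h | h
        · exact hlow w' (by omega)
        · exact hsm w' (by rw [h.length, hlen]) (lt_of_le_of_ne (hle w' h) hne))
      have hc0 : (c : K) ≠ 0 := by
        have := hc (huv ▸ append_mem_inf u v)
        exact_mod_cast this
      have h3 : x w = (c : K)⁻¹ * (x u * x v - r) := by
        rw [hx.2 u v, hs]
        field_simp
        ring
      rw [h3]
      exact mul_mem (hB c) (sub_mem (mul_mem (hlow u (by omega)) (hlow v (by omega))) hr)
    · -- unbordered words: the equation
      have hN0 : 0 < N := by omega
      set y : NPS X K := fun v => if v.length < N ∨ (v.length = N ∧ v < w) then x v else 0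
        with hy
      have hyB : ∀ v, y v ∈ B := by
        intro v
        rw [hy]
        by_cases h : v.length < N ∨ (v.length = N ∧ v < w)
        · simp only [if_pos h]
          rcases h with h | ⟨h, h'⟩
          · exact hlow v h
          · exact hsm v h h'
        · simp only [if_neg h]
          exact B.zero_mem
      have hy0 : y [] = 1 := by
        rw [hy]
        simp only [List.length_nil]
        rw [if_pos (Or.inl hN0)]
        exact hx.1
      set ξ : NPS X K := x - y with hξdef
      have hξ : Ord N ξ := by
        intro v hv
        rw [hξdef, NPS.sub_apply, hy]
        simp only
        rw [if_pos (Or.inl hv), sub_self]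
      have hξw : ξ w = x w := by
        rw [hξdef, NPS.sub_apply, hy]
        simp only
        rw [if_neg, sub_zero]
        rintro (h | ⟨_, h⟩)
        · omega
        · exact absurd h (lt_irrefl _)
      have hξmin : ∀ v : List X, v.length = N → ξ v ≠ 0 → w ≤ v := by
        intro v hv hv0
        by_contra h
        rw [not_le] at h
        apply hv0
        rw [hξdef, NPS.sub_apply, hy]
        simp only
        rw [if_pos (Or.inr ⟨hv, h⟩), sub_self]
      set κy := shift (y - 1) κ with hκy
      have hone : ∀ v : List X, (1 : NPS X K) v ∈ B := by
        intro v
        cases v with
        | nil => exact B.one_mem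
        | cons a v => exact B.zero_mem
      have hκyB : ∀ u, κy u ∈ B := shift_mem_of B (fun v => sub_mem (hyB v) (hone v)) hκ
      have hsh : shift ξ κy = shift (x - 1) κ := by
        rw [hκy, shift_shift ξ (y - 1) (hξ [] hN0)]
        congr 1
        rw [hξdef]
        abel
      have hlowκ : ∀ u, xd u < N → shift (x - 1) κ u = κy u := by
        intro u hu
        rw [← hsh, shift_low hξ u κy hu]
      obtain ⟨us, ⟨hus1, hus2, hus3⟩, husmin⟩ := Set.exists_min_image
        {u : List (Option X) | tc u = J ∧ xd u = m ∧ shift (x - 1) κ u ≠ 0}
        (fun u => kk (fill1 w u))
        ((List.finite_length_eq (Option X) (J + m)).subset fun u hu => by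
          change u.length = J + m
          rw [← tc_add_xd, hu.1, hu.2.1]) h2
      obtain ⟨a0, b0, hab⟩ := first_none (u := us) (by omega)
      have htb : tc b0 + 1 = J := by
        rw [hab, tc_append, tc_some] at hus1
        simp only [tc] at hus1
        omega
      have hxb : a0.length + xd b0 = m := by
        rw [hab, xd_append, xd_some] at hus2
        simp only [xd] at hus2
        exact hus2
      set V : List (Option X) := a0.map some ++ (w.map some ++ b0) with hV
      have hfill : fill1 w us = V := by rw [hab, fill1_eq]
      have htV : tc V + 1 = J := by
        rw [hV, tc_append, tc_append, tc_some, tc_some]; omega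
      have hxV : xd V = N + m := by
        rw [hV, xd_append, xd_append, xd_some, xd_some, hw]; omega
      have hV0 : shift ξ κy V = 0 := by
        rw [hsh]; exact h0 V (by omega)
      rw [shift_expand hN0 hξ V κy (by omega) ?_] at hV0
      swap
      · intro u hu1 hu2
        rw [← hlowκ u (by omega)]
        exact h1 u (by omega) (by omega)
      have hVlen : V.length = a0.length + (N + b0.length) := by
        rw [hV]; simp [hw]
      rw [Finset.sum_eq_single a0.length] at hV0
      · have e1 : (V.drop a0.length).take N = w.map some := by
          rw [hV, List.drop_left' (by rw [List.length_map]), ← hw, List.take_left']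
          rw [List.length_map]
        have e2 : V.take a0.length = a0.map some := by
          rw [hV, List.take_left']
          rw [List.length_map]
        have e3 : V.drop (a0.length + N) = b0 := by
          rw [← List.drop_drop, hV, List.drop_left' (by rw [List.length_map]), ← hw,
            List.drop_left']
          rw [List.length_map]
        rw [e1, e2, e3, emb_map_some, hξw, ← hab] at hV0
        have hθus : κy us ≠ 0 := by
          rw [← hlowκ us (by omega)]; exact hus3
        have hθB : (κy us)⁻¹ ∈ B := by
          rw [← hlowκ us (by omega)]; exact hθ us hus1 hus2
        have h3 : x w = -(κy V) * (κy us)⁻¹ := by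
          field_simp
          linear_combination hV0
        rw [h3]
        exact mul_mem (neg_mem (hκyB V)) hθB
      · intro j hj hja
        rw [Finset.mem_range] at hj
        by_contra hne
        have hne1 := left_ne_zero_of_mul hne
        have hne2 := right_ne_zero_of_mul hne
        apply hja
        set blk := (V.drop j).take N with hblk
        have hVj : V = V.take j ++ (blk ++ V.drop (j + N)) := by
          rw [hblk, ← List.drop_drop, List.take_append_drop, List.take_append_drop]
        have hb1 : tc blk = 0 := by
          by_contra h
          exact hne1 (emb_eq_zero _ h)
        obtain ⟨w', hw'⟩ := eq_map_some hb1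
        have hb2 : xd blk = blk.length := by
          have := tc_add_xd blk
          omega
        have hb3 : N ≤ xd blk := by
          by_contra h
          exact hne1 (emb_low hξ (by omega))
        have hb4 : blk.length ≤ N := by
          rw [hblk]; exact List.length_take_le _ _
        have hw'N : w'.length = N := by
          have : blk.length = w'.length := by rw [hw', List.length_map]
          omega
        have hξw' : ξ w' ≠ 0 := by
          rw [hw', emb_map_some] at hne1
          exact hne1
        have hww' : w ≤ w' := hξmin w' hw'N hξw'
        have hxVj : xd V = xd (V.take j) + (xd blk + xd (V.drop (j + N))) := by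
          conv_lhs => rw [hVj, xd_append, xd_append]
        have htVj : tc V = tc (V.take j) + (tc blk + tc (V.drop (j + N))) := by
          conv_lhs => rw [hVj, tc_append, tc_append]
        -- the prefix has no T
        have hpre : tc (V.take j) = 0 := by
          by_cases hj2 : j ≤ a0.length + N
          · have : V.take j = ((a0 ++ w).take j).map some := by
              have hVa : V = (a0 ++ w).map some ++ b0 := by
                rw [hV, List.map_append, List.append_assoc]
              rw [hVa]
              exact take_map_some_append (by rw [List.length_append, hw]; exact hj2)
            rw [this, tc_some]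
          · exfalso
            have h5 : a0.length + N ≤ xd (V.take j) := by
              have hVa : V = (a0 ++ w).map some ++ b0 := by
                rw [hV, List.map_append, List.append_assoc]
              have h6 : V.take j = (a0 ++ w).map some ++ b0.take (j - (a0.length + N)) := by
                rw [hVa, List.take_append, List.length_map, List.length_append, hw,
                  List.take_of_length_le]
                rw [List.length_map, List.length_append, hw]; omega
              rw [h6, xd_append, xd_some, List.length_append, hw]
              omega
            omega
        obtain ⟨a', ha'⟩ := eq_map_some hpre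
        set b' := V.drop (j + N) with hb'
        rw [ha'] at hne2
        have hu't : tc (a'.map some ++ none :: b') = J := by
          rw [tc_append, tc_some]
          simp only [tc]
          omega
        have hu'x : xd (a'.map some ++ none :: b') = m := by
          rw [xd_append, xd_some]
          simp only [xd]
          have : xd (V.take j) = a'.length := by rw [ha', xd_some]
          omega
        have hu' : (a'.map some ++ none :: b') ∈
            {u : List (Option X) | tc u = J ∧ xd u = m ∧ shift (x - 1) κ u ≠ 0} :=
          ⟨hu't, hu'x, by rw [hlowκ _ (by omega)]; exact hne2⟩
        have hmin1 := husmin _ hu'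
        simp only [hfill, fill1_eq] at hmin1
        have hVw' : V = a'.map some ++ (w'.map some ++ b') := by
          rw [ha', hw'] at hVj
          exact hVj
        have hle2 : kk (a'.map some ++ (w.map some ++ b')) ≤ kk V := by
          rw [hVw', kk_append, kk_append, kk_append, kk_append]
          refine app_le rfl le_rfl (app_le ?_ (kk_some_le hww') le_rfl)
          rw [kk_length, kk_length, List.length_map, List.length_map, hw, hw'N]
        have heq : a'.map some ++ (w.map some ++ b') = V :=
          kk_injective (le_antisymm hle2 hmin1)
        have hub : ¬ Bord (w.map some) := fun h => hb (bord_map (Option.some_injective X) h)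
        have hja' : j = a'.length := by
          have : (V.take j).length = a'.length := by rw [ha', List.length_map]
          rw [List.length_take] at this
          omega
        rw [hja']
        rw [hV] at heq
        have hxa' : xd (V.take j) = a'.length := by rw [ha', xd_some]
        rcases lt_trichotomy a'.length a0.length with h | h | h
        · exfalso
          have h7 : a0.map some = a'.map some ++ (a0.drop a'.length).map some := by
            have h8 : a'.map some <+: a0.map some := by
              refine List.prefix_of_prefix_length_le (l₃ := a0.map some ++ (w.map some ++ b0))
                ?_ (List.prefix_append _ _) (by rw [List.length_map, List.length_map]; omega)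
              rw [← heq]
              exact List.prefix_append _ _
            have h9 := List.prefix_iff_eq_take.mp h8
            rw [List.length_map] at h9
            rw [h9, List.map_drop, List.take_append_drop]
          rw [h7, List.append_assoc] at heq
          have h10 := List.append_cancel_left heq
          refine unbord_overlap hub ?_ ?_ h10
          · intro h11
            have := congrArg List.length h11
            rw [List.length_map, List.length_drop, List.length_nil] at this
            omega
          · rw [List.length_map, List.length_map, List.length_drop, hw]
            omega
        · exact h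
        · exfalso
          have h7 : a'.map some = a0.map some ++ (a'.drop a0.length).map some := by
            have h8 : a0.map some <+: a'.map some := by
              refine List.prefix_of_prefix_length_le (l₃ := a'.map some ++ (w.map some ++ b'))
                ?_ (List.prefix_append _ _) (by rw [List.length_map, List.length_map]; omega)
              rw [heq]
              exact List.prefix_append _ _
            have h9 := List.prefix_iff_eq_take.mp h8
            rw [List.length_map] at h9
            rw [h9, List.map_drop, List.take_append_drop]
          rw [h7, List.append_assoc] at heq
          have h10 := (List.append_cancel_left heq).symm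
          refine unbord_overlap hub ?_ ?_ h10
          · intro h11
            have := congrArg List.length h11
            rw [List.length_map, List.length_drop, List.length_nil] at this
            omega
          · rw [List.length_map, List.length_map, List.length_drop, hw]
            omega
      · intro h
        exact absurd (Finset.mem_range.mpr (by omega)) h
  exact fun w => main _ w rfl

end

end Run7.h937
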