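import Pool.Agent.Run7.h937.Lie

set_option autoImplicit false
set_option linter.unusedSectionVars false

/-! Detection of countably many elements by one homomorphism into series in two letters. -/

namespace Run7.h937

open NPS Finset

section

variable {R : Type} [CommRing R]

/-- restriction to the first `M` letters -/
def res (M : ℕ) (f : NPS ℕ R) : NPS (Fin M) R := fun w => f (w.map Fin.val)

theorem res_one (M : ℕ) : res M (1 : NPS ℕ R) = 1 := by
  refine NPS.ext fun w => ?_
  cases w <;> rfl

theorem res_mul (M : ℕ) (f g : NPS ℕ R) : res M (f * g) = res M f * res M g := by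
  refine NPS.ext fun w => ?_
  rw [mul_apply]
  change (f * g) (w.map Fin.val) = _
  rw [mul_apply, List.length_map]
  refine Finset.sum_congr rfl fun i _ => ?_
  unfold res
  rw [List.map_take, List.map_drop]

theorem res_add (M : ℕ) (f g : NPS ℕ R) : res M (f + g) = res M f + res M g := rfl
theorem res_sub (M : ℕ) (f g : NPS ℕ R) : res M (f - g) = res M f - res M g := rfl

theorem res_X_lt {M n : ℕ} (h : n < M) : res M (NPS.X n : NPS ℕ R) = NPS.X ⟨n, h⟩ := by
  refine NPS.ext fun w => ?_
  change (NPS.X n : NPS ℕ R) (w.map Fin.val) = _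
  rw [X_apply, X_apply]
  congr 1
  rw [eq_iff_iff]
  constructor
  · intro h1
    have h2 : w.map Fin.val = [(⟨n, h⟩ : Fin M)].map Fin.val := h1
    exact List.map_injective_iff.mpr Fin.val_injective h2
  · rintro rfl
    rfl

theorem res_X_ge {M n : ℕ} (h : M ≤ n) : res M (NPS.X n : NPS ℕ R) = 0 := by
  refine NPS.ext fun w => ?_
  change (NPS.X n : NPS ℕ R) (w.map Fin.val) = _
  rw [X_apply, if_neg]
  · rfl
  · intro h1
    match w, h1 with
    | a :: w, h1 =>
      rw [List.map_cons] at h1
      have h2 := (List.cons.inj h1).1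
      have := a.2
      omega

/-- agreement on words of length at most `M` -/
def TC {Y : Type} (M : ℕ) (f g : NPS Y R) : Prop := ∀ w : List Y, w.length ≤ M → f w = g w

namespace TC

variable {Y : Type} {M : ℕ} {f g h : NPS Y R}

theorem rfl' : TC M f f := fun _ _ => rfl
theorem symm (h1 : TC M f g) : TC M g f := fun w hw => (h1 w hw).symm
theorem trans (h1 : TC M f g) (h2 : TC M g h) : TC M f h := fun w hw => (h1 w hw).trans (h2 w hw)
theorem mul_left (h1 : TC M f g) : TC M (h * f) (h * g) := fun w hw =>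
  mul_congr (fun _ _ => rfl) fun v hv => h1 v (hv.trans hw)
theorem mul_right (h1 : TC M f g) : TC M (f * h) (g * h) := fun w hw =>
  mul_congr (fun v hv => h1 v (hv.trans hw)) fun _ _ => rfl

end TC

end

variable {p : ℕ} [hp : Fact p.Prime] {X F : Type} [Group F] [TopologicalSpace F]
  [IsTopologicalGroup F] [CompactSpace F] [T2Space F] [TotallyDisconnectedSpace F] {ι : X → F}

theorem FP.detect (h : FP p X F ι) (H : Set F) (hH : H.Countable) (hH1 : (1 : F) ∉ H) :
    ∃ μ : F →* UU (Fin 2) ℤ_[p],
      (∀ m, IsOpen (((congSub (fun _ : Fin 2 => 1) m).comap μ : Subgroup F) : Set F)) ∧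
      (∀ g, GLike (μ g).1) ∧ ∀ g ∈ H, μ g ≠ 1 := by
  classical
  have hN : ∀ g : F, ∃ N : OpenNormalSubgroup F, g ∈ H → g ∉ N := by
    intro g
    by_cases hg : g ∈ H
    · have hg1 : (1 : F) ∈ ({g}ᶜ : Set F) := by
        intro h1
        exact hH1 (by rw [Set.mem_singleton_iff] at h1; rw [h1]; exact hg)
      obtain ⟨N, hN⟩ := ProfiniteGrp.exist_openNormalSubgroup_sub_open_nhds_of_one
        (isOpen_compl_singleton (x := g)) hg1
      exact ⟨N, fun _ hgN => hN hgN rfl⟩
    · obtain ⟨N, _⟩ := ProfiniteGrp.exist_openNormalSubgroup_sub_open_nhds_of_one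
        (G := F) isOpen_univ (Set.mem_univ _)
      exact ⟨N, fun h => absurd h hg⟩
  choose N hN using hN
  set Y : Set X := ⋃ g ∈ H, {x | ι x ∉ N g} with hYdef
  have hY : Y.Countable := by
    refine hH.biUnion fun g _ => Set.Finite.countable ?_
    have h1 : ∀ᶠ x in Filter.cofinite, ι x ∈ ((N g : OpenNormalSubgroup F) : Set F) :=
      h.conv ((N g).isOpen'.mem_nhds (N g).one_mem')
    exact Filter.eventually_cofinite.mp h1
  have : Encodable Y := hY.toEncodable
  let ν : X → Option ℕ := fun x => if hx : x ∈ Y then some (Encodable.encode (⟨x, hx⟩ : Y)) else none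
  have hν : ∀ x x' n, ν x = some n → ν x' = some n → x = x' := by
    intro x x' n hx hx'
    have h1 : ∃ hx : x ∈ Y, Encodable.encode (⟨x, hx⟩ : Y) = n := by
      by_cases hxY : x ∈ Y
      · refine ⟨hxY, ?_⟩
        change (if hx : x ∈ Y then some (Encodable.encode (⟨x, hx⟩ : Y)) else none) = some n at hx
        rw [dif_pos hxY] at hx
        exact Option.some.inj hx
      · change (if hx : x ∈ Y then some (Encodable.encode (⟨x, hx⟩ : Y)) else none) = some n at hx
        rw [dif_neg hxY] at hx
        exact absurd hx (by simp)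
    have h2 : ∃ hx' : x' ∈ Y, Encodable.encode (⟨x', hx'⟩ : Y) = n := by
      by_cases hxY : x' ∈ Y
      · refine ⟨hxY, ?_⟩
        change (if hx : x' ∈ Y then some (Encodable.encode (⟨x', hx⟩ : Y)) else none) = some n at hx'
        rw [dif_pos hxY] at hx'
        exact Option.some.inj hx'
      · change (if hx : x' ∈ Y then some (Encodable.encode (⟨x', hx⟩ : Y)) else none) = some n at hx'
        rw [dif_neg hxY] at hx'
        exact absurd hx' (by simp)
    obtain ⟨h3, h4⟩ := h1
    obtain ⟨h5, h6⟩ := h2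
    have h7 := Encodable.encode_injective (h4.trans h6.symm)
    exact congrArg Subtype.val h7
  have hνnone : ∀ x, ν x = none → x ∉ Y := by
    intro x hx hxY
    change (if hx : x ∈ Y then some (Encodable.encode (⟨x, hx⟩ : Y)) else none) = none at hx
    rw [dif_pos hxY] at hx
    exact absurd hx (by simp)
  obtain ⟨μU, hμU1, hμU2, hμU3⟩ := h.exists_univ ν hν
  have hne : ∀ g ∈ H, μU g ≠ 1 := by
    intro g hg h1
    refine hN g hg (hμU3 (N g).toSubgroup (N g).isOpen' inferInstance ?_ g h1)
    intro x hx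
    by_contra h2
    exact hνnone x hx (Set.mem_biUnion hg h2)
  -- the homomorphism
  let f : X → UU (Fin 2) ℤ_[p] := fun x => (ν x).elim 1 (fun n => cc n)
  have hLW : LW (fun n => (cc n : UU (Fin 2) ℤ_[p]).1 - 1) := cc_LW
  have hf : ∀ m, {x | ¬ Cong (fun _ : Fin 2 => 1) m (f x).1 1}.Finite := by
    intro m
    have h1 : {x | ¬ Cong (fun _ : Fin 2 => 1) m (f x).1 1} ⊆
        ⋃ n ∈ Set.Iio m, {x | ν x = some n} := by
      intro x hx
      cases hx1 : ν x with
      | none =>
        refine absurd ?_ hx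
        have : f x = 1 := by
          change (ν x).elim 1 (fun n => cc n) = 1
          rw [hx1]
          rfl
        rw [this]
        exact Cong.rfl'
      | some n =>
        rw [Set.mem_iUnion₂]
        refine ⟨n, ?_, hx1⟩
        rw [Set.mem_Iio]
        by_contra hn
        refine hx ?_
        have h2 : f x = cc n := by
          change (ν x).elim 1 (fun n => cc n) = cc n
          rw [hx1]
          rfl
        rw [h2]
        intro w hw
        rw [List.map_const', List.sum_replicate, smul_eq_mul, mul_one] at hw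
        have h3 := hLW.ord n w (by omega)
        change (cc n : UU (Fin 2) ℤ_[p]).1 w - (1 : NPS (Fin 2) ℤ_[p]) w = 0 at h3
        rw [h3]
        exact dvd_zero _
    refine Set.Finite.subset (Set.Finite.biUnion (Set.finite_Iio m) fun n _ => ?_) h1
    refine Set.Subsingleton.finite fun x hx x' hx' => hν x x' n hx hx'
  have hwt1 : ∀ z : Fin 2, 1 ≤ (fun _ : Fin 2 => 1) z := fun _ => le_rfl
  have hwt2 : ∀ m, {z : Fin 2 | (fun _ : Fin 2 => 1) z ≤ m}.Finite := fun m => Set.toFinite _
  obtain ⟨μ, hμ1, hμ2⟩ := h.exists_hom hwt1 hwt2 f hf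
  have hccG : ∀ n, GLike (cc n : UU (Fin 2) ℤ_[p]).1 := by
    intro n
    induction n with
    | zero => exact GLike.one_add_X 0
    | succ n ih =>
      have hb : GLike (bb : UU (Fin 2) ℤ_[p]).1 := GLike.one_add_X 1
      exact ((hb.mul ih).mul (glike_inv hwt1 hwt2 hb)).mul (glike_inv hwt1 hwt2 ih)
  refine ⟨μ, hμ2, fun g => h.glike hwt1 hwt2 hμ2 (fun x => ?_) g, fun g hg hg1 => ?_⟩
  · rw [hμ1]
    change GLike ((ν x).elim (1 : UU (Fin 2) ℤ_[p]) (fun n => cc n)).1
    cases ν x with
    | none => exact GLike.one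
    | some n => exact hccG n
  -- comparison
  let S : ∀ M : ℕ, NPS (Fin M) ℤ_[p] → NPS (Fin 2) ℤ_[p] := fun M =>
    sub (fun z : Fin M => (cc z.val : UU (Fin 2) ℤ_[p]).1 - 1)
  have hcmp : ∀ (M : ℕ) (g : F), TC M (μ g).1 (S M (res M (μU g).1)) := by
    intro M
    have hψmul : ∀ a b : F, S M (res M (μU (a * b)).1) =
        S M (res M (μU a).1) * S M (res M (μU b).1) := by
      intro a b
      rw [map_mul, UU.val_mul, res_mul]
      exact sub_mul' _ _ _
    have hψone : S M (res M (μU 1).1) = 1 := by
      rw [map_one, UU.val_one, res_one]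
      exact sub_one' _
    let K : Subgroup F :=
      { carrier := {g | TC M (μ g).1 (S M (res M (μU g).1))}
        one_mem' := by
          change TC M (μ 1).1 (S M (res M (μU 1).1))
          rw [hψone, map_one]
          exact TC.rfl'
        mul_mem' := by
          intro a b ha hb
          change TC M (μ (a * b)).1 (S M (res M (μU (a * b)).1))
          rw [hψmul, map_mul, UU.val_mul]
          exact (TC.mul_right ha).trans (TC.mul_left hb)
        inv_mem' := by
          intro a ha
          change TC M (μ a⁻¹).1 (S M (res M (μU a⁻¹).1))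
          have h1 : S M (res M (μU a).1) * S M (res M (μU a⁻¹).1) = 1 := by
            rw [← hψmul, mul_inv_cancel, hψone]
          have h2 : TC M ((μ a⁻¹).1 * (S M (res M (μU a).1) * S M (res M (μU a⁻¹).1)))
              ((μ a⁻¹).1 * ((μ a).1 * S M (res M (μU a⁻¹).1))) :=
            TC.mul_left (TC.mul_right (TC.symm ha))
          rw [h1, mul_one, ← mul_assoc, ← UU.val_mul, ← map_mul, inv_mul_cancel, map_one,
            UU.val_one, one_mul] at h2
          exact h2 }
    have hKcl : IsClosed (K : Set F) := by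
      have h1 : (K : Set F) = ⋂ w ∈ {w : List (Fin 2) | w.length ≤ M},
          {g | (μ g).1 w = S M (res M (μU g).1) w} := by
        ext g
        rw [Set.mem_iInter₂]
        exact Iff.rfl
      rw [h1]
      refine isClosed_biInter fun w _ => isClosed_eq (mu_continuous hμ2 w) ?_
      rw [continuous_iff_continuousAt]
      intro g
      refine sub_tendsto _ (η := fun _ => fun z : Fin M => (cc z.val : UU (Fin 2) ℤ_[p]).1 - 1)
        (η₀ := fun z : Fin M => (cc z.val : UU (Fin 2) ℤ_[p]).1 - 1)
        (fun _ _ => tendsto_const_nhds) (fun w => ?_) w le_rfl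
      exact (mu_continuous hμU1 (w.map Fin.val)).continuousAt
    have hKtop := h.eq_top' hKcl (fun x => by
      change TC M (μ (ι x)).1 (S M (res M (μU (ι x)).1))
      rw [hμ1, hμU2]
      change TC M ((ν x).elim (1 : UU (Fin 2) ℤ_[p]) (fun n => cc n)).1 _
      cases ν x with
      | none =>
        change TC M 1 (S M (res M 1))
        rw [res_one]
        change TC M 1 (sub (fun z : Fin M => (cc z.val : UU (Fin 2) ℤ_[p]).1 - 1) 1)
        rw [sub_one']
        exact TC.rfl'
      | some n =>
        change TC M (cc n).1 (S M (res M (1 + NPS.X n)))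
        rw [res_add, res_one]
        by_cases hn : n < M
        · rw [res_X_lt hn]
          change TC M (cc n).1 (sub (fun z : Fin M => (cc z.val : UU (Fin 2) ℤ_[p]).1 - 1)
            (1 + NPS.X (⟨n, hn⟩ : Fin M)))
          rw [NPS.sub_add, sub_one', sub_X (fun z : Fin M =>
            (cc z.val : UU (Fin 2) ℤ_[p]).1 - 1) ⟨n, hn⟩ (hLW.ord n [] (by simp))]
          rw [add_sub_cancel]
          exact TC.rfl'
        · rw [res_X_ge (not_lt.mp hn), add_zero]
          change TC M (cc n).1 (sub (fun z : Fin M => (cc z.val : UU (Fin 2) ℤ_[p]).1 - 1) 1)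
          rw [sub_one']
          intro w hw
          have h3 := hLW.ord n w (by omega)
          change (cc n : UU (Fin 2) ℤ_[p]).1 w - (1 : NPS (Fin 2) ℤ_[p]) w = 0 at h3
          exact sub_eq_zero.mp h3)
    intro g
    have hg : g ∈ K := by rw [hKtop]; exact Subgroup.mem_top g
    exact hg
  -- the leading part
  set u : NPS ℕ ℤ_[p] := (μU g).1 - 1 with hu
  have hu0 : ∃ D : ℕ, ∃ w : List ℕ, (w.map wt1).sum = D ∧ u w ≠ 0 := by
    by_contra hcon
    push Not at hcon
    apply hne g hg
    apply Subtype.ext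
    have h1 : u = 0 := NPS.ext fun w => hcon _ w rfl
    exact sub_eq_zero.mp h1
  obtain ⟨w1, hw1, hw1'⟩ := Nat.find_spec hu0
  set M := Nat.find hu0 with hM
  have hmin : ∀ w : List ℕ, (w.map wt1).sum < M → u w = 0 := by
    intro w hw
    by_contra h1
    exact Nat.find_min hu0 hw ⟨w, rfl, h1⟩
  set κ : NPS (Fin M) ℤ_[p] := res M u with hκ
  have hmap : ∀ w : List (Fin M), ((w.map Fin.val).map wt1).sum =
      (w.map fun z => wt1 z.val).sum := by
    intro w
    rw [List.map_map]
    rfl
  have hlift : ∀ w : List ℕ, (w.map wt1).sum ≤ M → ∃ w' : List (Fin M), w'.map Fin.val = w := by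
    intro w
    induction w with
    | nil => intro _; exact ⟨[], rfl⟩
    | cons n w ih =>
      intro hw
      rw [List.map_cons, List.sum_cons] at hw
      obtain ⟨w', hw'⟩ := ih (by omega)
      refine ⟨⟨n, by unfold wt1 at hw; omega⟩ :: w', ?_⟩
      rw [List.map_cons, hw']
  obtain ⟨w1', hw1''⟩ := hlift w1 hw1.le
  have hfin : {w : List (Fin M) | (w.map fun z => wt1 z.val).sum = M ∧ κ w ≠ 0}.Finite := by
    refine (words_finite (wt := fun z : Fin M => wt1 z.val) (fun z => wt1_pos _)
      (fun m => Set.toFinite _) M).subset ?_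
    intro w hw
    exact hw.1.le
  have hnon : {w : List (Fin M) | (w.map fun z => wt1 z.val).sum = M ∧ κ w ≠ 0}.Nonempty := by
    refine ⟨w1', ?_, ?_⟩
    · rw [← hmap, hw1'', hw1]
    · change u (w1'.map Fin.val) ≠ 0
      rw [hw1'']
      exact hw1'
  obtain ⟨w0, ⟨hw0, hw0'⟩, hmax⟩ := Set.exists_max_image _
    (fun w : List (Fin M) => omg (w.map Fin.val)) hfin hnon
  have hlead := hLW.sub_lead w0 κ (fun w hw => ?_) (fun w hw hw' => ?_)
  · have h1 := hcmp M g (omg (w0.map Fin.val)) (by rw [length_omg, hmap, hw0])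
    rw [hg1] at h1
    have h2 : S M (res M (μU g).1) = 1 + sub (fun z : Fin M =>
        (cc z.val : UU (Fin 2) ℤ_[p]).1 - 1) κ := by
      have h3 : (μU g).1 = 1 + u := by rw [hu]; abel
      rw [h3, res_add, res_one]
      change sub (fun z : Fin M => (cc z.val : UU (Fin 2) ℤ_[p]).1 - 1) (1 + κ) = _
      rw [NPS.sub_add, sub_one']
    rw [h2, NPS.add_apply, hlead] at h1
    have h3 : (1 : UU (Fin 2) ℤ_[p]).1 (omg (w0.map Fin.val)) =
      (1 : NPS (Fin 2) ℤ_[p]) (omg (w0.map Fin.val)) := rfl
    rw [h3] at h1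
    exact hw0' (left_eq_add.mp h1)
  · rw [hw0, ← hmap] at hw
    exact hmin _ hw
  · rw [hw0] at hw
    exact hmax w ⟨hw, hw'⟩

end Run7.h937
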