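import Pool.Agent.Run7.h937.Unit

set_option autoImplicit false
set_option linter.unusedSectionVars false

/-! Free pro-`p` groups and the Magnus homomorphism. -/

namespace Run7.h937

open NPS Finset

/-- the data of the frozen statement -/
structure FP (p : ℕ) (X F : Type) [Group F] [TopologicalSpace F] (ι : X → F) : Prop where
  idx : ∀ N : Subgroup F, IsOpen (N : Set F) → N.Normal → ∃ k : ℕ, N.index = p ^ k
  conv : Filter.Tendsto ι Filter.cofinite (nhds 1)
  univ : ∀ (P : Type) [Group P] [Finite P], (∃ k : ℕ, Nat.card P = p ^ k) →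
      ∀ f : X → P, Set.Finite {x : X | f x ≠ 1} →
        ∃! φ : F →* P, IsOpen (φ.ker : Set F) ∧ ∀ x : X, φ (ι x) = f x

section

variable {p : ℕ} [hp : Fact p.Prime] {X F : Type} [Group F] [TopologicalSpace F]
  [IsTopologicalGroup F] [CompactSpace F] [T2Space F] [TotallyDisconnectedSpace F] {ι : X → F}

/-- an open subgroup containing the basis is everything -/
theorem FP.eq_top (h : FP p X F ι) {K : Subgroup F} (hK : IsOpen (K : Set F))
    (hι : ∀ x, ι x ∈ K) : K = ⊤ := by
  have hfq : Finite (F ⧸ K) := K.quotient_finite_of_isOpen hK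
  have hfi : K.FiniteIndex := Subgroup.finiteIndex_of_finite_quotient
  set N := K.normalCore with hN
  have hNo : IsOpen (N : Set F) :=
    Subgroup.isOpen_of_isClosed_of_finiteIndex _
      (K.normalCore_isClosed ((OpenSubgroup.mk K hK).isClosed))
  have hNn : N.Normal := inferInstance
  obtain ⟨k, hk⟩ := h.idx N hNo hNn
  have hNi : N.index ≠ 0 := by rw [hk]; exact pow_ne_zero _ hp.out.ne_zero
  have hfin : Finite (F ⧸ N) := (Subgroup.finiteIndex_iff_finite_quotient).mp ⟨hNi⟩
  have hcard : Nat.card (F ⧸ N) = p ^ k := hk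
  set H : Subgroup (F ⧸ N) := K.map (QuotientGroup.mk' N) with hH
  have hHc : ∃ j : ℕ, Nat.card H = p ^ j := by
    have h1 : Nat.card H ∣ p ^ k := hcard ▸ Subgroup.card_subgroup_dvd_card H
    obtain ⟨j, _, hj⟩ := (Nat.dvd_prime_pow hp.out).mp h1
    exact ⟨j, hj⟩
  let f : X → H := fun x => ⟨QuotientGroup.mk' N (ι x), ⟨ι x, hι x, rfl⟩⟩
  have hf : Set.Finite {x : X | f x ≠ 1} := by
    have h1 : ∀ᶠ x in Filter.cofinite, ι x ∈ (N : Set F) :=
      h.conv (hNo.mem_nhds N.one_mem)
    refine (Filter.eventually_cofinite.mp h1).subset fun x hx hx' => hx ?_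
    exact Subtype.ext ((QuotientGroup.eq_one_iff (ι x)).mpr hx')
  obtain ⟨φ, ⟨hφ1, hφ2⟩, _⟩ := h.univ H hHc f hf
  obtain ⟨ψ, _, hψ⟩ := h.univ (F ⧸ N) ⟨k, hcard⟩ (fun x => QuotientGroup.mk' N (ι x)) (by
    refine hf.subset fun x hx hx' => hx ?_
    exact congrArg Subtype.val hx')
  have h1 : H.subtype.comp φ = ψ := by
    refine hψ _ ⟨?_, fun x => ?_⟩
    · refine Subgroup.isOpen_mono (H₁ := φ.ker) ?_ hφ1
      intro g hg
      rw [MonoidHom.mem_ker] at hg ⊢
      rw [MonoidHom.comp_apply, hg, map_one]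
    · rw [MonoidHom.comp_apply, hφ2]
      rfl
  have h2 : QuotientGroup.mk' N = ψ := by
    refine hψ _ ⟨?_, fun x => rfl⟩
    rw [QuotientGroup.ker_mk']
    exact hNo
  rw [eq_top_iff]
  intro g _
  have h3 : QuotientGroup.mk' N g ∈ H := by
    rw [h2, ← h1]
    exact (φ g).2
  obtain ⟨g', hg', he⟩ := h3
  have h4 : g'⁻¹ * g ∈ N := by
    rw [← QuotientGroup.eq]
    exact he
  have h5 : g'⁻¹ * g ∈ K := K.normalCore_le h4
  have h6 := K.mul_mem hg' h5
  rwa [mul_inv_cancel_left] at h6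

/-- homomorphisms with open kernels which agree on the basis are equal -/
theorem FP.hom_ext (h : FP p X F ι) {G : Type*} [Group G] {φ ψ : F →* G}
    (hφ : IsOpen (φ.ker : Set F)) (hψ : IsOpen (ψ.ker : Set F))
    (hx : ∀ x, φ (ι x) = ψ (ι x)) (g : F) : φ g = ψ g := by
  have h1 : φ.eqLocus ψ = ⊤ := by
    refine h.eq_top ?_ hx
    refine Subgroup.isOpen_mono (H₁ := φ.ker ⊓ ψ.ker) ?_ ?_
    · intro a ha
      rw [Subgroup.mem_inf, MonoidHom.mem_ker, MonoidHom.mem_ker] at ha
      change φ a = ψ a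
      rw [ha.1, ha.2]
    · rw [Subgroup.coe_inf]
      exact hφ.inter hψ
  have h2 : g ∈ φ.eqLocus ψ := by rw [h1]; exact Subgroup.mem_top g
  exact h2

/-- a closed subgroup containing the basis is everything -/
theorem FP.eq_top' (h : FP p X F ι) {K : Subgroup F} (hK : IsClosed (K : Set F))
    (hι : ∀ x, ι x ∈ K) : K = ⊤ := by
  have h1 := ProfiniteGrp.closedSubgroup_eq_sInf_open (⟨K, hK⟩ : ClosedSubgroup F)
  have h2 : K = sInf {N : Subgroup F | IsOpen (N : Set F) ∧ K ≤ N} := h1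
  rw [h2, sInf_eq_top]
  rintro N ⟨hN, hKN⟩
  exact h.eq_top hN fun x => hKN (hι x)

/-- **Existence of the Magnus homomorphism.** -/
theorem FP.exists_hom (h : FP p X F ι) {Z : Type} {wt : Z → ℕ} (h1 : ∀ z, 1 ≤ wt z)
    (h2 : ∀ m, {z | wt z ≤ m}.Finite) (f : X → UU Z ℤ_[p])
    (hf : ∀ m, {x | ¬ Cong wt m (f x).1 1}.Finite) :
    ∃ μ : F →* UU Z ℤ_[p], (∀ x, μ (ι x) = f x) ∧
      ∀ m, IsOpen (((congSub wt m).comap μ : Subgroup F) : Set F) := by
  classical
  set P : ℕ → Type := fun m => UU Z ℤ_[p] ⧸ congSub (p := p) wt m with hP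
  have hfin : ∀ m, Finite (UU Z ℤ_[p] ⧸ congSub (p := p) wt m) := fun m => (quot_card h1 h2 m).1
  have huniv := fun m => h.univ (UU Z ℤ_[p] ⧸ congSub (p := p) wt m) (quot_card h1 h2 m).2
    (fun x => QuotientGroup.mk (f x)) (by
      refine (hf m).subset fun x hx hx' => hx ?_
      exact (QuotientGroup.eq_one_iff (f x)).mpr (mem_congSub.mpr hx'))
  choose φ hφ _ using huniv
  have hstep : ∀ m m', m ≤ m' → ∀ g : F, ∀ u : UU Z ℤ_[p],
      φ m' g = QuotientGroup.mk u → φ m g = QuotientGroup.mk u := by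
    intro m m' hmm
    have hle : congSub (p := p) wt m' ≤ congSub wt m := fun u hu => Cong.mono hmm hu
    let ρ : (UU Z ℤ_[p] ⧸ congSub (p := p) wt m') →* (UU Z ℤ_[p] ⧸ congSub (p := p) wt m) :=
      QuotientGroup.map _ _ (MonoidHom.id _) hle
    have h3 : ∀ g, ρ.comp (φ m') g = φ m g := by
      refine h.hom_ext ?_ (hφ m).1 fun x => ?_
      · refine Subgroup.isOpen_mono (H₁ := (φ m').ker) ?_ (hφ m').1
        intro g hg
        rw [MonoidHom.mem_ker] at hg ⊢
        rw [MonoidHom.comp_apply, hg, map_one]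
      · rw [MonoidHom.comp_apply, (hφ m').2, (hφ m).2]
        rfl
    intro g u hu
    rw [← h3, MonoidHom.comp_apply, hu]
    rfl
  have hex : ∀ g : F, ∃ u : UU Z ℤ_[p], ∀ m, φ m g = QuotientGroup.mk u := by
    intro g
    choose v hv using fun m => QuotientGroup.mk_surjective (φ m g)
    have hcong : ∀ m m', m ≤ m' → Cong wt m (v m').1 (v m).1 := by
      intro m m' hmm
      have h3 := hstep m m' hmm g (v m') (hv m').symm
      rw [← hv m, QuotientGroup.eq, congSub_inv_mul] at h3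
      exact h3.symm
    -- the limit along an ultrafilter
    let 𝒱 : Ultrafilter ℕ := Ultrafilter.of Filter.atTop
    have h𝒱 : (𝒱 : Filter ℕ) ≤ Filter.atTop := Ultrafilter.of_le _
    have hlim : ∀ w : List Z, ∃ a : ℤ_[p], Filter.Tendsto (fun m => (v m).1 w) 𝒱 (nhds a) := by
      intro w
      obtain ⟨a, _, ha⟩ := isCompact_univ.ultrafilter_le_nhds (𝒱.map fun m => (v m).1 w)
        (by rw [Filter.principal_univ]; exact le_top)
      exact ⟨a, ha⟩
    choose a ha using hlim
    have ha0 : a [] = 1 := by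
      have h3 : Filter.Tendsto (fun m => (v m).1 []) 𝒱 (nhds 1) := by
        have : (fun m => (v m).1 []) = fun _ => (1 : ℤ_[p]) := by
          funext m; exact (v m).2
        rw [this]
        exact tendsto_const_nhds
      exact tendsto_nhds_unique (ha []) h3
    refine ⟨⟨a, ha0⟩, fun m => ?_⟩
    rw [← hv m, QuotientGroup.eq, congSub_inv_mul]
    intro w hw
    have hcl : IsClosed {b : ℤ_[p] | (p : ℤ_[p]) ^ m ∣ (v m).1 w - b} := by
      have : {b : ℤ_[p] | (p : ℤ_[p]) ^ m ∣ (v m).1 w - b} =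
          {b : ℤ_[p] | ‖(v m).1 w - b‖ ≤ (p : ℝ) ^ (-m : ℤ)} := by
        ext b
        rw [Set.mem_ofPred_eq, Set.mem_ofPred_eq, PadicInt.norm_le_pow_iff_mem_span_pow,
          Ideal.mem_span_singleton]
      rw [this]
      exact isClosed_le (by fun_prop) continuous_const
    refine hcl.mem_of_tendsto (ha w) ?_
    refine (Filter.Eventually.filter_mono h𝒱 (Filter.eventually_ge_atTop m)).mono
      fun m' hm' => ?_
    have := hcong m m' hm' w hw
    exact (dvd_sub_comm).mp this
  choose μ hμ using hex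
  have huniq : ∀ u u' : UU Z ℤ_[p], (∀ m, (QuotientGroup.mk u : UU Z ℤ_[p] ⧸ congSub (p := p) wt m) =
      QuotientGroup.mk u') → u = u' := by
    intro u u' hu
    apply Subtype.ext
    refine Cong.eq (wt := wt) fun m => ?_
    exact congSub_inv_mul.mp (QuotientGroup.eq.mp (hu m))
  let M : F →* UU Z ℤ_[p] :=
    { toFun := μ
      map_one' := by
        refine huniq _ _ fun m => ?_
        rw [← hμ 1 m, map_one]
        rfl
      map_mul' := by
        intro g g'
        refine huniq _ _ fun m => ?_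
        rw [← hμ (g * g') m, map_mul, hμ g m, hμ g' m]
        rfl }
  refine ⟨M, fun x => ?_, fun m => ?_⟩
  · refine huniq _ _ fun m => ?_
    change QuotientGroup.mk (μ (ι x)) = _
    rw [← hμ (ι x) m, (hφ m).2]
  · refine Subgroup.isOpen_mono (H₁ := (φ m).ker) ?_ (hφ m).1
    intro g hg
    rw [Subgroup.mem_comap]
    rw [MonoidHom.mem_ker, hμ g m] at hg
    exact (QuotientGroup.eq_one_iff _).mp hg

end

end Run7.h937
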