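import Pool.Agent.Run7.h937.Free

set_option autoImplicit false
set_option linter.unusedSectionVars false

/-! Group-like series form a closed subgroup. -/

namespace Run7.h937

open NPS Finset

section

variable {X : Type*} [DecidableEq X] {R : Type*} [CommRing R]

/-- the coproduct of a series -/
def Inf (f : NPS X R) (u v : List X) : R := ((inf u v).map f).sum

theorem Inf_nil_left (f : NPS X R) (v : List X) : Inf f [] v = f v := by
  unfold Inf
  rw [inf_nil_left]
  simp

theorem Inf_nil_right (f : NPS X R) (u : List X) : Inf f u [] = f u := by
  unfold Inf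
  rw [inf_nil_right]
  simp

theorem Inf_cons (f : NPS X R) (x y : X) (u v : List X) : Inf f (x :: u) (y :: v) =
    Inf (D x f) u (y :: v) + Inf (D y f) (x :: u) v + if x = y then Inf (D x f) u v else 0 := by
  unfold Inf
  rw [inf_cons, List.map_append, List.map_append, List.sum_append, List.sum_append, List.map_map,
    List.map_map]
  congr 1
  split
  · rw [List.map_map]
    rfl
  · simp

/-- the product of the completed tensor square -/
def star (F G : List X → List X → R) (u v : List X) : R :=
  ∑ i ∈ range (u.length + 1), ∑ j ∈ range (v.length + 1),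
    F (u.take i) (v.take j) * G (u.drop i) (v.drop j)

theorem star_add (F F' G : List X → List X → R) (u v : List X) :
    star (fun a b => F a b + F' a b) G u v = star F G u v + star F' G u v := by
  unfold star
  simp only [add_mul, Finset.sum_add_distrib]

theorem star_peel_left (F G : List X → List X → R) (x : X) (u v : List X) :
    star F G (x :: u) v = (∑ j ∈ range (v.length + 1), F [] (v.take j) * G (x :: u) (v.drop j)) +
      star (fun a b => F (x :: a) b) G u v := by
  unfold star
  rw [List.length_cons, Finset.sum_range_succ', add_comm]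
  rfl

theorem star_peel_right (F G : List X → List X → R) (y : X) (u v : List X) :
    star F G u (y :: v) = (∑ i ∈ range (u.length + 1), F (u.take i) [] * G (u.drop i) (y :: v)) +
      star (fun a b => F a (y :: b)) G u v := by
  unfold star
  rw [← Finset.sum_add_distrib]
  refine Finset.sum_congr rfl fun i _ => ?_
  rw [List.length_cons, Finset.sum_range_succ', add_comm]
  rfl

theorem Inf_mul (n : ℕ) : ∀ (f g : NPS X R) (u v : List X), u.length + v.length ≤ n →
    Inf (f * g) u v = star (Inf f) (Inf g) u v := by
  induction n with
  | zero =>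
    intro f g u v h
    have h1 : u = [] := List.length_eq_zero_iff.mp (by omega)
    have h2 : v = [] := List.length_eq_zero_iff.mp (by omega)
    subst h1; subst h2
    rw [Inf_nil_left, NPS.mul_nil]
    simp [star, Inf_nil_left]
  | succ n ih =>
    intro f g u v h
    cases u with
    | nil =>
      rw [Inf_nil_left, mul_apply]
      simp [star, Inf_nil_left]
    | cons x u =>
      cases v with
      | nil =>
        rw [Inf_nil_right, mul_apply]
        simp [star, Inf_nil_right]
      | cons y v =>
        simp only [List.length_cons] at h
        have hadd : ∀ (a b : NPS X R) (u v : List X), Inf (a + b) u v = Inf a u v + Inf b u v := by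
          intro a b u v
          unfold Inf
          generalize inf u v = L
          induction L with
          | nil => simp
          | cons w L ih => simp only [List.map_cons, List.sum_cons, ih, NPS.add_apply]; ring
        have hsmul : ∀ (c : R) (a : NPS X R) (u v : List X), Inf (c • a) u v = c * Inf a u v := by
          intro c a u v
          unfold Inf
          generalize inf u v = L
          induction L with
          | nil => simp
          | cons w L ih => simp only [List.map_cons, List.sum_cons, ih, NPS.smul_apply]; ring
        have hL : Inf (f * g) (x :: u) (y :: v) = f [] * Inf g (x :: u) (y :: v) +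
            (star (Inf (D x f)) (Inf g) u (y :: v) + star (Inf (D y f)) (Inf g) (x :: u) v +
              if x = y then star (Inf (D x f)) (Inf g) u v else 0) := by
          rw [Inf_cons, Inf_cons, D_mul, D_mul, hadd, hadd, hadd, hsmul, hsmul, hsmul,
            ih _ _ u (y :: v) (by simp only [List.length_cons]; omega),
            ih _ _ (x :: u) v (by simp only [List.length_cons]; omega),
            ih _ _ u v (by omega)]
          split
          · ring
          · ring
        have hR : star (Inf f) (Inf g) (x :: u) (y :: v) = f [] * Inf g (x :: u) (y :: v) +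
            (star (Inf (D x f)) (Inf g) u (y :: v) + star (Inf (D y f)) (Inf g) (x :: u) v +
              if x = y then star (Inf (D x f)) (Inf g) u v else 0) := by
          rw [star_peel_left (Inf f), star_peel_right (fun a b => Inf f (x :: a) b),
            star_peel_right (Inf (D x f)), star_peel_left (Inf (D y f)), List.length_cons,
            Finset.sum_range_succ']
          have h1 : star (fun a b => Inf f (x :: a) (y :: b)) (Inf g) u v =
              star (fun a b => Inf (D x f) a (y :: b)) (Inf g) u v +
              star (fun a b => Inf (D y f) (x :: a) b) (Inf g) u v +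
              if x = y then star (Inf (D x f)) (Inf g) u v else 0 := by
            have h2 : (fun a b => Inf f (x :: a) (y :: b)) = fun a b =>
                (Inf (D x f) a (y :: b) + Inf (D y f) (x :: a) b) +
                  (if x = y then Inf (D x f) a b else 0) := by
              funext a b
              exact Inf_cons f x y a b
            rw [h2, star_add (fun a b => Inf (D x f) a (y :: b) + Inf (D y f) (x :: a) b)
              (fun a b => if x = y then Inf (D x f) a b else 0),
              star_add (fun a b => Inf (D x f) a (y :: b)) (fun a b => Inf (D y f) (x :: a) b)]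
            congr 1
            split
            · rfl
            · simp [star]
          rw [h1]
          simp only [List.take_succ_cons, List.drop_succ_cons, List.take_zero, List.drop_zero,
            Inf_nil_left, Inf_nil_right, D_apply]
          ring
        rw [hL, hR]

theorem GLike.mul {f g : NPS X R} (hf : GLike f) (hg : GLike g) : GLike (f * g) := by
  refine ⟨by rw [NPS.mul_nil, hf.1, hg.1, one_mul], fun u v => ?_⟩
  change _ = Inf (f * g) u v
  rw [Inf_mul _ f g u v le_rfl]
  unfold star
  rw [mul_apply, mul_apply, Finset.sum_mul_sum]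
  refine Finset.sum_congr rfl fun i _ => Finset.sum_congr rfl fun j _ => ?_
  have h1 : f (u.take i) * f (v.take j) = Inf f (u.take i) (v.take j) := hf.2 _ _
  have h2 : g (u.drop i) * g (v.drop j) = Inf g (u.drop i) (v.drop j) := hg.2 _ _
  rw [← h1, ← h2]
  ring

theorem Inf_one (u v : List X) : Inf (1 : NPS X R) u v = (1 : NPS X R) u * (1 : NPS X R) v := by
  have h0 : ∀ u v : List X, Inf (0 : NPS X R) u v = 0 := by
    intro u v
    unfold Inf
    generalize inf u v = L
    induction L with
    | nil => simp
    | cons w L ih => simp [ih]
  cases u with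
  | nil => rw [Inf_nil_left]; simp
  | cons x u =>
    cases v with
    | nil => rw [Inf_nil_right]; simp
    | cons y v => rw [Inf_cons]; simp [h0]

theorem GLike.one : GLike (1 : NPS X R) := ⟨rfl, fun u v => (Inf_one u v).symm⟩

theorem GLike.one_add_X (z : X) : GLike (1 + NPS.X z : NPS X R) := by
  have hD : ∀ x, D x (1 + NPS.X z : NPS X R) = if z = x then 1 else 0 := by
    intro x
    rw [D_add, NPS.D_one, D_X, zero_add]
  have h0 : ∀ u v : List X, Inf (0 : NPS X R) u v = 0 := by
    intro u v
    unfold Inf
    generalize inf u v = L
    induction L with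
    | nil => simp
    | cons w L ih => simp [ih]
  have hnil : (1 + NPS.X z : NPS X R) [] = 1 := by
    change (1 + 0 : R) = 1
    simp
  refine ⟨hnil, fun u v => ?_⟩
  change _ = Inf _ u v
  cases u with
  | nil => rw [Inf_nil_left, hnil, one_mul]
  | cons x u =>
    cases v with
    | nil => rw [Inf_nil_right, hnil, mul_one]
    | cons y v =>
      rw [Inf_cons, hD, hD]
      have hx : (1 + NPS.X z : NPS X R) (x :: u) = (if z = x then 1 else 0 : NPS X R) u := by
        rw [← hD]; rfl
      have hy : (1 + NPS.X z : NPS X R) (y :: v) = (if z = y then 1 else 0 : NPS X R) v := by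
        rw [← hD]; rfl
      rw [hx, hy]
      by_cases h1 : z = x
      · subst h1
        by_cases h2 : z = y
        · subst h2
          simp [Inf_one]
        · simp [h2, Inf_one, h0]
      · by_cases h2 : z = y
        · subst h2
          simp [h1, Inf_one, h0]
        · simp [h1, h2, h0]

end

section

variable {p : ℕ} [hp : Fact p.Prime] {Z : Type*} [DecidableEq Z]

theorem glike_of_approx {wt : Z → ℕ} {f : NPS Z ℤ_[p]}
    (h : ∀ m, ∃ f', GLike f' ∧ Cong wt m f f') : GLike f := by
  have key : ∀ (L : List (List Z)) (m : ℕ) (f f' : NPS Z ℤ_[p]), Cong wt m f f' →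
      (∀ w ∈ L, (w.map wt).sum ≤ m) → (p : ℤ_[p]) ^ m ∣ (L.map f).sum - (L.map f').sum := by
    intro L m f f' hc
    induction L with
    | nil => intro _; simp
    | cons w L ih =>
      intro hw
      simp only [List.map_cons, List.sum_cons]
      have h1 := hc w (hw w List.mem_cons_self)
      have h2 := ih fun w' hw' => hw w' (List.mem_cons_of_mem _ hw')
      have h3 := dvd_add h1 h2
      convert h3 using 1
      ring
  have hbd : ∀ L : List (List Z), ∃ N, ∀ w ∈ L, (w.map wt).sum ≤ N := by
    intro L
    induction L with
    | nil => exact ⟨0, by simp⟩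
    | cons w L ih =>
      obtain ⟨N, hN⟩ := ih
      refine ⟨max N (w.map wt).sum, fun w' hw' => ?_⟩
      rcases List.mem_cons.mp hw' with h1 | h1
      · subst h1; exact le_max_right _ _
      · exact (hN w' h1).trans (le_max_left _ _)
  constructor
  · rw [← sub_eq_zero]
    refine eq_zero_of_dvd 0 fun m _ => ?_
    obtain ⟨f', hf', hc⟩ := h m
    have h1 := hc [] (by simp)
    rwa [hf'.1] at h1
  · intro u v
    obtain ⟨N, hN⟩ := hbd (u :: v :: inf u v)
    rw [← sub_eq_zero]
    refine eq_zero_of_dvd N fun m hm => ?_
    obtain ⟨f', hf', hc⟩ := h m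
    have h1 := hc u ((hN u List.mem_cons_self).trans hm)
    have h2 := hc v ((hN v (List.mem_cons_of_mem _ List.mem_cons_self)).trans hm)
    have h3 := key (inf u v) m f f' hc fun w hw =>
      (hN w (List.mem_cons_of_mem _ (List.mem_cons_of_mem _ hw))).trans hm
    have h4 : f u * f v - ((inf u v).map f).sum = (f u - f' u) * f v + f' u * (f v - f' v) -
        (((inf u v).map f).sum - ((inf u v).map f').sum) := by
      have := hf'.2 u v
      linear_combination this
    rw [h4]
    exact dvd_sub (dvd_add (Dvd.dvd.mul_right h1 _) (Dvd.dvd.mul_left h2 _)) h3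

theorem glike_pow {f : NPS Z ℤ_[p]} (hf : GLike f) (n : ℕ) : GLike (f ^ n) := by
  induction n with
  | zero => rw [pow_zero]; exact GLike.one
  | succ n ih => rw [pow_succ]; exact ih.mul hf

theorem UU.val_pow {R : Type*} [CommRing R] (f : UU Z R) (n : ℕ) : (f ^ n).1 = f.1 ^ n := by
  induction n with
  | zero => rfl
  | succ n ih => rw [pow_succ, pow_succ, UU.val_mul, ih]

theorem glike_inv {wt : Z → ℕ} (h1 : ∀ z, 1 ≤ wt z) (h2 : ∀ m, {z | wt z ≤ m}.Finite)
    {f : UU Z ℤ_[p]} (hf : GLike f.1) : GLike (f⁻¹).1 := by
  refine glike_of_approx (wt := wt) fun m => ?_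
  have hfin := (quot_card (p := p) h1 h2 m).1
  set n := Nat.card (UU Z ℤ_[p] ⧸ congSub (p := p) wt m) with hn
  have hn0 : 0 < n := Nat.card_pos
  have h3 : f ^ n ∈ congSub (p := p) wt m := by
    rw [← QuotientGroup.eq_one_iff, QuotientGroup.mk_pow]
    exact pow_card_eq_one'
  refine ⟨f.1 ^ (n - 1), glike_pow hf _, ?_⟩
  rw [← UU.val_pow, ← congSub_inv_mul, inv_inv, ← pow_succ', Nat.sub_add_cancel hn0]
  exact h3

end

section

variable {p : ℕ} [hp : Fact p.Prime] {X F : Type} [Group F] [TopologicalSpace F]
  [IsTopologicalGroup F] [CompactSpace F] [T2Space F] [TotallyDisconnectedSpace F] {ι : X → F}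

theorem FP.glike (h : FP p X F ι) {Z : Type} [DecidableEq Z] {wt : Z → ℕ} (h1 : ∀ z, 1 ≤ wt z)
    (h2 : ∀ m, {z | wt z ≤ m}.Finite) {μ : F →* UU Z ℤ_[p]}
    (hμ : ∀ m, IsOpen (((congSub wt m).comap μ : Subgroup F) : Set F))
    (hx : ∀ x, GLike (μ (ι x)).1) (g : F) : GLike (μ g).1 := by
  let K : Subgroup F :=
    { carrier := {g | GLike (μ g).1}
      one_mem' := by
        change GLike (μ 1).1
        rw [map_one]
        exact GLike.one
      mul_mem' := by
        intro a b ha hb
        change GLike (μ (a * b)).1
        rw [map_mul]
        exact GLike.mul ha hb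
      inv_mem' := by
        intro a ha
        change GLike (μ a⁻¹).1
        rw [map_inv]
        exact glike_inv h1 h2 ha }
  have hK : IsClosed (K : Set F) := by
    rw [← isOpen_compl_iff, isOpen_iff_mem_nhds]
    intro a ha
    have : ∃ m, ∀ f', GLike f' → ¬ Cong wt m (μ a).1 f' := by
      by_contra hcon
      push Not at hcon
      exact ha (glike_of_approx hcon)
    obtain ⟨m, hm⟩ := this
    have hO : IsOpen ((fun b => a⁻¹ * b) ⁻¹' (((congSub wt m).comap μ : Subgroup F) : Set F)) :=
      (hμ m).preimage (by fun_prop)
    refine Filter.mem_of_superset (hO.mem_nhds ?_) ?_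
    · change a⁻¹ * a ∈ (congSub wt m).comap μ
      rw [inv_mul_cancel]
      exact Subgroup.one_mem _
    · intro b hb hb'
      have hb1 : a⁻¹ * b ∈ (congSub wt m).comap μ := hb
      rw [Subgroup.mem_comap, map_mul, map_inv, congSub_inv_mul] at hb1
      exact hm _ hb' hb1
  have hKtop := h.eq_top' hK hx
  have hg : g ∈ K := by rw [hKtop]; exact Subgroup.mem_top g
  exact hg

end

end Run7.h937
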