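import Pool.Agent.Run7.h937.NPS

set_option autoImplicit false
set_option linter.unusedSectionVars false

/-! Combinatorics of words: shuffles, infiltrations, unbordered words. -/

namespace Run7.h937

section order

variable {A : Type*} [LinearOrder A]

theorem cle {a b : A} {l l' : List A} : a :: l ≤ b :: l' ↔ a < b ∨ (a = b ∧ l ≤ l') := by
  rw [le_iff_lt_or_eq, le_iff_lt_or_eq, List.cons_lt_cons_iff, List.cons.injEq]
  tauto

theorem cle_same {a : A} {l l' : List A} : a :: l ≤ a :: l' ↔ l ≤ l' := by
  rw [cle]; simp

theorem nil_le' (l : List A) : [] ≤ l := by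
  cases l with
  | nil => exact le_rfl
  | cons a l => exact le_of_lt (List.nil_lt_cons a l)

/-- same length: append is monotone -/
theorem app_le {u u' v v' : List A} (h : u.length = u'.length) (h1 : u ≤ u') (h2 : v ≤ v') :
    u ++ v ≤ u' ++ v' := by
  induction u generalizing u' with
  | nil =>
    have : u' = [] := List.length_eq_zero_iff.mp h.symm
    subst this
    simpa using h2
  | cons a u ih =>
    cases u' with
    | nil => simp at h
    | cons b u' =>
      rw [List.cons_append, List.cons_append, cle]
      rcases cle.mp h1 with h3 | ⟨rfl, h3⟩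
      · exact Or.inl h3
      · exact Or.inr ⟨rfl, ih (by simpa using h) h3⟩

/-- same length: equality in `app_le` forces equalities -/
theorem app_eq {u u' v v' : List A} (h : u.length = u'.length) (h1 : u ++ v = u' ++ v') :
    u = u' ∧ v = v' := List.append_inj h1 h

/-- shuffles -/
inductive IsSh {A : Type*} : List A → List A → List A → Prop
  | nil : IsSh [] [] []
  | left (x : A) {u v w : List A} : IsSh u v w → IsSh (x :: u) v (x :: w)
  | right (y : A) {u v w : List A} : IsSh u v w → IsSh u (y :: v) (y :: w)

theorem IsSh.nil_left {A : Type*} : ∀ v : List A, IsSh [] v v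
  | [] => IsSh.nil
  | y :: v => IsSh.right y (IsSh.nil_left v)

theorem IsSh.nil_right {A : Type*} : ∀ v : List A, IsSh v [] v
  | [] => IsSh.nil
  | y :: v => IsSh.left y (IsSh.nil_right v)

theorem IsSh.eq_of_nil_left {A : Type*} {v w : List A} (h : IsSh [] v w) : w = v := by
  induction v generalizing w with
  | nil => cases h; rfl
  | cons y v ih => cases h with | right _ h => rw [ih h]

theorem IsSh.eq_of_nil_right {A : Type*} {v w : List A} (h : IsSh v [] w) : w = v := by
  induction v generalizing w with
  | nil => cases h; rfl
  | cons y v ih => cases h with | left _ h => rw [ih h]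

theorem IsSh.length {A : Type*} {u v w : List A} (h : IsSh u v w) :
    w.length = u.length + v.length := by
  induction h with
  | nil => rfl
  | left x _ ih => simp [ih]; omega
  | right x _ ih => simp [ih]; omega

/-- the exchange lemma -/
theorem exch : ∀ (n : ℕ) (p a b w : List A), p.length + a.length + b.length ≤ n → b ≤ a →
    IsSh (p ++ a) b w → ∃ w' : List A, IsSh a (p ++ b) w' ∧ w ≤ w' := by
  intro n
  induction n with
  | zero =>
    intro p a b w hn _ h
    have h1 : p = [] := List.length_eq_zero_iff.mp (by omega)
    subst h1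
    exact ⟨w, h, le_rfl⟩
  | succ n ih =>
    intro p a b w hn hab h
    cases p with
    | nil => exact ⟨w, h, le_rfl⟩
    | cons c p =>
      rw [List.cons_append] at h
      cases h with
      | left _ h =>
        rename_i w1
        obtain ⟨w2, h2, h3⟩ := ih p a b w1 (by simp at hn; omega) hab h
        exact ⟨c :: w2, by rw [List.cons_append]; exact IsSh.right c h2, cle_same.mpr h3⟩
      | right d h =>
        rename_i b1 w1
        cases a with
        | nil => exact absurd hab (by simp)
        | cons d' a1 =>
          rcases cle.mp hab with h3 | ⟨h3, h4⟩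
          · refine ⟨d' :: (a1 ++ (c :: p ++ (d :: b1))), IsSh.left d' ?_, ?_⟩
            · clear h hab hn
              induction a1 with
              | nil => exact IsSh.nil_left _
              | cons x a1 ih1 => exact IsSh.left x ih1
            · rw [cle]; exact Or.inl h3
          · subst h3
            obtain ⟨w2, h5, h6⟩ := ih (c :: p ++ [d]) a1 b1 w1
              (by simp at hn ⊢; omega) h4 (by simpa using h)
            refine ⟨d :: w2, IsSh.left d ?_, cle_same.mpr h6⟩
            simpa using h5

/-- if `v ≤ s` for all nonempty suffixes `s` of `u`, then every shuffle of `u` and `v` is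
`≤ u ++ v` -/
theorem sh_le : ∀ (n : ℕ) (u v w : List A), u.length + v.length ≤ n →
    (∀ s : List A, s ≠ [] → s <:+ u → v ≤ s) → IsSh u v w → w ≤ u ++ v := by
  intro n
  induction n with
  | zero =>
    intro u v w hn _ h
    have h1 : u = [] := List.length_eq_zero_iff.mp (by omega)
    subst h1
    rw [h.eq_of_nil_left]; simp
  | succ n ih =>
    intro u v w hn hs h
    cases u with
    | nil => rw [h.eq_of_nil_left]; simp
    | cons x u =>
      cases v with
      | nil => rw [h.eq_of_nil_right]; simp
      | cons y v =>
        have hsu : ∀ s : List A, s ≠ [] → s <:+ u → y :: v ≤ s := fun s h1 h2 =>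
          hs s h1 (h2.trans (List.suffix_cons x u))
        cases h with
        | left _ h =>
          rename_i w1
          have := ih u (y :: v) w1 (by simp at hn ⊢; omega) hsu h
          rw [List.cons_append, cle_same]
          exact this
        | right _ h =>
          rename_i w1
          have h1 : y :: v ≤ x :: u := hs (x :: u) (by simp) List.suffix_rfl
          rw [List.cons_append]
          rcases cle.mp h1 with h2 | ⟨h2, h3⟩
          · exact cle.mpr (Or.inl h2)
          · subst h2
            obtain ⟨w2, h5, h6⟩ := exch _ [y] u v w1 le_rfl h3 (by simpa using h)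
            have := ih u (y :: v) w2 (by simp at hn ⊢; omega) hsu (by simpa using h5)
            exact cle_same.mpr (h6.trans this)

/-- `w` is bordered -/
def Bord {A : Type*} (w : List A) : Prop :=
  ∃ b : List A, b ≠ [] ∧ b ≠ w ∧ b <+: w ∧ b <:+ w

theorem suffix_append_cases {A : Type*} {s u v : List A} (h : s <:+ u ++ v) :
    s <:+ v ∨ ∃ t, t <:+ u ∧ s = t ++ v := by
  obtain ⟨r, hr⟩ := h
  rcases List.append_eq_append_iff.mp hr with ⟨a, ha, hb⟩ | ⟨a, ha, hb⟩
  · right
    exact ⟨a, ⟨r, ha.symm⟩, hb⟩
  · left
    exact ⟨a, hb.symm⟩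

/-- a bordered word has a factorisation `w = u v` with nonempty `u`, `v` such that all shuffles
of `u` and `v` are `≤ w` -/
theorem bord_factor {w : List A} (h : Bord w) :
    ∃ u v : List A, u ≠ [] ∧ v ≠ [] ∧ w = u ++ v ∧ ∀ w' : List A, IsSh u v w' → w' ≤ w := by
  obtain ⟨b, hb0, hbw, hbp, hbs⟩ := h
  have hwne : w ≠ [] := by
    rintro rfl
    exact hb0 (List.prefix_nil.mp hbp)
  -- the smallest nonempty suffix
  obtain ⟨v, ⟨hv1, hv2⟩, hvmin⟩ : ∃ v : List A, (v ≠ [] ∧ v <:+ w) ∧
      ∀ s : List A, s ≠ [] → s <:+ w → v ≤ s := by
    have hfin : ({s : List A | s ≠ [] ∧ s <:+ w} : Set (List A)).Finite := by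
      refine Set.Finite.subset (List.finite_toSet w.tails) ?_
      rintro s ⟨_, hs⟩
      exact (List.mem_tails s w).mpr hs
    obtain ⟨v, hv, hmin⟩ := Set.exists_min_image {s : List A | s ≠ [] ∧ s <:+ w} id hfin
      ⟨w, hwne, List.suffix_rfl⟩
    exact ⟨v, hv, fun s h1 h2 => hmin s ⟨h1, h2⟩⟩
  obtain ⟨u, hu⟩ := hv2
  have hvb : v ≤ b := hvmin b hb0 hbs
  have hbw' : b < w := by
    obtain ⟨c, hc⟩ := hbp
    have hc0 : c ≠ [] := by
      rintro rfl
      exact hbw (by simpa using hc)
    rw [← hc]
    obtain ⟨z, c', rfl⟩ := List.exists_cons_of_ne_nil hc0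
    have := List.append_left_lt (l₁ := b) (List.nil_lt_cons z c')
    simpa using this
  have hvw : v ≠ w := by
    rintro rfl
    exact absurd (lt_of_le_of_lt hvb hbw') (lt_irrefl _)
  have hu0 : u ≠ [] := by
    rintro rfl
    exact hvw (by simpa using hu)
  refine ⟨u, v, hu0, hv1, hu.symm, fun w' hw' => ?_⟩
  rw [← hu]
  refine sh_le _ u v w' le_rfl (fun s hs0 hsu => ?_) hw'
  -- v ≤ s
  have h1 : v ≤ s ++ v := by
    refine hvmin _ (by simp [hs0]) ?_
    rw [← hu]
    obtain ⟨r, hr⟩ := hsu
    exact ⟨r, by rw [← hr, List.append_assoc]⟩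
  by_contra hlt
  rw [not_le] at hlt
  -- s < v and v ≤ s ++ v, so s is a prefix of v
  have key : ∀ (s v z : List A), s < v → v ≤ s ++ z → ∃ t, t ≠ [] ∧ v = s ++ t ∧ t ≤ z := by
    intro s
    induction s with
    | nil =>
      intro v z h2 h3
      refine ⟨v, ?_, rfl, by simpa using h3⟩
      rintro rfl
      exact absurd h2 (lt_irrefl _)
    | cons x s ih =>
      intro v z h2 h3
      cases v with
      | nil => exact absurd h2 (by simp)
      | cons y v =>
        rw [List.cons_append] at h3
        rcases List.cons_lt_cons_iff.mp h2 with h4 | ⟨h4, h5⟩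
        · rcases cle.mp h3 with h6 | ⟨h6, _⟩
          · exact absurd (h4.trans h6) (lt_irrefl _)
          · exact absurd (h6 ▸ h4) (lt_irrefl _)
        · subst h4
          obtain ⟨t, ht0, ht1, ht2⟩ := ih v z h5 (cle_same.mp h3)
          exact ⟨t, ht0, by rw [ht1]; rfl, ht2⟩
  obtain ⟨t, ht0, ht1, ht2⟩ := key s v v hlt h1
  have h2 : v ≤ t := by
    refine hvmin t ht0 ?_
    rw [← hu, ht1]
    exact ⟨u ++ s, by rw [List.append_assoc]⟩
  have h3 : t = v := le_antisymm ht2 h2
  have h4 : v.length = s.length + t.length := by rw [← List.length_append, ← ht1]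
  rw [h3] at h4
  exact hs0 (List.length_eq_zero_iff.mp (by omega))

/-- two overlapping occurrences of an unbordered word -/
theorem unbord_overlap {A : Type*} {ℓ p r r' : List A} (hℓ : ¬ Bord ℓ) (hp : p ≠ [])
    (hpl : p.length < ℓ.length) (h : ℓ ++ r = p ++ (ℓ ++ r')) : False := by
  -- ℓ = p ++ s, s is a prefix of ℓ
  have h1 : p <+: ℓ := by
    have h2 : p <+: ℓ ++ r := ⟨ℓ ++ r', h.symm⟩
    exact List.prefix_of_prefix_length_le h2 (List.prefix_append ℓ r) (le_of_lt hpl)
  obtain ⟨s, hs⟩ := h1
  have h3 : s ++ r = ℓ ++ r' := by
    have : p ++ (s ++ r) = p ++ (ℓ ++ r') := by rw [← List.append_assoc, hs, h]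
    exact List.append_cancel_left this
  have hlen : p.length + s.length = ℓ.length := by rw [← List.length_append, hs]
  have hp1 : 0 < p.length := List.length_pos_iff.mpr hp
  have h4 : s <+: ℓ := by
    have h5 : s <+: ℓ ++ r' := ⟨r, h3⟩
    exact List.prefix_of_prefix_length_le h5 (List.prefix_append ℓ r') (by omega)
  refine hℓ ⟨s, ?_, ?_, h4, ⟨p, hs⟩⟩
  · rintro rfl
    simp at hlen; omega
  · rintro rfl
    omega

end order

section infil

variable {A : Type*} [DecidableEq A]

/-- infiltrations of two words -/
def inf : List A → List A → List (List A)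
  | [], v => [v]
  | x :: u, [] => [x :: u]
  | x :: u, y :: v => ((inf u (y :: v)).map (fun w => x :: w) ++
      (inf (x :: u) v).map (fun w => y :: w)) ++
      (if x = y then (inf u v).map (fun w => x :: w) else [])
termination_by u v => u.length + v.length

theorem inf_nil_left (v : List A) : inf [] v = [v] := by simp [inf]
theorem inf_nil_right (u : List A) : inf u [] = [u] := by cases u <;> simp [inf]
theorem inf_cons (x y : A) (u v : List A) : inf (x :: u) (y :: v) =
    ((inf u (y :: v)).map (fun w => x :: w) ++ (inf (x :: u) v).map (fun w => y :: w)) ++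
      (if x = y then (inf u v).map (fun w => x :: w) else []) := by
  rw [inf]

theorem inf_spec : ∀ (n : ℕ) (u v w : List A), u.length + v.length ≤ n → w ∈ inf u v →
    (w.length < u.length + v.length ∨ IsSh u v w) := by
  intro n
  induction n with
  | zero =>
    intro u v w hn hw
    have h1 : u = [] := List.length_eq_zero_iff.mp (by omega)
    subst h1
    rw [inf_nil_left, List.mem_singleton] at hw
    subst hw
    exact Or.inr (IsSh.nil_left _)
  | succ n ih =>
    intro u v w hn hw
    cases u with
    | nil =>
      rw [inf_nil_left, List.mem_singleton] at hw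
      subst hw
      exact Or.inr (IsSh.nil_left _)
    | cons x u =>
      cases v with
      | nil =>
        rw [inf_nil_right, List.mem_singleton] at hw
        subst hw
        exact Or.inr (IsSh.nil_right _)
      | cons y v =>
        simp only [List.length_cons] at hn ⊢
        rw [inf_cons, List.mem_append, List.mem_append, List.mem_map, List.mem_map] at hw
        rcases hw with (⟨w1, hw1, rfl⟩ | ⟨w1, hw1, rfl⟩) | hw
        · rcases ih u (y :: v) w1 (by simp; omega) hw1 with h | h
          · left; simp only [List.length_cons] at h ⊢; omega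
          · exact Or.inr (IsSh.left x h)
        · rcases ih (x :: u) v w1 (by simp; omega) hw1 with h | h
          · left; simp only [List.length_cons] at h ⊢; omega
          · exact Or.inr (IsSh.right y h)
        · left
          split at hw
          · rw [List.mem_map] at hw
            obtain ⟨w1, hw1, rfl⟩ := hw
            rcases ih u v w1 (by omega) hw1 with h | h
            · simp only [List.length_cons]; omega
            · have := h.length
              simp only [List.length_cons]; omega
          · simp at hw

theorem append_mem_inf (u v : List A) : u ++ v ∈ inf u v := by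
  induction u with
  | nil => rw [inf_nil_left]; simp
  | cons x u ih =>
    cases v with
    | nil => rw [inf_nil_right]; simp
    | cons y v =>
      rw [inf_cons]
      simp only [List.mem_append, List.mem_map]
      exact Or.inl (Or.inl ⟨u ++ y :: v, ih, rfl⟩)

end infil

end Run7.h937
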