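import Pool.Agent.Run7.h937.Sub
import Pool.Agent.Run7.h937.Words

set_option autoImplicit false
set_option linter.unusedSectionVars false

/-! Leading words of the value of a series in `X ∪ {T}` at a primitive series. -/

namespace Run7.h937

open NPS Finset

section glike

variable {X : Type*} [DecidableEq X] {R : Type*} [CommRing R]

/-- group-like series (for the coproduct for which all `1 + x` are group-like) -/
def GLike (f : NPS X R) : Prop := f [] = 1 ∧ ∀ u v : List X, f u * f v = ((inf u v).map f).sum

/-- primitive in degree `e` -/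
def Prim (e : ℕ) (ξ : NPS X R) : Prop :=
  ∀ u v : List X, u ≠ [] → v ≠ [] → u.length + v.length = e → ((inf u v).map ξ).sum = 0

theorem prim_of_diff {g g' : NPS X R} (h : GLike g) (h' : GLike g') {e : ℕ} (he : Ord e (g - g')) :
    Prim e (g - g') := by
  intro u v hu hv huv
  have h1 : ((inf u v).map (g - g')).sum = ((inf u v).map g).sum - ((inf u v).map g').sum := by
    generalize inf u v = L
    induction L with
    | nil => simp
    | cons w L ih =>
      simp only [List.map_cons, List.sum_cons, ih, NPS.sub_apply]
      ring
  have hu1 : 0 < u.length := List.length_pos_iff.mpr hu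
  have hv1 : 0 < v.length := List.length_pos_iff.mpr hv
  have h2 : g u = g' u := sub_eq_zero.mp (he u (by omega))
  have h3 : g v = g' v := sub_eq_zero.mp (he v (by omega))
  rw [h1, ← h.2, ← h'.2, h2, h3, sub_self]

theorem sum_map_single {A : Type*} (L : List A) (f : A → R) (ℓ : A)
    (h : ∀ w ∈ L, w ≠ ℓ → f w = 0) :
    ∃ c : ℕ, (ℓ ∈ L → c ≠ 0) ∧ (L.map f).sum = c * f ℓ := by
  classical
  induction L with
  | nil => exact ⟨0, by simp, by simp⟩
  | cons w L ih =>
    obtain ⟨c, hc, hs⟩ := ih fun w' hw' => h w' (List.mem_cons_of_mem _ hw')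
    by_cases hw : w = ℓ
    · subst hw
      refine ⟨c + 1, fun _ => Nat.succ_ne_zero c, ?_⟩
      rw [List.map_cons, List.sum_cons, hs]
      push_cast
      ring
    · refine ⟨c, fun hl => hc ?_, ?_⟩
      · rcases List.mem_cons.mp hl with h1 | h1
        · exact absurd h1.symm hw
        · exact h1
      · rw [List.map_cons, List.sum_cons, hs, h w List.mem_cons_self hw, zero_add]

theorem lead_unbord [LinearOrder X] [NoZeroDivisors R] [CharZero R] {e : ℕ} {ξ : NPS X R}
    (hξ : Ord e ξ) (hp : Prim e ξ) {ℓ : List X} (hℓ : ℓ.length = e) (hℓ0 : ξ ℓ ≠ 0)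
    (hmin : ∀ w : List X, w.length = e → ξ w ≠ 0 → ℓ ≤ w) : ¬ Bord ℓ := by
  intro hb
  obtain ⟨u, v, hu, hv, huv, hle⟩ := bord_factor hb
  have h1 := hp u v hu hv (by rw [← hℓ, huv, List.length_append])
  have h0 : ∀ w ∈ inf u v, w ≠ ℓ → ξ w = 0 := by
    intro w hw hne
    rcases inf_spec _ u v w le_rfl hw with h2 | h2
    · refine hξ w ?_
      rw [← hℓ, huv, List.length_append]
      exact h2
    · by_contra h3
      have h4 : w.length = e := by rw [h2.length, ← hℓ, huv, List.length_append]
      exact hne (le_antisymm (hle w h2) (hmin w h4 h3))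
  obtain ⟨c, hc, hs⟩ := sum_map_single (inf u v) ξ ℓ h0
  rw [hs] at h1
  rcases mul_eq_zero.mp h1 with h2 | h2
  · rw [Nat.cast_eq_zero] at h2
    exact hc (huv ▸ append_mem_inf u v) h2
  · exact hℓ0 h2

end glike

section counts

variable {X : Type*}

/-- the number of `T`s -/
def tc : List (Option X) → ℕ
  | [] => 0
  | none :: u => tc u + 1
  | some _ :: u => tc u

/-- the number of letters different from `T` -/
def xd : List (Option X) → ℕ
  | [] => 0
  | none :: u => xd u
  | some _ :: u => xd u + 1

/-- replace all `T`s by `ℓ` -/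
def fill (ℓ : List X) : List (Option X) → List X
  | [] => []
  | none :: u => ℓ ++ fill ℓ u
  | some x :: u => x :: fill ℓ u

/-- the weight function: `T` has weight `e`, all other letters have weight `1` -/
def wf (e : ℕ) : Option X → ℕ
  | none => e
  | some _ => 1

theorem wf_sum (e : ℕ) (u : List (Option X)) : (u.map (wf e)).sum = e * tc u + xd u := by
  induction u with
  | nil => simp [tc, xd]
  | cons z u ih =>
    cases z with
    | none => simp [tc, xd, wf, ih]; ring
    | some x => simp [tc, xd, wf, ih]; ring

theorem length_fill (ℓ : List X) (u : List (Option X)) :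
    (fill ℓ u).length = ℓ.length * tc u + xd u := by
  induction u with
  | nil => simp [fill, tc, xd]
  | cons z u ih =>
    cases z with
    | none => simp [fill, tc, xd, ih]; ring
    | some x => simp [fill, tc, xd, ih]; ring

theorem tc_add_xd (u : List (Option X)) : tc u + xd u = u.length := by
  induction u with
  | nil => simp [tc, xd]
  | cons z u ih =>
    cases z with
    | none => simp [tc, xd]; omega
    | some x => simp [tc, xd]; omega

theorem tc_append (u v : List (Option X)) : tc (u ++ v) = tc u + tc v := by
  induction u with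
  | nil => simp [tc]
  | cons z u ih =>
    cases z with
    | none => simp [tc, ih]; omega
    | some x => simp [tc, ih]

theorem xd_append (u v : List (Option X)) : xd (u ++ v) = xd u + xd v := by
  induction u with
  | nil => simp [xd]
  | cons z u ih =>
    cases z with
    | none => simp [xd, ih]
    | some x => simp [xd, ih]; omega

theorem tc_some (a : List X) : tc (a.map some) = 0 := by
  induction a with
  | nil => simp [tc]
  | cons x a ih => simp [tc, ih]

theorem xd_some (a : List X) : xd (a.map some) = a.length := by
  induction a with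
  | nil => simp [xd]
  | cons x a ih => simp [xd, ih]

theorem eq_map_some {u : List (Option X)} (h : tc u = 0) : ∃ a : List X, u = a.map some := by
  induction u with
  | nil => exact ⟨[], rfl⟩
  | cons z u ih =>
    cases z with
    | none => simp [tc] at h
    | some x =>
      obtain ⟨a, rfl⟩ := ih (by simpa [tc] using h)
      exact ⟨x :: a, rfl⟩

theorem first_none {u : List (Option X)} (h : 1 ≤ tc u) :
    ∃ (a : List X) (b : List (Option X)), u = a.map some ++ none :: b := by
  induction u with
  | nil => simp [tc] at h
  | cons z u ih =>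
    cases z with
    | none => exact ⟨[], u, rfl⟩
    | some x =>
      obtain ⟨a, b, rfl⟩ := ih (by simpa [tc] using h)
      exact ⟨x :: a, b, rfl⟩

theorem fill_append (ℓ : List X) (u v : List (Option X)) :
    fill ℓ (u ++ v) = fill ℓ u ++ fill ℓ v := by
  induction u with
  | nil => simp [fill]
  | cons z u ih =>
    cases z with
    | none => simp [fill, ih]
    | some x => simp [fill, ih]

theorem fill_some (ℓ a : List X) : fill ℓ (a.map some) = a := by
  induction a with
  | nil => simp [fill]
  | cons x a ih => simp [fill, ih]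

theorem fill_overlap {ℓ : List X} (hℓ : ¬ Bord ℓ) {u1 u1' : List (Option X)} {y : X}
    (ht : tc (none :: u1) = tc (some y :: u1')) (hx : xd (some y :: u1') < ℓ.length)
    (h : fill ℓ (none :: u1) = fill ℓ (some y :: u1')) : False := by
  have h1 : 1 ≤ tc (some y :: u1') := by rw [← ht]; simp [tc]
  obtain ⟨a, b, hab⟩ := first_none h1
  cases a with
  | nil => simp at hab
  | cons z a =>
    have hlen : (z :: a).length < ℓ.length := by
      have : xd (some y :: u1') = (z :: a).length + xd (none :: b) := by
        rw [hab, xd_append, xd_some]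
      omega
    rw [hab, fill_append, fill_some] at h
    exact unbord_overlap hℓ (by simp) hlen h

theorem fill_inj {ℓ : List X} (hℓ0 : ℓ ≠ []) (hℓ : ¬ Bord ℓ) : ∀ u u' : List (Option X),
    tc u = tc u' → xd u < ℓ.length → xd u' < ℓ.length → fill ℓ u = fill ℓ u' → u = u' := by
  intro u
  induction u with
  | nil =>
    intro u' _ _ _ h
    cases u' with
    | nil => rfl
    | cons z u' =>
      cases z with
      | none => simp [fill, hℓ0] at h
      | some x => simp [fill] at h
  | cons z u ih =>
    intro u' ht hx hx' h
    cases z with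
    | none =>
      cases u' with
      | nil => simp [fill, hℓ0] at h
      | cons z' u' =>
        cases z' with
        | none =>
          have h1 : fill ℓ u = fill ℓ u' := by
            simpa [fill] using h
          rw [ih u' (by simpa [tc] using ht) (by simpa [xd] using hx) (by simpa [xd] using hx') h1]
        | some y => exact (fill_overlap hℓ ht hx' h).elim
    | some x =>
      cases u' with
      | nil => simp [fill] at h
      | cons z' u' =>
        cases z' with
        | none => exact (fill_overlap hℓ ht.symm hx h.symm).elim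
        | some y =>
          have h1 : x = y ∧ fill ℓ u = fill ℓ u' := by simpa [fill] using h
          rw [h1.1, ih u' (by simpa [tc] using ht) (by simp [xd] at hx; omega)
            (by simp [xd] at hx'; omega) h1.2]

end counts

section eval

variable {X : Type*} [DecidableEq X] [Fintype X] {R : Type*} [CommRing R]

/-- evaluation at `T = ξ` -/
def ev (ξ : NPS X R) : NPS (Option X) R → NPS X R :=
  sub (fun o => o.elim ξ NPS.X)

@[simp] theorem ev_nil (ξ : NPS X R) (κ : NPS (Option X) R) : ev ξ κ [] = κ [] := sub_nil _ _

theorem ev_cons (ξ : NPS X R) (κ : NPS (Option X) R) (y : X) (v : List X) :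
    ev ξ κ (y :: v) = ev ξ (D (some y) κ) v + (D y ξ * ev ξ (D none κ)) v := by
  unfold ev
  rw [sub_cons, Fintype.sum_option, add_comm]
  congr 1
  rw [Finset.sum_eq_single y]
  · simp [D_X]
  · intro x _ hx
    simp [D_X, hx]
  · intro h; exact absurd (Finset.mem_univ _) h

theorem ev_ord {e : ℕ} (he : 1 ≤ e) {ξ : NPS X R} (hξ : Ord e ξ) {n : ℕ}
    {κ : NPS (Option X) R} (hκ : WOrd (wf e) n κ) : Ord n (ev ξ κ) := by
  refine sub_ord (wf e) ?_ _ ?_ n κ hκ
  · rintro (_ | x)
    · exact he
    · exact le_rfl
  · rintro (_ | x)
    · exact hξ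
    · intro w hw
      have : w = [] := List.length_eq_zero_iff.mp (by simp only [wf] at hw; omega)
      subst this
      rfl

theorem ev_two {e : ℕ} (he : 1 ≤ e) {ξ : NPS X R} (hξ : Ord e ξ) {κ : NPS (Option X) R}
    {y : X} {v : List X} (hκ : WOrd (wf e) (y :: v).length κ) :
    ev ξ κ (y :: v) = ev ξ (D (some y) κ) v +
      ξ ((y :: v).take e) * ev ξ (D none κ) ((y :: v).drop e) := by
  obtain ⟨e, rfl⟩ : ∃ e', e = e' + 1 := ⟨e - 1, by omega⟩
  rw [ev_cons, List.take_succ_cons, List.drop_succ_cons]
  congr 1
  have hκ' : Ord ((y :: v).length - (e + 1)) (ev ξ (D none κ)) :=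
    ev_ord he hξ (hκ.D none)
  rw [List.length_cons] at hκ'
  rw [mul_apply]
  by_cases hev : e ≤ v.length
  · rw [Finset.sum_eq_single e]
    · rfl
    · intro i hi hie
      rw [Finset.mem_range] at hi
      rcases lt_or_gt_of_ne hie with h | h
      · rw [D_apply, hξ _ (by rw [List.length_cons, List.length_take]; omega), zero_mul]
      · rw [hκ' _ (by rw [List.length_drop]; omega), mul_zero]
    · intro h
      exact absurd (Finset.mem_range.mpr (by omega)) h
  · rw [hξ (y :: v.take e) (by rw [List.length_cons, List.length_take]; omega), zero_mul]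
    refine Finset.sum_eq_zero fun i hi => ?_
    rw [Finset.mem_range] at hi
    rw [D_apply, hξ _ (by rw [List.length_cons, List.length_take]; omega), zero_mul]

variable [LinearOrder X]

theorem ev_ne {e : ℕ} (he : 1 ≤ e) {ξ : NPS X R} (hξ : Ord e ξ) {ℓ : List X}
    (hℓ : ℓ.length = e) (hmin : ∀ w : List X, w.length = e → ξ w ≠ 0 → ℓ ≤ w) :
    ∀ (n : ℕ) (W : List X) (κ : NPS (Option X) R), W.length ≤ n → WOrd (wf e) W.length κ →
      ev ξ κ W ≠ 0 → ∃ u : List (Option X), e * tc u + xd u = W.length ∧ κ u ≠ 0 ∧
        fill ℓ u ≤ W := by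
  intro n
  induction n with
  | zero =>
    intro W κ hW _ h
    have : W = [] := List.length_eq_zero_iff.mp (Nat.le_zero.mp hW)
    subst this
    exact ⟨[], by simp [tc, xd], by simpa using h, le_rfl⟩
  | succ n ih =>
    intro W κ hW hκ h
    cases W with
    | nil => exact ⟨[], by simp [tc, xd], by simpa using h, le_rfl⟩
    | cons y v =>
      rw [List.length_cons] at hW
      rw [ev_two he hξ hκ] at h
      by_cases h1 : ev ξ (D (some y) κ) v = 0
      · rw [h1, zero_add] at h
        have h2 := left_ne_zero_of_mul h
        have h3 := right_ne_zero_of_mul h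
        have h4 : e ≤ (y :: v).length := by
          by_contra h5
          exact h2 (hξ _ (by rw [List.length_take]; omega))
        have h5 : ((y :: v).take e).length = e := by rw [List.length_take]; omega
        have h6 : ((y :: v).drop e).length = (y :: v).length - e := List.length_drop
        have h7 : WOrd (wf e) ((y :: v).drop e).length (D none κ) := by
          rw [h6]; exact hκ.D none
        obtain ⟨u, hu1, hu2, hu3⟩ := ih _ _ (by rw [h6, List.length_cons]; omega) h7 h3
        refine ⟨none :: u, ?_, hu2, ?_⟩
        · rw [h6] at hu1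
          simp only [tc, xd]
          have : e * (tc u + 1) + xd u = e * tc u + xd u + e := by ring
          omega
        · have h8 : fill ℓ (none :: u) ≤ (y :: v).take e ++ (y :: v).drop e :=
            app_le (by rw [hℓ, h5]) (hmin _ h5 h2) hu3
          rwa [List.take_append_drop] at h8
      · have h7 : WOrd (wf e) v.length (D (some y) κ) := by
          have := hκ.D (some y)
          simpa [wf] using this
        obtain ⟨u, hu1, hu2, hu3⟩ := ih v _ (by omega) h7 h1
        refine ⟨some y :: u, ?_, hu2, ?_⟩
        · simp only [tc, xd, List.length_cons]; omega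
        · exact cle_same.mpr hu3

theorem ev_fill {e : ℕ} (he : 1 ≤ e) {ξ : NPS X R} (hξ : Ord e ξ) {ℓ : List X}
    (hℓ : ℓ.length = e) (hmin : ∀ w : List X, w.length = e → ξ w ≠ 0 → ℓ ≤ w) :
    ∀ (us : List (Option X)) (κ : NPS (Option X) R), WOrd (wf e) (e * tc us + xd us) κ →
      (∀ u : List (Option X), e * tc u + xd u = e * tc us + xd us → κ u ≠ 0 →
        fill ℓ us ≤ fill ℓ u ∧ (fill ℓ u = fill ℓ us → u = us)) →
      ev ξ κ (fill ℓ us) = κ us * ξ ℓ ^ tc us := by
  intro us
  induction us with
  | nil => intro κ _ _; simp [fill, tc]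
  | cons z us ih =>
    intro κ hκ hu
    cases z with
    | none =>
      obtain ⟨y, ℓ', hy⟩ : ∃ y ℓ', ℓ = y :: ℓ' := by
        cases ℓ with
        | nil => simp at hℓ; omega
        | cons y ℓ' => exact ⟨y, ℓ', rfl⟩
      have hW : fill ℓ (none :: us) = y :: (ℓ' ++ fill ℓ us) := by
        rw [fill]; nth_rewrite 1 [hy]; rfl
      have hlen : (y :: (ℓ' ++ fill ℓ us)).length = e * tc (none :: us) + xd (none :: us) := by
        rw [← hW, length_fill, hℓ]
      have hκ1 : WOrd (wf e) (y :: (ℓ' ++ fill ℓ us)).length κ := by rw [hlen]; exact hκ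
      rw [hW, ev_two he hξ hκ1]
      have hsplit : y :: (ℓ' ++ fill ℓ us) = ℓ ++ fill ℓ us := by rw [← hW]; rfl
      have h1 : (y :: (ℓ' ++ fill ℓ us)).take e = ℓ := by
        rw [hsplit, ← hℓ, List.take_left']
        rfl
      have h2 : (y :: (ℓ' ++ fill ℓ us)).drop e = fill ℓ us := by
        rw [hsplit, ← hℓ, List.drop_left']
        rfl
      have hn : e * tc (none :: us) + xd (none :: us) = e * tc us + xd us + e := by
        simp only [tc, xd]; ring
      have h3 : ev ξ (D (some y) κ) (ℓ' ++ fill ℓ us) = 0 := by
        by_contra h4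
        have h5 : WOrd (wf e) (ℓ' ++ fill ℓ us).length (D (some y) κ) := by
          have := hκ1.D (some y)
          simpa [wf] using this
        obtain ⟨u, hu1, hu2, hu3⟩ := ev_ne he hξ hℓ hmin _ _ _ le_rfl h5 h4
        have h6 := hu (some y :: u) (by
          rw [← hlen, List.length_cons, ← hu1]; simp only [tc, xd]; ring) hu2
        have h7 : fill ℓ (some y :: u) ≤ fill ℓ (none :: us) := by
          rw [hW]; exact cle_same.mpr hu3
        have := h6.2 (le_antisymm h7 h6.1)
        simp at this
      rw [h3, zero_add, h1, h2, ih (D none κ)]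
      · rw [D_apply, tc, pow_succ]; ring
      · have := hκ.D none
        rw [hn] at this
        simpa [wf] using this
      · intro u h4 h5
        have h6 := hu (none :: u) (by simp only [tc, xd] at h4 ⊢; nlinarith [h4]) h5
        constructor
        · by_contra h7
          rw [not_le] at h7
          have h8 : fill ℓ (none :: u) < fill ℓ (none :: us) := List.append_left_lt h7
          exact absurd (lt_of_le_of_lt h6.1 h8) (lt_irrefl _)
        · intro h7
          have := h6.2 (by rw [fill, fill, h7])
          simpa using this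
    | some x =>
      have hW : fill ℓ (some x :: us) = x :: fill ℓ us := rfl
      have hlen : (x :: fill ℓ us).length = e * tc (some x :: us) + xd (some x :: us) := by
        rw [← hW, length_fill, hℓ]
      have hκ1 : WOrd (wf e) (x :: fill ℓ us).length κ := by rw [hlen]; exact hκ
      rw [hW, ev_two he hξ hκ1]
      have h3 : ξ ((x :: fill ℓ us).take e) * ev ξ (D none κ) ((x :: fill ℓ us).drop e) = 0 := by
        by_contra h
        have h2 := left_ne_zero_of_mul h
        have h3 := right_ne_zero_of_mul h
        have h4 : e ≤ (x :: fill ℓ us).length := by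
          by_contra h5
          exact h2 (hξ _ (by rw [List.length_take]; omega))
        have h5 : ((x :: fill ℓ us).take e).length = e := by rw [List.length_take]; omega
        have h6 : ((x :: fill ℓ us).drop e).length = (x :: fill ℓ us).length - e :=
          List.length_drop
        have h7 : WOrd (wf e) ((x :: fill ℓ us).drop e).length (D none κ) := by
          rw [h6]; exact hκ1.D none
        obtain ⟨u, hu1, hu2, hu3⟩ := ev_ne he hξ hℓ hmin _ _ _ le_rfl h7 h3
        have h8 : fill ℓ (none :: u) ≤ fill ℓ (some x :: us) := by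
          have h8 : fill ℓ (none :: u) ≤ (x :: fill ℓ us).take e ++ (x :: fill ℓ us).drop e :=
            app_le (by rw [hℓ, h5]) (hmin _ h5 h2) hu3
          rwa [List.take_append_drop] at h8
        have h9 := hu (none :: u) (by
          rw [h6] at hu1
          rw [← hlen]
          simp only [tc, xd]
          have : e * (tc u + 1) + xd u = e * tc u + xd u + e := by ring
          omega) hu2
        have := h9.2 (le_antisymm h8 h9.1)
        simp at this
      rw [h3, add_zero, ih (D (some x) κ)]
      · rw [D_apply, tc]
      · have := hκ.D (some x)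
        simp only [tc, xd, wf] at this ⊢
        exact this
      · intro u h4 h5
        have h6 := hu (some x :: u) (by simp only [tc, xd] at h4 ⊢; omega) h5
        constructor
        · exact cle_same.mp h6.1
        · intro h7
          have := h6.2 (by rw [fill, fill, h7])
          simpa using this

/-- **Nonvanishing.** -/
theorem ev_ne_zero [NoZeroDivisors R] [CharZero R] {J m e : ℕ} (hme : m < e) {ξ : NPS X R}
    (hξ : Ord e ξ) (hp : Prim e ξ) (hne : ∃ w : List X, w.length = e ∧ ξ w ≠ 0)
    {κ : NPS (Option X) R} (h1 : ∀ u, tc u < J → κ u = 0)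
    (h2 : ∀ u, tc u = J → xd u < m → κ u = 0)
    (h3 : ∃ u, tc u = J ∧ xd u = m ∧ κ u ≠ 0) : ev ξ κ ≠ 0 := by
  have : Finite X := inferInstance
  obtain ⟨ℓ, ⟨hℓ, hℓ0⟩, hmin⟩ := Set.exists_min_image {w : List X | w.length = e ∧ ξ w ≠ 0} id
    ((List.finite_length_eq X e).subset fun w hw => hw.1) hne
  have hmin' : ∀ w : List X, w.length = e → ξ w ≠ 0 → ℓ ≤ w := fun w hw hw0 => hmin w ⟨hw, hw0⟩
  have hub := lead_unbord hξ hp hℓ hℓ0 hmin'
  have hℓne : ℓ ≠ [] := by
    rintro rfl
    simp at hℓ; omega
  obtain ⟨us, ⟨hus1, hus2, hus3⟩, husmin⟩ := Set.exists_min_image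
    {u : List (Option X) | tc u = J ∧ xd u = m ∧ κ u ≠ 0} (fill ℓ)
    ((List.finite_length_eq (Option X) (J + m)).subset fun u hu => by
      change u.length = J + m
      rw [← tc_add_xd, hu.1, hu.2.1]) h3
  have hn : e * tc us + xd us = e * J + m := by rw [hus1, hus2]
  intro h0
  have key := ev_fill (by omega) hξ hℓ hmin' us κ ?_ ?_
  · rw [h0, NPS.zero_apply] at key
    exact mul_ne_zero hus3 (pow_ne_zero _ hℓ0) key.symm
  · rw [hn]
    intro u hu
    rw [wf_sum] at hu
    rcases lt_trichotomy (tc u) J with h | h | h
    · exact h1 u h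
    · refine h2 u h ?_
      rw [h] at hu
      omega
    · exfalso
      have : e * (J + 1) ≤ e * tc u := Nat.mul_le_mul_left e h
      rw [Nat.mul_add] at this
      omega
  · intro u hu hκu
    rw [hn] at hu
    have hJ : tc u = J := by
      rcases lt_trichotomy (tc u) J with h | h | h
      · exact absurd (h1 u h) hκu
      · exact h
      · exfalso
        have : e * (J + 1) ≤ e * tc u := Nat.mul_le_mul_left e h
        rw [Nat.mul_add] at this
        omega
    have hm : xd u = m := by rw [hJ] at hu; omega
    refine ⟨husmin u ⟨hJ, hm, hκu⟩, fun h => ?_⟩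
    exact fill_inj hℓne hub u us (by rw [hJ, hus1]) (by rw [hm, hℓ]; exact hme)
      (by rw [hus2, hℓ]; exact hme) h

end eval

end Run7.h937
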