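import Pool.Agent.Run7.h937.Glk
import Pool.Agent.Run7.h937.Core

set_option autoImplicit false
set_option linter.unusedSectionVars false

/-! Representation of equations by series. -/

namespace Run7.h937

open NPS Finset Filter Topology

section

/-- substitution is continuous -/
theorem sub_tendsto {R : Type*} [CommRing R] [TopologicalSpace R] [IsTopologicalRing R]
    {Z Z' : Type*} [Fintype Z] {α : Type*} {l : Filter α} : ∀ (n : ℕ) {η : α → Z → NPS Z' R}
    {η₀ : Z → NPS Z' R} {κ : α → NPS Z R} {κ₀ : NPS Z R},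
    (∀ z w, Tendsto (fun a => η a z w) l (𝓝 (η₀ z w))) →
    (∀ w, Tendsto (fun a => κ a w) l (𝓝 (κ₀ w))) → ∀ w : List Z', w.length ≤ n →
      Tendsto (fun a => sub (η a) (κ a) w) l (𝓝 (sub η₀ κ₀ w)) := by
  intro n
  induction n with
  | zero =>
    intro η η₀ κ κ₀ hη hκ w hw
    have h1 : w = [] := List.length_eq_zero_iff.mp (Nat.le_zero.mp hw)
    subst h1
    simp only [sub_nil]
    exact hκ []
  | succ n ih =>
    intro η η₀ κ κ₀ hη hκ w hw
    cases w with
    | nil =>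
      simp only [sub_nil]
      exact hκ []
    | cons z' v =>
      rw [List.length_cons] at hw
      simp only [sub_cons, mul_apply]
      refine tendsto_finsetSum _ fun z _ => tendsto_finsetSum _ fun i _ => ?_
      refine Tendsto.mul (hη z _) (ih hη (fun w => hκ _) _ ?_)
      rw [List.length_drop]; omega

/-- the class of equations: uniform limits of words with constants -/
def Eqn {F : Type} [Group F] [TopologicalSpace F] {n : ℕ} (e : (Fin n → F) → F) : Prop :=
  ∀ U ∈ nhds (1 : F), ∃ w ∈ Subgroup.closure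
    (Set.range (fun c : F => fun _ : Fin n → F => c) ∪
      Set.range (fun i : Fin n => fun g : Fin n → F => g i)),
    ∀ g : Fin n → F, (w g)⁻¹ * e g ∈ U

variable {p : ℕ} [hp : Fact p.Prime] {F : Type} [Group F] [TopologicalSpace F]
  {Z : Type} [DecidableEq Z] [Fintype Z]

theorem evn_mul {ι R : Type*} [Fintype ι] [CommRing R] (g : ι → NPS Z R)
    (κ κ' : NPS (Z ⊕ ι) R) : evn g (κ * κ') = evn g κ * evn g κ' := sub_mul' _ _ _

theorem evn_one {ι R : Type*} [Fintype ι] [CommRing R] (g : ι → NPS Z R) :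
    evn g (1 : NPS (Z ⊕ ι) R) = 1 := sub_one' _

theorem evn_nil {ι R : Type*} [Fintype ι] [CommRing R] (g : ι → NPS Z R)
    (κ : NPS (Z ⊕ ι) R) : evn g κ [] = κ [] := sub_nil _ _

/-- words with constants are represented -/
theorem rep_word {n : ℕ} (μ : F →* UU Z ℤ_[p]) {w : (Fin n → F) → F}
    (hw : w ∈ Subgroup.closure
      (Set.range (fun c : F => fun _ : Fin n → F => c) ∪
        Set.range (fun i : Fin n => fun g : Fin n → F => g i))) :
    ∃ κ : NPS (Z ⊕ Fin n) ℤ_[p], κ [] = 1 ∧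
      ∀ g : Fin n → F, (μ (w g)).1 = evn (fun l => (μ (g l)).1) κ := by
  induction hw using Subgroup.closure_induction with
  | mem w hw =>
    rcases hw with ⟨c, rfl⟩ | ⟨i, rfl⟩
    · refine ⟨sub (fun z => NPS.X (Sum.inl z)) (μ c).1, ?_, fun g => ?_⟩
      · rw [sub_nil]; exact (μ c).2
      · unfold evn
        rw [sub_comp]
        have h1 : (fun z : Z => sub (Sum.elim NPS.X (fun l => (μ (g l)).1 - 1))
            (NPS.X (Sum.inl z) : NPS (Z ⊕ Fin n) ℤ_[p])) = fun z => NPS.X z := by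
          funext z
          rw [sub_X (Sum.elim NPS.X (fun l => (μ (g l)).1 - 1)) (Sum.inl z) rfl]
          rfl
        rw [h1, sub_id]
    · refine ⟨1 + NPS.X (Sum.inr i), ?_, fun g => ?_⟩
      · change (1 + 0 : ℤ_[p]) = 1
        simp
      · unfold evn
        rw [NPS.sub_add, sub_one', sub_X (Sum.elim NPS.X (fun l => (μ (g l)).1 - 1)) (Sum.inr i)
          (show ((μ (g i)).1 - 1) [] = 0 by rw [NPS.sub_apply, (μ (g i)).2]; simp)]
        change (μ (g i)).1 = 1 + ((μ (g i)).1 - 1)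
        abel
  | one =>
    refine ⟨1, rfl, fun g => ?_⟩
    rw [evn_one, Pi.one_apply, map_one]
    rfl
  | mul w w' _ _ ih ih' =>
    obtain ⟨κ, h0, h1⟩ := ih
    obtain ⟨κ', h0', h1'⟩ := ih'
    refine ⟨κ * κ', by rw [NPS.mul_nil, h0, h0', one_mul], fun g => ?_⟩
    rw [evn_mul, ← h1, ← h1', Pi.mul_apply, map_mul]
    rfl
  | inv w _ ih =>
    obtain ⟨κ, h0, h1⟩ := ih
    refine ⟨inv1 κ, inv1_nil _, fun g => ?_⟩
    have h2 : (μ (w g)).1 * evn (fun l => (μ (g l)).1) (inv1 κ) = 1 := by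
      rw [h1, ← evn_mul, mul_inv1 h0, evn_one]
    rw [Pi.inv_apply, map_inv]
    calc ((μ (w g))⁻¹).1 = ((μ (w g))⁻¹).1 * ((μ (w g)).1 *
          evn (fun l => (μ (g l)).1) (inv1 κ)) := by rw [h2, mul_one]
      _ = evn (fun l => (μ (g l)).1) (inv1 κ) := by
          rw [← mul_assoc, UU.val_inv_mul, one_mul]

theorem cong_tendsto {wt : Z → ℕ} {l : Filter ℕ} (hl : l ≤ atTop) {f : ℕ → NPS Z ℤ_[p]}
    {f₀ : NPS Z ℤ_[p]} (h : ∀ m, Cong wt m f₀ (f m)) (w : List Z) :
    Tendsto (fun m => f m w) l (𝓝 (f₀ w)) := by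
  refine Tendsto.mono_left ?_ hl
  rw [Metric.tendsto_atTop]
  intro ε hε
  have hp1 : (1 : ℝ) < p := by exact_mod_cast hp.out.one_lt
  obtain ⟨N, hN⟩ := exists_pow_lt_of_lt_one hε (inv_lt_one_of_one_lt₀ hp1)
  refine ⟨max N (w.map wt).sum, fun m hm => ?_⟩
  have h1 := h m w ((le_max_right _ _).trans hm)
  rw [dist_comm, dist_eq_norm]
  rw [← Ideal.mem_span_singleton, ← PadicInt.norm_le_pow_iff_mem_span_pow] at h1
  refine h1.trans_lt (lt_of_le_of_lt ?_ hN)
  rw [zpow_neg, zpow_natCast, ← inv_pow]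
  exact pow_le_pow_of_le_one (by positivity) (inv_le_one_of_one_le₀ hp1.le)
    ((le_max_left _ _).trans hm)

/-- **equations are represented by series** -/
theorem rep_eqn {n : ℕ} {wt : Z → ℕ} {μ : F →* UU Z ℤ_[p]}
    (hμ : ∀ m, IsOpen (((congSub wt m).comap μ : Subgroup F) : Set F))
    {e : (Fin n → F) → F} (he : Eqn e) :
    ∃ κ : NPS (Z ⊕ Fin n) ℤ_[p],
      ∀ g : Fin n → F, (μ (e g)).1 = evn (fun l => (μ (g l)).1) κ := by
  have h1 : ∀ m, ∃ κ : NPS (Z ⊕ Fin n) ℤ_[p], ∀ g : Fin n → F,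
      Cong wt m (μ (e g)).1 (evn (fun l => (μ (g l)).1) κ) := by
    intro m
    obtain ⟨w, hw, hwe⟩ := he _ ((hμ m).mem_nhds (Subgroup.one_mem _))
    obtain ⟨κ, _, hκ⟩ := rep_word μ hw
    refine ⟨κ, fun g => ?_⟩
    have h2 : (w g)⁻¹ * e g ∈ (congSub wt m).comap μ := hwe g
    rw [Subgroup.mem_comap, map_mul, map_inv, congSub_inv_mul, hκ] at h2
    exact h2.symm
  choose κ hκ using h1
  let 𝒱 : Ultrafilter ℕ := Ultrafilter.of Filter.atTop
  have h𝒱 : (𝒱 : Filter ℕ) ≤ Filter.atTop := Ultrafilter.of_le _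
  have hlim : ∀ w, ∃ a : ℤ_[p], Filter.Tendsto (fun m => κ m w) 𝒱 (nhds a) := by
    intro w
    obtain ⟨a, _, ha⟩ := isCompact_univ.ultrafilter_le_nhds (𝒱.map fun m => κ m w)
      (by rw [Filter.principal_univ]; exact le_top)
    exact ⟨a, ha⟩
  choose κ₀ hκ₀ using hlim
  refine ⟨κ₀, fun g => NPS.ext fun w => ?_⟩
  have h2 : Tendsto (fun m => evn (fun l => (μ (g l)).1) (κ m) w) 𝒱
      (𝓝 (evn (fun l => (μ (g l)).1) κ₀ w)) := by
    unfold evn
    exact sub_tendsto _ (η := fun _ => Sum.elim NPS.X fun l => (μ (g l)).1 - 1)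
      (η₀ := Sum.elim NPS.X fun l => (μ (g l)).1 - 1)
      (fun _ _ => tendsto_const_nhds) hκ₀ w le_rfl
  exact tendsto_nhds_unique (cong_tendsto h𝒱 (fun m => hκ m g) w) h2

omit [DecidableEq Z] [Fintype Z] in
theorem mu_continuous {wt : Z → ℕ} {μ : F →* UU Z ℤ_[p]} [IsTopologicalGroup F]
    (hμ : ∀ m, IsOpen (((congSub wt m).comap μ : Subgroup F) : Set F)) (w : List Z) :
    Continuous fun g => (μ g).1 w := by
  rw [continuous_iff_continuousAt]
  intro g
  rw [ContinuousAt, Metric.tendsto_nhds]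
  intro ε hε
  have hp1 : (1 : ℝ) < p := by exact_mod_cast hp.out.one_lt
  obtain ⟨N, hN⟩ := exists_pow_lt_of_lt_one hε (inv_lt_one_of_one_lt₀ hp1)
  set m := max N (w.map wt).sum with hm
  have hO : IsOpen ((fun b => g⁻¹ * b) ⁻¹' (((congSub wt m).comap μ : Subgroup F) : Set F)) :=
    (hμ m).preimage (by fun_prop)
  refine Filter.mem_of_superset (hO.mem_nhds ?_) ?_
  · change g⁻¹ * g ∈ (congSub wt m).comap μ
    rw [inv_mul_cancel]
    exact Subgroup.one_mem _
  · intro b hb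
    have hb1 : g⁻¹ * b ∈ (congSub wt m).comap μ := hb
    rw [Subgroup.mem_comap, map_mul, map_inv, congSub_inv_mul] at hb1
    have h1 := hb1 w (le_max_right _ _)
    change dist _ _ < ε
    rw [dist_comm, dist_eq_norm]
    rw [← Ideal.mem_span_singleton, ← PadicInt.norm_le_pow_iff_mem_span_pow] at h1
    refine h1.trans_lt (lt_of_le_of_lt ?_ hN)
    rw [zpow_neg, zpow_natCast, ← inv_pow]
    exact pow_le_pow_of_le_one (by positivity) (inv_le_one_of_one_le₀ hp1.le) (le_max_left _ _)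

end

end Run7.h937
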