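import Pool.Agent.Run7.h937.Univ
import Pool.Agent.Run7.h937.Rep

set_option autoImplicit false
set_option linter.unusedSectionVars false

/-! Iterated commutators in two letters. -/

namespace Run7.h937

open NPS Finset

section words

theorem rep_not_le (z : ℕ) : ¬ (List.replicate (z + 1) (1 : Fin 2) ≤ List.replicate z 1 ++ [0]) := by
  induction z with
  | zero => simp [cle]
  | succ z ih =>
    intro h
    have h' : (1 : Fin 2) :: List.replicate (z + 1) 1 ≤ 1 :: (List.replicate z 1 ++ [0]) := h
    exact ih (cle_same.mp h')

theorem rep_lt {n z : ℕ} (h : n < z) (u u' : List (Fin 2)) :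
    ¬ (List.replicate z (1 : Fin 2) ++ 0 :: u ≤ List.replicate n 1 ++ 0 :: u') := by
  induction n generalizing z with
  | zero =>
    obtain ⟨z, rfl⟩ : ∃ z', z = z' + 1 := ⟨z - 1, by omega⟩
    rw [List.replicate_succ, List.cons_append, List.replicate_zero, List.nil_append, cle]
    simp
  | succ n ih =>
    obtain ⟨z, rfl⟩ : ∃ z', z = z' + 1 := ⟨z - 1, by omega⟩
    rw [List.replicate_succ, List.replicate_succ, List.cons_append, List.cons_append, cle_same]
    exact ih (by omega)

theorem rep_le_iff (n : ℕ) (u u' : List (Fin 2)) :
    List.replicate n (1 : Fin 2) ++ 0 :: u ≤ List.replicate n 1 ++ 0 :: u' ↔ u ≤ u' := by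
  induction n with
  | zero => simp [cle_same]
  | succ n ih =>
    rw [List.replicate_succ, List.cons_append, List.cons_append, cle_same, ih]

/-- the leading word -/
def omg : List ℕ → List (Fin 2)
  | [] => []
  | n :: w => List.replicate n 1 ++ 0 :: omg w

theorem length_omg (w : List ℕ) : (omg w).length = (w.map wt1).sum := by
  induction w with
  | nil => rfl
  | cons n w ih =>
    rw [omg, List.length_append, List.length_replicate, List.length_cons, ih, List.map_cons,
      List.sum_cons, wt1]
    omega

end words

section

variable {R : Type} [CommRing R]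

theorem mul_split {Y : Type} {f g : NPS Y R} {a b : ℕ} (hf : Ord a f) (hg : Ord b g)
    {W : List Y} (hW : W.length = a + b) : (f * g) W = f (W.take a) * g (W.drop a) := by
  rw [mul_apply, Finset.sum_eq_single a]
  · intro i hi hia
    rw [Finset.mem_range] at hi
    rcases lt_or_gt_of_ne hia with h | h
    · rw [hf _ (lt_of_le_of_lt (List.length_take_le i W) h), zero_mul]
    · rw [hg (W.drop i) (by rw [List.length_drop]; omega), mul_zero]
  · intro h
    exact absurd (Finset.mem_range.mpr (by omega)) h

theorem sub_expand {Z Z' : Type} [Fintype Z] (η : Z → NPS Z' R) (hη : ∀ z, η z [] = 0)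
    (κ : NPS Z R) : sub η κ = κ [] • (1 : NPS Z' R) + ∑ z, η z * sub η (D z κ) := by
  refine ext_D ?_ fun z' => ?_
  · rw [sub_nil]
    change _ = κ [] * 1 + (∑ z, η z * sub η (D z κ)) []
    rw [NPS.sum_apply, Finset.sum_eq_zero, add_zero, mul_one]
    intro z _
    rw [NPS.mul_nil, hη, zero_mul]
  · rw [D_subst, D_add, D_smul, NPS.D_one, smul_zero, zero_add, NPS.D_sum]
    refine Finset.sum_congr rfl fun z _ => ?_
    rw [D_mul, hη, zero_smul, zero_add]

/-- the properties of the substituted series -/
structure LW (d : ℕ → NPS (Fin 2) R) : Prop where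
  ord : ∀ n, Ord (n + 1) (d n)
  le : ∀ n w, w.length = n + 1 → d n w ≠ 0 → w ≤ List.replicate n 1 ++ [0]
  lead : ∀ n, d n (List.replicate n 1 ++ [0]) = 1

theorem LW.sub_lead {d : ℕ → NPS (Fin 2) R} (hd : LW d) {M : ℕ} : ∀ (w0 : List (Fin M))
    (κ : NPS (Fin M) R),
    (∀ w, (w.map fun z => wt1 z.val).sum < (w0.map fun z => wt1 z.val).sum → κ w = 0) →
    (∀ w, (w.map fun z => wt1 z.val).sum = (w0.map fun z => wt1 z.val).sum → κ w ≠ 0 →
      omg (w.map Fin.val) ≤ omg (w0.map Fin.val)) →
    sub (fun z : Fin M => d z.val) κ (omg (w0.map Fin.val)) = κ w0 := by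
  intro w0
  induction w0 with
  | nil =>
    intro κ _ _
    exact sub_nil _ _
  | cons n w0 ih =>
    intro κ h1 h2
    have hη0 : ∀ z : Fin M, (fun z : Fin M => d z.val) z [] = 0 := fun z =>
      hd.ord z.val [] (by simp)
    have hmap : ∀ w : List (Fin M), ((w.map Fin.val).map wt1).sum =
        (w.map fun z => wt1 z.val).sum := by
      intro w
      rw [List.map_map]
      rfl
    set W := omg ((n :: w0).map Fin.val) with hW
    have hW' : W = List.replicate n.val 1 ++ 0 :: omg (w0.map Fin.val) := by
      rw [hW, List.map_cons, omg]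
    have hWl : W.length = ((n :: w0).map fun z => wt1 z.val).sum := by
      rw [hW, length_omg, hmap]
    set DD := ((n :: w0).map fun z => wt1 z.val).sum with hDD
    have hDn : DD = wt1 n.val + (w0.map fun z => wt1 z.val).sum := by
      rw [hDD, List.map_cons, List.sum_cons]
    have hWO : WOrd (fun z : Fin M => wt1 z.val) DD κ := fun u hu => h1 u hu
    have hord : ∀ z : Fin M, Ord (DD - wt1 z.val) (sub (fun z : Fin M => d z.val) (D z κ)) :=
      fun z => sub_ord (fun z : Fin M => wt1 z.val) (fun z => wt1_pos _) _
        (fun z => hd.ord z.val) _ _ (hWO.D z)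
    have hWne : (1 : NPS (Fin 2) R) W = 0 := by
      cases hWc : W with
      | nil =>
        rw [hWc, List.length_nil] at hWl
        simp only [wt1] at hDn
        omega
      | cons a w => rfl
    rw [sub_expand _ hη0, NPS.add_apply, NPS.smul_apply, hWne, mul_zero, zero_add, NPS.sum_apply,
      Finset.sum_eq_single n]
    · rw [mul_split (hd.ord n.val) (hord n) (by rw [hWl]; simp only [wt1] at hDn ⊢; omega)]
      have ht : W.take (n.val + 1) = List.replicate n.val 1 ++ [0] := by
        rw [hW', List.take_append, List.length_replicate, Nat.add_sub_cancel_left,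
          List.take_of_length_le (by simp)]
        rfl
      have hdr : W.drop (n.val + 1) = omg (w0.map Fin.val) := by
        rw [hW', List.drop_append, List.length_replicate, Nat.add_sub_cancel_left,
          List.drop_of_length_le (by simp)]
        rfl
      rw [ht, hdr, hd.lead, one_mul]
      refine ih (D n κ) (fun w hw => ?_) (fun w hw hw0 => ?_)
      · refine h1 (n :: w) ?_
        rw [List.map_cons, List.sum_cons, hDn]
        omega
      · have h3 := h2 (n :: w) (by rw [List.map_cons, List.sum_cons, hDn, hw]) hw0
        rw [hW', List.map_cons, omg, rep_le_iff] at h3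
        exact h3
    · intro z _ hz
      by_cases hzD : wt1 z.val ≤ DD
      · rw [mul_split (hd.ord z.val) (hord z) (by rw [hWl]; simp only [wt1] at hzD ⊢; omega)]
        rcases lt_or_gt_of_ne (fun h => hz (Fin.ext h) : z.val ≠ n.val) with h | h
        · have ht : W.take (z.val + 1) = List.replicate (z.val + 1) 1 := by
            rw [hW', List.take_append, List.length_replicate, List.take_replicate,
              show z.val + 1 - n.val = 0 by omega, show min (z.val + 1) n.val = z.val + 1 by omega]
            simp
          have h4 : d z.val (W.take (z.val + 1)) = 0 := by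
            by_contra h5
            rw [ht] at h5
            exact rep_not_le z.val (hd.le z.val _ (by simp) h5)
          rw [h4, zero_mul]
        · have h5 : Ord (DD - wt1 z.val + 1) (sub (fun z : Fin M => d z.val) (D z κ)) := by
            refine sub_ord (fun z : Fin M => wt1 z.val) (fun z => wt1_pos _) _
              (fun z => hd.ord z.val) _ _ fun u hu => ?_
            by_contra h6
            rcases Nat.lt_or_ge (u.map fun z => wt1 z.val).sum (DD - wt1 z.val) with h7 | h7
            · exact h6 (hWO.D z u h7)
            · have h8 : ((z :: u).map fun z => wt1 z.val).sum = DD := by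
                rw [List.map_cons, List.sum_cons]
                omega
              have h9 := h2 (z :: u) h8 h6
              rw [hW', List.map_cons, omg] at h9
              exact rep_lt h _ _ h9
          rw [h5 (W.drop (z.val + 1)) (by
            rw [List.length_drop, hWl]; simp only [wt1] at hzD ⊢; omega), mul_zero]
      · have h10 : Ord (W.length + 1) (d z.val * sub (fun z : Fin M => d z.val) (D z κ)) := by
          refine ((hd.ord z.val).mul (ord_zero _)).mono ?_
          rw [hWl]
          simp only [wt1] at hzD
          omega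
        exact h10 W (Nat.lt_succ_self _)
    · intro h; exact absurd (Finset.mem_univ _) h

/-- the letter `b` -/
def bb : UU (Fin 2) R := ⟨1 + NPS.X 1, one_add_X_nil 1⟩

/-- the iterated commutators -/
def cc : ℕ → UU (Fin 2) R
  | 0 => ⟨1 + NPS.X 0, one_add_X_nil 0⟩
  | n + 1 => bb * cc n * bb⁻¹ * (cc n)⁻¹

theorem cc_succ (n : ℕ) : (cc (n + 1) : UU (Fin 2) R).1 - 1 =
    (NPS.X 1 * ((cc n).1 - 1) - ((cc n).1 - 1) * NPS.X 1) * ((bb : UU (Fin 2) R)⁻¹ * (cc n)⁻¹).1 := by
  have h1 : (cc (n + 1) : UU (Fin 2) R).1 = (bb * cc n : UU (Fin 2) R).1 *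
      ((bb : UU (Fin 2) R)⁻¹ * (cc n)⁻¹).1 := by
    rw [← UU.val_mul, ← mul_assoc]
    rfl
  have h2 : (cc n * bb : UU (Fin 2) R).1 * ((bb : UU (Fin 2) R)⁻¹ * (cc n)⁻¹).1 = 1 := by
    rw [← UU.val_mul]
    have : (cc n * bb * (bb⁻¹ * (cc n)⁻¹) : UU (Fin 2) R) = 1 := by
      rw [mul_assoc, mul_inv_cancel_left, mul_inv_cancel]
    rw [this]
    rfl
  have h3 : (cc (n + 1) : UU (Fin 2) R).1 - 1 = (bb * cc n : UU (Fin 2) R).1 *
      ((bb : UU (Fin 2) R)⁻¹ * (cc n)⁻¹).1 - (cc n * bb : UU (Fin 2) R).1 *
      ((bb : UU (Fin 2) R)⁻¹ * (cc n)⁻¹).1 := by rw [h1, h2]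
  rw [h3, ← sub_mul]
  congr 1
  change (1 + NPS.X 1) * (cc n).1 - (cc n).1 * (1 + NPS.X 1) = _
  noncomm_ring

theorem low_mul {Y : Type} {f g : NPS Y R} {N : ℕ} (hf : Ord N f) {W : List Y}
    (hW : W.length = N) : (f * g) W = f W * g [] := by
  rw [mul_split hf (ord_zero g) (by omega), List.take_of_length_le hW.le,
    List.drop_of_length_le hW.le]

theorem X_mul_cons {Y : Type} [DecidableEq Y] (y z : Y) (g : NPS Y R) (w : List Y) :
    ((NPS.X y : NPS Y R) * g : NPS Y R) (z :: w) = if y = z then g w else 0 := by
  rw [mul_cons, X_apply, if_neg (by simp), zero_mul, zero_add, D_X]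
  split
  · rw [one_mul]
  · rw [zero_mul]; rfl

theorem mul_X_append {Y : Type} [DecidableEq Y] (y z : Y) (g : NPS Y R) (w : List Y) :
    (g * (NPS.X y : NPS Y R) : NPS Y R) (w ++ [z]) = if y = z then g w else 0 := by
  rw [mul_apply, Finset.sum_eq_single w.length]
  · rw [List.take_left', List.drop_left', X_apply]
    · by_cases h : y = z
      · subst h; simp
      · rw [if_neg, if_neg h, mul_zero]
        intro h1
        exact h (List.cons.inj h1).1.symm
    · rfl
    · rfl
  · intro i hi hiw
    rw [X_apply, if_neg, mul_zero]
    intro h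
    have h1 := congrArg List.length h
    rw [List.length_drop, List.length_append, List.length_singleton, List.length_singleton] at h1
    omega
  · intro h
    exact absurd (Finset.mem_range.mpr (by simp)) h

theorem cc_LW : LW (fun n => (cc n : UU (Fin 2) R).1 - 1) := by
  have h0 : ∀ n, ((bb : UU (Fin 2) R)⁻¹ * (cc n)⁻¹).1 [] = 1 := fun n => ((bb)⁻¹ * (cc n)⁻¹).2
  have hX : Ord 1 (NPS.X 1 : NPS (Fin 2) R) := by
    intro w hw
    have : w = [] := List.length_eq_zero_iff.mp (by omega)
    subst this
    rfl
  have hord : ∀ n, Ord (n + 1) ((cc n : UU (Fin 2) R).1 - 1) := by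
    intro n
    induction n with
    | zero =>
      intro w hw
      have : w = [] := List.length_eq_zero_iff.mp (by omega)
      subst this
      rw [NPS.sub_apply, (cc 0).2]
      simp
    | succ n ih =>
      rw [cc_succ]
      have h1 : Ord (n + 2) (NPS.X 1 * ((cc n : UU (Fin 2) R).1 - 1)) := by
        have := hX.mul ih
        rwa [show 1 + (n + 1) = n + 2 by ring] at this
      exact ((h1.sub (ih.mul hX)).mul (ord_zero _)).mono (by omega)
  have hval : ∀ n W, W.length = n + 2 → ((cc (n + 1) : UU (Fin 2) R).1 - 1) W =
      ((NPS.X 1 : NPS (Fin 2) R) * ((cc n : UU (Fin 2) R).1 - 1) : NPS (Fin 2) R) W -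
        (((cc n : UU (Fin 2) R).1 - 1) * (NPS.X 1 : NPS (Fin 2) R) : NPS (Fin 2) R) W := by
    intro n W hW
    rw [cc_succ, low_mul (N := n + 2) _ hW, h0, mul_one]
    · rfl
    · have h1 : Ord (n + 2) (NPS.X 1 * ((cc n : UU (Fin 2) R).1 - 1)) := by
        have := hX.mul (hord n)
        rwa [show 1 + (n + 1) = n + 2 by ring] at this
      exact h1.sub ((hord n).mul hX)
  refine ⟨hord, fun n => ?_, fun n => ?_⟩
  · induction n with
    | zero =>
      intro w hw h
      have h1 : (cc 0 : UU (Fin 2) R).1 - 1 = NPS.X 0 := by
        change (1 + NPS.X 0 : NPS (Fin 2) R) - 1 = NPS.X 0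
        abel
      rw [h1, X_apply] at h
      have h2 : w = [0] := by
        by_contra h3
        exact h (if_neg h3)
      subst h2
      exact le_rfl
    | succ n ih =>
      intro w hw h
      change ((cc (n + 1) : UU (Fin 2) R).1 - 1) w ≠ 0 at h
      rw [hval n w hw] at h
      rw [List.replicate_succ, List.cons_append]
      by_cases h1 : ((NPS.X 1 : NPS (Fin 2) R) * ((cc n : UU (Fin 2) R).1 - 1) :
          NPS (Fin 2) R) w = 0
      · rw [h1, zero_sub, neg_ne_zero] at h
        obtain ⟨w', z, rfl⟩ : ∃ w' z, w = w' ++ [z] := by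
          have hne : w ≠ [] := by rintro rfl; simp at hw
          exact ⟨w.dropLast, w.getLast hne, (List.dropLast_append_getLast hne).symm⟩
        rw [mul_X_append] at h
        have hz : (1 : Fin 2) = z := by
          by_contra hz
          exact h (if_neg hz)
        rw [if_pos hz] at h
        have hw' : w'.length = n + 1 := by
          rw [List.length_append, List.length_singleton] at hw; omega
        have h2 : w' ≤ List.replicate n 1 ++ [0] := ih w' hw' h
        -- `w' ≤ 1^n 0 < 1^{n+1}`
        have key : ∀ (n : ℕ) (w' v v' : List (Fin 2)), w'.length = n + 1 →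
            w' ≤ List.replicate n 1 ++ [0] → w' ++ v ≤ List.replicate (n + 1) 1 ++ v' := by
          intro n
          induction n with
          | zero =>
            intro w' v v' hl h
            match w', hl with
            | [a], _ =>
              simp only [List.replicate_zero, List.nil_append, cle] at h
              have ha : a = 0 := by
                rcases h with h | h
                · exact absurd h (by simp)
                · exact h.1
              subst ha
              simp [cle]
          | succ n ih =>
            intro w' v v' hl h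
            match w', hl with
            | a :: w'', hl =>
              rw [List.replicate_succ, List.cons_append, cle] at h
              rw [List.replicate_succ, List.cons_append, List.cons_append, cle]
              rcases h with h | ⟨h, h'⟩
              · exact Or.inl h
              · refine Or.inr ⟨h, ih w'' v v' (by simpa using hl) h'⟩
        have h3 := key n w' [z] [0] hw' h2
        rwa [List.replicate_succ, List.cons_append] at h3
      · obtain ⟨z, w', rfl⟩ : ∃ z w', w = z :: w' := by
          cases w with
          | nil => simp at hw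
          | cons z w' => exact ⟨z, w', rfl⟩
        rw [X_mul_cons] at h1
        have hz : (1 : Fin 2) = z := by
          by_contra hz
          exact h1 (if_neg hz)
        subst hz
        rw [if_pos rfl] at h1
        rw [cle_same]
        exact ih w' (by simpa using hw) h1
  · induction n with
    | zero =>
      change ((cc 0 : UU (Fin 2) R).1 - 1) [0] = 1
      have h1 : (cc 0 : UU (Fin 2) R).1 - 1 = NPS.X 0 := by
        change (1 + NPS.X 0 : NPS (Fin 2) R) - 1 = NPS.X 0
        abel
      rw [h1, X_apply, if_pos rfl]
    | succ n ih =>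
      change ((cc (n + 1) : UU (Fin 2) R).1 - 1) _ = 1
      rw [hval n _ (by simp), mul_X_append, if_neg (by simp), sub_zero, List.replicate_succ,
        List.cons_append, X_mul_cons, if_pos rfl]
      exact ih

end

end Run7.h937
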