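import Pool.Agent.Run7.h937.Assembly

set_option autoImplicit false
set_option linter.unusedSectionVars false

/-! Systems in which every unknown is locally free or locally algebraic at each solution. -/

namespace Run7.h937

open Filter Topology

variable {p : ℕ} [hp : Fact p.Prime] {X F : Type} [Group F] [TopologicalSpace F]
  [IsTopologicalGroup F] [CompactSpace F] [T2Space F] [TotallyDisconnectedSpace F] {ι : X → F}

/-- local data at a tuple `g` -/
def Tame {n : ℕ} (S : Set ((Fin n → F) → F)) (g : Fin n → F) : Prop :=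
  ∃ W ∈ 𝓝 g, ∃ T : Finset ((Fin n → F) → F), (↑T : Set ((Fin n → F) → F)) ⊆ S ∧
    ∃ r : Fin n → ℕ, ∀ l : Fin n,
      (∀ e ∈ S, ∀ a ∈ W, (e a = 1 ↔ e (Function.update a l (g l)) = 1)) ∨
      ∃ e : (Fin n → F) → F, Eqn e ∧
        (∀ a ∈ W, (∀ e' ∈ T, e' a = 1) → e a = 1) ∧ DepOn r l e ∧
        ∃ y : F, e (Function.update g l y) ≠ 1

/-- freezing the free coordinates -/
theorem freeze {n : ℕ} {S : Set ((Fin n → F) → F)} {a : Fin n → F} {u : Fin n → Set F}
    (hu : ∀ l, a l ∈ u l) (fr : Fin n → Prop) [DecidablePred fr]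
    (hfr : ∀ l, fr l → ∀ e ∈ S, ∀ x ∈ Set.pi Set.univ u,
      (e x = 1 ↔ e (Function.update x l (a l)) = 1)) (x : Fin n → F)
    (hx : x ∈ Set.pi Set.univ u) (s : Finset (Fin n)) :
    (fun l => if l ∈ s ∧ fr l then a l else x l) ∈ Set.pi Set.univ u ∧
      ∀ e ∈ S, (e x = 1 ↔ e (fun l => if l ∈ s ∧ fr l then a l else x l) = 1) := by
  classical
  induction s using Finset.induction_on with
  | empty =>
    have h1 : (fun l => if l ∈ (∅ : Finset (Fin n)) ∧ fr l then a l else x l) = x := by
      funext l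
      simp
    rw [h1]
    exact ⟨hx, fun e _ => Iff.rfl⟩
  | insert l s hl ih =>
    by_cases h1 : fr l
    · have h2 : (fun j => if j ∈ insert l s ∧ fr j then a j else x j) =
          Function.update (fun j => if j ∈ s ∧ fr j then a j else x j) l (a l) := by
        funext j
        by_cases hj : j = l
        · subst hj
          rw [Function.update_self, if_pos ⟨Finset.mem_insert_self _ _, h1⟩]
        · rw [Function.update_of_ne hj]
          simp only [Finset.mem_insert, hj, false_or]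
      rw [h2]
      refine ⟨?_, fun e he => ?_⟩
      · intro j _
        by_cases hj : j = l
        · subst hj
          rw [Function.update_self]
          exact hu j
        · rw [Function.update_of_ne hj]
          exact ih.1 j (Set.mem_univ j)
      · rw [ih.2 e he]
        exact hfr l h1 e he _ ih.1
    · have h2 : (fun j => if j ∈ insert l s ∧ fr j then a j else x j) =
          (fun j => if j ∈ s ∧ fr j then a j else x j) := by
        funext j
        by_cases hj : j = l
        · subst hj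
          rw [if_neg (fun h => h1 h.2), if_neg (fun h => h1 h.2)]
        · simp only [Finset.mem_insert, hj, false_or]
      rw [h2]
      exact ih

/-- **The main theorem.** -/
theorem main (h : FP p X F ι) {n : ℕ} (S : Set ((Fin n → F) → F)) (hS : ∀ e ∈ S, Eqn e)
    (hT : ∀ g : Fin n → F, (∀ e ∈ S, e g = 1) → Tame S g) :
    ∃ S0 : Finset ((Fin n → F) → F), (↑S0 : Set ((Fin n → F) → F)) ⊆ S ∧
      {g : Fin n → F | ∀ e ∈ S, e g = 1} = {g : Fin n → F | ∀ e ∈ S0, e g = 1} := by
  classical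
  rcases subsingleton_or_nontrivial F with hF | hF
  · refine ⟨∅, by simp, ?_⟩
    ext g
    constructor
    · intro _ e he
      simp at he
    · intro _ e _
      exact Subsingleton.elim _ _
  -- local data on open boxes
  have hloc : ∀ g : Fin n → F, ∃ u : Fin n → Set F, (∀ l, IsOpen (u l) ∧ g l ∈ u l) ∧
      ∃ T : Finset ((Fin n → F) → F), (↑T : Set ((Fin n → F) → F)) ⊆ S ∧
      ((∃ e0 ∈ T, ∀ g' ∈ Set.pi Set.univ u, e0 g' ≠ 1) ∨
        ∃ r : Fin n → ℕ, ∀ l : Fin n,
          (∀ e ∈ S, ∀ a ∈ Set.pi Set.univ u, (e a = 1 ↔ e (Function.update a l (g l)) = 1)) ∨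
          ∃ e : (Fin n → F) → F, Eqn e ∧
            (∀ a ∈ Set.pi Set.univ u, (∀ e' ∈ T, e' a = 1) → e a = 1) ∧ DepOn r l e ∧
            ∃ y : F, ∀ g' ∈ Set.pi Set.univ u, e (Function.update g' l y) ≠ 1) := by
    intro g
    by_cases hg : ∀ e ∈ S, e g = 1
    · obtain ⟨W, hW, T, hTS, r, hr⟩ := hT g hg
      have h1 : ∀ l : Fin n, ∃ V : Set (Fin n → F), IsOpen V ∧ g ∈ V ∧
          ((∀ e ∈ S, ∀ a ∈ W, (e a = 1 ↔ e (Function.update a l (g l)) = 1)) ∨
          ∃ e : (Fin n → F) → F, Eqn e ∧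
            (∀ a ∈ W, (∀ e' ∈ T, e' a = 1) → e a = 1) ∧ DepOn r l e ∧
            ∃ y : F, ∀ g' ∈ V, e (Function.update g' l y) ≠ 1) := by
        intro l
        rcases hr l with h2 | ⟨e, he, hec, hed, y, hy⟩
        · exact ⟨Set.univ, isOpen_univ, Set.mem_univ _, Or.inl h2⟩
        · have hc : Continuous fun g' : Fin n → F => e (Function.update g' l y) :=
            he.continuous.comp (continuous_id.update l continuous_const)
          exact ⟨{g' | e (Function.update g' l y) ≠ 1}, isOpen_ne.preimage hc, hy,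
            Or.inr ⟨e, he, hec, hed, y, fun g' hg' => hg'⟩⟩
      choose V hVo hVg hV using h1
      have hO : IsOpen (interior W ∩ ⋂ l, V l) :=
        isOpen_interior.inter (isOpen_iInter_of_finite hVo)
      have hgO : g ∈ interior W ∩ ⋂ l, V l :=
        ⟨mem_interior_iff_mem_nhds.mpr hW, Set.mem_iInter.mpr hVg⟩
      obtain ⟨u, hu, huO⟩ := (isOpen_pi_iff'.mp hO) g hgO
      refine ⟨u, hu, T, hTS, Or.inr ⟨r, fun l => ?_⟩⟩
      have huW : ∀ a ∈ Set.pi Set.univ u, a ∈ W := fun a ha => interior_subset (huO ha).1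
      rcases hV l with h2 | ⟨e, he, hec, hed, y, hy⟩
      · exact Or.inl fun e he a ha => h2 e he a (huW a ha)
      · exact Or.inr ⟨e, he, fun a ha => hec a (huW a ha), hed, y,
          fun g' hg' => hy g' (Set.mem_iInter.mp (huO hg').2 l)⟩
    · push Not at hg
      obtain ⟨e0, he0, he0g⟩ := hg
      have hO : IsOpen {g' | e0 g' ≠ 1} := isOpen_ne.preimage (hS e0 he0).continuous
      obtain ⟨u, hu, huO⟩ := (isOpen_pi_iff'.mp hO) g he0g
      refine ⟨u, hu, {e0}, ?_, Or.inl ⟨e0, Finset.mem_singleton_self _, fun g' hg' => huO hg'⟩⟩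
      rw [Finset.coe_singleton, Set.singleton_subset_iff]
      exact he0
  choose u hu T hTS hOT using hloc
  have hOo : ∀ g, IsOpen (Set.pi Set.univ (u g)) := fun g =>
    isOpen_set_pi Set.finite_univ fun l _ => (hu g l).1
  have hOg : ∀ g, g ∈ Set.pi Set.univ (u g) := fun g l _ => (hu g l).2
  obtain ⟨t, -, ht⟩ := isCompact_univ.elim_nhds_subcover (fun g => Set.pi Set.univ (u g))
    (fun g _ => (hOo g).mem_nhds (hOg g))
  set E0 : Finset ((Fin n → F) → F) := t.biUnion T with hE0
  have hE0S : (↑E0 : Set ((Fin n → F) → F)) ⊆ S := by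
    intro e' he'
    rw [hE0, Finset.mem_coe, Finset.mem_biUnion] at he'
    obtain ⟨g, _, he'⟩ := he'
    exact hTS g he'
  by_contra hcon
  push Not at hcon
  -- the sequence
  obtain ⟨q, hq1, hq2⟩ := exists_seq_of_forall_finset_exists
    (fun a : ((Fin n → F) → F) × (Fin n → F) => a.1 ∈ S ∧ a.1 a.2 ≠ 1 ∧ ∀ e0 ∈ E0, e0 a.2 = 1)
    (fun a b => a.1 b.2 = 1) (by
      intro s hs
      set S0 : Finset ((Fin n → F) → F) := E0 ∪ s.image Prod.fst with hS0
      have hS0S : (↑S0 : Set ((Fin n → F) → F)) ⊆ S := by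
        intro e' he'
        rw [hS0, Finset.mem_coe, Finset.mem_union, Finset.mem_image] at he'
        rcases he' with h1 | ⟨a, ha, rfl⟩
        · exact hE0S h1
        · exact (hs a ha).1
      have h1 := hcon S0 hS0S
      have h2 : ∃ g' : Fin n → F, (∀ e' ∈ S0, e' g' = 1) ∧ ∃ e' ∈ S, e' g' ≠ 1 := by
        by_contra h3
        push Not at h3
        apply h1
        ext g'
        constructor
        · intro h4 e' he'
          exact h4 e' (hS0S he')
        · intro h4
          exact h3 g' h4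
      obtain ⟨g', h3, e', he', h4⟩ := h2
      refine ⟨(e', g'), ⟨he', h4, fun e0 he0 => h3 e0 (Finset.mem_union_left _ he0)⟩, ?_⟩
      intro a ha
      exact h3 a.1 (Finset.mem_union_right _ (Finset.mem_image_of_mem _ ha)))
  let E : ℕ → (Fin n → F) → F := fun i => (q i).1
  let G : ℕ → Fin n → F := fun i => (q i).2
  have hES : ∀ i, E i ∈ S := fun i => (hq1 i).1
  have hEG : ∀ i, E i (G i) ≠ 1 := fun i => (hq1 i).2.1
  have hE0G : ∀ i, ∀ e0 ∈ E0, e0 (G i) = 1 := fun i => (hq1 i).2.2
  have hlt : ∀ i j, i < j → E i (G j) = 1 := fun i j hij => hq2 i j hij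
  -- the limit
  let 𝒰 : Ultrafilter ℕ := Ultrafilter.of Filter.atTop
  have h𝒰 : (𝒰 : Filter ℕ) ≤ Filter.atTop := Ultrafilter.of_le _
  obtain ⟨g₀, -, hg₀⟩ := isCompact_univ.ultrafilter_le_nhds (𝒰.map G)
    (by rw [Filter.principal_univ]; exact le_top)
  have hg₀' : Tendsto G 𝒰 (𝓝 g₀) := hg₀
  obtain ⟨a, hat, hga⟩ : ∃ a ∈ t, g₀ ∈ Set.pi Set.univ (u a) := by
    have h1 := ht (Set.mem_univ g₀)
    rw [Set.mem_iUnion₂] at h1
    obtain ⟨a, ha, h2⟩ := h1
    exact ⟨a, ha, h2⟩
  have hGO : ∀ᶠ i in (𝒰 : Filter ℕ), G i ∈ Set.pi Set.univ (u a) :=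
    hg₀' ((hOo a).mem_nhds hga)
  have hTG : ∀ i, ∀ e' ∈ T a, e' (G i) = 1 := by
    intro i e' he'
    refine hE0G i e' ?_
    rw [hE0, Finset.mem_biUnion]
    exact ⟨a, hat, he'⟩
  rcases hOT a with ⟨e0, he0, he0O⟩ | ⟨r, hr⟩
  · obtain ⟨i, hi⟩ := hGO.exists
    exact he0O _ hi (hTG i e0 he0)
  -- freeze the free coordinates
  let fr : Fin n → Prop := fun l => ∀ e ∈ S, ∀ x ∈ Set.pi Set.univ (u a),
    (e x = 1 ↔ e (Function.update x l (a l)) = 1)
  let ρ : (Fin n → F) → (Fin n → F) := fun x l => if l ∈ (Finset.univ : Finset (Fin n)) ∧ fr l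
    then a l else x l
  have hρ : ∀ x ∈ Set.pi Set.univ (u a), ρ x ∈ Set.pi Set.univ (u a) ∧
      ∀ e ∈ S, (e x = 1 ↔ e (ρ x) = 1) := fun x hx =>
    freeze (fun l => (hu a l).2) fr (fun l hl => hl) x hx Finset.univ
  have hρfr : ∀ x l, fr l → ρ x l = a l := fun x l hl => if_pos ⟨Finset.mem_univ l, hl⟩
  have hρc : Continuous ρ := by
    refine continuous_pi fun l => ?_
    by_cases hl : fr l
    · have : (fun x => ρ x l) = fun _ => a l := by
        funext x
        exact hρfr x l hl
      rw [this]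
      exact continuous_const
    · have : (fun x : Fin n → F => ρ x l) = fun x => x l := by
        funext x
        exact if_neg fun h => hl h.2
      rw [this]
      exact continuous_apply l
  have hex : ∀ l : Fin n, ∃ e : (Fin n → F) → F, Eqn e ∧
      (∀ᶠ i in (𝒰 : Filter ℕ), e (ρ (G i)) = 1) ∧ DepOn r l e ∧
      ∃ y : F, e (Function.update (ρ g₀) l y) ≠ 1 := by
    intro l
    by_cases hl : fr l
    · obtain ⟨y, hy⟩ := exists_ne (a l)
      refine ⟨fun x => x l * (a l)⁻¹, ?_, ?_, ?_, y, ?_⟩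
      · intro U hU
        refine ⟨fun x => x l * (a l)⁻¹, ?_, fun g => ?_⟩
        · have hx : (fun g : Fin n → F => g l) ∈ Subgroup.closure
              (Set.range (fun c : F => fun _ : Fin n → F => c) ∪
                Set.range (fun i : Fin n => fun g : Fin n → F => g i)) :=
            Subgroup.subset_closure (Or.inr ⟨l, rfl⟩)
          have hc : (fun _ : Fin n → F => a l) ∈ Subgroup.closure
              (Set.range (fun c : F => fun _ : Fin n → F => c) ∪
                Set.range (fun i : Fin n => fun g : Fin n → F => g i)) :=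
            Subgroup.subset_closure (Or.inl ⟨a l, rfl⟩)
          exact Subgroup.mul_mem _ hx (Subgroup.inv_mem _ hc)
        · rw [inv_mul_cancel]
          exact mem_of_mem_nhds hU
      · refine Filter.Eventually.of_forall fun i => ?_
        change ρ (G i) l * (a l)⁻¹ = 1
        rw [hρfr _ _ hl, mul_inv_cancel]
      · intro b c hbc _
        change b l * (a l)⁻¹ = c l * (a l)⁻¹
        rw [hbc]
      · change Function.update (ρ g₀) l y l * (a l)⁻¹ ≠ 1
        rw [Function.update_self]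
        intro h1
        exact hy (mul_inv_eq_one.mp h1)
    · rcases hr l with h1 | ⟨e, he, hec, hed, y, hy⟩
      · exact absurd h1 hl
      · refine ⟨e, he, ?_, hed, y, hy _ (hρ g₀ hga).1⟩
        refine hGO.mono fun i hi => hec _ (hρ _ hi).1 fun e' he' => ?_
        exact ((hρ _ hi).2 e' (hTS a he')).mp (hTG i e' he')
  choose e he heG hdep y hy using hex
  refine core h (E := E) (G := fun i => ρ (G i)) (g₀ := ρ g₀) (fun i => hS _ (hES i)) ?_ ?_
    ((hρc.tendsto g₀).comp hg₀') he heG hdep hy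
  · refine hGO.mono fun i hi h1 => ?_
    exact hEG i (((hρ _ hi).2 _ (hES i)).mpr h1)
  · intro i
    refine (hGO.and (Filter.Eventually.filter_mono h𝒰 (Filter.eventually_gt_atTop i))).mono
      fun j hj => ?_
    exact ((hρ _ hj.1).2 _ (hES i)).mp (hlt i j hj.2)

end Run7.h937
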