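import Mathlib

set_option autoImplicit false
set_option linter.unusedSectionVars false

/-!
Noncommutative formal power series over a commutative ring `R` in letters `Y`: functions on words
with the Cauchy product.
-/

namespace Run7.h937

open Finset

/-- Noncommutative formal power series in the letters `Y` with coefficients in `R`: a series is
the function that sends a word to its coefficient. -/
def NPS (Y : Type*) (R : Type*) := List Y → R

namespace NPS

variable {Y R S : Type*} [CommRing R] [CommRing S]

instance : AddCommGroup (NPS Y R) := inferInstanceAs (AddCommGroup (List Y → R))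

instance : Module R (NPS Y R) := inferInstanceAs (Module R (List Y → R))

/-- The Cauchy product. -/
instance : Mul (NPS Y R) :=
  ⟨fun f g w => ∑ i ∈ range (w.length + 1), f (w.take i) * g (w.drop i)⟩

instance : One (NPS Y R) := ⟨fun w => match w with | [] => 1 | _ :: _ => 0⟩

/-- The left derivative of a series with respect to a letter. -/
def D (a : Y) (f : NPS Y R) : NPS Y R := fun v => f (a :: v)

theorem ext {f g : NPS Y R} (h : ∀ w, f w = g w) : f = g := funext h

@[simp] theorem add_apply (f g : NPS Y R) (w : List Y) : (f + g) w = f w + g w := rfl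
@[simp] theorem sub_apply (f g : NPS Y R) (w : List Y) : (f - g) w = f w - g w := rfl
@[simp] theorem neg_apply (f : NPS Y R) (w : List Y) : (-f) w = -f w := rfl
@[simp] theorem zero_apply (w : List Y) : (0 : NPS Y R) w = 0 := rfl
@[simp] theorem smul_apply (c : R) (f : NPS Y R) (w : List Y) : (c • f) w = c * f w := rfl
@[simp] theorem one_nil : (1 : NPS Y R) [] = 1 := rfl
@[simp] theorem one_cons (a : Y) (w : List Y) : (1 : NPS Y R) (a :: w) = 0 := rfl
@[simp] theorem D_apply (a : Y) (f : NPS Y R) (w : List Y) : D a f w = f (a :: w) := rfl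
theorem D_add (a : Y) (f g : NPS Y R) : D a (f + g) = D a f + D a g := rfl
theorem D_sub (a : Y) (f g : NPS Y R) : D a (f - g) = D a f - D a g := rfl
theorem D_smul (a : Y) (c : R) (f : NPS Y R) : D a (c • f) = c • D a f := rfl
@[simp] theorem D_one (a : Y) : D a (1 : NPS Y R) = 0 := rfl
@[simp] theorem D_zero (a : Y) : D a (0 : NPS Y R) = 0 := rfl

theorem mul_apply (f g : NPS Y R) (w : List Y) :
    (f * g) w = ∑ i ∈ range (w.length + 1), f (w.take i) * g (w.drop i) := rfl

@[simp] theorem mul_nil (f g : NPS Y R) : (f * g) [] = f [] * g [] := by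
  simp [mul_apply]

theorem mul_cons (f g : NPS Y R) (a : Y) (w : List Y) :
    (f * g) (a :: w) = f [] * g (a :: w) + (D a f * g) w := by
  rw [mul_apply, List.length_cons, Finset.sum_range_succ', mul_apply, add_comm]
  simp

theorem D_mul (f g : NPS Y R) (a : Y) : D a (f * g) = f [] • D a g + D a f * g := by
  refine ext fun w => ?_
  simp [mul_cons]

theorem zero_mul' (g : NPS Y R) : (0 : NPS Y R) * g = 0 := by
  refine ext fun w => ?_
  simp [mul_apply]

theorem mul_zero' (g : NPS Y R) : g * (0 : NPS Y R) = 0 := by
  refine ext fun w => ?_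
  simp [mul_apply]

theorem add_mul' (f g h : NPS Y R) : (f + g) * h = f * h + g * h := by
  refine ext fun w => ?_
  simp [mul_apply, add_mul, Finset.sum_add_distrib]

theorem mul_add' (f g h : NPS Y R) : f * (g + h) = f * g + f * h := by
  refine ext fun w => ?_
  simp [mul_apply, mul_add, Finset.sum_add_distrib]

theorem smul_mul' (c : R) (f g : NPS Y R) : (c • f) * g = c • (f * g) := by
  refine ext fun w => ?_
  simp [mul_apply, mul_assoc, Finset.mul_sum]

theorem mul_smul' (c : R) (f g : NPS Y R) : f * (c • g) = c • (f * g) := by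
  refine ext fun w => ?_
  simp [mul_apply, mul_left_comm, Finset.mul_sum]

theorem one_mul' (f : NPS Y R) : 1 * f = f := by
  refine ext fun w => ?_
  cases w with
  | nil => simp
  | cons a w => simp [mul_cons, zero_mul']

theorem mul_one' (f : NPS Y R) : f * 1 = f := by
  refine ext fun w => ?_
  induction w generalizing f with
  | nil => simp
  | cons a w ih => simp [mul_cons, ih]

theorem mul_assoc' (f g h : NPS Y R) : f * g * h = f * (g * h) := by
  refine ext fun w => ?_
  induction w generalizing f with
  | nil => simp [mul_assoc]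
  | cons a w ih =>
    rw [mul_cons, mul_cons, D_mul, add_mul', add_apply, ih, smul_mul', smul_apply, mul_cons,
      mul_nil]
    ring

instance : Ring (NPS Y R) :=
  { (inferInstance : AddCommGroup (NPS Y R)) with
    mul := (· * ·)
    one := 1
    zero_mul := zero_mul'
    mul_zero := mul_zero'
    left_distrib := mul_add'
    right_distrib := add_mul'
    one_mul := one_mul'
    mul_one := mul_one'
    mul_assoc := mul_assoc' }

instance : Algebra R (NPS Y R) := Algebra.ofModule smul_mul' mul_smul'

@[simp] theorem sum_apply {ι : Type*} (s : Finset ι) (f : ι → NPS Y R) (w : List Y) :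
    (∑ i ∈ s, f i) w = ∑ i ∈ s, f i w := by
  classical
  induction s using Finset.induction_on with
  | empty => simp
  | insert a s ha ih => simp [Finset.sum_insert ha, ih]

theorem D_sum {ι : Type*} (a : Y) (s : Finset ι) (f : ι → NPS Y R) :
    D a (∑ i ∈ s, f i) = ∑ i ∈ s, D a (f i) := by
  refine ext fun w => ?_
  simp

/-- the letter `a` as a series -/
def X [DecidableEq Y] (a : Y) : NPS Y R
  | [] => 0
  | b :: w => if a = b then (1 : NPS Y R) w else 0

@[simp] theorem X_nil [DecidableEq Y] (a : Y) : (X a : NPS Y R) [] = 0 := rfl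
theorem D_X [DecidableEq Y] (a b : Y) :
    D b (X a : NPS Y R) = if a = b then 1 else 0 := by
  refine ext fun w => ?_
  change (if a = b then (1 : NPS Y R) w else 0) = _
  split <;> rfl

theorem C_apply_nil (c : R) : (c • (1 : NPS Y R)) [] = c := by simp
theorem C_apply_cons (c : R) (a : Y) (w : List Y) : (c • (1 : NPS Y R)) (a :: w) = 0 := by simp

/-! ### locality and order -/

theorem mul_congr {f f' g g' : NPS Y R} {w : List Y}
    (hf : ∀ v : List Y, v.length ≤ w.length → f v = f' v)
    (hg : ∀ v : List Y, v.length ≤ w.length → g v = g' v) : (f * g) w = (f' * g') w := by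
  rw [mul_apply, mul_apply]
  refine Finset.sum_congr rfl fun i _ => ?_
  rw [hf _ (by simp), hg _ (by simp)]

/-- all words of length `< n` have coefficient `0` -/
def Ord (n : ℕ) (f : NPS Y R) : Prop := ∀ w : List Y, w.length < n → f w = 0

theorem ord_zero (f : NPS Y R) : Ord 0 f := fun _ h => absurd h (Nat.not_lt_zero _)
theorem Ord.mono {m n : ℕ} {f : NPS Y R} (h : Ord n f) (hmn : m ≤ n) : Ord m f :=
  fun w hw => h w (lt_of_lt_of_le hw hmn)
theorem Ord.add {n : ℕ} {f g : NPS Y R} (hf : Ord n f) (hg : Ord n g) : Ord n (f + g) :=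
  fun w hw => by rw [add_apply, hf w hw, hg w hw, add_zero]
theorem Ord.sub {n : ℕ} {f g : NPS Y R} (hf : Ord n f) (hg : Ord n g) : Ord n (f - g) :=
  fun w hw => by rw [sub_apply, hf w hw, hg w hw, sub_zero]
theorem Ord.smul {n : ℕ} {f : NPS Y R} (c : R) (hf : Ord n f) : Ord n (c • f) :=
  fun w hw => by rw [smul_apply, hf w hw, mul_zero]
theorem Ord.mul {m n : ℕ} {f g : NPS Y R} (hf : Ord m f) (hg : Ord n g) : Ord (m + n) (f * g) := by
  intro w hw
  rw [mul_apply]
  refine Finset.sum_eq_zero fun i hi => ?_
  rw [Finset.mem_range] at hi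
  by_cases h : i < m
  · rw [hf _ (lt_of_le_of_lt (List.length_take_le i w) h), zero_mul]
  · rw [hg (w.drop i) (by rw [List.length_drop]; omega), mul_zero]
theorem Ord.sum {ι : Type*} {n : ℕ} {s : Finset ι} {f : ι → NPS Y R}
    (h : ∀ i ∈ s, Ord n (f i)) : Ord n (∑ i ∈ s, f i) := by
  intro w hw
  rw [sum_apply]
  exact Finset.sum_eq_zero fun i hi => h i hi w hw
theorem Ord.D {n : ℕ} {f : NPS Y R} (h : Ord (n + 1) f) (a : Y) : Ord n (D a f) :=
  fun w hw => h (a :: w) (by rw [List.length_cons]; omega)
theorem Ord.pow {f : NPS Y R} (h : Ord 1 f) (n : ℕ) : Ord n (f ^ n) := by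
  induction n with
  | zero => exact ord_zero _
  | succ n ih => rw [pow_succ]; exact ih.mul h

/-- change of coefficients -/
def map (φ : R →+* S) : NPS Y R →+* NPS Y S where
  toFun f w := φ (f w)
  map_one' := by
    refine ext fun w => ?_
    cases w <;> simp
  map_zero' := by
    refine ext fun w => ?_
    simp
  map_add' f g := by
    refine ext fun w => ?_
    exact map_add φ _ _
  map_mul' f g := by
    refine ext fun w => ?_
    rw [mul_apply]
    change φ ((f * g) w) = _
    rw [mul_apply, map_sum]
    exact Finset.sum_congr rfl fun i _ => map_mul φ _ _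

@[simp] theorem map_apply (φ : R →+* S) (f : NPS Y R) (w : List Y) : map φ f w = φ (f w) := rfl

theorem D_map (φ : R →+* S) (a : Y) (f : NPS Y R) : D a (map φ f) = map φ (D a f) := rfl

theorem map_X [DecidableEq Y] (φ : R →+* S) (a : Y) : map φ (X a : NPS Y R) = X a := by
  refine ext fun w => ?_
  cases w with
  | nil => simp
  | cons b w =>
    change φ (if a = b then (1 : NPS Y R) w else 0) = (if a = b then (1 : NPS Y S) w else 0)
    split
    · exact congrFun (map_one (map (Y := Y) φ)) w
    · exact map_zero φ

end NPS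

end Run7.h937
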