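import Pool.Agent.Run7.h937.Lead

set_option autoImplicit false
set_option linter.unusedSectionVars false

/-! The Taylor shift `T ↦ ξ + T`. -/

namespace Run7.h937

open NPS Finset

section

variable {X : Type*} [DecidableEq X] [Fintype X] {R : Type*} [CommRing R]

theorem sub_id {Z : Type*} [Fintype Z] [DecidableEq Z] (κ : NPS Z R) :
    sub (fun z => (NPS.X z : NPS Z R)) κ = κ := by
  symm
  refine sub_unique _ (fun κ => κ) (fun _ => rfl) (fun κ z' => ?_) κ
  rw [Finset.sum_eq_single z']
  · rw [D_X, if_pos rfl, one_mul]
  · intro z _ hz
    rw [D_X, if_neg hz, zero_mul]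
  · intro h; exact absurd (Finset.mem_univ _) h

/-- series without `T` -/
def emb : NPS X R → NPS (Option X) R := sub (fun x => NPS.X (some x))

@[simp] theorem emb_nil (f : NPS X R) : emb f [] = f [] := sub_nil _ _

theorem emb_cons_some (f : NPS X R) (x : X) (u : List (Option X)) :
    emb f (some x :: u) = emb (D x f) u := by
  unfold emb
  rw [sub_cons, Finset.sum_eq_single x]
  · rw [D_X, if_pos rfl, one_mul]
  · intro y _ hy
    rw [D_X, if_neg (by simpa using hy), zero_mul, NPS.zero_apply]
  · intro h; exact absurd (Finset.mem_univ _) h

theorem emb_cons_none (f : NPS X R) (u : List (Option X)) : emb f (none :: u) = 0 := by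
  unfold emb
  rw [sub_cons]
  refine Finset.sum_eq_zero fun y _ => ?_
  rw [D_X, if_neg (by simp), zero_mul, NPS.zero_apply]

theorem D_emb_some (f : NPS X R) (x : X) : D (some x) (emb f) = emb (D x f) :=
  NPS.ext fun u => emb_cons_some f x u

theorem D_emb_none (f : NPS X R) : D none (emb f) = 0 :=
  NPS.ext fun u => emb_cons_none f u

theorem emb_map_some (f : NPS X R) (a : List X) : emb f (a.map some) = f a := by
  induction a generalizing f with
  | nil => simp
  | cons x a ih => rw [List.map_cons, emb_cons_some, ih]; rfl

theorem emb_eq_zero (f : NPS X R) {u : List (Option X)} (h : tc u ≠ 0) : emb f u = 0 := by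
  induction u generalizing f with
  | nil => simp [tc] at h
  | cons z u ih =>
    cases z with
    | none => exact emb_cons_none f u
    | some x => rw [emb_cons_some]; exact ih _ (by simpa [tc] using h)

theorem emb_low {f : NPS X R} {n : ℕ} (hf : Ord n f) {u : List (Option X)} (h : xd u < n) :
    emb f u = 0 := by
  by_cases h1 : tc u = 0
  · obtain ⟨a, rfl⟩ := eq_map_some h1
    rw [emb_map_some]
    rw [xd_some] at h
    exact hf a h
  · exact emb_eq_zero f h1

/-- the shift `T ↦ ξ + T` -/
def shift (ξ : NPS X R) : NPS (Option X) R → NPS (Option X) R :=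
  sub (fun o => o.elim (emb ξ + NPS.X none) (fun x => NPS.X (some x)))

@[simp] theorem shift_nil (ξ : NPS X R) (κ : NPS (Option X) R) : shift ξ κ [] = κ [] :=
  sub_nil _ _

theorem shift_none (ξ : NPS X R) (κ : NPS (Option X) R) (v : List (Option X)) :
    shift ξ κ (none :: v) = shift ξ (D none κ) v := by
  unfold shift
  rw [sub_cons, Fintype.sum_option, Finset.sum_eq_zero, add_zero]
  · simp [D_add, D_emb_none, D_X]
  · intro x _
    simp [D_X]

theorem shift_some (ξ : NPS X R) (κ : NPS (Option X) R) (x : X) (v : List (Option X)) :
    shift ξ κ (some x :: v) = shift ξ (D (some x) κ) v +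
      (emb (D x ξ) * shift ξ (D none κ)) v := by
  unfold shift
  rw [sub_cons, Fintype.sum_option, add_comm]
  congr 1
  · rw [Finset.sum_eq_single x]
    · simp [D_X]
    · intro y _ hy
      simp [D_X, hy]
    · intro h; exact absurd (Finset.mem_univ _) h
  · simp [D_add, D_emb_some, D_X]

theorem sub_emb (η : Option X → NPS (Option X) R) (h : ∀ x, η (some x) = NPS.X (some x))
    (f : NPS X R) : sub η (emb f) = emb f := by
  unfold emb
  rw [sub_comp]
  congr 1
  funext x
  rw [sub_X _ _ (by rw [h]; rfl), h]

theorem shift_shift (ξ ζ : NPS X R) (hξ : ξ [] = 0) (κ : NPS (Option X) R) :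
    shift ξ (shift ζ κ) = shift (ξ + ζ) κ := by
  have hadd : ∀ f g : NPS X R, emb (f + g) = emb f + emb g := sub_add _
  unfold shift
  rw [sub_comp]
  congr 1
  funext o
  cases o with
  | none =>
    change sub _ (emb ζ + NPS.X none) = emb (ξ + ζ) + NPS.X none
    rw [NPS.sub_add, sub_emb (fun o : Option X => o.elim (emb ξ + NPS.X none)
      (fun x => NPS.X (some x))) (fun x => rfl), sub_X _ _ (by simp [hξ]), hadd]
    change emb ζ + (emb ξ + NPS.X none) = emb ξ + emb ζ + NPS.X none
    abel
  | some x =>
    change sub _ (NPS.X (some x)) = NPS.X (some x)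
    rw [sub_X _ _ rfl]
    rfl

theorem shift_zero (κ : NPS (Option X) R) : shift 0 κ = κ := by
  have h0 : emb (0 : NPS X R) = 0 := sub_zero' _
  unfold shift
  rw [h0]
  conv_rhs => rw [← sub_id κ]
  congr 1
  funext o
  cases o with
  | none => simp
  | some x => rfl

theorem shift_ne_zero {ζ : NPS X R} (hζ : ζ [] = 0) {κ : NPS (Option X) R} (hκ : κ ≠ 0) :
    shift ζ κ ≠ 0 := by
  intro h
  have h1 := shift_shift (-ζ) ζ (by simp [hζ]) κ
  rw [neg_add_cancel, shift_zero, h] at h1
  exact hκ (h1.symm.trans (sub_zero' _))

theorem ev_shift (ξ ζ : NPS X R) (hξ : ξ [] = 0) (κ : NPS (Option X) R) :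
    ev ξ (shift ζ κ) = ev (ξ + ζ) κ := by
  unfold ev shift
  rw [sub_comp]
  congr 1
  funext o
  cases o with
  | none =>
    change sub _ (emb ζ + NPS.X none) = ξ + ζ
    rw [NPS.sub_add, sub_X _ _ hξ]
    unfold emb
    rw [sub_comp]
    have h1 : (fun z : X => sub (fun o : Option X => o.elim ξ NPS.X)
        (NPS.X (some z) : NPS (Option X) R)) = fun z => NPS.X z := by
      funext z
      rw [sub_X _ _ rfl]
      rfl
    rw [h1, sub_id]
    change ζ + ξ = ξ + ζ
    abel
  | some x =>
    change sub _ (NPS.X (some x)) = NPS.X x
    rw [sub_X _ _ rfl]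
    rfl

theorem ev_zero_apply (κ : NPS (Option X) R) (a : List X) : ev 0 κ a = κ (a.map some) := by
  induction a generalizing κ with
  | nil => simp
  | cons x a ih =>
    rw [ev_cons, ih, D_zero, zero_mul, NPS.zero_apply, add_zero]
    rfl

theorem shift_apply_some (ζ : NPS X R) (κ : NPS (Option X) R) (a : List X) :
    shift ζ κ (a.map some) = ev ζ κ a := by
  rw [← ev_zero_apply (shift ζ κ) a, ev_shift 0 ζ rfl, zero_add]

/-! ### expansion of the shift by a series of large order -/

theorem xd_take_le (v : List (Option X)) (i : ℕ) : xd (v.take i) ≤ xd v := by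
  conv_rhs => rw [← List.take_append_drop i v, xd_append]
  exact Nat.le_add_right _ _

theorem xd_le_length (v : List (Option X)) : xd v ≤ v.length := by
  rw [← tc_add_xd]; exact Nat.le_add_left _ _

theorem shift_low {N : ℕ} {ξ : NPS X R} (hξ : Ord N ξ) : ∀ (V : List (Option X))
    (κ : NPS (Option X) R), xd V < N → shift ξ κ V = κ V := by
  intro V
  induction V with
  | nil => intro κ _; simp
  | cons z v ih =>
    intro κ h
    cases z with
    | none => rw [shift_none, ih _ (by simpa [xd] using h)]; rfl
    | some x =>
      obtain ⟨N, rfl⟩ : ∃ N', N = N' + 1 := ⟨N - 1, by omega⟩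
      simp only [xd] at h
      rw [shift_some, ih _ (by omega), mul_apply, Finset.sum_eq_zero, add_zero]
      · rfl
      · intro i _
        rw [emb_low (hξ.D x) (by have := xd_take_le v i; omega), zero_mul]

theorem shift_expand {N : ℕ} (hN : 1 ≤ N) {ξ : NPS X R} (hξ : Ord N ξ) :
    ∀ (V : List (Option X)) (κ : NPS (Option X) R), xd V < 2 * N →
      (∀ u, tc u = tc V + 1 → xd u + N < xd V → κ u = 0) →
      shift ξ κ V = κ V + ∑ j ∈ range V.length,
        emb ξ ((V.drop j).take N) * κ (V.take j ++ none :: V.drop (j + N)) := by
  obtain ⟨N, rfl⟩ : ∃ N', N = N' + 1 := ⟨N - 1, by omega⟩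
  intro V
  induction V with
  | nil => intro κ _ _; simp
  | cons z v ih =>
    intro κ hV hP
    cases z with
    | none =>
      rw [shift_none, ih (D none κ) (by simpa [xd] using hV)]
      · rw [List.length_cons, Finset.sum_range_succ', List.drop_zero, List.take_succ_cons,
          emb_cons_none, zero_mul, add_zero]
        congr 1
        refine Finset.sum_congr rfl fun j _ => ?_
        rw [List.drop_succ_cons, List.take_succ_cons,
          show j + 1 + (N + 1) = (j + (N + 1)) + 1 by ring, List.drop_succ_cons]
        rfl
      · intro u h1 h2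
        refine hP (none :: u) ?_ ?_
        · simp only [tc]; omega
        · simp only [xd]; omega
    | some x =>
      rw [shift_some, ih (D (some x) κ) (by simp only [xd] at hV; omega)]
      · rw [List.length_cons, Finset.sum_range_succ', List.drop_zero, List.take_succ_cons,
          emb_cons_some, add_assoc]
        congr 1
        congr 1
        · refine Finset.sum_congr rfl fun j _ => ?_
          rw [List.drop_succ_cons, List.take_succ_cons,
            show j + 1 + (N + 1) = (j + (N + 1)) + 1 by ring, List.drop_succ_cons]
          rfl
        · rw [List.take_zero, zero_add, List.drop_succ_cons, List.nil_append, mul_apply]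
          simp only [xd] at hV
          by_cases hNv : N ≤ v.length
          · rw [Finset.sum_eq_single N]
            · by_cases h0 : emb (D x ξ) (v.take N) = 0
              · rw [h0, zero_mul, zero_mul]
              · have h1 : tc (v.take N) = 0 := by
                  by_contra h2
                  exact h0 (emb_eq_zero _ h2)
                have h2 : xd (v.take N) = N := by
                  have := tc_add_xd (v.take N)
                  rw [List.length_take] at this
                  omega
                have h3 : xd v = xd (v.take N) + xd (v.drop N) := by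
                  rw [← xd_append, List.take_append_drop]
                rw [shift_low hξ _ _ (by omega)]
                rfl
            · intro i hi hiN
              rw [Finset.mem_range] at hi
              by_cases h0 : emb (D x ξ) (v.take i) = 0
              · rw [h0, zero_mul]
              · have h1 : tc (v.take i) = 0 := by
                  by_contra h2
                  exact h0 (emb_eq_zero _ h2)
                have h2 : xd (v.take i) = i := by
                  have := tc_add_xd (v.take i)
                  rw [List.length_take] at this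
                  omega
                have h3 : xd v = xd (v.take i) + xd (v.drop i) := by
                  rw [← xd_append, List.take_append_drop]
                have h4 : N ≤ i := by
                  by_contra h5
                  exact h0 (emb_low (hξ.D x) (by omega))
                have h5 : tc v = tc (v.take i) + tc (v.drop i) := by
                  rw [← tc_append, List.take_append_drop]
                rw [shift_low hξ _ _ (by omega), D_apply, hP (none :: v.drop i), mul_zero]
                · simp only [tc]; omega
                · simp only [xd]; omega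
            · intro h
              exact absurd (Finset.mem_range.mpr (by omega)) h
          · rw [emb_low (hξ.D x) (by have := xd_take_le v N; have := xd_le_length v; omega),
              zero_mul]
            refine Finset.sum_eq_zero fun i hi => ?_
            rw [emb_low (hξ.D x) (by have := xd_take_le v i; have := xd_le_length v; omega),
              zero_mul]
      · intro u h1 h2
        refine hP (some x :: u) ?_ ?_
        · simp only [tc]; omega
        · simp only [xd]; omega

/-! ### coefficients in a subring -/

theorem mul_mem_of {Z : Type*} (B : Subring R) {f g : NPS Z R} (hf : ∀ w, f w ∈ B)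
    (hg : ∀ w, g w ∈ B) (w : List Z) : (f * g) w ∈ B := by
  rw [mul_apply]
  exact sum_mem fun i _ => mul_mem (hf _) (hg _)

theorem sub_mem_of {Z Z' : Type*} [Fintype Z] (B : Subring R) (η : Z → NPS Z' R)
    (hη : ∀ z w, η z w ∈ B) : ∀ (n : ℕ) (κ : NPS Z R), (∀ u, κ u ∈ B) →
      ∀ w : List Z', w.length ≤ n → sub η κ w ∈ B := by
  intro n
  induction n with
  | zero =>
    intro κ hκ w hw
    have : w = [] := List.length_eq_zero_iff.mp (Nat.le_zero.mp hw)
    subst this
    rw [sub_nil]
    exact hκ []
  | succ n ih =>
    intro κ hκ w hw
    cases w with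
    | nil => rw [sub_nil]; exact hκ []
    | cons z' v =>
      rw [List.length_cons] at hw
      rw [sub_cons]
      refine sum_mem fun z _ => ?_
      rw [mul_apply]
      refine sum_mem fun i _ => mul_mem (hη z _) (ih _ (fun u => hκ _) _ ?_)
      rw [List.length_drop]; omega

theorem X_mem_of {Z : Type*} [DecidableEq Z] (B : Subring R) (z : Z) (w : List Z) :
    (NPS.X z : NPS Z R) w ∈ B := by
  cases w with
  | nil => exact B.zero_mem
  | cons b w =>
    have h : (NPS.X z : NPS Z R) (b :: w) = (if z = b then (1 : NPS Z R) else 0) w := by
      rw [← D_X]; rfl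
    rw [h]
    split
    · cases w with
      | nil => exact B.one_mem
      | cons c w => exact B.zero_mem
    · exact B.zero_mem

theorem emb_mem_of (B : Subring R) {f : NPS X R} (hf : ∀ w, f w ∈ B) (w : List (Option X)) :
    emb f w ∈ B := sub_mem_of B _ (fun _ _ => X_mem_of B _ _) _ f hf w le_rfl

theorem shift_mem_of (B : Subring R) {ξ : NPS X R} {κ : NPS (Option X) R} (hξ : ∀ w, ξ w ∈ B)
    (hκ : ∀ w, κ w ∈ B) (w : List (Option X)) : shift ξ κ w ∈ B := by
  refine sub_mem_of B _ (fun o u => ?_) _ κ hκ w le_rfl
  cases o with
  | none => exact add_mem (emb_mem_of B hξ _) (X_mem_of B _ _)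
  | some x => exact X_mem_of B _ _

end

end Run7.h937
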