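import Pool.Agent.Run7.h937.NPS

set_option autoImplicit false
set_option linter.unusedSectionVars false

/-! Substitution of series for letters. -/

namespace Run7.h937

namespace NPS

open Finset

variable {Z Z' Z'' R S : Type*} [CommRing R] [CommRing S] [Fintype Z]

/-- substitution, with fuel -/
def subF (η : Z → NPS Z' R) : ℕ → NPS Z R → NPS Z' R
  | 0, κ => κ [] • 1
  | n + 1, κ => fun w => match w with
    | [] => κ []
    | z' :: v => ∑ z, (D z' (η z) * subF η n (D z κ)) v

theorem subF_nil (η : Z → NPS Z' R) (n : ℕ) (κ : NPS Z R) : subF η n κ [] = κ [] := by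
  cases n with
  | zero => simp [subF]
  | succ n => rfl

theorem subF_cons (η : Z → NPS Z' R) (n : ℕ) (κ : NPS Z R) (z' : Z') (v : List Z') :
    subF η (n + 1) κ (z' :: v) = ∑ z, (D z' (η z) * subF η n (D z κ)) v := rfl

theorem subF_succ (η : Z → NPS Z' R) : ∀ (n : ℕ) (κ : NPS Z R) (w : List Z'), w.length ≤ n →
    subF η (n + 1) κ w = subF η n κ w := by
  intro n
  induction n with
  | zero =>
    intro κ w hw
    have : w = [] := List.length_eq_zero_iff.mp (Nat.le_zero.mp hw)
    subst this
    rw [subF_nil, subF_nil]
  | succ n ih =>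
    intro κ w hw
    cases w with
    | nil => rw [subF_nil, subF_nil]
    | cons z' v =>
      rw [subF_cons, subF_cons]
      refine Finset.sum_congr rfl fun z _ => mul_congr (fun _ _ => rfl) fun u hu => ?_
      rw [List.length_cons] at hw
      exact ih _ _ (by omega)

/-- substitution of the series `η z` (deprived of its constant term) for the letter `z` -/
def sub (η : Z → NPS Z' R) (κ : NPS Z R) : NPS Z' R := fun w => subF η w.length κ w

theorem subF_eq (η : Z → NPS Z' R) (κ : NPS Z R) (w : List Z') (n : ℕ) (h : w.length ≤ n) :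
    subF η n κ w = sub η κ w := by
  induction n, h using Nat.le_induction with
  | base => rfl
  | succ n hn ih => rw [subF_succ η n κ w hn, ih]

@[simp] theorem sub_nil (η : Z → NPS Z' R) (κ : NPS Z R) : sub η κ [] = κ [] := subF_nil _ _ _

theorem sub_cons (η : Z → NPS Z' R) (κ : NPS Z R) (z' : Z') (v : List Z') :
    sub η κ (z' :: v) = ∑ z, (D z' (η z) * sub η (D z κ)) v := by
  change subF η (v.length + 1) κ (z' :: v) = _
  rw [subF_cons]
  exact Finset.sum_congr rfl fun z _ => mul_congr (fun _ _ => rfl) fun u hu =>
    subF_eq η _ _ _ hu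

theorem D_subst (η : Z → NPS Z' R) (κ : NPS Z R) (z' : Z') :
    D z' (sub η κ) = ∑ z, D z' (η z) * sub η (D z κ) := by
  refine ext fun v => ?_
  rw [D_apply, sub_cons, sum_apply]

/-- uniqueness for the functional equation -/
theorem sub_unique (η : Z → NPS Z' R) (Φ : NPS Z R → NPS Z' R) (h0 : ∀ κ, Φ κ [] = κ [])
    (h1 : ∀ κ z', D z' (Φ κ) = ∑ z, D z' (η z) * Φ (D z κ)) (κ : NPS Z R) : Φ κ = sub η κ := by
  have key : ∀ (n : ℕ) (κ : NPS Z R) (w : List Z'), w.length ≤ n → Φ κ w = sub η κ w := by
    intro n
    induction n with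
    | zero =>
      intro κ w hw
      have : w = [] := List.length_eq_zero_iff.mp (Nat.le_zero.mp hw)
      subst this
      rw [h0, sub_nil]
    | succ n ih =>
      intro κ w hw
      cases w with
      | nil => rw [h0, sub_nil]
      | cons z' v =>
        rw [List.length_cons] at hw
        rw [← D_apply z' (Φ κ) v, h1, sum_apply, sub_cons]
        refine Finset.sum_congr rfl fun z _ => mul_congr (fun _ _ => rfl) fun u hu => ?_
        exact ih _ _ (by omega)
  exact ext fun w => key _ κ w le_rfl

theorem sub_add (η : Z → NPS Z' R) (κ κ' : NPS Z R) :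
    sub η (κ + κ') = sub η κ + sub η κ' := by
  have key : ∀ (n : ℕ) (κ κ' : NPS Z R) (w : List Z'), w.length ≤ n →
      sub η (κ + κ') w = sub η κ w + sub η κ' w := by
    intro n
    induction n with
    | zero =>
      intro κ κ' w hw
      have : w = [] := List.length_eq_zero_iff.mp (Nat.le_zero.mp hw)
      subst this
      simp
    | succ n ih =>
      intro κ κ' w hw
      cases w with
      | nil => simp
      | cons z' v =>
        rw [List.length_cons] at hw
        rw [sub_cons, sub_cons, sub_cons, ← Finset.sum_add_distrib]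
        refine Finset.sum_congr rfl fun z _ => ?_
        rw [← add_apply, ← mul_add]
        refine mul_congr (fun _ _ => rfl) fun u hu => ?_
        rw [D_add, add_apply]
        exact ih _ _ _ (by omega)
  exact ext fun w => key _ κ κ' w le_rfl

theorem sub_smul (η : Z → NPS Z' R) (c : R) (κ : NPS Z R) : sub η (c • κ) = c • sub η κ := by
  have key : ∀ (n : ℕ) (κ : NPS Z R) (w : List Z'), w.length ≤ n →
      sub η (c • κ) w = c * sub η κ w := by
    intro n
    induction n with
    | zero =>
      intro κ w hw
      have : w = [] := List.length_eq_zero_iff.mp (Nat.le_zero.mp hw)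
      subst this
      simp
    | succ n ih =>
      intro κ w hw
      cases w with
      | nil => simp
      | cons z' v =>
        rw [List.length_cons] at hw
        rw [sub_cons, sub_cons, Finset.mul_sum]
        refine Finset.sum_congr rfl fun z _ => ?_
        rw [← smul_apply, ← mul_smul']
        refine mul_congr (fun _ _ => rfl) fun u hu => ?_
        rw [D_smul, smul_apply]
        exact ih _ _ (by omega)
  exact ext fun w => key _ κ w le_rfl

theorem sub_zero' (η : Z → NPS Z' R) : sub η 0 = 0 := by
  have := sub_smul η 0 0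
  rwa [zero_smul, zero_smul] at this

theorem sub_one' (η : Z → NPS Z' R) : sub η 1 = 1 := by
  refine ext fun w => ?_
  cases w with
  | nil => simp
  | cons z' v =>
    rw [sub_cons]
    simp [sub_zero']

theorem sub_mul' (η : Z → NPS Z' R) (κ κ' : NPS Z R) :
    sub η (κ * κ') = sub η κ * sub η κ' := by
  have key : ∀ (n : ℕ) (κ : NPS Z R) (w : List Z'), w.length ≤ n →
      sub η (κ * κ') w = (sub η κ * sub η κ') w := by
    intro n
    induction n with
    | zero =>
      intro κ w hw
      have : w = [] := List.length_eq_zero_iff.mp (Nat.le_zero.mp hw)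
      subst this
      simp
    | succ n ih =>
      intro κ w hw
      cases w with
      | nil => simp
      | cons z' v =>
        rw [List.length_cons] at hw
        rw [sub_cons, mul_cons, D_subst, sub_cons, sub_nil, Finset.sum_mul, sum_apply,
          Finset.mul_sum, ← Finset.sum_add_distrib]
        refine Finset.sum_congr rfl fun z _ => ?_
        rw [mul_assoc, ← smul_apply, ← mul_smul', ← add_apply, ← mul_add]
        refine mul_congr (fun _ _ => rfl) fun u hu => ?_
        rw [D_mul, sub_add, sub_smul, add_apply, add_apply, ih _ _ (by omega)]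
  exact ext fun w => key _ κ w le_rfl

/-- substitution as a ring homomorphism -/
def subHom (η : Z → NPS Z' R) : NPS Z R →+* NPS Z' R where
  toFun := sub η
  map_one' := sub_one' η
  map_mul' := sub_mul' η
  map_zero' := sub_zero' η
  map_add' := sub_add η

@[simp] theorem subHom_apply (η : Z → NPS Z' R) (κ : NPS Z R) : subHom η κ = sub η κ := rfl

theorem sub_sub' (η : Z → NPS Z' R) (κ κ' : NPS Z R) :
    sub η (κ - κ') = sub η κ - sub η κ' := map_sub (subHom η) κ κ'

theorem sub_sum {ι : Type*} (η : Z → NPS Z' R) (s : Finset ι) (f : ι → NPS Z R) :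
    sub η (∑ i ∈ s, f i) = ∑ i ∈ s, sub η (f i) := map_sum (subHom η) f s

theorem sub_X [DecidableEq Z] (η : Z → NPS Z' R) (z : Z) (h : η z [] = 0) :
    sub η (X z) = η z := by
  refine ext fun w => ?_
  cases w with
  | nil => simp [h]
  | cons z' v =>
    rw [sub_cons, Finset.sum_eq_single z]
    · rw [D_X, if_pos rfl, sub_one', mul_one, D_apply]
    · intro z1 _ hz
      rw [D_X, if_neg (Ne.symm hz), sub_zero', mul_zero, zero_apply]
    · intro h; exact absurd (Finset.mem_univ _) h

theorem sub_comp [Fintype Z'] (η : Z → NPS Z' R) (η' : Z' → NPS Z'' R) (κ : NPS Z R) :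
    sub η' (sub η κ) = sub (fun z => sub η' (η z)) κ := by
  refine sub_unique (fun z => sub η' (η z)) (fun κ => sub η' (sub η κ)) (fun κ => by simp)
    (fun κ z'' => ?_) κ
  rw [D_subst]
  simp only [D_subst, sub_sum, sub_mul', Finset.mul_sum, Finset.sum_mul, mul_assoc]
  rw [Finset.sum_comm]

theorem sub_map (φ : R →+* S) (η : Z → NPS Z' R) (κ : NPS Z R) :
    map φ (sub η κ) = sub (fun z => map φ (η z)) (map φ κ) := by
  have key : ∀ (n : ℕ) (κ : NPS Z R) (w : List Z'), w.length ≤ n →
      map φ (sub η κ) w = sub (fun z => map φ (η z)) (map φ κ) w := by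
    intro n
    induction n with
    | zero =>
      intro κ w hw
      have : w = [] := List.length_eq_zero_iff.mp (Nat.le_zero.mp hw)
      subst this
      simp
    | succ n ih =>
      intro κ w hw
      cases w with
      | nil => simp
      | cons z' v =>
        rw [List.length_cons] at hw
        rw [sub_cons, map_apply, sub_cons, map_sum]
        refine Finset.sum_congr rfl fun z _ => ?_
        rw [← map_apply, map_mul, D_map, D_map]
        refine mul_congr (fun _ _ => rfl) fun u hu => ?_
        exact ih _ _ (by omega)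
  exact ext fun w => key _ κ w le_rfl

/-- `κ` has no words of weight `< n` -/
def WOrd (wt : Z → ℕ) (n : ℕ) (κ : NPS Z R) : Prop :=
  ∀ u : List Z, (u.map wt).sum < n → κ u = 0

theorem WOrd.D {wt : Z → ℕ} {n : ℕ} {κ : NPS Z R} (h : WOrd wt n κ) (z : Z) :
    WOrd wt (n - wt z) (D z κ) := by
  intro u hu
  refine h (z :: u) ?_
  rw [List.map_cons, List.sum_cons]
  omega

theorem sub_ord (wt : Z → ℕ) (hwt : ∀ z, 1 ≤ wt z) (η : Z → NPS Z' R)
    (hη : ∀ z, Ord (wt z) (η z)) (n : ℕ) (κ : NPS Z R) (hκ : WOrd wt n κ) : Ord n (sub η κ) := by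
  have key : ∀ (l : ℕ) (n : ℕ) (κ : NPS Z R), WOrd wt n κ → ∀ w : List Z', w.length ≤ l →
      w.length < n → sub η κ w = 0 := by
    intro l
    induction l with
    | zero =>
      intro n κ hκ w hw hn
      have : w = [] := List.length_eq_zero_iff.mp (Nat.le_zero.mp hw)
      subst this
      rw [sub_nil]
      exact hκ [] (by simpa using hn)
    | succ l ih =>
      intro n κ hκ w hw hn
      cases w with
      | nil =>
        rw [sub_nil]
        exact hκ [] (by simpa using hn)
      | cons z' v =>
        rw [List.length_cons] at hw hn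
        rw [sub_cons]
        refine Finset.sum_eq_zero fun z _ => ?_
        rw [mul_apply]
        refine Finset.sum_eq_zero fun i hi => ?_
        rw [Finset.mem_range] at hi
        by_cases h : i + 1 < wt z
        · rw [D_apply, hη z _ (by rw [List.length_cons, List.length_take]; omega), zero_mul]
        · rw [ih (n - wt z) _ (hκ.D z) (v.drop i) (by rw [List.length_drop]; omega)
            (by rw [List.length_drop]; have := hwt z; omega), mul_zero]
  exact fun w hw => key _ n κ hκ w le_rfl hw

/-- locality of substitution -/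
theorem sub_congr (η η' : Z → NPS Z' R) (κ κ' : NPS Z R) (n : ℕ)
    (hη : ∀ z (w : List Z'), w.length ≤ n → η z w = η' z w)
    (hκ : ∀ u : List Z, u.length ≤ n → κ u = κ' u) :
    ∀ w : List Z', w.length ≤ n → sub η κ w = sub η' κ' w := by
  induction n generalizing κ κ' with
  | zero =>
    intro w hw
    have : w = [] := List.length_eq_zero_iff.mp (Nat.le_zero.mp hw)
    subst this
    rw [sub_nil, sub_nil]
    exact hκ [] le_rfl
  | succ n ih =>
    intro w hw
    cases w with
    | nil =>
      rw [sub_nil, sub_nil]
      exact hκ [] (Nat.zero_le _)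
    | cons z' v =>
      rw [List.length_cons] at hw
      rw [sub_cons, sub_cons]
      refine Finset.sum_congr rfl fun z _ => mul_congr (fun u hu => ?_) fun u hu => ?_
      · exact hη z (z' :: u) (by rw [List.length_cons]; omega)
      · refine ih (D z κ) (D z κ') (fun z w hw => hη z w (by omega)) (fun u hu => ?_) u (by omega)
        exact hκ (z :: u) (by rw [List.length_cons]; omega)

end NPS

end Run7.h937
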