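import Pool.Agent.Run7.h937.Shift

set_option autoImplicit false
set_option linter.unusedSectionVars false

/-! The group of series with constant term `1`, its congruence subgroups. -/

namespace Run7.h937

open NPS Finset

section

variable {Z : Type*} {R : Type*} [CommRing R]

theorem mul_nil (f g : NPS Z R) : (f * g) [] = f [] * g [] := by
  rw [mul_apply]
  simp

theorem ext_D {f g : NPS Z R} (h0 : f [] = g []) (h : ∀ z, D z f = D z g) : f = g := by
  refine NPS.ext fun w => ?_
  cases w with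
  | nil => exact h0
  | cons z w => exact congrFun (h z) w

theorem D_one (z : Z) : D z (1 : NPS Z R) = 0 := rfl

/-- the alternating geometric series -/
def gs : NPS Unit R := fun w => (-1 : R) ^ w.length

theorem D_gs (z : Unit) : D z (gs : NPS Unit R) = -gs := by
  refine NPS.ext fun w => ?_
  change (-1 : R) ^ (w.length + 1) = -((-1 : R) ^ w.length)
  rw [pow_succ]
  ring

theorem gs_mul : (1 + NPS.X ()) * (gs : NPS Unit R) = 1 := by
  apply ext_D
  · rw [mul_nil]
    change (1 + 0 : R) * (-1) ^ 0 = 1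
    simp
  · intro z
    have h1 : (1 + NPS.X () : NPS Unit R) [] = 1 := by
      change (1 + 0 : R) = 1
      simp
    rw [D_mul, D_add, D_one, D_X, D_gs, h1, if_pos (Subsingleton.elim _ _), one_smul, zero_add,
      one_mul]
    simp

/-- the inverse of a series with constant term `1` -/
def inv1 (f : NPS Z R) : NPS Z R := sub (fun _ : Unit => f - 1) gs

theorem mul_inv1 {f : NPS Z R} (hf : f [] = 1) : f * inv1 f = 1 := by
  have h0 : (f - 1) [] = 0 := by rw [NPS.sub_apply, hf]; simp
  have h1 : sub (fun _ : Unit => f - 1) (1 + NPS.X ()) = f := by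
    rw [NPS.sub_add, sub_one', sub_X (fun _ : Unit => f - 1) () h0]
    abel
  unfold inv1
  conv_lhs => enter [1]; rw [← h1]
  rw [← sub_mul', gs_mul, sub_one']

theorem inv1_nil (f : NPS Z R) : inv1 f [] = 1 := by
  unfold inv1
  rw [sub_nil]
  change (-1 : R) ^ 0 = 1
  simp

end

/-- series with constant term `1` -/
def UU (Z : Type*) (R : Type*) [CommRing R] : Type _ := {f : NPS Z R // f [] = 1}

namespace UU

variable {Z : Type*} {R : Type*} [CommRing R]

instance : Mul (UU Z R) := ⟨fun f g => ⟨f.1 * g.1, by rw [mul_nil, f.2, g.2, one_mul]⟩⟩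
instance : One (UU Z R) := ⟨⟨1, rfl⟩⟩
instance : Inv (UU Z R) := ⟨fun f => ⟨inv1 f.1, inv1_nil _⟩⟩

@[simp] theorem val_mul (f g : UU Z R) : (f * g).1 = f.1 * g.1 := rfl
@[simp] theorem val_one : (1 : UU Z R).1 = 1 := rfl

instance : Group (UU Z R) := Group.ofRightAxioms
  (fun f g h => Subtype.ext (mul_assoc f.1 g.1 h.1))
  (fun f => Subtype.ext (mul_one f.1))
  (fun f => Subtype.ext (mul_inv1 f.2))

theorem val_inv_mul (f : UU Z R) : (f⁻¹).1 * f.1 = 1 := by
  rw [← val_mul, inv_mul_cancel, val_one]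

theorem val_mul_inv (f : UU Z R) : f.1 * (f⁻¹).1 = 1 := by
  rw [← val_mul, mul_inv_cancel, val_one]

end UU

section

variable {p : ℕ} [hp : Fact p.Prime] {Z : Type*}

/-- congruence of level `m`: words of weight at most `m`, modulo `p ^ m` -/
def Cong (wt : Z → ℕ) (m : ℕ) (f g : NPS Z ℤ_[p]) : Prop :=
  ∀ w : List Z, (w.map wt).sum ≤ m → (p : ℤ_[p]) ^ m ∣ f w - g w

namespace Cong

variable {wt : Z → ℕ} {m : ℕ} {f g h : NPS Z ℤ_[p]}

theorem rfl' : Cong wt m f f := fun w _ => by rw [sub_self]; exact dvd_zero _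
theorem symm (h1 : Cong wt m f g) : Cong wt m g f := fun w hw => by
  rw [← neg_sub]; exact (dvd_neg).mpr (h1 w hw)
theorem trans (h1 : Cong wt m f g) (h2 : Cong wt m g h) : Cong wt m f h := fun w hw => by
  have := dvd_add (h1 w hw) (h2 w hw)
  rwa [sub_add_sub_cancel] at this

theorem sum_take_le (w : List Z) (i : ℕ) : ((w.take i).map wt).sum ≤ (w.map wt).sum := by
  conv_rhs => rw [← List.take_append_drop i w, List.map_append, List.sum_append]
  exact Nat.le_add_right _ _

theorem sum_drop_le (w : List Z) (i : ℕ) : ((w.drop i).map wt).sum ≤ (w.map wt).sum := by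
  conv_rhs => rw [← List.take_append_drop i w, List.map_append, List.sum_append]
  exact Nat.le_add_left _ _

theorem mul_left (h1 : Cong wt m f g) : Cong wt m (h * f) (h * g) := fun w hw => by
  rw [mul_apply, mul_apply, ← Finset.sum_sub_distrib]
  refine Finset.dvd_sum fun i _ => ?_
  rw [← mul_sub]
  exact Dvd.dvd.mul_left (h1 _ ((sum_drop_le w i).trans hw)) _

theorem mul_right (h1 : Cong wt m f g) : Cong wt m (f * h) (g * h) := fun w hw => by
  rw [mul_apply, mul_apply, ← Finset.sum_sub_distrib]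
  refine Finset.dvd_sum fun i _ => ?_
  rw [← sub_mul]
  exact Dvd.dvd.mul_right (h1 _ ((sum_take_le w i).trans hw)) _

theorem mono {m' : ℕ} (hm : m ≤ m') (h1 : Cong wt m' f g) : Cong wt m f g := fun w hw =>
  (pow_dvd_pow _ hm).trans (h1 w (hw.trans hm))

end Cong

theorem eq_zero_of_dvd {a : ℤ_[p]} (N : ℕ) (h : ∀ m, N ≤ m → (p : ℤ_[p]) ^ m ∣ a) : a = 0 := by
  by_contra ha
  have h1 := h (max N (a.valuation + 1)) (le_max_left _ _)
  rw [← Ideal.mem_span_singleton, PadicInt.mem_span_pow_iff_le_valuation a ha] at h1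
  have h2 := le_max_right N (a.valuation + 1)
  omega

theorem Cong.eq {wt : Z → ℕ} {f g : NPS Z ℤ_[p]} (h : ∀ m, Cong wt m f g) : f = g := by
  refine NPS.ext fun w => ?_
  rw [← sub_eq_zero]
  exact eq_zero_of_dvd (w.map wt).sum fun m hm => h m w hm

/-- the congruence subgroup -/
def congSub (wt : Z → ℕ) (m : ℕ) : Subgroup (UU Z ℤ_[p]) where
  carrier := {f | Cong wt m f.1 1}
  one_mem' := Cong.rfl'
  mul_mem' := by
    intro f g hf hg
    have h1 : Cong wt m (f.1 * g.1) (1 * g.1) := Cong.mul_right hf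
    rw [one_mul] at h1
    exact h1.trans hg
  inv_mem' := by
    intro f hf
    have h1 : Cong wt m ((f⁻¹).1 * f.1) ((f⁻¹).1 * 1) := Cong.mul_left hf
    rw [UU.val_inv_mul, mul_one] at h1
    exact h1.symm

theorem mem_congSub {wt : Z → ℕ} {m : ℕ} {f : UU Z ℤ_[p]} :
    f ∈ congSub wt m ↔ Cong wt m f.1 1 := Iff.rfl

instance congSub_normal (wt : Z → ℕ) (m : ℕ) : (congSub (p := p) wt m).Normal := by
  refine ⟨fun f hf g => ?_⟩
  rw [mem_congSub] at hf ⊢
  have h1 : Cong wt m (g.1 * f.1 * (g⁻¹).1) (g.1 * 1 * (g⁻¹).1) :=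
    Cong.mul_right (Cong.mul_left hf)
  rw [mul_one, UU.val_mul_inv] at h1
  exact h1

theorem congSub_inv_mul {wt : Z → ℕ} {m : ℕ} {f g : UU Z ℤ_[p]} :
    f⁻¹ * g ∈ congSub wt m ↔ Cong wt m f.1 g.1 := by
  rw [mem_congSub]
  constructor
  · intro h
    have h1 : Cong wt m (f.1 * ((f⁻¹).1 * g.1)) (f.1 * 1) := Cong.mul_left h
    rw [← mul_assoc, UU.val_mul_inv, one_mul, mul_one] at h1
    exact h1.symm
  · intro h
    have h1 : Cong wt m ((f⁻¹).1 * f.1) ((f⁻¹).1 * g.1) := Cong.mul_left h
    rw [UU.val_inv_mul] at h1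
    exact h1.symm

theorem words_finite {wt : Z → ℕ} (h1 : ∀ z, 1 ≤ wt z) (h2 : ∀ m, {z | wt z ≤ m}.Finite) :
    ∀ m : ℕ, {w : List Z | (w.map wt).sum ≤ m}.Finite := by
  intro m
  induction m with
  | zero =>
    refine (Set.finite_singleton []).subset fun w hw => ?_
    cases w with
    | nil => rfl
    | cons z w =>
      have h3 := h1 z
      have h4 : ((z :: w).map wt).sum ≤ 0 := hw
      rw [List.map_cons, List.sum_cons] at h4
      omega
  | succ m ih =>
    refine ((Set.finite_singleton []).union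
      (Set.Finite.image2 (fun z w => z :: w) (h2 (m + 1)) ih)).subset fun w hw => ?_
    cases w with
    | nil => exact Or.inl rfl
    | cons z w =>
      have h3 := h1 z
      have h4 : ((z :: w).map wt).sum ≤ m + 1 := hw
      rw [List.map_cons, List.sum_cons] at h4
      refine Or.inr ⟨z, ?_, w, ?_, rfl⟩
      · change wt z ≤ m + 1; omega
      · change (w.map wt).sum ≤ m; omega

theorem quot_card {wt : Z → ℕ} (h1 : ∀ z, 1 ≤ wt z) (h2 : ∀ m, {z | wt z ≤ m}.Finite) (m : ℕ) :
    Finite (UU Z ℤ_[p] ⧸ congSub (p := p) wt m) ∧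
      ∃ k : ℕ, Nat.card (UU Z ℤ_[p] ⧸ congSub (p := p) wt m) = p ^ k := by
  classical
  let W := {w : List Z // w ≠ [] ∧ (w.map wt).sum ≤ m}
  have hW : Finite W := ((words_finite h1 h2 m).subset fun w (hw : _ ∧ _) => hw.2).to_subtype
  have : NeZero (p ^ m) := ⟨pow_ne_zero _ hp.out.ne_zero⟩
  let T : UU Z ℤ_[p] → (W → ZMod (p ^ m)) := fun f w => PadicInt.toZModPow m (f.1 w.1)
  have hT : ∀ f g, T f = T g ↔ Cong wt m f.1 g.1 := by
    intro f g
    constructor
    · intro h w hw
      by_cases hw0 : w = []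
      · subst hw0
        rw [f.2, g.2, sub_self]
        exact dvd_zero _
      · have h3 : PadicInt.toZModPow m (f.1 w) = PadicInt.toZModPow m (g.1 w) :=
          congrFun h ⟨w, hw0, hw⟩
        rw [← sub_eq_zero, ← map_sub, ← RingHom.mem_ker, PadicInt.ker_toZModPow,
          Ideal.mem_span_singleton] at h3
        exact h3
    · intro h
      funext w
      have h3 := h w.1 w.2.2
      rw [← Ideal.mem_span_singleton, ← PadicInt.ker_toZModPow, RingHom.mem_ker, map_sub,
        sub_eq_zero] at h3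
      exact h3
  let T' : (UU Z ℤ_[p] ⧸ congSub (p := p) wt m) → (W → ZMod (p ^ m)) :=
    Quotient.lift T (by
      intro f g h
      rw [hT]
      exact congSub_inv_mul.mp (QuotientGroup.leftRel_apply.mp h))
  have hinj : Function.Injective T' := by
    intro a b h
    induction a using QuotientGroup.induction_on with
    | H f =>
      induction b using QuotientGroup.induction_on with
      | H g =>
        rw [QuotientGroup.eq, congSub_inv_mul]
        exact (hT f g).mp h
  have hsurj : Function.Surjective T' := by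
    intro c
    choose r hr using fun w : W => ZMod.ringHom_surjective (PadicInt.toZModPow (p := p) m) (c w)
    let f : NPS Z ℤ_[p] := fun w => if h : w ≠ [] ∧ (w.map wt).sum ≤ m then r ⟨w, h⟩ else
      if w = [] then 1 else 0
    have hf : f [] = 1 := by
      change (if h : ([] : List Z) ≠ [] ∧ (([] : List Z).map wt).sum ≤ m then r ⟨[], h⟩ else
        if ([] : List Z) = [] then 1 else 0) = 1
      rw [dif_neg (by simp), if_pos rfl]
    refine ⟨QuotientGroup.mk (⟨f, hf⟩ : UU Z ℤ_[p]), ?_⟩
    funext w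
    change PadicInt.toZModPow m (f w.1) = c w
    rw [← hr w]
    congr 1
    change (if h : w.1 ≠ [] ∧ (w.1.map wt).sum ≤ m then r ⟨w.1, h⟩ else
        if w.1 = [] then 1 else 0) = r w
    rw [dif_pos w.2]
  have hbij : Function.Bijective T' := ⟨hinj, hsurj⟩
  refine ⟨Finite.of_injective T' hinj, ?_⟩
  rw [Nat.card_eq_of_bijective T' hbij, Nat.card_fun, Nat.card_zmod, ← pow_mul]
  exact ⟨_, rfl⟩

end

end Run7.h937
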