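import Pool.Agent.Run7.h937.Aug

set_option autoImplicit false
set_option linter.unusedSectionVars false

/-! The Magnus homomorphism in countably many letters. -/

namespace Run7.h937

open NPS Finset

section

variable {Y A R : Type} [CommRing R] [Ring A] [Algebra R A] (s : Finset Y) (r : Y → A)

theorem theta_congr (n : ℕ) : ∀ f f' : NPS Y R,
    (∀ w : List Y, w.length < n → (∀ y ∈ w, y ∈ s) → f w = f' w) →
      theta s r n f = theta s r n f' := by
  induction n with
  | zero => intro f f' _; rfl
  | succ n ih =>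
    intro f f' h
    simp only [theta]
    rw [h [] (by simp) (by simp)]
    congr 1
    refine Finset.sum_congr rfl fun y hy => ?_
    rw [ih (D y f) (D y f') fun w hw hw' => h (y :: w) (by simpa using hw) ?_]
    intro z hz
    rcases List.mem_cons.mp hz with h1 | h1
    · subst h1; exact hy
    · exact hw' z h1

end

/-- the weight of the `n`-th letter -/
def wt1 (n : ℕ) : ℕ := n + 1

theorem wt1_pos (n : ℕ) : 1 ≤ wt1 n := Nat.succ_le_succ (Nat.zero_le n)

theorem wt1_finite (m : ℕ) : {n | wt1 n ≤ m}.Finite :=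
  (Set.finite_Iio m).subset fun _ hn => Nat.lt_of_succ_le hn

variable {p : ℕ} [hp : Fact p.Prime] {X F : Type} [Group F] [TopologicalSpace F]
  [IsTopologicalGroup F] [CompactSpace F] [T2Space F] [TotallyDisconnectedSpace F] {ι : X → F}

theorem one_add_X_nil {Y R : Type*} [DecidableEq Y] [CommRing R] (y : Y) :
    (1 + NPS.X y : NPS Y R) [] = 1 := by
  change (1 + 0 : R) = 1
  simp

theorem X_apply {Y R : Type*} [DecidableEq Y] [CommRing R] (y : Y) (w : List Y) :
    (NPS.X y : NPS Y R) w = if w = [y] then 1 else 0 := by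
  cases w with
  | nil => simp
  | cons z w =>
    have h : (NPS.X y : NPS Y R) (z :: w) = (if y = z then (1 : NPS Y R) else 0) w := by
      rw [← D_X]; rfl
    rw [h]
    by_cases h1 : y = z
    · subst h1
      rw [if_pos rfl]
      cases w with
      | nil => simp
      | cons a w => simp
    · rw [if_neg h1, if_neg]
      · rfl
      · intro h2
        exact h1 (List.cons.inj h2).1.symm

/-- **The Magnus homomorphism in countably many letters.** -/
theorem FP.exists_univ (h : FP p X F ι) (ν : X → Option ℕ)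
    (hν : ∀ x x' n, ν x = some n → ν x' = some n → x = x') :
    ∃ μ : F →* UU ℕ ℤ_[p],
      (∀ m, IsOpen (((congSub wt1 m).comap μ : Subgroup F) : Set F)) ∧
      (∀ x, (μ (ι x)).1 = (ν x).elim 1 (fun n => 1 + NPS.X n)) ∧
      ∀ N : Subgroup F, IsOpen (N : Set F) → N.Normal → (∀ x, ν x = none → ι x ∈ N) →
        ∀ g, μ g = 1 → g ∈ N := by
  classical
  let f : X → UU ℕ ℤ_[p] := fun x =>
    (ν x).elim 1 (fun n => ⟨1 + NPS.X n, one_add_X_nil n⟩)
  have hfv : ∀ x, (f x).1 = (ν x).elim 1 (fun n => 1 + NPS.X n) := by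
    intro x
    change ((ν x).elim (1 : UU ℕ ℤ_[p]) (fun n => ⟨1 + NPS.X n, one_add_X_nil n⟩)).1 = _
    cases ν x with
    | none => rfl
    | some n => rfl
  have hf : ∀ m, {x | ¬ Cong wt1 m (f x).1 1}.Finite := by
    intro m
    have h1 : {x | ¬ Cong wt1 m (f x).1 1} ⊆ ⋃ n ∈ Set.Iio m, {x | ν x = some n} := by
      intro x hx
      cases hx1 : ν x with
      | none =>
        refine absurd ?_ hx
        rw [hfv, hx1]
        exact Cong.rfl'
      | some n =>
        rw [Set.mem_iUnion₂]
        refine ⟨n, ?_, hx1⟩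
        rw [Set.mem_Iio]
        by_contra hn
        refine hx ?_
        rw [hfv, hx1]
        intro w hw
        change _ ∣ (1 : NPS ℕ ℤ_[p]) w + (NPS.X n : NPS ℕ ℤ_[p]) w - (1 : NPS ℕ ℤ_[p]) w
        rw [add_sub_cancel_left, X_apply, if_neg]
        · exact dvd_zero _
        · intro hw1
          subst hw1
          simp only [List.map_cons, List.map_nil, List.sum_cons, List.sum_nil, wt1] at hw
          omega
    refine Set.Finite.subset (Set.Finite.biUnion (Set.finite_Iio m) fun n _ => ?_) h1
    refine Set.Subsingleton.finite fun x hx x' hx' => hν x x' n hx hx'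
  obtain ⟨μ, hμ1, hμ2⟩ := h.exists_hom wt1_pos wt1_finite f hf
  refine ⟨μ, hμ2, fun x => by rw [hμ1, hfv], ?_⟩
  intro N hN hNn hxN g hg
  obtain ⟨k, hk⟩ := h.idx N hN hNn
  have hNi : N.index ≠ 0 := by rw [hk]; exact pow_ne_zero _ hp.out.ne_zero
  have hfin : Finite (F ⧸ N) := (Subgroup.finiteIndex_iff_finite_quotient).mp ⟨hNi⟩
  have hcard : Nat.card (F ⧸ N) = p ^ k := hk
  have hG : IsPGroup p (F ⧸ N) := IsPGroup.of_card hcard
  set A := MonoidAlgebra (ZMod p) (F ⧸ N) with hAdef
  have hAfin : Finite A := by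
    refine Finite.of_injective (fun a : A => fun g : F ⧸ N => a.coeff g) ?_
    intro a b hab
    cases a with
    | ofCoeff a =>
      cases b with
      | ofCoeff b =>
        exact congrArg MonoidAlgebra.ofCoeff (DFunLike.coe_injective hab)
  have hA : ∀ v : A, p • v = 0 := by
    intro v
    rw [← Nat.cast_smul_eq_nsmul (ZMod p) p v, CharP.cast_eq_zero, zero_smul]
  let τ : (F ⧸ N) →* A := MonoidAlgebra.of (ZMod p) (F ⧸ N)
  obtain ⟨L₀, hL₀⟩ := aug_nilp τ hA hG
  set L := L₀ + 2 with hL
  let γ : ℕ → F ⧸ N := fun n => if hn : ∃ x, ν x = some n then QuotientGroup.mk (ι hn.choose) else 1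
  have hγ : ∀ x n, ν x = some n → γ n = QuotientGroup.mk (ι x) := by
    intro x n hxn
    have hn : ∃ x, ν x = some n := ⟨x, hxn⟩
    change (if hn : ∃ x, ν x = some n then QuotientGroup.mk (ι hn.choose) else 1) = _
    rw [dif_pos hn, hν _ _ n hn.choose_spec hxn]
  have hsfin : {n | γ n ≠ 1}.Finite := by
    have h1 : ∀ᶠ x in Filter.cofinite, ι x ∈ (N : Set F) := h.conv (hN.mem_nhds N.one_mem)
    rw [Filter.eventually_cofinite] at h1
    refine (Set.Finite.image (fun x => (ν x).getD 0) h1).subset fun n hn => ?_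
    by_cases hn1 : ∃ x, ν x = some n
    · obtain ⟨x, hx⟩ := hn1
      refine ⟨x, fun hx1 => hn ?_, by simp [hx]⟩
      rw [hγ x n hx]
      exact (QuotientGroup.eq_one_iff _).mpr hx1
    · refine absurd ?_ hn
      change (if hn : ∃ x, ν x = some n then QuotientGroup.mk (ι hn.choose) else 1) = _
      rw [dif_neg hn1]
  set s : Finset ℕ := hsfin.toFinset with hs
  let r : ℕ → A := fun n => τ (γ n) - 1
  have hr : ∀ w : List ℕ, L ≤ w.length → (w.map r).prod = 0 := by
    intro w hw
    have h1 := hL₀ (w.map γ) (by rw [List.length_map]; omega)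
    rw [List.map_map] at h1
    exact h1
  let Θ : UU ℕ ℤ_[p] →* A :=
    { toFun := fun f => theta s r L (NPS.map (PadicInt.toZMod (p := p)) f.1)
      map_one' := by
        change theta s r L (NPS.map (PadicInt.toZMod (p := p)) (1 : NPS ℕ ℤ_[p])) = 1
        rw [map_one]
        exact theta_one s r (L₀ + 1)
      map_mul' := by
        intro a b
        change theta s r L (NPS.map (PadicInt.toZMod (p := p)) (a.1 * b.1)) = _
        rw [map_mul, theta_mul s r hr] }
  have hΘ : ∃ m, ∀ a : UU ℕ ℤ_[p], a ∈ congSub wt1 m → Θ a = 1 := by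
    have hB : ∃ B, ∀ y ∈ s, wt1 y ≤ B := by
      refine ⟨s.sup wt1, fun y hy => Finset.le_sup hy⟩
    obtain ⟨B, hB⟩ := hB
    have hw : ∀ w : List ℕ, (∀ y ∈ w, y ∈ s) → (w.map wt1).sum ≤ w.length * B := by
      intro w
      induction w with
      | nil => intro _; simp
      | cons y w ih =>
        intro hy
        have h1 := ih fun z hz => hy z (List.mem_cons_of_mem _ hz)
        have h2 := hB y (hy y List.mem_cons_self)
        rw [List.map_cons, List.sum_cons, List.length_cons, add_mul]
        omega
    refine ⟨L * B + 1, fun a ha => ?_⟩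
    have h1 : Θ a = Θ 1 := by
      refine theta_congr s r L _ _ fun w hw1 hw2 => ?_
      rw [map_apply, map_apply, ← sub_eq_zero, ← map_sub, ← RingHom.mem_ker, PadicInt.ker_toZMod,
        PadicInt.maximalIdeal_eq_span_p, Ideal.mem_span_singleton]
      have h3 : (w.map wt1).sum ≤ L * B + 1 := by
        have h4 := hw w hw2
        have h5 : w.length * B ≤ L * B := Nat.mul_le_mul_right B hw1.le
        omega
      exact (dvd_pow_self (p : ℤ_[p]) (Nat.succ_ne_zero (L * B))).trans (ha w h3)
    rw [h1, map_one]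
  obtain ⟨m, hm⟩ := hΘ
  have hgen : ∀ x, Θ (μ (ι x)) = τ (QuotientGroup.mk (ι x)) := by
    intro x
    rw [hμ1]
    change theta s r L (NPS.map (PadicInt.toZMod (p := p)) (f x).1) = _
    rw [hfv]
    cases hx1 : ν x with
    | none =>
      rw [(QuotientGroup.eq_one_iff (ι x)).mpr (hxN x hx1), map_one]
      change theta s r L (NPS.map (PadicInt.toZMod (p := p)) (1 : NPS ℕ ℤ_[p])) = 1
      rw [map_one]
      exact theta_one s r (L₀ + 1)
    | some n =>
      change theta s r L (NPS.map (PadicInt.toZMod (p := p)) (1 + NPS.X n)) = _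
      rw [map_add, map_one, map_X, theta_add, ← hγ x n hx1]
      have h3 : theta s r L (1 : NPS ℕ (ZMod p)) = 1 := theta_one s r (L₀ + 1)
      have h4 : theta s r L (NPS.X n : NPS ℕ (ZMod p)) = r n := by
        change algebraMap (ZMod p) A ((NPS.X n : NPS ℕ (ZMod p)) []) +
          ∑ y ∈ s, r y * theta s r (L₀ + 1) (D y (NPS.X n : NPS ℕ (ZMod p))) = r n
        rw [X_apply, if_neg (by simp), map_zero, zero_add]
        by_cases hns : n ∈ s
        · rw [Finset.sum_eq_single n]
          · rw [D_X, if_pos rfl, theta_one, mul_one]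
          · intro y _ hy
            rw [D_X, if_neg (fun h => hy h.symm), theta_zero, mul_zero]
          · intro h; exact absurd hns h
        · have h5 : r n = 0 := by
            have h6 : γ n = 1 := by
              by_contra h7
              exact hns (hsfin.mem_toFinset.mpr h7)
            change τ (γ n) - 1 = 0
            rw [h6, map_one, sub_self]
          rw [h5]
          refine Finset.sum_eq_zero fun y hy => ?_
          rw [D_X, if_neg (fun h' : n = y => hns (by rw [h']; exact hy)), theta_zero, mul_zero]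
      rw [h3, h4]
      change 1 + (τ (γ n) - 1) = τ (γ n)
      abel
  have hall : (Θ.comp μ).toHomUnits g = (τ.comp (QuotientGroup.mk' N)).toHomUnits g := by
    refine h.hom_ext ?_ ?_ (fun x => ?_) g
    · refine Subgroup.isOpen_mono (H₁ := (congSub wt1 m).comap μ) ?_ (hμ2 m)
      intro a ha
      rw [MonoidHom.mem_ker]
      refine Units.ext ?_
      rw [MonoidHom.coe_toHomUnits]
      exact hm _ ha
    · refine Subgroup.isOpen_mono (H₁ := N) ?_ hN
      intro a ha
      rw [MonoidHom.mem_ker]
      refine Units.ext ?_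
      rw [MonoidHom.coe_toHomUnits, MonoidHom.comp_apply, QuotientGroup.mk'_apply,
        (QuotientGroup.eq_one_iff a).mpr ha, map_one]
      rfl
    · refine Units.ext ?_
      rw [MonoidHom.coe_toHomUnits, MonoidHom.coe_toHomUnits]
      exact hgen x
  have h8 := congrArg Units.val hall
  rw [MonoidHom.coe_toHomUnits, MonoidHom.coe_toHomUnits, MonoidHom.comp_apply, hg, map_one,
    MonoidHom.comp_apply] at h8
  have h9 : τ (QuotientGroup.mk' N g) = τ 1 := by rw [map_one, h8]
  have h10 : (QuotientGroup.mk' N g) = 1 := MonoidAlgebra.of_injective h9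
  exact (QuotientGroup.eq_one_iff g).mp h10

end Run7.h937
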