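import Pool.Agent.Run7.h937.h378_D1b

/-! MP_5766af_al, piece D1, part 3: the division ring and its valuation. -/

noncomputable section

namespace Pool.Agent.Run7.h937.CP

open Finset Pool.Agent.Run7.h378

variable {K : Type} [Field K] [CharZero K] {C : Core K}

variable (C) in
/-- `D_l` inside the germ ring -/
def DL (l : ℕ) : AddSubgroup (QQ C) where
  carrier := {d | ∃ f : ℕ → K, d = ∑ i ∈ range (2 ^ l), jK C (f i) * uQ C l ^ i}
  add_mem' := by
    rintro _ _ ⟨f, rfl⟩ ⟨g, rfl⟩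
    refine ⟨f + g, ?_⟩
    rw [← sum_add_distrib]
    refine sum_congr rfl fun i _ => ?_
    rw [Pi.add_apply, map_add, add_mul]
  zero_mem' := ⟨0, by simp⟩
  neg_mem' := by
    rintro _ ⟨f, rfl⟩
    refine ⟨-f, ?_⟩
    rw [← sum_neg_distrib]
    refine sum_congr rfl fun i _ => ?_
    rw [Pi.neg_apply, map_neg, neg_mul]

lemma mem_DL {l : ℕ} {d : QQ C} : d ∈ DL C l ↔
    ∃ f : ℕ → K, d = ∑ i ∈ range (2 ^ l), jK C (f i) * uQ C l ^ i := Iff.rfl

lemma mono_mem_lt (l : ℕ) (x : K) (n : ℕ) (hn : n < 2 ^ l) : jK C x * uQ C l ^ n ∈ DL C l := by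
  classical
  refine ⟨fun i => if i = n then x else 0, ?_⟩
  rw [sum_eq_single n]
  · simp
  · intro b _ hb
    simp [hb]
  · intro h
    exact absurd (mem_range.2 hn) h

lemma mono_mem (l : ℕ) (x : K) (n : ℕ) : jK C x * uQ C l ^ n ∈ DL C l := by
  have h : uQ C l ^ n = jK C (C.c l ^ (n / 2 ^ l)) * uQ C l ^ (n % 2 ^ l) := by
    conv_lhs => rw [← Nat.div_add_mod n (2 ^ l)]
    rw [pow_add, pow_mul, uQ_pow, map_pow]
  rw [h, ← mul_assoc, ← map_mul]
  exact mono_mem_lt l _ _ (Nat.mod_lt _ (by positivity))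

lemma pow_comm (l n : ℕ) (x : K) : uQ C l ^ n * jK C x = jK C ((C.g l)^[n] x) * uQ C l ^ n := by
  induction n generalizing x with
  | zero => simp
  | succ n ih =>
    rw [pow_succ, mul_assoc, uQ_comm, ← mul_assoc, ih, mul_assoc, Function.iterate_succ_apply]

lemma mul_mem' (l : ℕ) {x y : QQ C} (hx : x ∈ DL C l) (hy : y ∈ DL C l) : x * y ∈ DL C l := by
  obtain ⟨f, rfl⟩ := hx
  obtain ⟨g, rfl⟩ := hy
  rw [sum_mul_sum]
  refine sum_mem fun i _ => sum_mem fun j _ => ?_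
  rw [mul_assoc, ← mul_assoc (uQ C l ^ i), pow_comm, mul_assoc, ← pow_add, ← mul_assoc, ← map_mul]
  exact mono_mem l _ _

lemma one_mem' (l : ℕ) : (1 : QQ C) ∈ DL C l := by
  have h := mono_mem (C := C) l 1 0
  simpa using h

lemma DL_mono (l : ℕ) : DL C l ≤ DL C (l + 1) := by
  have hu : ∀ i, uQ C l ^ i ∈ DL C (l + 1) := by
    intro i
    induction i with
    | zero =>
      rw [pow_zero]
      exact one_mem' _
    | succ i ih =>
      rw [pow_succ]
      apply mul_mem' _ ih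
      have h : uQ C l = jK C (C.a l)⁻¹ * uQ C (l + 1) ^ 2 := by
        rw [pow_two, uQ_sq, ← mul_assoc, ← map_mul, inv_mul_cancel₀ (a_ne C l), map_one, one_mul]
      rw [h]
      exact mono_mem _ _ _
  rintro _ ⟨f, rfl⟩
  refine sum_mem fun i _ => mul_mem' _ ?_ (hu i)
  have h := mono_mem (C := C) (l + 1) (f i) 0
  simpa using h

lemma DL_mono' {l m : ℕ} (h : l ≤ m) : DL C l ≤ DL C m :=
  monotone_nat_of_le_succ (f := DL C) DL_mono h

variable (C) in
/-- the ring `D` -/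
def DD : Subring (QQ C) where
  carrier := {d | ∃ l, d ∈ DL C l}
  mul_mem' := by
    rintro x y ⟨l, hx⟩ ⟨m, hy⟩
    exact ⟨max l m, mul_mem' _ (DL_mono' (le_max_left _ _) hx) (DL_mono' (le_max_right _ _) hy)⟩
  one_mem' := ⟨0, one_mem' 0⟩
  add_mem' := by
    rintro x y ⟨l, hx⟩ ⟨m, hy⟩
    exact ⟨max l m, add_mem (DL_mono' (le_max_left _ _) hx) (DL_mono' (le_max_right _ _) hy)⟩
  zero_mem' := ⟨0, zero_mem _⟩
  neg_mem' := by
    rintro x ⟨l, hx⟩
    exact ⟨l, neg_mem hx⟩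

lemma exists_HV (d : DD C) : ∃ q, HV d.1 q := by
  obtain ⟨d, l, f, rfl⟩ := d
  exact ⟨_, HV_sum l f⟩

/-- the value -/
def wv (d : DD C) : WithTop ℚ := (exists_HV d).choose

lemma wv_spec (d : DD C) : HV d.1 (wv d) := (exists_HV d).choose_spec

lemma wv_eq (d : DD C) {q : WithTop ℚ} (h : HV d.1 q) : wv d = q := HV_unique (wv_spec d) h

lemma wv_top (d : DD C) (h : wv d = ⊤) : d = 0 := by
  have h2 := wv_spec d
  rw [h] at h2
  exact Subtype.ext (HV_top h2)

lemma wv_mul (x y : DD C) : wv (x * y) = wv x + wv y :=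
  wv_eq _ (HV_mul (wv_spec x) (wv_spec y))

lemma wv_zero : wv (0 : DD C) = ⊤ := wv_eq _ HV_zero

lemma wv_one : wv (1 : DD C) = 0 := wv_eq _ HV_one

lemma wv_add (x y : DD C) : min (wv x) (wv y) ≤ wv (x + y) :=
  HV_add_le (wv_spec x) (wv_spec y) (wv_spec (x + y))

instance nontriv : Nontrivial (DD C) := by
  refine ⟨0, 1, fun h => ?_⟩
  have h1 := congrArg wv h
  rw [wv_zero, wv_one] at h1
  exact absurd h1 (by simp)

lemma no_zero (x y : DD C) (h : x * y = 0) : x = 0 ∨ y = 0 := by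
  have h1 := wv_mul x y
  rw [h, wv_zero] at h1
  rcases WithTop.add_eq_top.1 h1.symm with h2 | h2
  · exact Or.inl (wv_top _ h2)
  · exact Or.inr (wv_top _ h2)

lemma exists_linv (x : DD C) (hx : x ≠ 0) : ∃ y : DD C, y * x = 1 := by
  obtain ⟨l, hl⟩ := x.2
  let _ : Module K (QQ C) := Module.compHom (QQ C) (jK C)
  have hsm : ∀ (a : K) (q : QQ C), a • q = jK C a * q := fun _ _ => rfl
  let Φ : (Fin (2 ^ l) → K) →ₗ[K] QQ C :=
    { toFun := fun f => ∑ i, jK C (f i) * uQ C l ^ (i : ℕ)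
      map_add' := by
        intro f g
        rw [← sum_add_distrib]
        refine sum_congr rfl fun i _ => ?_
        rw [Pi.add_apply, map_add, add_mul]
      map_smul' := by
        intro a f
        rw [RingHom.id_apply, hsm, mul_sum]
        refine sum_congr rfl fun i _ => ?_
        rw [Pi.smul_apply, smul_eq_mul, map_mul, mul_assoc] }
  have hΦ : ∀ d, d ∈ LinearMap.range Φ ↔ d ∈ DL C l := by
    intro d
    constructor
    · rintro ⟨f, rfl⟩
      change ∑ i, jK C (f i) * uQ C l ^ (i : ℕ) ∈ _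
      exact sum_mem fun i _ => mono_mem l _ _
    · rintro ⟨f, rfl⟩
      refine ⟨fun i => f i, ?_⟩
      change ∑ i : Fin (2 ^ l), jK C (f i) * uQ C l ^ (i : ℕ) = _
      rw [Fin.sum_univ_eq_sum_range (fun i => jK C (f i) * uQ C l ^ i)]
  let ρ : QQ C →ₗ[K] QQ C :=
    { toFun := fun q => q * x.1
      map_add' := fun a b => add_mul _ _ _
      map_smul' := fun a b => by
        rw [RingHom.id_apply, hsm, hsm, mul_assoc] }
  have hρ : ∀ d ∈ LinearMap.range Φ, ρ d ∈ LinearMap.range Φ := by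
    intro d hd
    rw [hΦ] at hd ⊢
    exact mul_mem' l hd hl
  let r : LinearMap.range Φ →ₗ[K] LinearMap.range Φ := ρ.restrict hρ
  have hinj : Function.Injective r := by
    rw [← LinearMap.ker_eq_bot, LinearMap.ker_eq_bot']
    rintro ⟨d, hd⟩ h0
    have h1 : d * x.1 = 0 := congrArg Subtype.val h0
    rw [hΦ] at hd
    have h2 := no_zero (⟨d, l, hd⟩ : DD C) x (Subtype.ext h1)
    rcases h2 with h2 | h2
    · have h3 : d = 0 := congrArg Subtype.val h2
      exact Subtype.ext h3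
    · exact absurd h2 hx
  have hsur := LinearMap.injective_iff_surjective.1 hinj
  obtain ⟨⟨y, hy⟩, hy2⟩ := hsur ⟨1, (hΦ 1).2 (one_mem' l)⟩
  have h3 : y * x.1 = 1 := congrArg Subtype.val hy2
  exact ⟨⟨y, l, (hΦ y).1 hy⟩, Subtype.ext h3⟩

lemma isUnit_or (x : DD C) : IsUnit x ∨ x = 0 := by
  by_cases hx : x = 0
  · exact Or.inr hx
  left
  obtain ⟨y, hy⟩ := exists_linv x hx
  have hy0 : y ≠ 0 := by
    rintro rfl
    rw [zero_mul] at hy
    exact zero_ne_one hy
  obtain ⟨z, hz⟩ := exists_linv y hy0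
  have h : z = x := by
    calc z = z * (y * x) := by rw [hy, mul_one]
      _ = x := by rw [← mul_assoc, hz, one_mul]
  rw [h] at hz
  exact ⟨⟨x, y, hz, hy⟩, rfl⟩

/-- the division ring structure -/
@[instance_reducible]
def divD : DivisionRing (DD C) := DivisionRing.ofIsUnitOrEqZero isUnit_or

end CP

open CP Pool.Agent.Run7.h378 Finset

theorem h378_D1 : S_alg := by
  intro K _ _ C
  let _ := divD (C := C)
  refine ⟨DD C, divD, ⟨?_⟩⟩
  exact
  { ι := (jK C).codRestrict (DD C) (fun x => ⟨0, by simpa using mono_mem (C := C) 0 x 0⟩)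
    u := fun l => ⟨uQ C l, l, by simpa using mono_mem (C := C) l 1 1⟩
    u_zero := Subtype.ext uQ_zero
    u_sq := fun l => Subtype.ext (uQ_sq l)
    u_comm := fun l x => Subtype.ext (uQ_comm l x)
    w := AddValuation.of wv wv_zero wv_one wv_add wv_mul
    w_ι := fun x => wv_eq _ (HV_jK x)
    w_u := fun l => wv_eq _ (HV_uQ l)
    span := by
      rintro ⟨d, l, f, rfl⟩
      refine ⟨l, f, Subtype.ext ?_⟩
      change (∑ i ∈ range (2 ^ l), jK C (f i) * uQ C l ^ i) = (DD C).subtype _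
      rw [map_sum]
      rfl }

end Pool.Agent.Run7.h937
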