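import Pool.Agent.Run7.h378.IfaceD

/-! MP_5766af_al, piece D11b (descent with the axiom `mer`). -/

noncomputable section

namespace Pool.Agent.Run7.h937

open Finset Pool.Agent.Run7.h378

namespace D11b

variable {K : Type} [Field K] [CharZero K] {T : Data K} {D : Type} [DivisionRing D]
  {A : Alg T.toCore D}

lemma upow_comm (l i : ℕ) (x : K) : A.u l ^ i * A.ι x = A.ι ((T.g l)^[i] x) * A.u l ^ i := by
  induction i generalizing x with
  | zero => simp
  | succ i ih =>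
    rw [pow_succ, mul_assoc, A.u_comm, ← mul_assoc, ih, mul_assoc, Function.iterate_succ_apply]

/-- The elements `x` of `K` with `ι x ∈ S`. -/
def SK (A : Alg T.toCore D) (S : Subring D) : Subring K := S.comap A.ι

lemma mem_SK {S : Subring D} {x : K} : x ∈ SK A S ↔ A.ι x ∈ S := Iff.rfl

/-- elements of the closure of `F` and `ι z` are of the form `ι y`, `y` a polynomial in `z`. -/
lemma exists_poly (z : K) {p : D} (hp : p ∈ Subring.closure (A.Fs ∪ {A.ι z})) :
    ∃ q : Polynomial (fix T.g), p = A.ι (Polynomial.aeval z q) := by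
  induction hp using Subring.closure_induction with
  | mem x hx =>
    rcases hx with hx | hx
    · obtain ⟨y, hy, rfl⟩ := hx
      refine ⟨Polynomial.C ⟨y, hy⟩, ?_⟩
      rw [Polynomial.aeval_C]
      rfl
    · rw [Set.mem_singleton_iff] at hx
      exact ⟨Polynomial.X, by simp [hx]⟩
  | zero => exact ⟨0, by simp⟩
  | one => exact ⟨1, by simp⟩
  | add x y _ _ hx hy =>
    obtain ⟨a, rfl⟩ := hx
    obtain ⟨b, rfl⟩ := hy
    exact ⟨a + b, by simp⟩
  | neg x _ hx =>
    obtain ⟨a, rfl⟩ := hx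
    exact ⟨-a, by simp⟩
  | mul x y _ _ hx hy =>
    obtain ⟨a, rfl⟩ := hx
    obtain ⟨b, rfl⟩ := hy
    exact ⟨a * b, by simp⟩

lemma aeval_mem {S : Subring D} (hFS : A.Fs ⊆ S) {z : K} (hz : A.ι z ∈ S)
    (q : Polynomial (fix T.g)) : A.ι (Polynomial.aeval z q) ∈ S := by
  induction q using Polynomial.induction_on with
  | C a =>
    rw [Polynomial.aeval_C]
    exact hFS ⟨a, a.2, rfl⟩
  | add p q hp hq =>
    rw [map_add, map_add]
    exact S.add_mem hp hq
  | monomial n a h =>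
    rw [map_mul, Polynomial.aeval_C, map_pow, Polynomial.aeval_X, map_mul, map_pow]
    exact S.mul_mem (hFS ⟨a, a.2, rfl⟩) (S.pow_mem hz _)

lemma mon_form (z : K) (l : ℕ) {y : K}
    (hy : y ∈ Submonoid.closure ((fix T.g : Set K) ∪ {y | ∃ i, y = (T.g l)^[i] z}))
    (hper : ∀ x, (T.g l)^[2 ^ l] x = x) :
    ∃ f ∈ fix T.g, ∃ a : ℕ → ℕ, y = f * ∏ i ∈ range (2 ^ l), ((T.g l)^[i] z) ^ a i := by
  classical
  induction hy using Submonoid.closure_induction with
  | mem x hx =>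
    rcases hx with hx | ⟨i, rfl⟩
    · exact ⟨x, hx, 0, by simp⟩
    · refine ⟨1, one_mem _, fun j => if j = i % 2 ^ l then 1 else 0, ?_⟩
      rw [one_mul, prod_eq_single (i % 2 ^ l)]
      · simp only [if_true, pow_one]
        have h1 : ∀ k, (T.g l)^[2 ^ l * k] z = z := by
          intro k
          rw [Function.iterate_mul]
          exact Function.iterate_fixed (hper z) k
        conv_lhs => rw [← Nat.mod_add_div i (2 ^ l), Function.iterate_add_apply, h1]
      · intro b _ hb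
        simp [hb]
      · intro h
        exact absurd (mem_range.2 (Nat.mod_lt _ (by positivity))) h
  | one => exact ⟨1, one_mem _, 0, by simp⟩
  | mul x y _ _ hx hy =>
    obtain ⟨f, hf, a, rfl⟩ := hx
    obtain ⟨f', hf', a', rfl⟩ := hy
    refine ⟨f * f', mul_mem hf hf', a + a', ?_⟩
    have h1 : ∏ i ∈ range (2 ^ l), ((T.g l)^[i] z) ^ (a + a') i =
        (∏ i ∈ range (2 ^ l), ((T.g l)^[i] z) ^ a i) *
          ∏ i ∈ range (2 ^ l), ((T.g l)^[i] z) ^ a' i := by
      rw [← prod_mul_distrib]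
      refine prod_congr rfl fun i _ => ?_
      rw [Pi.add_apply, pow_add]
    rw [h1]
    ring

lemma g_per (l : ℕ) (x : K) : (T.g l)^[2 ^ l] x = x := by
  induction l generalizing x with
  | zero => simpa using T.g_zero x
  | succ l ih =>
    have h : (2 : ℕ) ^ (l + 1) = 2 * 2 ^ l := by ring
    rw [h, Function.iterate_mul]
    have h2 : (T.g (l + 1))^[2] = T.g l := by
      funext y
      exact T.g_sq l y
    rw [h2, ih]

omit [CharZero K] in
lemma inv_mem_of_int (R : Subring K) (z : K) (hz : z ∈ R) (hz0 : z ≠ 0)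
    (h : IsIntegral R z⁻¹) : z⁻¹ ∈ R := by
  obtain ⟨p, hp, h0⟩ := h
  rw [hp.as_sum, Polynomial.eval₂_add, Polynomial.eval₂_pow, Polynomial.eval₂_X,
    Polynomial.eval₂_finsetSum] at h0
  rcases Nat.eq_zero_or_pos p.natDegree with hn | hn
  · rw [hn] at h0
    simp at h0
  · obtain ⟨m, hm⟩ : ∃ m, p.natDegree = m + 1 := ⟨p.natDegree - 1, by omega⟩
    rw [hm] at h0
    have h1 : z⁻¹ = -∑ i ∈ range (m + 1), (p.coeff i : K) * z ^ (m - i) := by
      have h2 := congrArg (fun y => y * z ^ m) h0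
      simp only [add_mul, zero_mul, sum_mul] at h2
      have h3 : z⁻¹ ^ (m + 1) * z ^ m = z⁻¹ := by
        rw [pow_succ, mul_comm, ← mul_assoc, ← mul_pow, mul_inv_cancel₀ hz0, one_pow, one_mul]
      rw [h3] at h2
      rw [eq_neg_of_add_eq_zero_left h2]
      congr 1
      refine sum_congr rfl fun i hi => ?_
      rw [Polynomial.eval₂_mul, Polynomial.eval₂_C, Polynomial.eval₂_pow, Polynomial.eval₂_X,
        mul_assoc]
      have hi' : i ≤ m := by
        have := mem_range.1 hi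
        omega
      have h4 : z⁻¹ ^ i * z ^ m = z ^ (m - i) := by
        conv_lhs => rw [← Nat.add_sub_cancel' hi', pow_add, ← mul_assoc, ← mul_pow,
          inv_mul_cancel₀ hz0, one_pow, one_mul]
      rw [h4]
      rfl
    rw [h1]
    exact R.neg_mem (R.sum_mem fun i _ => R.mul_mem (p.coeff i).2 (R.pow_mem hz _))

lemma inv_mem (S : Subring D) (hFS : A.Fs ⊆ S)
    (hd : ∀ ω ∈ S, ω ∉ A.Fs → ∀ d : D, ∃ p ∈ Subring.closure (A.Fs ∪ {ω}), p ≠ 0 ∧ p * d ∈ S)
    (z : K) (hz : A.ι z ∈ S) : A.ι z⁻¹ ∈ S := by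
  by_cases hzF : z ∈ fix T.g
  · exact hFS ⟨z⁻¹, (fix T.g).inv_mem hzF, rfl⟩
  have hz0 : z ≠ 0 := by
    rintro rfl
    exact hzF (zero_mem _)
  have hzFs : A.ι z ∉ A.Fs := by
    rintro ⟨y, hy, hyz⟩
    rw [← A.ι.injective hyz] at hzF
    exact hzF hy
  obtain ⟨l, hint⟩ := T.mer z hzF
  -- one factor
  have hstep : ∀ i : ℕ, ∃ ρ : K, ρ ≠ 0 ∧ ∀ n : ℕ, A.ι (ρ * ((T.g l)^[i] z) ^ n) ∈ S := by
    intro i
    obtain ⟨p, hp, hp0, hpu⟩ := hd _ hz hzFs (A.u l ^ i)
    obtain ⟨p', hp', hp0', hpu'⟩ := hd _ hz hzFs (A.u l ^ i)⁻¹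
    obtain ⟨q, rfl⟩ := exists_poly z hp
    obtain ⟨q', rfl⟩ := exists_poly z hp'
    set s := Polynomial.aeval z q
    set s' := Polynomial.aeval z q'
    have hs0 : s ≠ 0 := fun h => hp0 (by rw [h, map_zero])
    have hs0' : s' ≠ 0 := fun h => hp0' (by rw [h, map_zero])
    have hu : A.u l ^ i ≠ 0 := by
      intro h
      rw [h, mul_zero] at hpu
      have h1 : A.w (A.u l ^ i) = ⊤ := by rw [h, AddValuation.map_zero]
      rw [AddValuation.map_pow, A.w_u] at h1
      rw [← WithTop.coe_nsmul] at h1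
      exact WithTop.coe_ne_top h1
    have e1 : (T.g l)^[i] (0 : K) = 0 := iterate_map_zero (T.g l) i
    have e2 : ∀ x y : K, (T.g l)^[i] (x * y) = (T.g l)^[i] x * (T.g l)^[i] y :=
      fun x y => iterate_map_mul (T.g l) i x y
    have e3 : ∀ (x : K) (n : ℕ), (T.g l)^[i] (x ^ n) = ((T.g l)^[i] x) ^ n :=
      fun x n => iterate_map_pow (T.g l) i x n
    refine ⟨s * (T.g l)^[i] s', ?_, ?_⟩
    · refine mul_ne_zero hs0 ?_
      intro h
      apply hs0'
      have h1 : Function.Injective (T.g l)^[i] := (T.g l).injective.iterate i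
      apply h1
      rw [h, e1]
    · intro n
      have h1 := S.mul_mem (S.mul_mem hpu (S.pow_mem hz n)) hpu'
      have h2 : A.ι s * A.u l ^ i * A.ι z ^ n * (A.ι s' * (A.u l ^ i)⁻¹) =
          A.ι (s * (T.g l)^[i] s' * ((T.g l)^[i] z) ^ n) := by
        have h3 : A.u l ^ i * (A.ι z ^ n * A.ι s') =
            A.ι (((T.g l)^[i] z) ^ n * (T.g l)^[i] s') * A.u l ^ i := by
          rw [← map_pow, ← map_mul, upow_comm, e2, e3]
        calc A.ι s * A.u l ^ i * A.ι z ^ n * (A.ι s' * (A.u l ^ i)⁻¹)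
            = A.ι s * (A.u l ^ i * (A.ι z ^ n * A.ι s')) * (A.u l ^ i)⁻¹ := by
              simp only [mul_assoc]
          _ = A.ι s * A.ι (((T.g l)^[i] z) ^ n * (T.g l)^[i] s') := by
              rw [h3, mul_assoc, mul_assoc, mul_inv_cancel₀ hu, mul_one]
          _ = _ := by
              rw [← map_mul]
              congr 1
              ring
      rw [h2] at h1
      exact h1
  choose ρ hρ0 hρ using hstep
  set R₀ : Subring K := Subring.closure ((fix T.g : Set K) ∪ {y | ∃ i, y = (T.g l)^[i] z}) with hR₀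
  have hzR : z ∈ R₀ := Subring.subset_closure (Or.inr ⟨0, rfl⟩)
  have hzi : z⁻¹ ∈ R₀ := inv_mem_of_int R₀ z hzR hz0 hint
  set r : K := ∏ i ∈ range (2 ^ l), ρ i with hr
  have hr0 : r ≠ 0 := prod_ne_zero_iff.2 fun i _ => hρ0 i
  have hrR : ∀ y ∈ R₀, A.ι (r * y) ∈ S := by
    intro y hy
    rw [hR₀, Subring.mem_closure_iff] at hy
    induction hy using AddSubgroup.closure_induction with
    | mem y hy =>
      obtain ⟨f, hf, a, rfl⟩ := mon_form z l hy (g_per l)
      have h1 : r * (f * ∏ i ∈ range (2 ^ l), ((T.g l)^[i] z) ^ a i) =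
          f * ∏ i ∈ range (2 ^ l), (ρ i * ((T.g l)^[i] z) ^ a i) := by
        rw [prod_mul_distrib]
        ring
      rw [h1]
      have h2 : f ∈ S.comap A.ι := hFS ⟨f, hf, rfl⟩
      have h3 : ∏ i ∈ range (2 ^ l), (ρ i * ((T.g l)^[i] z) ^ a i) ∈ S.comap A.ι :=
        prod_mem fun i _ => hρ i (a i)
      exact (S.comap A.ι).mul_mem h2 h3
    | zero =>
      rw [mul_zero, map_zero]
      exact S.zero_mem
    | add x y _ _ hx hy =>
      rw [mul_add, map_add]
      exact S.add_mem hx hy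
    | neg x _ hx =>
      rw [mul_neg, map_neg]
      exact S.neg_mem hx
  have hrN : ∀ N : ℕ, A.ι (r * z⁻¹ ^ N) ∈ S := fun N => hrR _ (R₀.pow_mem hzi N)
  obtain ⟨p, hp, hp0, hpr⟩ := hd _ hz hzFs (A.ι r)⁻¹
  obtain ⟨q, rfl⟩ := exists_poly z hp
  have hq0 : q ≠ 0 := by
    rintro rfl
    simp at hp0
  have hqN : ∀ N : ℕ, A.ι (Polynomial.aeval z q * z⁻¹ ^ N) ∈ S := by
    intro N
    have h1 := S.mul_mem hpr (hrN N)
    have h2 : A.ι (Polynomial.aeval z q) * (A.ι r)⁻¹ * A.ι (r * z⁻¹ ^ N) =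
        A.ι (Polynomial.aeval z q * z⁻¹ ^ N) := by
      have h3 : A.ι r ≠ 0 := fun h => hr0 ((map_eq_zero A.ι).1 h)
      rw [map_mul, ← mul_assoc, mul_assoc _ (A.ι r)⁻¹, inv_mul_cancel₀ h3, mul_one, ← map_mul]
    rw [h2] at h1
    exact h1
  obtain ⟨q₁, hq₁, hq₁0⟩ := Polynomial.exists_eq_pow_rootMultiplicity_mul_and_not_dvd q hq0 0
  set k := Polynomial.rootMultiplicity 0 q
  have hc : q₁.coeff 0 ≠ 0 := by
    intro h
    apply hq₁0
    rw [Polynomial.dvd_iff_isRoot, Polynomial.IsRoot, ← Polynomial.coeff_zero_eq_eval_zero]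
    exact h
  have h1 := hqN (k + 1)
  have h2 : Polynomial.aeval z q * z⁻¹ ^ (k + 1) =
      Polynomial.aeval z q₁.divX + (q₁.coeff 0 : K) * z⁻¹ := by
    have h3 : Polynomial.aeval z q₁ = Polynomial.aeval z q₁.divX * z + (q₁.coeff 0 : K) := by
      conv_lhs => rw [← Polynomial.divX_mul_X_add q₁]
      rw [map_add, map_mul, Polynomial.aeval_X, Polynomial.aeval_C]
      rfl
    rw [hq₁, map_mul, map_pow, map_sub, Polynomial.aeval_X, map_zero, map_zero, sub_zero, h3]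
    have h5 : z ^ k * z⁻¹ ^ k = 1 := by rw [← mul_pow, mul_inv_cancel₀ hz0, one_pow]
    calc z ^ k * (Polynomial.aeval z q₁.divX * z + (q₁.coeff 0 : K)) * z⁻¹ ^ (k + 1)
        = (z ^ k * z⁻¹ ^ k) * (Polynomial.aeval z q₁.divX * (z * z⁻¹) +
            (q₁.coeff 0 : K) * z⁻¹) := by
          rw [pow_succ]
          ring
      _ = _ := by
          rw [h5, mul_inv_cancel₀ hz0, mul_one, one_mul]
  rw [h2, map_add] at h1
  have h4 : A.ι ((q₁.coeff 0 : K) * z⁻¹) ∈ S := by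
    have h5 := S.sub_mem h1 (aeval_mem hFS hz q₁.divX)
    rwa [add_sub_cancel_left] at h5
  have h6 : A.ι ((q₁.coeff 0 : K)⁻¹) ∈ S :=
    hFS ⟨_, (fix T.g).inv_mem (q₁.coeff 0).2, rfl⟩
  have h7 := S.mul_mem h6 h4
  rw [← map_mul, ← mul_assoc, inv_mul_cancel₀, one_mul] at h7
  · exact h7
  · intro h
    exact hc (Subtype.ext h)

end D11b

open D11b in
theorem h378_D11b : S_F2 := by
  intro K _ _ T D _ A _ _ _ S hFS ⟨z, hzF, hz⟩ hd
  have hzFs : A.ι z ∉ A.Fs := by
    rintro ⟨y, hy, hyz⟩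
    rw [← A.ι.injective hyz] at hzF
    exact hzF hy
  rw [eq_top_iff]
  intro d _
  obtain ⟨p, hp, hp0, hpd⟩ := hd _ hz hzFs d
  obtain ⟨q, rfl⟩ := exists_poly z hp
  have h1 := inv_mem S hFS hd _ (aeval_mem hFS hz q)
  have h2 := S.mul_mem h1 hpd
  rw [map_inv₀, ← mul_assoc, inv_mul_cancel₀ hp0, one_mul] at h2
  exact h2

end Pool.Agent.Run7.h937
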