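import Pool.Agent.Run7.h378.IfaceD

/-! MP_5766af_al, piece D1, part 1: the operators `U` on quasi periodic functions. -/

noncomputable section

namespace Pool.Agent.Run7.h937.CP

open Finset Pool.Agent.Run7.h378

variable {K : Type} [Field K] [CharZero K] (C : Core K)

/-- value in `ℚ` -/
def vq (x : K) : WithTop ℚ := (C.v x).map (fun n : ℤ => (n : ℚ))

lemma vq_zero : vq C 0 = ⊤ := by simp [vq]

lemma vq_one : vq C 1 = 0 := by
  simp only [vq, AddValuation.map_one]
  rfl

lemma map_cast_add (a b : WithTop ℤ) : (a + b).map (fun n : ℤ => (n : ℚ)) =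
    a.map (fun n : ℤ => (n : ℚ)) + b.map (fun n : ℤ => (n : ℚ)) := by
  induction a using WithTop.recTopCoe with
  | top => simp
  | coe a =>
    induction b using WithTop.recTopCoe with
    | top => simp
    | coe b =>
      rw [← WithTop.coe_add]
      simp only [WithTop.map_coe]
      rw [← WithTop.coe_add]
      push_cast
      rfl

lemma map_cast_le (a b : WithTop ℤ) (h : a ≤ b) : a.map (fun n : ℤ => (n : ℚ)) ≤
    b.map (fun n : ℤ => (n : ℚ)) := by
  apply WithTop.monotone_map_iff.2 _ h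
  intro x y hxy
  change (x : ℚ) ≤ (y : ℚ)
  exact_mod_cast hxy

lemma vq_mul (x y : K) : vq C (x * y) = vq C x + vq C y := by
  simp only [vq, AddValuation.map_mul, map_cast_add]

lemma vq_add (x y : K) : min (vq C x) (vq C y) ≤ vq C (x + y) := by
  rcases le_total (C.v x) (C.v y) with h | h
  · refine (min_le_left _ _).trans (map_cast_le _ _ ?_)
    exact (le_min le_rfl h).trans (C.v.map_add x y)
  · refine (min_le_right _ _).trans (map_cast_le _ _ ?_)
    exact (le_min h le_rfl).trans (C.v.map_add x y)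

lemma vq_int (x : K) (hx : x ≠ 0) : ∃ n : ℤ, vq C x = ((n : ℚ) : WithTop ℚ) := by
  have h := (AddValuation.ne_top_iff C.v).2 hx
  obtain ⟨n, hn⟩ := WithTop.ne_top_iff_exists.1 h
  refine ⟨n, ?_⟩
  simp only [vq, ← hn, WithTop.map_coe]

lemma vq_top (x : K) : vq C x = ⊤ ↔ x = 0 := by
  constructor
  · intro h
    by_contra hx
    obtain ⟨n, hn⟩ := vq_int C x hx
    rw [h] at hn
    exact WithTop.top_ne_coe hn
  · rintro rfl
    exact vq_zero C

lemma vq_g (l : ℕ) (x : K) : vq C (C.g l x) = vq C x := by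
  simp only [vq, C.v_g]

lemma vq_a (l : ℕ) : vq C (C.a l) = 0 := by
  simp only [vq, C.v_a]
  rfl

lemma a_ne (l : ℕ) : C.a l ≠ 0 := by
  intro h
  have := C.v_a l
  rw [h, AddValuation.map_zero] at this
  exact absurd this (by simp)

lemma g_iter_v (l i : ℕ) (x : K) : C.v ((C.g l)^[i] x) = C.v x := by
  induction i generalizing x with
  | zero => rfl
  | succ i ih => rw [Function.iterate_succ_apply', C.v_g, ih]

lemma v_prod (s : Finset ℕ) (f : ℕ → K) (h : ∀ i ∈ s, C.v (f i) = 0) :
    C.v (∏ i ∈ s, f i) = 0 := by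
  classical
  induction s using Finset.induction_on with
  | empty => simp
  | insert a s ha ih =>
    rw [Finset.prod_insert ha, AddValuation.map_mul, h a (by simp),
      ih (fun i hi => h i (by simp [hi])), zero_add]

lemma v_c (l : ℕ) : C.v (C.c l) = 1 := by
  induction l with
  | zero => exact C.v_c
  | succ l ih =>
    rw [C.c_succ, AddValuation.map_mul, ih, v_prod, zero_add]
    intro i _
    rw [g_iter_v, C.v_a]

lemma vq_c (l : ℕ) : vq C (C.c l) = 1 := by
  simp only [vq, v_c]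
  rfl

lemma c_ne (l : ℕ) : C.c l ≠ 0 := by
  intro h
  have := v_c C l
  rw [h, AddValuation.map_zero] at this
  exact absurd this (by simp)

lemma g_pow (l : ℕ) (x : K) : (C.g l)^[2 ^ l] x = x := by
  induction l generalizing x with
  | zero => simpa using C.g_zero x
  | succ l ih =>
    have h : (2 : ℕ) ^ (l + 1) = 2 * 2 ^ l := by ring
    rw [h, Function.iterate_mul]
    have h2 : (C.g (l + 1))^[2] = C.g l := by
      funext y
      exact C.g_sq l y
    rw [h2, ih]

/-- Quasi-periodic functions. -/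
def V (L : ℕ) : AddSubgroup (ℤ → K) where
  carrier := {f | ∀ i : ℤ, C.c L * f (i + 2 ^ L) = f i}
  add_mem' := by
    intro f g hf hg i
    simp only [Pi.add_apply, mul_add]
    rw [hf i, hg i]
  zero_mem' := by
    intro i
    simp
  neg_mem' := by
    intro f hf i
    simp only [Pi.neg_apply, mul_neg]
    rw [hf i]

variable {C}

lemma V_per {L : ℕ} (f : V C L) (i : ℤ) : C.c L * f.1 (i + 2 ^ L) = f.1 i := f.2 i

/-- multiplication by a scalar -/
def IK (L : ℕ) : K →+* AddMonoid.End (V C L) where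
  toFun x :=
    { toFun := fun f => ⟨fun i => x * f.1 i, fun i => by
        change C.c L * (x * f.1 (i + 2 ^ L)) = x * f.1 i
        rw [← V_per f i]
        ring⟩
      map_zero' := by
        ext i
        simp
      map_add' := fun f g => by
        ext i
        simp [mul_add] }
  map_one' := by
    ext f i
    change (1 : K) * f.1 i = f.1 i
    rw [one_mul]
  map_mul' x y := by
    ext f i
    change (x * y) * f.1 i = x * (y * f.1 i)
    rw [mul_assoc]
  map_zero' := by
    ext f i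
    change (0 : K) * f.1 i = 0
    rw [zero_mul]
  map_add' x y := by
    ext f i
    change (x + y) * f.1 i = x * f.1 i + y * f.1 i
    rw [add_mul]

/-- the generator -/
def UL (L : ℕ) : AddMonoid.End (V C L) :=
  { toFun := fun f => ⟨fun i => C.g L (f.1 (i - 1)), fun i => by
      change C.c L * C.g L (f.1 (i + 2 ^ L - 1)) = C.g L (f.1 (i - 1))
      have h := V_per f (i - 1)
      have h2 : i - 1 + 2 ^ L = i + 2 ^ L - 1 := by ring
      rw [h2] at h
      rw [← h, map_mul, C.g_c]⟩
    map_zero' := by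
      ext i
      simp
    map_add' := fun f g => by
      ext i
      simp }

lemma IK_apply (L : ℕ) (x : K) (f : V C L) (i : ℤ) : (IK L x f).1 i = x * f.1 i := rfl

lemma UL_apply (L : ℕ) (f : V C L) (i : ℤ) : (UL L f).1 i = C.g L (f.1 (i - 1)) := rfl

lemma UL_comm (L : ℕ) (x : K) : UL (C := C) L * IK L x = IK L (C.g L x) * UL L := by
  ext f i
  change C.g L (x * f.1 (i - 1)) = C.g L x * C.g L (f.1 (i - 1))
  rw [map_mul]

lemma UL_pow_apply (L n : ℕ) (f : V C L) (i : ℤ) :
    ((UL L ^ n) f).1 i = (C.g L)^[n] (f.1 (i - n)) := by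
  induction n generalizing f i with
  | zero => simp
  | succ n ih =>
    rw [pow_succ]
    change ((UL L ^ n) (UL L f)).1 i = _
    have h : (i - n - 1 : ℤ) = i - ((n + 1 : ℕ) : ℤ) := by
      push_cast
      ring
    rw [ih, UL_apply, Function.iterate_succ_apply, h]

lemma UL_pow (L : ℕ) : UL (C := C) L ^ (2 ^ L) = IK L (C.c L) := by
  ext f i
  rw [UL_pow_apply, g_pow, IK_apply]
  have h := V_per f (i - 2 ^ L)
  rw [sub_add_cancel] at h
  simp only [Nat.cast_pow, Nat.cast_ofNat]
  exact h.symm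

/-- the term -/
def ph (L : ℕ) (f : V C L) (i : ℤ) : WithTop ℚ := vq C (f.1 i) + (((i : ℚ) / 2 ^ L : ℚ) : WithTop ℚ)

lemma ph_per (L : ℕ) (f : V C L) (i : ℤ) : ph L f (i + 2 ^ L) = ph L f i := by
  unfold ph
  rw [← V_per f i, vq_mul, vq_c]
  have h : (((i + 2 ^ L : ℤ) : ℚ) / 2 ^ L : ℚ) = 1 + (i : ℚ) / 2 ^ L := by
    push_cast
    rw [add_div, div_self (by positivity), add_comm]
  rw [h, WithTop.coe_add]
  simp only [WithTop.coe_one]
  abel

lemma ph_per' (L : ℕ) (f : V C L) (i k : ℤ) : ph L f (i + 2 ^ L * k) = ph L f i := by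
  have h : Function.Periodic (ph L f) (2 ^ L) := ph_per L f
  have h2 := h.int_mul k i
  rw [mul_comm] at h2
  exact_mod_cast h2

/-- the norm of a quasi-periodic function -/
def Nm' (L : ℕ) (f : V C L) : WithTop ℚ := (range (2 ^ L)).inf (fun i => ph L f (i : ℤ))

lemma Nm_le (L : ℕ) (f : V C L) (i : ℤ) : Nm' L f ≤ ph L f i := by
  have h1 : ph L f i = ph L f (i % 2 ^ L) := by
    conv_lhs => rw [← Int.emod_add_mul_ediv i (2 ^ L)]
    rw [ph_per']
  have h2 : 0 ≤ i % 2 ^ L := Int.emod_nonneg _ (by positivity)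
  have h3 : i % 2 ^ L < 2 ^ L := Int.emod_lt_of_pos _ (by positivity)
  obtain ⟨n, hn⟩ := Int.eq_ofNat_of_zero_le h2
  rw [h1, hn]
  apply Finset.inf_le
  rw [hn] at h3
  rw [mem_range]
  exact_mod_cast h3

lemma Nm_att (L : ℕ) (f : V C L) : ∃ i : ℤ, Nm' L f = ph L f i := by
  obtain ⟨i, _, hi⟩ := Finset.exists_mem_eq_inf (range (2 ^ L))
    (by rw [nonempty_range_iff]; positivity) (fun i => ph L f (i : ℤ))
  exact ⟨i, hi⟩

lemma Nm_top (L : ℕ) (f : V C L) : Nm' L f = ⊤ ↔ f = 0 := by
  constructor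
  · intro h
    ext i
    have h1 := Nm_le L f i
    rw [h, top_le_iff] at h1
    unfold ph at h1
    rw [WithTop.add_eq_top] at h1
    rcases h1 with h1 | h1
    · exact (vq_top C _).1 h1
    · exact absurd h1 WithTop.coe_ne_top
  · rintro rfl
    obtain ⟨i, hi⟩ := Nm_att L (0 : V C L)
    rw [hi]
    unfold ph
    change vq C 0 + _ = _
    rw [vq_zero, top_add]

lemma Nm_add (L : ℕ) (f g : V C L) : min (Nm' L f) (Nm' L g) ≤ Nm' L (f + g) := by
  obtain ⟨i, hi⟩ := Nm_att L (f + g)
  rw [hi]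
  have h1 : min (ph L f i) (ph L g i) ≤ ph L (f + g) i := by
    unfold ph
    have h2 := vq_add C (f.1 i) (g.1 i)
    rcases min_le_iff.1 h2 with h3 | h3
    · refine (min_le_left _ _).trans ?_
      gcongr
      exact h3
    · refine (min_le_right _ _).trans ?_
      gcongr
      exact h3
  exact (min_le_min (Nm_le L f i) (Nm_le L g i)).trans h1

lemma Nm_IK (L : ℕ) (x : K) (f : V C L) : Nm' L (IK L x f) = vq C x + Nm' L f := by
  have h : ∀ i, ph L (IK L x f) i = vq C x + ph L f i := by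
    intro i
    unfold ph
    rw [IK_apply, vq_mul, add_assoc]
  apply le_antisymm
  · obtain ⟨i, hi⟩ := Nm_att L f
    rw [hi, ← h]
    exact Nm_le L _ i
  · obtain ⟨i, hi⟩ := Nm_att L (IK L x f)
    rw [hi, h]
    gcongr
    exact Nm_le L _ i

lemma Nm_UL (L : ℕ) (f : V C L) :
    Nm' L (UL L f) = (((1 : ℚ) / 2 ^ L : ℚ) : WithTop ℚ) + Nm' L f := by
  have h : ∀ i, ph L (UL L f) (i + 1) = (((1 : ℚ) / 2 ^ L : ℚ) : WithTop ℚ) + ph L f i := by
    intro i
    unfold ph
    rw [UL_apply, vq_g, add_sub_cancel_right]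
    have h2 : (((i + 1 : ℤ) : ℚ) / 2 ^ L : ℚ) = 1 / 2 ^ L + (i : ℚ) / 2 ^ L := by
      push_cast
      rw [← add_div]
      congr 1
      ring
    rw [h2, WithTop.coe_add]
    abel
  apply le_antisymm
  · obtain ⟨i, hi⟩ := Nm_att L f
    rw [hi, ← h]
    exact Nm_le L _ _
  · obtain ⟨i, hi⟩ := Nm_att L (UL L f)
    have h3 := h (i - 1)
    rw [sub_add_cancel] at h3
    rw [hi, h3]
    gcongr
    exact Nm_le L _ _

lemma exists_ne (L : ℕ) : ∃ f : V C L, f ≠ 0 := by
  classical
  refine ⟨⟨fun i => if (2 : ℤ) ^ L ∣ i then (C.c L) ^ (-(i / 2 ^ L)) else 0, ?_⟩, ?_⟩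
  · intro i
    by_cases h : (2 : ℤ) ^ L ∣ i
    · have h2 : (2 : ℤ) ^ L ∣ i + 2 ^ L := by
        exact dvd_add h dvd_rfl
      simp only [h, h2, if_true]
      obtain ⟨k, rfl⟩ := h
      have h3 : ((2 : ℤ) ^ L * k + 2 ^ L) / 2 ^ L = k + 1 := by
        rw [show (2 : ℤ) ^ L * k + 2 ^ L = 2 ^ L * (k + 1) by ring]
        exact Int.mul_ediv_cancel_left _ (by positivity)
      have h4 : ((2 : ℤ) ^ L * k) / 2 ^ L = k := Int.mul_ediv_cancel_left _ (by positivity)
      rw [h3, h4, neg_add, zpow_add₀ (c_ne C L)]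
      have := c_ne C L
      field_simp
    · have h2 : ¬ (2 : ℤ) ^ L ∣ i + 2 ^ L := by
        intro h3
        apply h
        have := dvd_sub h3 (dvd_refl ((2 : ℤ) ^ L))
        simpa using this
      simp [h, h2]
  · intro h
    have h1 := congrArg (fun f : V C L => f.1 0) h
    simp at h1

end Pool.Agent.Run7.h937.CP
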