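import Pool.Agent.Run7.h937.h378_D1a

/-! MP_5766af_al, piece D1, part 2: the tower inside one level, germs. -/

noncomputable section

namespace Pool.Agent.Run7.h937.CP

open Finset Pool.Agent.Run7.h378

variable {K : Type} [Field K] [CharZero K] {C : Core K}

/-- `u_{L-k}` inside level `L` -/
def UU (L : ℕ) : ℕ → AddMonoid.End (V C L)
  | 0 => UL L
  | (k + 1) => IK L (C.a (L - (k + 1)))⁻¹ * (UU L k * UU L k)

lemma UU_comm (L k : ℕ) (h : k ≤ L) (x : K) :
    UU (C := C) L k * IK L x = IK L (C.g (L - k) x) * UU L k := by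
  induction k generalizing x with
  | zero => exact UL_comm L x
  | succ k ih =>
    have ih' := ih (by omega)
    have h1 : L - k = (L - (k + 1)) + 1 := by omega
    simp only [UU]
    rw [mul_assoc, mul_assoc, ih' x, ← mul_assoc (UU L k), ih', h1, C.g_sq, mul_assoc,
      ← mul_assoc, ← map_mul, ← mul_assoc (IK L _) (IK L _), ← map_mul, mul_comm (C.a _)⁻¹]

omit [CharZero K] in
lemma pow_twist {A : Type} [Ring A] (j : K →+* A) (h : K → K) (W : A)
    (hW : ∀ x, W * j x = j (h x) * W) (x : K) (n : ℕ) :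
    (j x * W) ^ n = j (∏ i ∈ range n, h^[i] x) * W ^ n := by
  induction n with
  | zero => simp
  | succ n ih =>
    have h2 : ∀ m, ∀ y, W ^ m * j y = j (h^[m] y) * W ^ m := by
      intro m
      induction m with
      | zero => intro y; simp
      | succ m ihm =>
        intro y
        rw [pow_succ, mul_assoc, hW, ← mul_assoc, ihm, mul_assoc, Function.iterate_succ_apply]
    rw [pow_succ, ih, prod_range_succ, map_mul, pow_succ, mul_assoc, ← mul_assoc (W ^ n), h2]
    simp only [mul_assoc]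

lemma UU_pow (L k : ℕ) (h : k ≤ L) :
    UU (C := C) L k ^ (2 ^ (L - k)) = IK L (C.c (L - k)) := by
  induction k with
  | zero => exact UL_pow L
  | succ k ih =>
    have ih' := ih (by omega)
    have h1 : L - k = (L - (k + 1)) + 1 := by omega
    simp only [UU]
    set l := L - (k + 1) with hl
    have hW : ∀ x, (UU (C := C) L k * UU L k) * IK L x = IK L (C.g l x) * (UU L k * UU L k) := by
      intro x
      rw [mul_assoc, UU_comm L k (by omega), ← mul_assoc, UU_comm L k (by omega), mul_assoc, h1,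
        C.g_sq]
    rw [pow_twist (IK L) (C.g l) _ hW]
    have h2 : (UU (C := C) L k * UU L k) ^ (2 ^ l) = IK L (C.c (l + 1)) := by
      rw [← pow_two, ← pow_mul, ← h1, ← ih', h1]
      congr 1
      ring
    rw [h2, ← map_mul, C.c_succ]
    congr 1
    have h3 : ∀ i, (C.g l)^[i] (C.a l)⁻¹ = ((C.g l)^[i] (C.a l))⁻¹ := by
      intro i
      induction i with
      | zero => rfl
      | succ i ihi => rw [Function.iterate_succ_apply', ihi, map_inv₀, Function.iterate_succ_apply']
    have h4 : ∀ i, (C.g l)^[i] (C.a l) ≠ 0 := by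
      intro i h0
      have h5 := g_iter_v C l i (C.a l)
      rw [h0, C.v_a, AddValuation.map_zero] at h5
      exact absurd h5 (by simp)
    simp only [h3]
    rw [prod_inv_distrib, ← mul_assoc, inv_mul_cancel₀, one_mul]
    exact prod_ne_zero_iff.2 (fun i _ => h4 i)

lemma UU_norm (L k : ℕ) (h : k ≤ L) (f : V C L) :
    Nm' L (UU L k f) = (((1 : ℚ) / 2 ^ (L - k) : ℚ) : WithTop ℚ) + Nm' L f := by
  induction k generalizing f with
  | zero => exact Nm_UL L f
  | succ k ih =>
    have ih' := ih (by omega)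
    have h1 : L - k = (L - (k + 1)) + 1 := by omega
    simp only [UU]
    change Nm' L (IK L _ (UU L k (UU L k f))) = _
    rw [Nm_IK, ih', ih', ← add_assoc, ← add_assoc]
    congr 1
    have h2 : vq C (C.a (L - (k + 1)))⁻¹ = 0 := by
      have h3 := vq_mul C (C.a (L - (k + 1)))⁻¹ (C.a (L - (k + 1)))
      rw [inv_mul_cancel₀ (a_ne C _), vq_one, vq_a, add_zero] at h3
      exact h3.symm
    rw [h2, zero_add, h1, ← WithTop.coe_add]
    congr 1
    rw [pow_succ]
    field_simp
    norm_num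

lemma mono_norm (L k : ℕ) (h : k ≤ L) (x : K) (i : ℕ) (f : V C L) :
    Nm' L ((IK (C := C) L x * UU L k ^ i : AddMonoid.End (V C L)) f) =
      (vq C x + (((i : ℚ) / 2 ^ (L - k) : ℚ) : WithTop ℚ)) + Nm' L f := by
  change Nm' L (IK L x ((UU L k ^ i) f)) = _
  rw [Nm_IK, add_assoc]
  congr 1
  induction i generalizing f with
  | zero => simp
  | succ i ih =>
    rw [pow_succ]
    change Nm' L ((UU L k ^ i) (UU L k f)) = _
    rw [ih, UU_norm L k h, ← add_assoc, ← WithTop.coe_add]
    congr 2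
    push_cast
    ring

lemma Nm_neg (L : ℕ) (f : V C L) : Nm' L (-f) = Nm' L f := by
  have h : ∀ i, ph L (-f) i = ph L f i := by
    intro i
    unfold ph vq
    change WithTop.map _ (C.v (-(f.1 i))) + _ = _
    rw [AddValuation.map_neg]
  unfold Nm'
  simp only [h]

lemma Nm_add_lt (L : ℕ) (a b : V C L) (h : Nm' L a < Nm' L b) : Nm' L (a + b) = Nm' L a := by
  apply le_antisymm
  · by_contra h2
    push Not at h2
    have h3 := Nm_add L (a + b) (-b)
    rw [add_neg_cancel_right, Nm_neg] at h3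
    exact absurd h3 (not_le.2 (lt_min h2 h))
  · have h3 := Nm_add L a b
    rwa [min_eq_left h.le] at h3

lemma sum_norm (L : ℕ) (T : ℕ → AddMonoid.End (V C L)) (q : ℕ → WithTop ℚ) (s : Finset ℕ)
    (hT : ∀ i ∈ s, ∀ f, Nm' L (T i f) = q i + Nm' L f)
    (hq : ∀ i ∈ s, ∀ j ∈ s, i ≠ j → q i = q j → q i = ⊤) (f : V C L) :
    Nm' L ((∑ i ∈ s, T i) f) = s.inf q + Nm' L f := by
  classical
  by_cases hf : f = 0
  · subst hf
    rw [map_zero, (Nm_top L 0).2 rfl, add_top]
  have hf' : Nm' L f ≠ ⊤ := fun h => hf ((Nm_top L f).1 h)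
  induction s using Finset.induction_on with
  | empty =>
    rw [sum_empty, inf_empty, top_add]
    exact (Nm_top L 0).2 rfl
  | insert j s hj ih =>
    have ih' := ih (fun i hi => hT i (by simp [hi]))
      (fun i hi k hk => hq i (by simp [hi]) k (by simp [hk]))
    have hj' := hT j (by simp) f
    rw [sum_insert hj, inf_insert]
    change Nm' L (T j f + (∑ i ∈ s, T i) f) = _
    rcases lt_trichotomy (q j) (s.inf q) with h | h | h
    · rw [Nm_add_lt, hj', inf_eq_left.2 h.le]
      rw [hj', ih']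
      exact WithTop.add_lt_add_right hf' h
    · have htop : q j = ⊤ := by
        rcases s.eq_empty_or_nonempty with hs | hs
        · subst hs
          simpa using h
        · obtain ⟨i, hi, hi2⟩ := Finset.exists_mem_eq_inf s hs q
          rw [hi2] at h
          refine hq j (by simp) i (by simp [hi]) ?_ h
          rintro rfl
          exact hj hi
      rw [← h, inf_idem, htop, top_add]
      rw [htop, top_add] at hj'
      rw [← h, htop, top_add] at ih'
      rw [(Nm_top L _).1 hj', (Nm_top L _).1 ih', add_zero]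
      exact (Nm_top L 0).2 rfl
    · rw [add_comm (T j f), Nm_add_lt, ih', inf_eq_right.2 h.le]
      rw [hj', ih']
      exact WithTop.add_lt_add_right hf' h

lemma val_distinct (l i j : ℕ) (hi : i < 2 ^ l) (hj : j < 2 ^ l) (x y : K)
    (h : vq C x + (((i : ℚ) / 2 ^ l : ℚ) : WithTop ℚ) =
      vq C y + (((j : ℚ) / 2 ^ l : ℚ) : WithTop ℚ)) (hij : i ≠ j) :
    vq C x + (((i : ℚ) / 2 ^ l : ℚ) : WithTop ℚ) = ⊤ := by
  by_cases hx : x = 0
  · rw [hx, vq_zero, top_add]
  by_cases hy : y = 0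
  · rw [hy, vq_zero, top_add] at h
    exact h
  exfalso
  obtain ⟨n, hn⟩ := vq_int C x hx
  obtain ⟨m, hm⟩ := vq_int C y hy
  rw [hn, hm, ← WithTop.coe_add, ← WithTop.coe_add] at h
  have h1 := WithTop.coe_injective h
  have h2 : (n : ℚ) * 2 ^ l + i = m * 2 ^ l + j := by
    have h3 : (2 : ℚ) ^ l ≠ 0 := by positivity
    field_simp at h1
    linarith
  have h4 : (n : ℤ) * 2 ^ l + i = m * 2 ^ l + j := by exact_mod_cast h2
  apply hij
  have h5 : ((i : ℤ)) % 2 ^ l = (j : ℤ) % 2 ^ l := by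
    have h6 : ((n : ℤ) * 2 ^ l + i) % 2 ^ l = (m * 2 ^ l + j) % 2 ^ l := by rw [h4]
    simpa [Int.add_emod] using h6
  rw [Int.emod_eq_of_lt (by positivity) (by exact_mod_cast hi),
    Int.emod_eq_of_lt (by positivity) (by exact_mod_cast hj)] at h5
  exact_mod_cast h5

variable (C) in
/-- the product ring -/
abbrev RR : Type := ∀ L, AddMonoid.End (V C L)

variable (C) in
/-- eventual equality -/
def con : RingCon (RR C) where
  r x y := ∃ N, ∀ L, N ≤ L → x L = y L
  iseqv := by
    refine ⟨fun x => ⟨0, fun L _ => rfl⟩, ?_, ?_⟩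
    · rintro x y ⟨N, h⟩
      exact ⟨N, fun L hL => (h L hL).symm⟩
    · rintro x y z ⟨N, h⟩ ⟨N', h'⟩
      exact ⟨max N N', fun L hL => (h L (le_trans (le_max_left _ _) hL)).trans
        (h' L (le_trans (le_max_right _ _) hL))⟩
  add' := by
    rintro w x y z ⟨N, h⟩ ⟨N', h'⟩
    refine ⟨max N N', fun L hL => ?_⟩
    rw [Pi.add_apply, Pi.add_apply, h L (le_trans (le_max_left _ _) hL),
      h' L (le_trans (le_max_right _ _) hL)]
  mul' := by
    rintro w x y z ⟨N, h⟩ ⟨N', h'⟩
    refine ⟨max N N', fun L hL => ?_⟩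
    rw [Pi.mul_apply, Pi.mul_apply, h L (le_trans (le_max_left _ _) hL),
      h' L (le_trans (le_max_right _ _) hL)]

variable (C) in
/-- the germ ring -/
def QQ : Type := (con C).Quotient

variable (C) in
instance instQQ : Ring (QQ C) := inferInstanceAs (Ring (con C).Quotient)

variable (C) in
/-- quotient map -/
def mk : RR C →+* QQ C := (con C).mk'

lemma mk_eq {x y : RR C} : mk C x = mk C y ↔ ∃ N, ∀ L, N ≤ L → x L = y L :=
  (con C).eq

lemma mk_surj (d : QQ C) : ∃ r, mk C r = d := (con C).mk'_surjective d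

/-- valued representatives -/
def HasVal (r : RR C) (q : WithTop ℚ) : Prop :=
  ∃ N, ∀ L, N ≤ L → ∀ f : V C L, Nm' L (r L f) = q + Nm' L f

/-- valued germs -/
def HV (d : QQ C) (q : WithTop ℚ) : Prop := ∃ r, mk C r = d ∧ HasVal r q

lemma HV_mul {d d' : QQ C} {q q' : WithTop ℚ} (h : HV d q) (h' : HV d' q') :
    HV (d * d') (q + q') := by
  obtain ⟨r, rfl, N, hr⟩ := h
  obtain ⟨r', rfl, N', hr'⟩ := h'
  refine ⟨r * r', map_mul _ _ _, max N N', fun L hL f => ?_⟩
  change Nm' L (r L (r' L f)) = _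
  rw [hr L (le_trans (le_max_left _ _) hL), hr' L (le_trans (le_max_right _ _) hL), add_assoc]

lemma HV_add_le {d d' : QQ C} {q q' q'' : WithTop ℚ} (h : HV d q) (h' : HV d' q')
    (h'' : HV (d + d') q'') : min q q' ≤ q'' := by
  obtain ⟨r, rfl, N, hr⟩ := h
  obtain ⟨r', rfl, N', hr'⟩ := h'
  obtain ⟨r'', h3, N'', hr''⟩ := h''
  rw [← map_add, mk_eq] at h3
  obtain ⟨N3, h3⟩ := h3
  set L := max (max N N') (max N'' N3) with hL
  obtain ⟨f, hf⟩ := exists_ne (C := C) L
  have e1 := hr L (by omega) f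
  have e2 := hr' L (by omega) f
  have e3 := hr'' L (by omega) f
  have e4 := h3 L (by omega)
  rw [e4] at e3
  have e5 := Nm_add L (r L f) (r' L f)
  rw [e1, e2] at e5
  have hf' : Nm' L f ≠ ⊤ := fun h => hf ((Nm_top L f).1 h)
  have e6 : min (q + Nm' L f) (q' + Nm' L f) ≤ q'' + Nm' L f := by
    rw [← e3]
    exact e5
  rcases min_le_iff.1 e6 with h | h
  · exact (min_le_left _ _).trans (WithTop.le_of_add_le_add_right hf' h)
  · exact (min_le_right _ _).trans (WithTop.le_of_add_le_add_right hf' h)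

lemma HV_zero : HV (0 : QQ C) ⊤ := by
  refine ⟨0, map_zero _, 0, fun L _ f => ?_⟩
  rw [top_add]
  exact (Nm_top L 0).2 rfl

lemma HV_one : HV (1 : QQ C) 0 := by
  refine ⟨1, map_one _, 0, fun L _ f => ?_⟩
  rw [zero_add]
  rfl

lemma HV_le {d : QQ C} {q q' : WithTop ℚ} (h : HV d q) (h' : HV d q') : q ≤ q' := by
  have h0 : d + 0 = d := add_zero d
  have h2 := HV_add_le h HV_zero (h0.symm ▸ h' : HV (d + 0) q')
  simpa using h2

lemma HV_unique {d : QQ C} {q q' : WithTop ℚ} (h : HV d q) (h' : HV d q') : q = q' :=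
  le_antisymm (HV_le h h') (HV_le h' h)

lemma HV_top {d : QQ C} (h : HV d ⊤) : d = 0 := by
  obtain ⟨r, rfl, N, hr⟩ := h
  rw [← map_zero (mk C), mk_eq]
  refine ⟨N, fun L hL => ?_⟩
  ext f i
  have h1 := hr L hL f
  rw [top_add] at h1
  rw [(Nm_top L _).1 h1]
  rfl

variable (C) in
/-- the field in the germ ring -/
def jK : K →+* QQ C := (mk C).comp (RingHom.pi (fun L => IK (C := C) L))

variable (C) in
/-- the elements `u l` -/
def uQ (l : ℕ) : QQ C := mk C (fun L => UU L (L - l))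

lemma jK_mk (x : K) : jK C x = mk C (fun L => IK L x) := rfl

lemma uQ_comm (l : ℕ) (x : K) : uQ C l * jK C x = jK C (C.g l x) * uQ C l := by
  rw [jK_mk, jK_mk, uQ, ← map_mul, ← map_mul, mk_eq]
  refine ⟨l, fun L hL => ?_⟩
  change UU L (L - l) * IK L x = IK L (C.g l x) * UU L (L - l)
  rw [UU_comm L _ (by omega)]
  congr 4
  omega

lemma uQ_sq (l : ℕ) : uQ C (l + 1) * uQ C (l + 1) = jK C (C.a l) * uQ C l := by
  rw [jK_mk, uQ, uQ, ← map_mul, ← map_mul, mk_eq]
  refine ⟨l + 1, fun L hL => ?_⟩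
  change UU L (L - (l + 1)) * UU L (L - (l + 1)) = IK L (C.a l) * UU L (L - l)
  have h1 : L - l = (L - (l + 1)) + 1 := by omega
  rw [h1, UU, ← mul_assoc (IK L _), ← map_mul]
  have h2 : L - (L - (l + 1) + 1) = l := by omega
  rw [h2, mul_inv_cancel₀ (a_ne C l), map_one, one_mul]

lemma uQ_pow (l : ℕ) : uQ C l ^ (2 ^ l) = jK C (C.c l) := by
  rw [jK_mk, uQ, ← map_pow, mk_eq]
  refine ⟨l, fun L hL => ?_⟩
  change UU L (L - l) ^ (2 ^ l) = _
  have h2 : L - (L - l) = l := by omega
  have h := UU_pow (C := C) L (L - l) (by omega)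
  rw [h2] at h
  exact h

lemma uQ_zero : uQ C 0 = jK C (C.c 0) := by
  have h := uQ_pow (C := C) 0
  simpa using h

lemma HV_jK (x : K) : HV (jK C x) (vq C x) :=
  ⟨fun L => IK L x, rfl, 0, fun L _ f => Nm_IK L x f⟩

lemma HV_uQ (l : ℕ) : HV (uQ C l) (((1 : ℚ) / 2 ^ l : ℚ) : WithTop ℚ) := by
  refine ⟨fun L => UU L (L - l), rfl, l, fun L hL f => ?_⟩
  change Nm' L (UU L (L - l) f) = _
  rw [UU_norm L _ (by omega)]
  congr 4
  omega

lemma HV_sum (l : ℕ) (f : ℕ → K) : HV (∑ i ∈ range (2 ^ l), jK C (f i) * uQ C l ^ i)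
    ((range (2 ^ l)).inf (fun i => vq C (f i) + (((i : ℚ) / 2 ^ l : ℚ) : WithTop ℚ))) := by
  refine ⟨fun L => ∑ i ∈ range (2 ^ l), IK L (f i) * UU L (L - l) ^ i, ?_, l, fun L hL h => ?_⟩
  · have h1 : (fun L => ∑ i ∈ range (2 ^ l), IK (C := C) L (f i) * UU L (L - l) ^ i) =
        ∑ i ∈ range (2 ^ l), ((fun L => IK L (f i)) * (fun L => UU L (L - l)) ^ i : RR C) := by
      funext L
      rw [Finset.sum_apply]
      rfl
    rw [h1, map_sum]
    simp only [map_mul, map_pow]
    rfl
  · have h2 : L - (L - l) = l := by omega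
    apply sum_norm L (fun i => IK L (f i) * UU L (L - l) ^ i)
    · intro i _ g
      have h3 := mono_norm (C := C) L (L - l) (by omega) (f i) i g
      rw [h2] at h3
      exact h3
    · intro i hi j hj hij he
      exact val_distinct l i j (mem_range.1 hi) (mem_range.1 hj) _ _ he hij

end Pool.Agent.Run7.h937.CP
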