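import Pool.Agent.Run7.h378.IfaceD
import Pool.Agent.Run7.h324.DA.F3

/-! MP_5766af_al, piece D7b (left local finiteness). -/

noncomputable section

namespace Pool.Agent.Run7.h937

open Finset Pool.Agent.Run7.h378

namespace D7b

open Polynomial

open scoped IsMulCommutative in
lemma core {D : Type} [DivisionRing D] (R₀ L₀ : Subring D) (hle : R₀ ≤ L₀)
    (hcomm : ∀ x ∈ L₀, ∀ y ∈ L₀, x * y = y * x) (N : ℕ) (z : ℕ → D) (hz : ∀ i, z i ∈ L₀)
    (hz0 : ∃ i, i ≤ N ∧ z i ≠ 0)
    (halg : ∀ i, ∃ (n : ℕ) (p : ℕ → D), (∀ k, p k ∈ R₀) ∧ p n ≠ 0 ∧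
      ∑ k ∈ range (n + 1), p k * (z i) ^ k = 0)
    (d e : D) (he : e ≠ 0) (hrel : ∑ i ∈ range (N + 1), z i * d * e ^ i = 0) :
    ∃ (n : ℕ) (p : ℕ → D), (∀ i, p i ∈ R₀) ∧ p 0 ≠ 0 ∧
      ∑ i ∈ range (n + 1), p i * d * e ^ i = 0 := by
  classical
  have i1 : IsMulCommutative L₀ :=
    IsMulCommutative.of_comm fun a b => Subtype.ext (hcomm a a.2 b b.2)
  have i2 : IsMulCommutative R₀ :=
    IsMulCommutative.of_comm fun a b => Subtype.ext (hcomm a (hle a.2) b (hle b.2))
  let j : R₀ →+* L₀ := Subring.inclusion hle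
  have hjinj : Function.Injective j := Subring.inclusion_injective hle
  let J : R₀[X] →+* L₀[X] := Polynomial.mapRingHom j
  let _ : Algebra R₀[X] L₀[X] := J.toAlgebra
  have hJ : ∀ p : R₀[X], algebraMap R₀[X] L₀[X] p = J p := fun _ => rfl
  have hJinj : Function.Injective J := Polynomial.map_injective j hjinj
  -- algebraicity
  have h1 : ∀ i, IsAlgebraic R₀[X] (C ⟨z i, hz i⟩ : L₀[X]) := by
    intro i
    obtain ⟨n, p, hp, hpn, hs⟩ := halg i
    refine ⟨∑ k ∈ range (n + 1), monomial k (C (⟨p k, hp k⟩ : R₀)), ?_, ?_⟩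
    · intro h0
      have h2 := congrArg (fun q => coeff q n) h0
      simp only [finsetSum_coeff, coeff_monomial, coeff_zero] at h2
      rw [sum_ite_eq' (range (n + 1)) n, if_pos (by simp), C_eq_zero] at h2
      exact hpn (congrArg Subtype.val h2)
    · rw [map_sum]
      have h3 : ∀ k, aeval (C ⟨z i, hz i⟩ : L₀[X]) (monomial k (C (⟨p k, hp k⟩ : R₀))) =
          C ((⟨p k, hle (hp k)⟩ : L₀) * (⟨z i, hz i⟩ : L₀) ^ k) := by
        intro k
        rw [aeval_monomial, hJ, C_mul, C_pow]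
        congr 1
        simp only [J, coe_mapRingHom, map_C]
        rfl
      simp only [h3]
      rw [← map_sum, C_eq_zero]
      apply Subtype.ext
      have h4 : ((∑ k ∈ range (n + 1), (⟨p k, hle (hp k)⟩ : L₀) * (⟨z i, hz i⟩ : L₀) ^ k : L₀) : D)
          = ∑ k ∈ range (n + 1), p k * (z i) ^ k := by
        change L₀.subtype _ = _
        rw [map_sum]
        rfl
      rw [h4, hs]
      rfl
  have h2 : IsAlgebraic R₀[X] (X : L₀[X]) := by
    have h3 : (X : L₀[X]) = algebraMap R₀[X] L₀[X] X := by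
      rw [hJ]
      simp [J]
    rw [h3]
    exact isAlgebraic_algebraMap _
  set h : L₀[X] := ∑ i ∈ range (N + 1), C ⟨z i, hz i⟩ * X ^ i with hh
  have h3 : IsAlgebraic R₀[X] h := by
    have h4 : h ∈ Subalgebra.algebraicClosure R₀[X] L₀[X] :=
      sum_mem fun i _ => mul_mem (h1 i) (pow_mem h2 i)
    exact h4
  have h4 : h ≠ 0 := by
    obtain ⟨i, hi, hzi⟩ := hz0
    intro h0
    have h5 := congrArg (fun q => coeff q i) h0
    simp only [hh, finsetSum_coeff, coeff_C_mul, coeff_X_pow, coeff_zero] at h5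
    rw [sum_eq_single i] at h5
    · simp only [if_true, mul_one] at h5
      exact hzi (congrArg Subtype.val h5)
    · intro b _ hb
      rw [if_neg (Ne.symm hb), mul_zero]
    · intro hn
      exact absurd (mem_range.2 (by omega)) hn
  obtain ⟨r, hr0, c, hc⟩ := h3.exists_nonzero_dvd (mem_nonZeroDivisors_of_ne_zero h4)
  -- the action
  let lm : L₀ →+* AddMonoid.End D := (Module.toAddMonoidEnd D D).comp L₀.subtype
  let rm : AddMonoid.End D := AddMonoidHom.mulRight e
  have hlr : ∀ a, Commute (lm a) rm := by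
    intro a
    apply AddMonoidHom.ext
    intro y
    change (a : D) * (y * e) = ((a : D) * y) * e
    rw [mul_assoc]
  let φ : L₀[X] →+* AddMonoid.End D := eval₂RingHom' lm rm hlr
  have hrm : ∀ (i : ℕ) (y : D), (rm ^ i) y = y * e ^ i := by
    intro i
    induction i with
    | zero => intro y; simp
    | succ i ih =>
      intro y
      rw [pow_succ]
      change (rm ^ i) (y * e) = _
      rw [ih, mul_assoc, ← pow_succ']
  have hφm : ∀ (a : L₀) (i : ℕ) (y : D), φ (C a * X ^ i) y = a * y * e ^ i := by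
    intro a i y
    have h5 : φ (C a * X ^ i) = lm a * rm ^ i := by
      rw [map_mul, map_pow]
      congr 1
      · exact eval₂_C _ _
      · congr 1
        exact eval₂_X _ _
    rw [h5]
    change (a : D) * (rm ^ i) y = _
    rw [hrm, mul_assoc]
  have hsum : ∀ (s : Finset ℕ) (f : ℕ → AddMonoid.End D) (y : D),
      (∑ i ∈ s, f i) y = ∑ i ∈ s, f i y := by
    intro s f y
    induction s using Finset.induction_on with
    | empty => rfl
    | insert a s ha ih =>
      rw [sum_insert ha, sum_insert ha, ← ih]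
      rfl
  have hφh : φ h d = 0 := by
    rw [hh, map_sum, hsum]
    simp only [hφm]
    exact hrel
  have hφr : φ (J r) d = 0 := by
    have h5 : J r = c * h := by
      rw [mul_comm]
      exact hc
    rw [h5, map_mul]
    change φ c (φ h d) = 0
    rw [hφh, map_zero]
  have hφr' : ∑ i ∈ range (r.natDegree + 1), (r.coeff i : D) * d * e ^ i = 0 := by
    have h5 : J r = ∑ i ∈ range (r.natDegree + 1), C (j (r.coeff i)) * X ^ i := by
      conv_lhs => rw [r.as_sum_range_C_mul_X_pow]
      rw [map_sum]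
      refine sum_congr rfl fun i _ => ?_
      simp [J]
    rw [h5, map_sum, hsum] at hφr
    simp only [hφm] at hφr
    exact hφr
  set k := r.natTrailingDegree with hk
  have hkn : k ≤ r.natDegree := natTrailingDegree_le_natDegree r
  refine ⟨r.natDegree - k, fun i => (r.coeff (k + i) : D), fun i => (r.coeff (k + i)).2, ?_, ?_⟩
  · intro h5
    have h6 : r.coeff k = 0 := Subtype.ext h5
    exact hr0 (trailingCoeff_eq_zero.1 h6)
  · have h5 : (∑ i ∈ range (r.natDegree - k + 1), (r.coeff (k + i) : D) * d * e ^ i) * e ^ k = 0 := by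
      rw [← hφr', sum_mul]
      have h6 : r.natDegree + 1 = k + (r.natDegree - k + 1) := by omega
      rw [h6, sum_range_add (fun i => (r.coeff i : D) * d * e ^ i) k]
      have h7 : ∑ i ∈ range k, (r.coeff i : D) * d * e ^ i = 0 := by
        apply sum_eq_zero
        intro i hi
        rw [coeff_eq_zero_of_lt_natTrailingDegree (mem_range.1 hi)]
        simp
      rw [h7, zero_add]
      refine sum_congr rfl fun i _ => ?_
      rw [mul_assoc, ← pow_add, add_comm i k]
    exact (mul_eq_zero.1 h5).resolve_right (pow_ne_zero _ he)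

end D7b

theorem h378_D7b : S_LF := by
  intro K _ _ T D _ A hB hE hN halg2 l ω d e hω hωF hd he he0
  -- the field `Z_l`
  let Z : Subfield K :=
    { carrier := {x | T.g l x = x ∧ x ∈ T.M l}
      mul_mem' := fun {a b} ha hb => ⟨by rw [map_mul, ha.1, hb.1], mul_mem ha.2 hb.2⟩
      one_mem' := ⟨map_one _, one_mem _⟩
      add_mem' := fun {a b} ha hb => ⟨by rw [map_add, ha.1, hb.1], add_mem ha.2 hb.2⟩
      zero_mem' := ⟨map_zero _, zero_mem _⟩
      neg_mem' := fun {a} ha => ⟨by rw [map_neg, ha.1], neg_mem ha.2⟩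
      inv_mem' := fun a ha => ⟨by rw [map_inv₀, ha.1], inv_mem ha.2⟩ }
  have hcen : ∀ x ∈ Z, ∀ y ∈ A.Dl l, A.ι x * y = y * A.ι x := fun x hx y hy =>
    hB.cen l x hx.1 y hy
  have hdD := hE.sub l hd
  have heD := hE.sub l he
  have hωD := hE.sub l hω
  -- linear dependence of the powers of `e`
  obtain ⟨N, b, _, _, hb⟩ := hE.basis l
  have hpow : ∀ i : ℕ, e ^ i ∈ A.El l := by
    intro i
    induction i with
    | zero =>
      rw [pow_zero]
      exact hE.one_mem l
    | succ i ih =>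
      rw [pow_succ]
      exact hE.mul_mem l _ _ ih he
  choose x hx hxe using fun i : ℕ => hb (e ^ i) (hpow i)
  obtain ⟨z, hz, hz0, hrel⟩ : ∃ z : ℕ → K, (∀ i, z i ∈ Z) ∧ (∃ i, i ≤ N ∧ z i ≠ 0) ∧
      ∑ i ∈ range (N + 1), A.ι (z i) * e ^ i = 0 := by
    let f : (Fin (N + 1) → Z) →ₗ[Z] (Fin N → Z) :=
      (Fintype.linearCombination Z (fun i : Fin (N + 1) => fun j : Fin N =>
        (⟨x i j, hx i j⟩ : Z)))
    have hker : LinearMap.ker f ≠ ⊥ := by
      apply LinearMap.ker_ne_bot_of_finrank_lt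
      simp
    obtain ⟨c, hc, hc0⟩ := (Submodule.ne_bot_iff _).1 hker
    have hc' : ∀ j, ∑ i, (c i : K) * x i j = 0 := by
      intro j
      have h1 := congrFun (LinearMap.mem_ker.1 hc) j
      rw [Fintype.linearCombination_apply, Finset.sum_apply] at h1
      have h2 := congrArg (Subfield.subtype Z) h1
      rw [map_sum] at h2
      exact h2
    obtain ⟨i₀, hi₀⟩ : ∃ i, c i ≠ 0 := by
      by_contra hne
      push Not at hne
      exact hc0 (funext hne)
    refine ⟨fun i => if h : i < N + 1 then (c ⟨i, h⟩ : K) else 0, ?_, ⟨i₀, by omega, ?_⟩, ?_⟩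
    · intro i
      by_cases h : i < N + 1
      · simp only [h, dif_pos]
        exact (c ⟨i, h⟩).2
      · simp only [h, dif_neg, not_false_iff]
        exact zero_mem _
    · simp only [i₀.2, dif_pos, Fin.eta]
      intro h
      exact hi₀ (Subtype.ext h)
    · rw [← Fin.sum_univ_eq_sum_range (fun i => A.ι (if h : i < N + 1 then (c ⟨i, h⟩ : K) else 0) *
        e ^ i) (N + 1)]
      have h1 : ∀ i : Fin (N + 1), A.ι (if h : (i : ℕ) < N + 1 then (c ⟨i, h⟩ : K) else 0) *
          e ^ (i : ℕ) = ∑ j, A.ι ((c i : K) * x i j) * b j := by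
        intro i
        simp only [i.2, dif_pos, Fin.eta]
        rw [hxe i, mul_sum]
        refine sum_congr rfl fun j _ => ?_
        rw [map_mul, mul_assoc]
      rw [sum_congr rfl fun i _ => h1 i, sum_comm]
      apply sum_eq_zero
      intro j _
      rw [← sum_mul, ← map_sum, hc', map_zero, zero_mul]
  set R₀ : Subring D :=
    Subring.closure ((A.ι '' ((fix T.g : Set K) ∩ (T.M l : Set K))) ∪ {ω}) with hR₀
  set L₀ : Subring D := Subring.closure ((A.ι '' (Z : Set K)) ∪ {ω}) with hL₀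
  have hle : R₀ ≤ L₀ := by
    apply Subring.closure_mono
    apply Set.union_subset_union_left
    apply Set.image_mono
    rintro y ⟨hy, hy2⟩
    exact ⟨hy l, hy2⟩
  have hcomm : ∀ x ∈ L₀, ∀ y ∈ L₀, x * y = y * x := by
    have h1 : ∀ x ∈ (A.ι '' (Z : Set K)) ∪ {ω}, ∀ y ∈ (A.ι '' (Z : Set K)) ∪ {ω},
        x * y = y * x := by
      rintro x (⟨x', hx', rfl⟩ | hx) y (⟨y', hy', rfl⟩ | hy)
      · rw [← map_mul, mul_comm, map_mul]
      · rw [Set.mem_singleton_iff] at hy
        rw [hy]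
        exact hcen x' hx' ω hωD
      · rw [Set.mem_singleton_iff] at hx
        rw [hx]
        exact (hcen y' hy' ω hωD).symm
      · rw [Set.mem_singleton_iff] at hx hy
        rw [hx, hy]
    have h2 := Subring.isMulCommutative_closure h1
    intro x hx y hy
    have h3 := h2.is_comm.comm (⟨x, hx⟩ : L₀) ⟨y, hy⟩
    exact congrArg Subtype.val h3
  obtain ⟨i₀, hi₀, hzi₀⟩ := hz0
  refine D7b.core R₀ L₀ hle hcomm N (fun i => A.ι (z i))
    (fun i => Subring.subset_closure (Or.inl ⟨z i, hz i, rfl⟩))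
    ⟨i₀, hi₀, fun h => hzi₀ ((map_eq_zero A.ι).1 h)⟩ ?_ d e he0 ?_
  · intro i
    obtain ⟨n, p, hp, hpn, hs⟩ := halg2 Pool.Agent.Run7.h324.DA.main_F3 K T D A hB hE hN l ω hω hωF
      (z i) (hz i).2 (hz i).1
    exact ⟨n, p, hp, hpn, hs⟩
  · have h1 : ∀ i, A.ι (z i) * d * e ^ i = d * (A.ι (z i) * e ^ i) := by
      intro i
      rw [hcen (z i) (hz i) d hdD, mul_assoc]
    simp only [h1]
    rw [← mul_sum, hrel, mul_zero]

end Pool.Agent.Run7.h937
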