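import Pool.Agent.Run7.h378.IfaceD

/-! MP_5766af_al, piece D9 (localisation). -/

noncomputable section

namespace Pool.Agent.Run7.h937

open Finset Pool.Agent.Run7.h378

theorem h378_D9 : S_B := by
  intro K _ _ T D _ A hB hE hN hLF halg2 S hFS ω hωS hωF
  set P : Subring D := Subring.closure (A.Fs ∪ {ω}) with hP
  have hPS : P ≤ S := by
    rw [hP, Subring.closure_le]
    rintro x (hx | hx)
    · exact hFS hx
    · rw [Set.mem_singleton_iff] at hx
      rw [hx]
      exact hωS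
  -- elements of `F` are central
  have hFc : ∀ f ∈ A.Fs, ∀ d : D, f * d = d * f := by
    rintro _ ⟨x, hx, rfl⟩ d
    obtain ⟨l, hl⟩ := hB.exh d
    exact hB.cen l x (hx l) d hl
  have hcomm : ∀ x ∈ P, ∀ y ∈ P, x * y = y * x := by
    have h1 : ∀ x ∈ A.Fs ∪ {ω}, ∀ y ∈ A.Fs ∪ {ω}, x * y = y * x := by
      rintro x (hx | hx) y hy
      · exact hFc x hx y
      · rcases hy with hy | hy
        · exact (hFc y hy x).symm
        · rw [Set.mem_singleton_iff] at hx hy
          rw [hx, hy]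
    have h2 := Subring.isMulCommutative_closure h1
    intro x hx y hy
    have h3 := h2.is_comm.comm (⟨x, hx⟩ : P) ⟨y, hy⟩
    exact congrArg Subtype.val h3
  have hLF' : ∀ d e : D, d ∈ S → e ∈ S → e ≠ 0 → ∃ p₀ ∈ P, p₀ ≠ 0 ∧ p₀ * d * e⁻¹ ∈ S := by
    intro d e hd he he0
    obtain ⟨l₁, h1⟩ := hE.exh ω
    obtain ⟨l₂, h2⟩ := hE.exh d
    obtain ⟨l₃, h3⟩ := hE.exh e
    have hmono : Monotone A.El := monotone_nat_of_le_succ hE.mono
    set l := max l₁ (max l₂ l₃) with hl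
    obtain ⟨n, p, hp, hp0, hsum⟩ := hLF K T D A hB hE hN halg2 l ω d e
      (hmono (le_max_left _ _) h1) hωF
      (hmono ((le_max_left _ _).trans (le_max_right _ _)) h2)
      (hmono ((le_max_right _ _).trans (le_max_right _ _)) h3) he0
    have hpP : ∀ i, p i ∈ P := by
      intro i
      refine Subring.closure_mono ?_ (hp i)
      apply Set.union_subset_union_left
      rintro _ ⟨x, hx, rfl⟩
      exact ⟨x, hx.1, rfl⟩
    refine ⟨p 0, hpP 0, hp0, ?_⟩
    rw [sum_range_succ'] at hsum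
    have h4 : p 0 * d = -∑ i ∈ range n, p (i + 1) * d * e ^ (i + 1) := by
      have h5 := eq_neg_of_add_eq_zero_right hsum
      simpa using h5
    rw [h4, neg_mul, sum_mul]
    apply S.neg_mem
    apply S.sum_mem
    intro i _
    rw [pow_succ, mul_assoc, mul_assoc (e ^ i), mul_inv_cancel₀ he0, mul_one]
    exact S.mul_mem (S.mul_mem (hPS (hpP _)) hd) (S.pow_mem he i)
  refine ⟨{ carrier := {d | ∃ p ∈ P, p ≠ 0 ∧ p * d ∈ S}
            mul_mem' := ?_
            one_mem' := ⟨1, P.one_mem, one_ne_zero, by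
              rw [mul_one]
              exact S.one_mem⟩
            add_mem' := ?_
            zero_mem' := ⟨1, P.one_mem, one_ne_zero, by
              rw [mul_zero]
              exact S.zero_mem⟩
            neg_mem' := ?_ }, ?_, fun d => Iff.rfl⟩
  · rintro d d' ⟨p, hp, hp0, hpd⟩ ⟨p', hp', hp0', hpd'⟩
    obtain ⟨p₀, h1, h2, h3⟩ := hLF' (p * d) p' hpd (hPS hp') hp0'
    refine ⟨p₀ * p, P.mul_mem h1 hp, mul_ne_zero h2 hp0, ?_⟩
    have h4 : p₀ * p * (d * d') = p₀ * (p * d) * p'⁻¹ * (p' * d') := by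
      rw [mul_assoc _ p'⁻¹, ← mul_assoc p'⁻¹, inv_mul_cancel₀ hp0', one_mul]
      simp only [mul_assoc]
    rw [h4]
    exact S.mul_mem h3 hpd'
  · rintro d d' ⟨p, hp, hp0, hpd⟩ ⟨p', hp', hp0', hpd'⟩
    refine ⟨p * p', P.mul_mem hp hp', mul_ne_zero hp0 hp0', ?_⟩
    rw [mul_add]
    apply S.add_mem
    · rw [hcomm p hp p' hp', mul_assoc]
      exact S.mul_mem (hPS hp') hpd
    · rw [mul_assoc]
      exact S.mul_mem (hPS hp) hpd'
  · rintro d ⟨p, hp, hp0, hpd⟩
    refine ⟨p, hp, hp0, ?_⟩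
    rw [mul_neg]
    exact S.neg_mem hpd
  · rintro d ⟨p, hp, hp0, hpd⟩
    by_cases hd : d = 0
    · rw [hd, inv_zero]
      exact ⟨1, P.one_mem, one_ne_zero, by
              rw [mul_zero]
              exact S.zero_mem⟩
    · have h0 : p * d ≠ 0 := mul_ne_zero hp0 hd
      obtain ⟨p₀, h1, h2, h3⟩ := hLF' 1 (p * d) S.one_mem hpd h0
      refine ⟨p₀, h1, h2, ?_⟩
      have h4 : p₀ * d⁻¹ = p₀ * 1 * (p * d)⁻¹ * p := by
        rw [mul_one, mul_inv_rev, mul_assoc, mul_assoc, inv_mul_cancel₀ hp0, mul_one]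
      rw [h4]
      exact S.mul_mem h3 (hPS hp)

end Pool.Agent.Run7.h937
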